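import Mathlib

/-! Uniform averages over finite types (helper file for MP_621e06_co). -/

namespace Pool.Agent.Helper38.Stretch

open Finset

noncomputable section

/-- uniform average over a finite type -/
def avg {α : Type*} [Fintype α] (f : α → ℝ) : ℝ := (∑ a, f a) / (Fintype.card α : ℝ)

section basic

variable {α β ι : Type*} [Fintype α] [Fintype β]

lemma avg_nonneg {f : α → ℝ} (h : ∀ a, 0 ≤ f a) : 0 ≤ avg f :=
  div_nonneg (Finset.sum_nonneg fun a _ => h a) (Nat.cast_nonneg _)

lemma avg_mono {f g : α → ℝ} (h : ∀ a, f a ≤ g a) : avg f ≤ avg g :=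
  div_le_div_of_nonneg_right (Finset.sum_le_sum fun a _ => h a) (Nat.cast_nonneg _)

lemma avg_const [Nonempty α] (c : ℝ) : avg (fun _ : α => c) = c := by
  have : (Fintype.card α : ℝ) ≠ 0 := by exact_mod_cast Fintype.card_ne_zero
  simp [avg, this]

lemma avg_congr {f g : α → ℝ} (h : ∀ a, f a = g a) : avg f = avg g := by
  have : f = g := funext h
  rw [this]

lemma avg_add (f g : α → ℝ) : avg (fun a => f a + g a) = avg f + avg g := by
  simp [avg, Finset.sum_add_distrib, add_div]

lemma avg_sub (f g : α → ℝ) : avg (fun a => f a - g a) = avg f - avg g := by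
  simp [avg, Finset.sum_sub_distrib, sub_div]

lemma avg_mul_left (c : ℝ) (f : α → ℝ) : avg (fun a => c * f a) = c * avg f := by
  simp [avg, ← Finset.mul_sum, mul_div_assoc]

lemma avg_mul_right (f : α → ℝ) (c : ℝ) : avg (fun a => f a * c) = avg f * c := by
  simp [avg, ← Finset.sum_mul, mul_div_right_comm]

lemma avg_sum (s : Finset ι) (f : ι → α → ℝ) :
    avg (fun a => ∑ i ∈ s, f i a) = ∑ i ∈ s, avg (f i) := by
  unfold avg
  rw [Finset.sum_comm, Finset.sum_div]

lemma avg_comm (f : α → β → ℝ) :
    avg (fun a => avg (f a)) = avg (fun b => avg (fun a => f a b)) := by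
  unfold avg
  simp only [← Finset.sum_div]
  rw [Finset.sum_comm, div_div, div_div, mul_comm]

lemma avg_prod (f : α × β → ℝ) : avg f = avg (fun a => avg fun b => f (a, b)) := by
  unfold avg
  simp only [← Finset.sum_div]
  rw [Fintype.sum_prod_type, div_div, Fintype.card_prod, Nat.cast_mul, mul_comm]

lemma avg_equiv (e : α ≃ β) (f : β → ℝ) : avg (fun a => f (e a)) = avg f := by
  unfold avg
  rw [Equiv.sum_comp e f, Fintype.card_congr e]

lemma avg_le_of_le [Nonempty α] {f : α → ℝ} {c : ℝ} (h : ∀ a, f a ≤ c) : avg f ≤ c := by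
  rw [← avg_const (α := α) c]
  exact avg_mono h

lemma le_avg_of_le [Nonempty α] {f : α → ℝ} {c : ℝ} (h : ∀ a, c ≤ f a) : c ≤ avg f := by
  rw [← avg_const (α := α) c]
  exact avg_mono h

lemma exists_le_avg [Nonempty α] (f : α → ℝ) : ∃ a, f a ≤ avg f := by
  by_contra hcon
  push Not at hcon
  have hpos : (0 : ℝ) < Fintype.card α := by exact_mod_cast Fintype.card_pos
  have h1 : ∑ _a : α, avg f < ∑ a, f a :=
    Finset.sum_lt_sum_of_nonempty Finset.univ_nonempty (fun a _ => hcon a)
  have h2 : ∑ _a : α, avg f = ∑ a, f a := by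
    simp only [Finset.sum_const, Finset.card_univ, nsmul_eq_mul, avg]
    field_simp
  linarith

lemma sum_eq_card_mul_avg [Nonempty α] (f : α → ℝ) :
    ∑ a, f a = (Fintype.card α : ℝ) * avg f := by
  have : (Fintype.card α : ℝ) ≠ 0 := by exact_mod_cast Fintype.card_ne_zero
  unfold avg
  field_simp

/-- Cauchy–Schwarz -/
lemma avg_cauchy (f g : α → ℝ) :
    avg (fun a => f a * g a) ^ 2 ≤ avg (fun a => f a ^ 2) * avg (fun a => g a ^ 2) := by
  unfold avg
  rw [div_pow, div_mul_div_comm, ← sq]
  gcongr
  exact Finset.sum_mul_sq_le_sq_mul_sq _ _ _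

lemma avg_cauchy_sqrt (f g : α → ℝ) :
    avg (fun a => f a * g a) ≤ √(avg (fun a => f a ^ 2)) * √(avg (fun a => g a ^ 2)) := by
  rw [← Real.sqrt_mul (avg_nonneg fun a => sq_nonneg _)]
  exact Real.le_sqrt_of_sq_le (avg_cauchy f g)

end basic

section pi

variable {ι α : Type*} [Fintype ι] [DecidableEq ι] [Fintype α]

lemma sum_update (i : ι) (f : (ι → α) → ℝ) :
    ∑ u, ∑ a, f (Function.update u i a) = (Fintype.card α : ℝ) * ∑ u, f u := by
  classical
  have h : ∑ u : ι → α, ∑ a, f (Function.update u i a)
      = ∑ p : (ι → α) × α, f (Function.update p.1 i p.2) := by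
    rw [Fintype.sum_prod_type]
  have h2 : ∑ p : (ι → α) × α, f (Function.update p.1 i p.2)
      = ∑ p : (ι → α) × α, f p.1 := by
    let e : (ι → α) × α ≃ (ι → α) × α :=
      { toFun := fun p => (Function.update p.1 i p.2, p.1 i)
        invFun := fun p => (Function.update p.1 i p.2, p.1 i)
        left_inv := fun p => by simp
        right_inv := fun p => by simp }
    exact Fintype.sum_equiv e _ _ (fun p => rfl)
  rw [h, h2, Fintype.sum_prod_type]
  simp [Finset.mul_sum]

lemma avg_update [Nonempty α] (i : ι) (f : (ι → α) → ℝ) :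
    avg (fun u => avg fun a => f (Function.update u i a)) = avg f := by
  have hα : (Fintype.card α : ℝ) ≠ 0 := by exact_mod_cast Fintype.card_ne_zero
  unfold avg
  rw [← Finset.sum_div, sum_update]
  field_simp

lemma avg_pi_prod (f : ι → α → ℝ) :
    avg (fun u : ι → α => ∏ i, f i (u i)) = ∏ i, avg (f i) := by
  unfold avg
  rw [Finset.prod_div_distrib]
  congr 1
  · rw [Finset.prod_univ_sum]
    simp
  · simp

/-- evaluation at one coordinate -/
lemma avg_eval [Nonempty α] (i : ι) (f : α → ℝ) :
    avg (fun u : ι → α => f (u i)) = avg f := by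
  have h := avg_pi_prod (ι := ι) (α := α) (fun j => if j = i then f else fun _ => 1)
  have h1 : ∀ u : ι → α, ∏ j, (if j = i then f else fun _ => (1:ℝ)) (u j) = f (u i) := by
    intro u
    rw [Finset.prod_eq_single i]
    · simp
    · intro b _ hb; simp [hb]
    · intro hh; exact absurd (Finset.mem_univ _) hh
  simp only [h1] at h
  rw [h, Finset.prod_eq_single i]
  · simp
  · intro b _ hb
    simp only [hb, if_false]
    exact avg_const 1
  · intro hh; exact absurd (Finset.mem_univ _) hh

end pi

section inj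

variable {κ D V : Type*} [Fintype κ] [Fintype D] [Fintype V] [DecidableEq κ] [DecidableEq D]

/-- restricting a uniform random function along an injection gives a uniform random function -/
lemma avg_comp_injective [Nonempty V] (e : κ → D) (he : Function.Injective e)
    (f : (κ → V) → ℝ) :
    avg (fun W : D → V => f (fun k => W (e k))) = avg f := by
  classical
  let E : κ ⊕ {d : D // d ∉ Set.range e} ≃ D :=
    (Equiv.sumCongr (Equiv.ofInjective e he) (Equiv.refl _)).trans
      (Equiv.Set.sumCompl (Set.range e))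
  have hE : ∀ k, E (Sum.inl k) = e k := by
    intro k
    simp only [E, Equiv.trans_apply, Equiv.sumCongr_apply, Sum.map_inl, Equiv.ofInjective_apply]
    rfl
  have h1 : avg (fun W : D → V => f (fun k => W (e k)))
      = avg (fun W : κ ⊕ {d : D // d ∉ Set.range e} → V => f (fun k => W (Sum.inl k))) := by
    rw [← avg_equiv (Equiv.arrowCongr E (Equiv.refl V))]
    apply avg_congr
    intro W
    congr 1
    funext k
    simp [Equiv.arrowCongr, ← hE]
  have h2 : avg (fun W : κ ⊕ {d : D // d ∉ Set.range e} → V => f (fun k => W (Sum.inl k)))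
      = avg (fun p : (κ → V) × ({d : D // d ∉ Set.range e} → V) => f p.1) := by
    rw [← avg_equiv (Equiv.sumArrowEquivProdArrow κ {d : D // d ∉ Set.range e} V)]
    apply avg_congr
    intro W
    rfl
  rw [h1, h2, avg_prod]
  apply avg_congr
  intro g
  exact avg_const (α := {d : D // d ∉ Set.range e} → V) (f g)

end inj

end

end Pool.Agent.Helper38.Stretch
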