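import Pool.Agent.Helper38.Stretch.Avg

/-! Random balls (module M11).

`Phi S v = #{i | v i ≠ 0, i ∉ S} - #{i | v i ≠ 0, i ∈ S}`. Adding a ball at `b` changes `Phi` by `±1` and
by `+1` unless `b ∈ S` or `v b ≠ 0`. Induct over the set of balls with `avg_update`. -/

namespace Pool.Agent.Helper38.Stretch

open Finset

noncomputable section

/-- potential -/
def Phi {n : ℕ} (S : Finset (Fin n)) (v : Fin n → ZMod 2) : ℤ :=
  ∑ i, if v i = 0 then 0 else if i ∈ S then -1 else 1

lemma zmod2_cases (z : ZMod 2) : z = 0 ∨ z = 1 := by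
  revert z; decide

lemma Phi_add_single {n : ℕ} (S : Finset (Fin n)) (v : Fin n → ZMod 2) (j : Fin n) :
    Phi S v - 1 ≤ Phi S (v + Pi.single j 1) ∧
    (j ∉ S → v j = 0 → Phi S v + 1 ≤ Phi S (v + Pi.single j 1)) := by
  have e0 : ∀ w : Fin n → ZMod 2, Phi S w = (if w j = 0 then (0 : ℤ) else if j ∈ S then -1 else 1) +
      ∑ i ∈ Finset.univ.erase j, (if w i = 0 then (0 : ℤ) else if i ∈ S then -1 else 1) := by
    intro w
    unfold Phi
    rw [Finset.add_sum_erase _ (fun i => if w i = 0 then (0 : ℤ)
      else if i ∈ S then -1 else 1) (Finset.mem_univ j)]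
  have e1 := e0 v
  have e2 := e0 (v + Pi.single j 1)
  rw [e1, e2]
  have hrest : ∑ i ∈ Finset.univ.erase j, (if (v + Pi.single j 1 : Fin n → ZMod 2) i = 0 then (0 : ℤ)
      else if i ∈ S then -1 else 1) = ∑ i ∈ Finset.univ.erase j, (if v i = 0 then (0 : ℤ)
      else if i ∈ S then -1 else 1) := by
    apply Finset.sum_congr rfl
    intro i hi
    have : (v + Pi.single j 1 : Fin n → ZMod 2) i = v i := by
      rw [Pi.add_apply, Pi.single_eq_of_ne (Finset.ne_of_mem_erase hi), add_zero]
    rw [this]
  rw [hrest]
  have hj : (v + Pi.single j 1 : Fin n → ZMod 2) j = v j + 1 := by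
    rw [Pi.add_apply, Pi.single_eq_same]
  rw [hj]
  rcases zmod2_cases (v j) with h | h
  · rw [h]
    have h1 : ((0 : ZMod 2) + 1 = 0) ↔ False := by decide
    simp only [if_true, h1, if_false]
    constructor
    · split_ifs <;> omega
    · intro hS _
      rw [if_neg hS]
      omega
  · rw [h]
    have h1 : ((1 : ZMod 2) + 1 = 0) ↔ True := by decide
    have h2 : ((1 : ZMod 2) = 0) ↔ False := by decide
    simp only [if_true, h1, h2, if_false]
    constructor
    · split_ifs <;> omega
    · intro _ hf
      exact hf.elim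

theorem balls {n l : ℕ} {β : Type*} [Fintype β] [DecidableEq β] (hl : 0 < l)
    (e : Fin l → Fin n) (he : Function.Injective e) (S : Finset (Fin n)) (v0 : Fin n → ZMod 2)
    (B : Finset β) (q lam : ℝ) (hlam : 1 ≤ lam) (hq : 0 ≤ q)
    (hbad : ((#{i | e i ∈ S} : ℝ) + #{i | v0 (e i) ≠ 0} + #B) ≤ q * l) :
    avg (fun f : β → Fin l => lam ^ (-(Phi S (v0 + ∑ b ∈ B, Pi.single (e (f b)) 1))))
      ≤ lam ^ (-(Phi S v0)) * (lam⁻¹ + q * lam) ^ #B := by
  have hne : Nonempty (Fin l) := ⟨⟨0, hl⟩⟩
  have hl' : (0 : ℝ) < l := by exact_mod_cast hl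
  have hlam0 : 0 < lam := by linarith
  induction B using Finset.induction_on with
  | empty =>
    simp only [Finset.sum_empty, add_zero, Finset.card_empty, pow_zero, mul_one]
    rw [avg_const]
  | insert b B hb ih =>
    rw [Finset.card_insert_of_notMem hb] at hbad ⊢
    have hbad' : ((#{i | e i ∈ S} : ℝ) + #{i | v0 (e i) ≠ 0} + #B) ≤ q * l := by
      push_cast at hbad
      linarith
    have ih' := ih hbad'
    rw [← avg_update b]
    have hstep : ∀ f : β → Fin l, avg (fun a : Fin l => lam ^ (-(Phi S (v0 + ∑ c ∈ insert b B,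
        Pi.single (e ((Function.update f b a) c)) 1)))) ≤
        lam ^ (-(Phi S (v0 + ∑ c ∈ B, Pi.single (e (f c)) 1))) * (lam⁻¹ + q * lam) := by
      intro f
      set v : Fin n → ZMod 2 := v0 + ∑ c ∈ B, Pi.single (e (f c)) 1 with hv
      have hval : ∀ a : Fin l, v0 + ∑ c ∈ insert b B, Pi.single (e ((Function.update f b a) c)) 1 =
          v + Pi.single (e a) (1 : ZMod 2) := by
        intro a
        rw [Finset.sum_insert hb, Function.update_self]
        have : ∑ c ∈ B, (Pi.single (e ((Function.update f b a) c)) 1 : Fin n → ZMod 2) =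
            ∑ c ∈ B, Pi.single (e (f c)) 1 := by
          apply Finset.sum_congr rfl
          intro c hc
          rw [Function.update_of_ne (by rintro rfl; exact hb hc)]
        rw [this, hv]
        abel
      simp only [hval]
      -- pointwise
      have hpt : ∀ a : Fin l, lam ^ (-(Phi S (v + Pi.single (e a) 1))) ≤
          lam ^ (-(Phi S v)) * (lam⁻¹ + if (e a ∈ S ∨ v (e a) ≠ 0) then lam else 0) := by
        intro a
        obtain ⟨h1, h2⟩ := Phi_add_single S v (e a)
        have hpos : 0 < lam ^ (-(Phi S v)) := by positivity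
        by_cases hc : e a ∈ S ∨ v (e a) ≠ 0
        · rw [if_pos hc]
          calc lam ^ (-(Phi S (v + Pi.single (e a) 1))) ≤ lam ^ (-(Phi S v) + 1) :=
                zpow_le_zpow_right₀ hlam (by omega)
            _ = lam ^ (-(Phi S v)) * lam := by rw [zpow_add_one₀ hlam0.ne']
            _ ≤ lam ^ (-(Phi S v)) * (lam⁻¹ + lam) := by
                apply mul_le_mul_of_nonneg_left _ hpos.le
                have : 0 < lam⁻¹ := inv_pos.2 hlam0
                linarith
        · push Not at hc
          rw [if_neg (by push Not; exact hc), add_zero]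
          have h3 := h2 hc.1 hc.2
          calc lam ^ (-(Phi S (v + Pi.single (e a) 1))) ≤ lam ^ (-(Phi S v) - 1) :=
                zpow_le_zpow_right₀ hlam (by omega)
            _ = lam ^ (-(Phi S v)) * lam⁻¹ := by rw [zpow_sub_one₀ hlam0.ne']
      refine le_trans (avg_mono hpt) ?_
      rw [avg_mul_left, avg_add, avg_const]
      apply mul_le_mul_of_nonneg_left _ (by positivity)
      apply add_le_add_right
      -- count of bad positions
      have hcount : (#{a : Fin l | e a ∈ S ∨ v (e a) ≠ 0} : ℝ) ≤ q * l := by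
        have h1 : #{a : Fin l | e a ∈ S ∨ v (e a) ≠ 0} ≤
            #{i | e i ∈ S} + #{i | v0 (e i) ≠ 0} + #B := by
          have hsub : ({a : Fin l | e a ∈ S ∨ v (e a) ≠ 0} : Finset (Fin l)) ⊆
              (({i | e i ∈ S} : Finset (Fin l)) ∪ ({i | v0 (e i) ≠ 0} : Finset (Fin l)))
                ∪ B.image f := by
            intro a ha
            simp only [Finset.mem_filter, Finset.mem_univ, true_and, Finset.mem_union,
              Finset.mem_image] at ha ⊢
            by_contra hcon
            push Not at hcon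
            obtain ⟨⟨hS, hv0⟩, hB⟩ := hcon
            rcases ha with h | h
            · exact hS h
            · apply h
              rw [hv, Pi.add_apply, hv0, zero_add, Finset.sum_apply]
              apply Finset.sum_eq_zero
              intro c hc
              rw [Pi.single_eq_of_ne]
              intro h4
              exact hB c hc (he h4).symm
          calc _ ≤ _ := Finset.card_le_card hsub
            _ ≤ _ := Finset.card_union_le _ _
            _ ≤ _ := add_le_add (Finset.card_union_le _ _) Finset.card_image_le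
        have h2 : (#{a : Fin l | e a ∈ S ∨ v (e a) ≠ 0} : ℝ) ≤
            #{i | e i ∈ S} + #{i | v0 (e i) ≠ 0} + #B := by exact_mod_cast h1
        linarith
      unfold avg
      rw [← Finset.sum_filter, Finset.sum_const, nsmul_eq_mul, Fintype.card_fin,
        div_le_iff₀ hl']
      calc (#{a : Fin l | e a ∈ S ∨ v (e a) ≠ 0} : ℝ) * lam ≤ q * l * lam :=
            mul_le_mul_of_nonneg_right hcount hlam0.le
        _ = q * lam * l := by ring
    refine le_trans (avg_mono hstep) ?_
    rw [avg_mul_right]
    calc _ ≤ lam ^ (-(Phi S v0)) * (lam⁻¹ + q * lam) ^ #B * (lam⁻¹ + q * lam) :=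
          mul_le_mul_of_nonneg_right ih' (by positivity)
      _ = _ := by rw [pow_succ]; ring

end

end Pool.Agent.Helper38.Stretch
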