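import Pool.Agent.Helper38.Stretch.Transfer

/-! Bound for the total jump size (module M5, final part). -/

namespace Pool.Agent.Helper38.Stretch

open Finset

noncomputable section

variable {N M : ℕ} {T : (Fin N → Fin M) → (Fin N → Bool)}

/-- the constant in the bound of the total jump size -/
def CJ : ℝ := 200 * (3136 + ∑' k : ℕ, (k : ℝ) ^ 2 * (9 / 10 : ℝ) ^ k)

lemma summ_aux : Summable (fun k : ℕ => (k : ℝ) ^ 2 * (9 / 10 : ℝ) ^ k) :=
  summable_pow_mul_geometric_of_norm_lt_one 2 (by norm_num [abs_of_pos])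

lemma CJ_pos : 0 < CJ := by
  unfold CJ
  have : 0 ≤ ∑' k : ℕ, (k : ℝ) ^ 2 * (9 / 10 : ℝ) ^ k := tsum_nonneg fun k => by positivity
  linarith

/-- averaged entropy inequality -/
lemma Mono.entropy_avg (hT : Mono T) (hM : 0 < M) (hN : 1 ≤ N)
    (hbal : ∀ y, (#{u | T u = y} : ℝ) ≤ 5 / 4 * (M : ℝ) ^ N / 2 ^ (N - 1))
    (τ : Fin N → (Fin N → Fin M) → ℕ)
    (hτ : ∑ u, ∑ j, (Real.log (chord T j u) + |(chord T j u : ℝ) - τ j u| / (2 * M)) ≤
        ∑ u, Real.log (#{v | T v = T u})) :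
    (∑ j, avg (fun u => wid T j u ^ 2)) / 6 +
      (∑ j, avg (fun u => |(chord T j u : ℝ) - τ j u| / M)) / 2 ≤ 1 := by
  have hne : Nonempty (Fin M) := ⟨⟨0, hM⟩⟩
  have hM' : (0 : ℝ) < M := by exact_mod_cast hM
  have hchord : ∀ j u, (0 : ℝ) < chord T j u := by
    intro j u
    have : 0 < chord T j u := by
      have h1 := hT.rr_le_chord u j
      have h2 := (u j).2
      unfold rr at h1
      split_ifs at h1 <;> omega
    exact_mod_cast this
  -- right-hand side
  have hR : ∑ u, Real.log (#{v | T v = T u}) ≤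
      ∑ _u : Fin N → Fin M, Real.log (5 / 4 * (M : ℝ) ^ N / 2 ^ (N - 1)) := by
    apply Finset.sum_le_sum
    intro u _
    apply Real.log_le_log _ (hbal _)
    have : 0 < #{v | T v = T u} := Finset.card_pos.2 ⟨u, by simp⟩
    exact_mod_cast this
  have hA : avg (fun u => ∑ j, (Real.log (chord T j u) +
      |(chord T j u : ℝ) - τ j u| / (2 * M))) ≤
      Real.log (5 / 4 * (M : ℝ) ^ N / 2 ^ (N - 1)) := by
    rw [← avg_const (α := Fin N → Fin M) (Real.log (5 / 4 * (M : ℝ) ^ N / 2 ^ (N - 1)))]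
    exact div_le_div_of_nonneg_right (hτ.trans hR) (Nat.cast_nonneg _)
  have hL : avg (fun u => ∑ j, (Real.log (chord T j u) +
      |(chord T j u : ℝ) - τ j u| / (2 * M))) =
      ∑ j, (avg (fun u => Real.log (2 * chord T j u / M)) + (Real.log M - Real.log 2) +
        avg (fun u => |(chord T j u : ℝ) - τ j u| / M) / 2) := by
    rw [avg_sum]
    apply Finset.sum_congr rfl
    intro j _
    rw [avg_add]
    congr 1
    · rw [← avg_const (α := Fin N → Fin M) (Real.log M - Real.log 2), ← avg_add]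
      apply avg_congr
      intro u
      have h1 := hchord j u
      rw [Real.log_div (by positivity) (by positivity), Real.log_mul (by norm_num) (by positivity)]
      ring
    · rw [div_eq_mul_inv, ← avg_mul_right]
      apply avg_congr
      intro u
      field_simp
  rw [hL] at hA
  have hlog : Real.log (5 / 4 * (M : ℝ) ^ N / 2 ^ (N - 1)) =
      Real.log (5 / 4) + N * Real.log M - ((N : ℝ) - 1) * Real.log 2 := by
    rw [Real.log_div (by positivity) (by positivity), Real.log_mul (by norm_num) (by positivity),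
      Real.log_pow, Real.log_pow, Nat.cast_sub hN]
    simp
  rw [hlog, Finset.sum_add_distrib, Finset.sum_add_distrib, Finset.sum_const, Finset.card_univ,
    Fintype.card_fin, nsmul_eq_mul, ← Finset.sum_div] at hA
  have hsum : (∑ j, avg (fun u => wid T j u ^ 2)) / 6 ≤
      ∑ j, avg (fun u => Real.log (2 * chord T j u / M)) := by
    rw [Finset.sum_div]
    exact Finset.sum_le_sum fun j _ => hT.avg_log_chord hM j
  have h52 : Real.log (5 / 4) + Real.log 2 ≤ 1 := by
    rw [← Real.log_mul (by norm_num) (by norm_num)]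
    rw [Real.log_le_iff_le_exp (by norm_num)]
    have := Real.exp_one_gt_d9
    norm_num
    linarith
  nlinarith

/-- the local cost -/
def cst (T : (Fin N → Fin M) → (Fin N → Bool)) (τ : Fin N → (Fin N → Fin M) → ℕ) (j : Fin N)
    (u : Fin N → Fin M) : ℝ :=
  min 1 (|(chord T j u : ℝ) - τ j u| / M) + (if 1 / 4 < wid T j u then 1 else 0)

lemma cst_nonneg (τ : Fin N → (Fin N → Fin M) → ℕ) (j : Fin N) (u : Fin N → Fin M) :
    0 ≤ cst T τ j u := by
  unfold cst
  have h1 : (0 : ℝ) ≤ min 1 (|(chord T j u : ℝ) - τ j u| / M) := by positivity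
  have h2 : (0 : ℝ) ≤ (if 1 / 4 < wid T j u then 1 else 0) := by split_ifs <;> norm_num
  linarith

lemma cst_le (τ : Fin N → (Fin N → Fin M) → ℕ) (j : Fin N) (u : Fin N → Fin M) :
    cst T τ j u ≤ 2 := by
  unfold cst
  have h1 : min 1 (|(chord T j u : ℝ) - τ j u| / M) ≤ 1 := min_le_left _ _
  have h2 : (if 1 / 4 < wid T j u then (1 : ℝ) else 0) ≤ 1 := by split_ifs <;> norm_num
  linarith

/-- number of directions where the chord index is close to the median -/
def nx (T : (Fin N → Fin M) → (Fin N → Bool)) (τ : Fin N → (Fin N → Fin M) → ℕ) (x : ℝ)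
    (u : Fin N → Fin M) : ℕ :=
  #{j | |(rr T j u : ℝ) - τ j u| ≤ x ∧ (M : ℝ) / 4 ≤ τ j u}

lemma Mono.Nd_sq_le (hT : Mono T) {Z : ℕ} (hN : 1 ≤ N) (hZ : 1 ≤ Z) (hM : M = 200 * N * Z)
    (τ : Fin N → (Fin N → Fin M) → ℕ) (u : Fin N → Fin M) :
    (Nd T Z u : ℝ) ^ 2 ≤ 400 * N * ∑ j, (if chord T j u ≤ rr T j u + Z then cst T τ j u else 0)
      + ∑ k ∈ Icc 1 N, (k : ℝ) ^ 2 * ((2 : ℝ) ^ nx T τ (2 * k * Z) u / (√2) ^ k) := by
  have hM0 : 0 < M := by rw [hM]; positivity
  have hM' : (0 : ℝ) < M := by exact_mod_cast hM0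
  have hMr : (M : ℝ) = 200 * N * Z := by rw [hM]; push_cast; ring
  have hN' : (1 : ℝ) ≤ N := by exact_mod_cast hN
  have hZ' : (1 : ℝ) ≤ Z := by exact_mod_cast hZ
  set k := Nd T Z u with hk
  have hfirst : 0 ≤ ∑ j, (if chord T j u ≤ rr T j u + Z then cst T τ j u else 0) :=
    Finset.sum_nonneg fun j _ => by split_ifs; exact cst_nonneg _ _ _; exact le_rfl
  have hsecond : ∀ k ∈ Icc 1 N, 0 ≤ (k : ℝ) ^ 2 * ((2 : ℝ) ^ nx T τ (2 * k * Z) u / (√2) ^ k) :=
    fun k _ => by positivity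
  rcases Nat.eq_zero_or_pos k with hk0 | hkpos
  · rw [hk0]
    have := Finset.sum_nonneg hsecond
    have h2 : 0 ≤ 400 * (N : ℝ) * ∑ j, (if chord T j u ≤ rr T j u + Z then cst T τ j u else 0) := by
      positivity
    simp only [Nat.cast_zero, ne_eq, OfNat.ofNat_ne_zero, not_false_eq_true, zero_pow]
    linarith
  have hkN : k ≤ N := by
    rw [hk]; unfold Nd
    exact (Finset.card_filter_le _ _).trans (by simp)
  have hkN' : (k : ℝ) ≤ N := by exact_mod_cast hkN
  have hk1 : (1 : ℝ) ≤ k := by exact_mod_cast hkpos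
  by_cases hcase : k ≤ 2 * nx T τ (2 * k * Z) u
  · have h1 : (1 : ℝ) ≤ (2 : ℝ) ^ nx T τ (2 * k * Z) u / (√2) ^ k := by
      rw [one_le_div (by positivity)]
      calc (√2 : ℝ) ^ k ≤ (√2) ^ (2 * nx T τ (2 * k * Z) u) :=
            pow_le_pow_right₀ (by rw [Real.one_le_sqrt]; norm_num) hcase
        _ = _ := by rw [pow_mul, Real.sq_sqrt (by norm_num)]
    have h2 : (k : ℝ) ^ 2 * ((2 : ℝ) ^ nx T τ (2 * k * Z) u / (√2) ^ k) ≤
        ∑ k ∈ Icc 1 N, (k : ℝ) ^ 2 * ((2 : ℝ) ^ nx T τ (2 * k * Z) u / (√2) ^ k) :=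
      Finset.single_le_sum (f := fun k : ℕ => (k : ℝ) ^ 2 *
        ((2 : ℝ) ^ nx T τ (2 * k * Z) u / (√2) ^ k)) hsecond (Finset.mem_Icc.2 ⟨hkpos, hkN⟩)
    have h3 : 0 ≤ 400 * (N : ℝ) * ∑ j, (if chord T j u ≤ rr T j u + Z then cst T τ j u else 0) := by
      positivity
    nlinarith [sq_nonneg (k : ℝ)]
  · push Not at hcase
    have h2 := Finset.sum_nonneg hsecond
    -- many directions of large cost
    set D : Finset (Fin N) := {j | chord T j u ≤ rr T j u + Z} with hD
    have hDk : #D = k := rfl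
    set D1 : Finset (Fin N) := {j | |(rr T j u : ℝ) - τ j u| ≤ 2 * k * Z ∧ (M : ℝ) / 4 ≤ τ j u}
      with hD1
    have hD1k : 2 * #D1 < k := hcase
    have hD2 : (k : ℝ) / 2 ≤ #(D \ D1) := by
      have h3 := Finset.le_card_sdiff D1 D
      have h4 : k ≤ 2 * #(D \ D1) := by omega
      have : (k : ℝ) ≤ 2 * #(D \ D1) := by exact_mod_cast h4
      linarith
    have hc : ∀ j ∈ D \ D1, (k : ℝ) / (200 * N) ≤ cst T τ j u := by
      intro j hj
      rw [Finset.mem_sdiff] at hj
      obtain ⟨hjD, hjD1⟩ := hj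
      simp only [hD, Finset.mem_filter, Finset.mem_univ, true_and] at hjD
      simp only [hD1, Finset.mem_filter, Finset.mem_univ, true_and, not_and, not_le] at hjD1
      have hkN1 : (k : ℝ) / (200 * N) ≤ 1 := by
        rw [div_le_one (by positivity)]; nlinarith
      by_contra hlt
      push Not at hlt
      unfold cst at hlt
      have hwid : wid T j u ≤ 1 / 4 := by
        by_contra hw
        push Not at hw
        rw [if_pos hw] at hlt
        have : (0 : ℝ) ≤ min 1 (|(chord T j u : ℝ) - τ j u| / M) := by positivity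
        linarith
      rw [if_neg (not_lt.2 hwid), add_zero] at hlt
      have h5 : |(chord T j u : ℝ) - τ j u| / M < (k : ℝ) / (200 * N) := by
        rcases min_lt_iff.1 hlt with h | h
        · exact absurd h (not_lt.2 hkN1)
        · exact h
      have h6 : |(chord T j u : ℝ) - τ j u| < k * Z := by
        rw [div_lt_div_iff₀ hM' (by positivity)] at h5
        rw [hMr] at h5
        have : |(chord T j u : ℝ) - τ j u| * (200 * N) < (k * Z) * (200 * N) := by
          calc _ < _ := h5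
            _ = _ := by ring
        exact lt_of_mul_lt_mul_right this (by positivity)
      have hrc := hT.rr_le_chord u j
      have hrc' : (rr T j u : ℝ) ≤ chord T j u := by exact_mod_cast hrc
      have hcr' : (chord T j u : ℝ) ≤ rr T j u + Z := by exact_mod_cast hjD
      rw [abs_lt] at h6
      have h7 : |(rr T j u : ℝ) - τ j u| ≤ 2 * k * Z := by
        rw [abs_le]
        constructor <;> nlinarith
      have h8 := hjD1 h7
      rw [hT.wid_eq hM0, abs_le] at hwid
      have h9 : (3 : ℝ) / 4 ≤ 2 * (chord T j u : ℝ) / M := by linarith [hwid.1]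
      rw [le_div_iff₀ hM'] at h9
      have h10 : (k : ℝ) * Z ≤ M / 200 := by
        rw [hMr]
        have : (k : ℝ) * Z ≤ N * Z := by gcongr
        linarith
      linarith [h6.1]
    have h3 : (k : ℝ) ^ 2 / (400 * N) ≤
        ∑ j, (if chord T j u ≤ rr T j u + Z then cst T τ j u else 0) := by
      rw [← Finset.sum_filter]
      calc (k : ℝ) ^ 2 / (400 * N) = (k / 2) * ((k : ℝ) / (200 * N)) := by
            field_simp; ring
        _ ≤ #(D \ D1) * ((k : ℝ) / (200 * N)) := by gcongr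
        _ = ∑ j ∈ D \ D1, (k : ℝ) / (200 * N) := by rw [Finset.sum_const, nsmul_eq_mul]
        _ ≤ ∑ j ∈ D \ D1, cst T τ j u := Finset.sum_le_sum hc
        _ ≤ ∑ j ∈ D, cst T τ j u :=
            Finset.sum_le_sum_of_subset_of_nonneg Finset.sdiff_subset
              (fun j _ _ => cst_nonneg _ _ _)
    rw [div_le_iff₀ (by positivity)] at h3
    linarith

lemma exp_ratio : Real.exp (1 / 5) / √2 ≤ 9 / 10 := by
  rw [div_le_iff₀ (by positivity)]
  have h1 : (1.41 : ℝ) ≤ √2 := by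
    rw [show (1.41 : ℝ) = √(1.41 ^ 2) by rw [Real.sqrt_sq (by norm_num)]]
    apply Real.sqrt_le_sqrt; norm_num
  have h2 : Real.exp (1 / 5) ≤ 1.26 := by
    have h3 : Real.exp (1 / 5) ^ 5 = Real.exp 1 := by rw [← Real.exp_nat_mul]; norm_num
    have h4 := Real.exp_one_lt_d9
    by_contra hlt
    push Not at hlt
    have h5 : (1.26 : ℝ) ^ 5 < Real.exp (1 / 5) ^ 5 := by gcongr
    rw [h3] at h5
    norm_num at h5
    linarith
  nlinarith

theorem Mono.chord_bound (hT : Mono T) {Z : ℕ} (hN : 1 ≤ N) (hZ : 1 ≤ Z)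
    (hM : M = 200 * N * Z)
    (hbal : ∀ y, (#{u | T u = y} : ℝ) ≤ 5 / 4 * (M : ℝ) ^ N / 2 ^ (N - 1)) :
    (∑ j, avg (fun u => wid T j u ^ 2) ≤ 6) ∧
      ∑ j, avg (fun u => (jump T j u : ℝ)) ≤ CJ * N := by
  have hM0 : 0 < M := by rw [hM]; positivity
  have hne : Nonempty (Fin M) := ⟨⟨0, hM0⟩⟩
  have hM' : (0 : ℝ) < M := by exact_mod_cast hM0
  have hMr : (M : ℝ) = 200 * N * Z := by rw [hM]; push_cast; ring
  have hN' : (1 : ℝ) ≤ N := by exact_mod_cast hN
  have hZ' : (1 : ℝ) ≤ Z := by exact_mod_cast hZ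
  obtain ⟨τ, hτ1, hτ2, hτ3⟩ := transfer hT hM0
  have hent := hT.entropy_avg hM0 hN hbal τ hτ2
  have hw0 : 0 ≤ ∑ j, avg (fun u => wid T j u ^ 2) :=
    Finset.sum_nonneg fun j _ => avg_nonneg fun u => sq_nonneg _
  have hc0 : 0 ≤ ∑ j, avg (fun u => |(chord T j u : ℝ) - τ j u| / M) :=
    Finset.sum_nonneg fun j _ => avg_nonneg fun u => by positivity
  refine ⟨by linarith, ?_⟩
  -- total local cost
  have hcst : ∑ j, avg (cst T τ j) ≤ 98 := by
    have h1 : ∀ j, avg (cst T τ j) ≤ avg (fun u => |(chord T j u : ℝ) - τ j u| / M) +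
        16 * avg (fun u => wid T j u ^ 2) := by
      intro j
      rw [← avg_mul_left, ← avg_add]
      apply avg_mono
      intro u
      unfold cst
      have h2 : min 1 (|(chord T j u : ℝ) - τ j u| / M) ≤ |(chord T j u : ℝ) - τ j u| / M :=
        min_le_right _ _
      have h3 : (if 1 / 4 < wid T j u then (1 : ℝ) else 0) ≤ 16 * wid T j u ^ 2 := by
        split_ifs with h
        · nlinarith
        · positivity
      linarith
    calc _ ≤ ∑ j, (avg (fun u => |(chord T j u : ℝ) - τ j u| / M) +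
        16 * avg (fun u => wid T j u ^ 2)) := Finset.sum_le_sum fun j _ => h1 j
      _ = ∑ j, avg (fun u => |(chord T j u : ℝ) - τ j u| / M) +
        16 * ∑ j, avg (fun u => wid T j u ^ 2) := by
          rw [Finset.sum_add_distrib, Finset.mul_sum]
      _ ≤ 98 := by linarith
  have hnear : ∀ j, avg (fun u => if chord T j u ≤ rr T j u + Z then cst T τ j u else 0) ≤
      8 * ((Z : ℝ) + 1) / M * avg (cst T τ j) := by
    intro j
    apply hT.avg_near hM0 j Z (cst T τ j) (cst_nonneg τ j) (cst_le τ j)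
    · intro u a h
      unfold cst
      have h1 : chord T j (Function.update u j a) = chord T j u := by
        unfold chord
        rw [h]
        simp
      rw [h1, hτ1 j u a h, wid_update]
    · intro u h
      have hw : 1 / 4 < wid T j u := by
        rw [hT.wid_eq hM0, lt_abs]
        left
        have : (7 : ℝ) / 4 < 2 * (chord T j u : ℝ) / M := by
          rw [lt_div_iff₀ hM']; linarith
        linarith
      unfold cst
      rw [if_pos hw]
      have : (0 : ℝ) ≤ min 1 (|(chord T j u : ℝ) - τ j u| / M) := by positivity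
      linarith
  have hexp : ∀ k ∈ Icc 1 N, avg (fun u => (k : ℝ) ^ 2 * ((2 : ℝ) ^ nx T τ (2 * k * Z) u / (√2) ^ k))
      ≤ (k : ℝ) ^ 2 * (9 / 10 : ℝ) ^ k := by
    intro k hk
    rw [Finset.mem_Icc] at hk
    have hk1 : (1 : ℝ) ≤ k := by exact_mod_cast hk.1
    have hkN : (k : ℝ) ≤ N := by exact_mod_cast hk.2
    rw [avg_mul_left]
    apply mul_le_mul_of_nonneg_left _ (by positivity)
    have e1 : (fun u => (2 : ℝ) ^ nx T τ (2 * k * Z) u / (√2) ^ k) =
        fun u => (2 : ℝ) ^ nx T τ (2 * k * Z) u * ((√2) ^ k)⁻¹ := by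
      funext u; rw [div_eq_mul_inv]
    rw [e1, avg_mul_right]
    have h3 := hτ3 (2 * k * Z) (by positivity) (by
      rw [hMr]
      have : (k : ℝ) * Z ≤ N * Z := by gcongr
      nlinarith)
    have h4 : avg (fun u => (2 : ℝ) ^ nx T τ (2 * k * Z) u) ≤
        (1 + 8 * (2 * (2 * k * Z) + 1) / M) ^ N := by
      unfold avg
      rw [div_le_iff₀ (by positivity)]
      have hcard : ((Fintype.card (Fin N → Fin M) : ℕ) : ℝ) = (M : ℝ) ^ N := by simp
      rw [hcard, mul_comm _ ((M : ℝ) ^ N)]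
      exact h3
    have h5 : (1 + 8 * (2 * (2 * k * Z) + 1) / (M : ℝ)) ^ N ≤ Real.exp (1 / 5) ^ k := by
      have h6 : 1 + 8 * (2 * (2 * k * Z) + 1) / (M : ℝ) ≤
          Real.exp (8 * (2 * (2 * k * Z) + 1) / (M : ℝ)) := by
        have := Real.add_one_le_exp (8 * (2 * (2 * k * Z) + 1) / (M : ℝ))
        linarith
      calc _ ≤ Real.exp (8 * (2 * (2 * k * Z) + 1) / (M : ℝ)) ^ N := by gcongr
        _ = Real.exp (N * (8 * (2 * (2 * k * Z) + 1) / (M : ℝ))) := by rw [← Real.exp_nat_mul]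
        _ ≤ Real.exp (k * (1 / 5)) := by
            apply Real.exp_le_exp.2
            rw [hMr]
            have : (N : ℝ) * (8 * (2 * (2 * k * Z) + 1) / (200 * N * Z)) =
                (4 * k * Z + 1) / (25 * Z) := by field_simp; ring
            rw [this, div_le_iff₀ (by positivity)]
            nlinarith
        _ = _ := by rw [← Real.exp_nat_mul]
    calc _ ≤ Real.exp (1 / 5) ^ k * ((√2) ^ k)⁻¹ := by
          gcongr
          exact h4.trans h5
      _ = (Real.exp (1 / 5) / √2) ^ k := by rw [div_pow, ← div_eq_mul_inv]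
      _ ≤ (9 / 10) ^ k := pow_le_pow_left₀ (by positivity) exp_ratio k
  have hNd : avg (fun u => (Nd T Z u : ℝ) ^ 2) ≤
      3136 + ∑' k : ℕ, (k : ℝ) ^ 2 * (9 / 10 : ℝ) ^ k := by
    calc avg (fun u => (Nd T Z u : ℝ) ^ 2) ≤
        avg (fun u => 400 * N * ∑ j, (if chord T j u ≤ rr T j u + Z then cst T τ j u else 0)
          + ∑ k ∈ Icc 1 N, (k : ℝ) ^ 2 * ((2 : ℝ) ^ nx T τ (2 * k * Z) u / (√2) ^ k)) :=
          avg_mono fun u => hT.Nd_sq_le hN hZ hM τ u
      _ = 400 * N * ∑ j, avg (fun u => if chord T j u ≤ rr T j u + Z then cst T τ j u else 0)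
          + ∑ k ∈ Icc 1 N, avg (fun u => (k : ℝ) ^ 2 *
            ((2 : ℝ) ^ nx T τ (2 * k * Z) u / (√2) ^ k)) := by
          rw [avg_add, avg_mul_left, avg_sum, avg_sum]
      _ ≤ 400 * N * ∑ j, (8 * ((Z : ℝ) + 1) / M * avg (cst T τ j))
          + ∑ k ∈ Icc 1 N, (k : ℝ) ^ 2 * (9 / 10 : ℝ) ^ k := by
          gcongr with j _ k hk
          · exact hnear j
          · exact hexp k hk
      _ ≤ 3136 + ∑' k : ℕ, (k : ℝ) ^ 2 * (9 / 10 : ℝ) ^ k := by
          have h1 : 400 * (N : ℝ) * ∑ j, (8 * ((Z : ℝ) + 1) / M * avg (cst T τ j)) ≤ 3136 := by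
            rw [← Finset.mul_sum]
            have h2 : 8 * ((Z : ℝ) + 1) / M ≤ 16 / (200 * N) := by
              rw [hMr, div_le_div_iff₀ (by positivity) (by positivity)]
              nlinarith [mul_pos (show (0:ℝ) < N by linarith) (show (0:ℝ) < Z by linarith)]
            have h3 : 0 ≤ ∑ j, avg (cst T τ j) :=
              Finset.sum_nonneg fun j _ => avg_nonneg fun u => cst_nonneg _ _ _
            calc _ ≤ 400 * (N : ℝ) * (16 / (200 * N) * 98) := by gcongr
              _ = 3136 := by field_simp; norm_num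
          have h2 : ∑ k ∈ Icc 1 N, (k : ℝ) ^ 2 * (9 / 10 : ℝ) ^ k ≤
              ∑' k : ℕ, (k : ℝ) ^ 2 * (9 / 10 : ℝ) ^ k :=
            summ_aux.sum_le_tsum _ (fun k _ => by positivity)
          linarith
  have hfin := hT.sum_jump_le hM0 Z (by rw [hM]; nlinarith [Nat.mul_le_mul hN hZ])
  have hJ0 : 0 ≤ ∑ j, avg (fun u => (jump T j u : ℝ)) :=
    Finset.sum_nonneg fun j _ => avg_nonneg fun u => Nat.cast_nonneg _
  have h8 : (Z : ℝ) * ∑ i, avg (fun u => (jump T i u : ℝ)) ≤
      M * (3136 + ∑' k : ℕ, (k : ℝ) ^ 2 * (9 / 10 : ℝ) ^ k) := by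
    calc _ ≤ ((Z : ℝ) + 1) * ∑ i, avg (fun u => (jump T i u : ℝ)) := by nlinarith
      _ ≤ _ := hfin
      _ ≤ _ := by gcongr
  have h9 : (Z : ℝ) * ∑ i, avg (fun u => (jump T i u : ℝ)) ≤ Z * (CJ * N) := by
    calc _ ≤ _ := h8
      _ = _ := by rw [hMr, CJ]; ring
  exact le_of_mul_le_mul_left h9 (by linarith)

end

end Pool.Agent.Helper38.Stretch
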