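import Pool.Agent.Helper38.Stretch.Exit

/-! Line inequalities (module M5, part 1). -/

namespace Pool.Agent.Helper38.Stretch

open Finset

noncomputable section

variable {N M : ℕ} {T : (Fin N → Fin M) → (Fin N → Bool)}

lemma mul_log_ge {s : ℝ} (hs0 : 0 ≤ s) (hs2 : s ≤ 2) :
    (s - 1) + (s - 1) ^ 2 / 6 ≤ s * Real.log s := by
  rcases hs0.eq_or_lt with h | hs
  · subst h; norm_num
  have hx0 : 0 < √s := Real.sqrt_pos.2 hs
  have hxx : √s * √s = s := Real.mul_self_sqrt hs0
  have hlog : Real.log s = 2 * Real.log (√s) := by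
    rw [Real.log_sqrt hs0]; ring
  have h1 : 1 - (√s)⁻¹ ≤ Real.log (√s) := Real.one_sub_inv_le_log_of_pos hx0
  have h2 : 2 * (s - √s) ≤ s * Real.log s := by
    rw [hlog]
    have h3 : s * (2 * (1 - (√s)⁻¹)) ≤ s * (2 * Real.log (√s)) := by gcongr
    have h4 : s * (2 * (1 - (√s)⁻¹)) = 2 * (s - √s) := by
      have : s * (√s)⁻¹ = √s := by
        nth_rewrite 1 [← hxx]
        field_simp
      linear_combination (-2) * this
    linarith
  have hx2 : √s ≤ 3/2 - 1/20 := by
    rw [show (3/2 - 1/20 : ℝ) = √((3/2 - 1/20)^2) by rw [Real.sqrt_sq (by norm_num)]]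
    apply Real.sqrt_le_sqrt
    norm_num
    linarith
  set x := √s with hx
  have h5 : (x + 1) ^ 2 ≤ 6.1 := by nlinarith
  have h6 : (s - 1) = (x - 1) * (x + 1) := by rw [← hxx]; ring
  have hx2' : x ^ 2 ≤ 2 := by nlinarith
  have h7 : (x + 1) ^ 2 ≤ 6 := by nlinarith [sq_nonneg (x - 1.5)]
  have h8 : (s - 1) ^ 2 / 6 ≤ (x - 1) ^ 2 := by
    rw [h6, mul_pow]
    nlinarith [sq_nonneg (x - 1)]
  have h9 : s = x ^ 2 := by rw [← hxx]; ring
  nlinarith

lemma sum_ite_lt (t : ℕ) (ht : t ≤ M) (x y : ℝ) :
    ∑ a : Fin M, (if (a : ℕ) < t then x else y) = t * x + ((M : ℝ) - t) * y := by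
  rw [Finset.sum_ite, Finset.sum_const, Finset.sum_const, card_fin_lt t ht]
  simp only [not_lt]
  rw [card_fin_ge t ht, nsmul_eq_mul, nsmul_eq_mul, Nat.cast_sub ht]

lemma Mono.avg_log_chord (hT : Mono T) (hM : 0 < M) (j : Fin N) :
    avg (fun u => wid T j u ^ 2) / 6 ≤ avg (fun u => Real.log (2 * chord T j u / M)) := by
  have : Nonempty (Fin M) := ⟨⟨0, hM⟩⟩
  rw [← avg_update j (fun u => Real.log (2 * chord T j u / M)), div_eq_mul_inv, ← avg_mul_right]
  apply avg_mono
  intro u
  have htM := thr_le (T := T) u j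
  have hM' : (0 : ℝ) < M := by exact_mod_cast hM
  have htM' : (thr T j u : ℝ) ≤ M := by exact_mod_cast htM
  have h1 : ∀ a : Fin M, Real.log (2 * (chord T j (Function.update u j a) : ℝ) / M) =
      if (a : ℕ) < thr T j u then Real.log (2 * (thr T j u : ℝ) / M)
      else Real.log (2 * ((M : ℝ) - thr T j u) / M) := by
    intro a
    rw [hT.chord_update]
    split_ifs
    · rfl
    · rw [Nat.cast_sub htM]
  rw [avg]
  simp only [h1]
  rw [sum_ite_lt _ htM, Fintype.card_fin]
  set t : ℝ := (thr T j u : ℝ) with ht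
  have ht0 : 0 ≤ t := Nat.cast_nonneg _
  have ha := mul_log_ge (s := 2 * t / M) (by positivity) (by
    rw [div_le_iff₀ hM']; linarith)
  have hb := mul_log_ge (s := 2 * (M - t) / M) (by
    apply div_nonneg; linarith
    exact hM'.le) (by rw [div_le_iff₀ hM']; linarith)
  have hw : wid T j u ^ 2 = (2 * t / M - 1) ^ 2 := by
    rw [wid, sq_abs]
  rw [hw]
  have hb' : 2 * (M - t) / M = 2 - 2 * t / M := by field_simp
  rw [hb'] at hb ⊢
  rw [le_div_iff₀ hM']
  have h3 : t = (2 * t / M) * (M / 2) := by field_simp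
  set s := 2 * t / M with hs
  have h4 : (M : ℝ) - t = (2 - s) * (M / 2) := by
    rw [h3]; ring
  rw [h4]
  nth_rewrite 1 [h3]
  nlinarith

lemma Mono.rr_le_chord (hT : Mono T) (u : Fin N → Fin M) (j : Fin N) :
    rr T j u ≤ chord T j u := by
  have h1 := hT.rr_update u j (u j)
  have h2 := hT.chord_update u j (u j)
  rw [Function.update_eq_self] at h1 h2
  rw [h1, h2]
  split_ifs <;> omega

lemma Mono.wid_eq (hT : Mono T) (hM : 0 < M) (u : Fin N → Fin M) (j : Fin N) :
    wid T j u = |2 * (chord T j u : ℝ) / M - 1| := by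
  have hM' : (M : ℝ) ≠ 0 := by positivity
  rw [hT.chord_eq, wid]
  split_ifs
  · rw [Nat.cast_sub (thr_le u j), ← abs_neg]
    congr 1
    field_simp
    ring
  · rfl

/-- restricting to the points near the boundary of the cell costs a factor `8 (δ+1)/M` -/
lemma Mono.avg_near (hT : Mono T) (hM : 0 < M) (j : Fin N) (δ : ℕ)
    (c : (Fin N → Fin M) → ℝ) (h0 : ∀ u, 0 ≤ c u) (h2 : ∀ u, c u ≤ 2)
    (hinv : ∀ u a, T (Function.update u j a) = T u → c (Function.update u j a) = c u)
    (hbig : ∀ u, 7 * (M : ℝ) / 8 < chord T j u → 1 ≤ c u) :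
    avg (fun u => if chord T j u ≤ rr T j u + δ then c u else 0) ≤
      8 * ((δ : ℝ) + 1) / M * avg c := by
  have : Nonempty (Fin M) := ⟨⟨0, hM⟩⟩
  have hM' : (0 : ℝ) < M := by exact_mod_cast hM
  rw [← avg_update j c, ← avg_update j (fun u => if chord T j u ≤ rr T j u + δ then c u else 0),
    ← avg_mul_left]
  apply avg_mono
  intro u
  have htM := thr_le (T := T) u j
  have htM' : (thr T j u : ℝ) ≤ M := by exact_mod_cast htM
  have ht0 : (0 : ℝ) ≤ thr T j u := Nat.cast_nonneg _
  -- values on the two sides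
  obtain ⟨c1, hc1, h10, h12, h1b⟩ : ∃ c1 : ℝ, (∀ a : Fin M, (a : ℕ) < thr T j u →
      c (Function.update u j a) = c1) ∧ 0 ≤ c1 ∧ c1 ≤ 2 ∧
      (7 * (M : ℝ) / 8 < thr T j u → 1 ≤ c1) := by
    by_cases hex : ∃ a : Fin M, (a : ℕ) < thr T j u
    · obtain ⟨a, ha⟩ := hex
      refine ⟨c (Function.update u j a), ?_, h0 _, h2 _, ?_⟩
      · intro b hb
        have := hinv (Function.update u j a) b (by
          rw [Function.update_idem]
          exact (hT.eq_iff u j b a).2 (by simp [ha, hb]))
        rwa [Function.update_idem] at this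
      · intro hb
        apply hbig
        rw [hT.chord_update, if_pos ha]
        exact hb
    · push Not at hex
      refine ⟨0, fun a ha => absurd ha (not_lt.2 (hex a)), le_rfl, by norm_num, ?_⟩
      intro hb
      have h3 := hex ⟨0, hM⟩
      simp only [nonpos_iff_eq_zero] at h3
      rw [h3] at hb
      simp at hb
      linarith
  obtain ⟨c2, hc2, h20, h22, h2b⟩ : ∃ c2 : ℝ, (∀ a : Fin M, thr T j u ≤ (a : ℕ) →
      c (Function.update u j a) = c2) ∧ 0 ≤ c2 ∧ c2 ≤ 2 ∧
      (7 * (M : ℝ) / 8 < (M : ℝ) - thr T j u → 1 ≤ c2) := by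
    by_cases hex : ∃ a : Fin M, thr T j u ≤ (a : ℕ)
    · obtain ⟨a, ha⟩ := hex
      refine ⟨c (Function.update u j a), ?_, h0 _, h2 _, ?_⟩
      · intro b hb
        have := hinv (Function.update u j a) b (by
          rw [Function.update_idem]
          exact (hT.eq_iff u j b a).2 (by simp [not_lt.2 ha, not_lt.2 hb]))
        rwa [Function.update_idem] at this
      · intro hb
        apply hbig
        rw [hT.chord_update, if_neg (not_lt.2 ha), Nat.cast_sub htM]
        exact hb
    · push Not at hex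
      refine ⟨0, fun a ha => absurd ha (not_le.2 (hex a)), le_rfl, by norm_num, ?_⟩
      intro hb
      have h3 := hex ⟨M - 1, by omega⟩
      simp only at h3
      have h4 : thr T j u = M := by omega
      rw [h4] at hb
      linarith
  have hval : ∀ a : Fin M, c (Function.update u j a) =
      if (a : ℕ) < thr T j u then c1 else c2 := by
    intro a
    split_ifs with h
    · exact hc1 a h
    · exact hc2 a (not_lt.1 h)
  have hR : avg (fun a : Fin M => c (Function.update u j a)) =
      ((thr T j u : ℝ) * c1 + ((M : ℝ) - thr T j u) * c2) / M := by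
    rw [avg]
    simp only [hval]
    rw [sum_ite_lt _ htM, Fintype.card_fin]
  have hL : avg (fun a : Fin M => if chord T j (Function.update u j a) ≤
      rr T j (Function.update u j a) + δ then c (Function.update u j a) else 0) ≤
      ((δ : ℝ) + 1) * (c1 + c2) / M := by
    rw [avg, Fintype.card_fin]
    gcongr
    have hle : ∀ a : Fin M, (if chord T j (Function.update u j a) ≤
      rr T j (Function.update u j a) + δ then c (Function.update u j a) else 0) ≤
      (if thr T j u - (δ + 1) ≤ (a : ℕ) ∧ (a : ℕ) < thr T j u then c1 else 0) +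
      (if thr T j u ≤ (a : ℕ) ∧ (a : ℕ) < min M (thr T j u + (δ + 1)) then c2 else 0) := by
      intro a
      have haM := a.2
      rw [hval a, hT.chord_update, hT.rr_update]
      by_cases h : (a : ℕ) < thr T j u
      · simp only [h, if_true]
        by_cases h' : thr T j u ≤ (a : ℕ) + 1 + δ
        · have h3 : thr T j u - (δ + 1) ≤ (a : ℕ) := by omega
          simp only [h', h3, if_true, and_self]
          have : 0 ≤ (if thr T j u ≤ (a : ℕ) ∧ (a : ℕ) < min M (thr T j u + (δ + 1))
            then c2 else 0) := by split_ifs <;> linarith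
          linarith
        · simp only [h', if_false]
          apply add_nonneg <;> split_ifs <;> linarith
      · simp only [h, if_false]
        by_cases h' : M - thr T j u ≤ M - (a : ℕ) + δ
        · have h3 : (a : ℕ) < min M (thr T j u + (δ + 1)) := by
            rw [lt_min_iff]; omega
          simp only [h', not_lt.1 h, h3, if_true, and_self, and_false, if_false]
          linarith
        · simp only [h', if_false]
          apply add_nonneg <;> split_ifs <;> linarith
    calc _ ≤ ∑ a : Fin M, ((if thr T j u - (δ + 1) ≤ (a : ℕ) ∧ (a : ℕ) < thr T j u then c1 else 0) +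
      (if thr T j u ≤ (a : ℕ) ∧ (a : ℕ) < min M (thr T j u + (δ + 1)) then c2 else 0)) :=
          Finset.sum_le_sum fun a _ => hle a
      _ = _ := by
          rw [Finset.sum_add_distrib, ← Finset.sum_filter, ← Finset.sum_filter,
            Finset.sum_const, Finset.sum_const, card_fin_Ico _ _ htM (by omega),
            card_fin_Ico _ _ (min_le_left _ _) (by rw [le_min_iff]; omega)]
      _ ≤ _ := by
          rw [nsmul_eq_mul, nsmul_eq_mul]
          have e1 : ((thr T j u - (thr T j u - (δ + 1)) : ℕ) : ℝ) ≤ (δ : ℝ) + 1 := by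
            have : thr T j u - (thr T j u - (δ + 1)) ≤ δ + 1 := by omega
            exact_mod_cast this
          have e2 : ((min M (thr T j u + (δ + 1)) - thr T j u : ℕ) : ℝ) ≤ (δ : ℝ) + 1 := by
            have : min M (thr T j u + (δ + 1)) - thr T j u ≤ δ + 1 := by
              have := min_le_right M (thr T j u + (δ + 1)); omega
            exact_mod_cast this
          nlinarith
  refine hL.trans ?_
  rw [hR]
  have hδ0 : (0 : ℝ) ≤ δ := Nat.cast_nonneg _
  set t : ℝ := (thr T j u : ℝ) with ht
  have key : (c1 + c2) ≤ 8 / M * (t * c1 + (M - t) * c2) := by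
    rw [div_mul_eq_mul_div, le_div_iff₀ hM']
    by_cases ha : t < M / 8
    · have := h2b (by linarith)
      nlinarith
    · by_cases hb : M - t < M / 8
      · have := h1b (by linarith)
        nlinarith
      · push Not at ha hb
        nlinarith
  have : ((δ : ℝ) + 1) * (c1 + c2) / M ≤
      ((δ : ℝ) + 1) * (8 / M * (t * c1 + (M - t) * c2)) / M := by gcongr
  calc _ ≤ _ := this
    _ = _ := by ring

end

end Pool.Agent.Helper38.Stretch
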