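import Pool.Agent.Helper38.Stretch.FieldDefs

/-! Uniformity of the random field (module Noise).

`two_point`: use `avg_comp_injective` with `κ = Fin (n+1) ⊕ {i // z i ≠ z' i}`,
`D = Fin (n+1) × (Fin n → ZMod 2)`. -/

namespace Pool.Agent.Helper38.Stretch

open Finset

noncomputable section

theorem side_rev {G : ℕ} (a : Fin (2 * G)) : side a.rev = !side a := by
  have ha := a.2
  unfold side
  rw [Fin.val_rev, ← decide_not]
  congr 1
  apply propext
  omega

theorem side_refl {G : ℕ} (b : Bool) (a : Fin (2 * G)) : side (refl b a) = b := by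
  unfold refl
  split_ifs with h
  · exact h
  · rw [side_rev]
    revert h
    cases side a <;> cases b <;> simp

theorem refl_not {G : ℕ} (b : Bool) (a : Fin (2 * G)) : refl (!b) a = (refl b a).rev := by
  unfold refl
  revert b
  intro b
  rcases hs : side a with _ | _ <;> cases b <;> simp

theorem refl_side_refl {G : ℕ} (b : Bool) (a : Fin (2 * G)) : refl (side a) (refl b a) = a := by
  have h := side_refl b a
  by_cases hab : side a = b
  · have : refl b a = a := by simp [refl, hab]
    rw [this]
    simp [refl]
  · have h1 : refl b a = a.rev := by simp [refl, hab]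
    rw [h1]
    have h2 : side a.rev ≠ side a := by
      rw [side_rev]; cases side a <;> simp
    simp [refl, h2]

theorem zb_add_one (z : ZMod 2) : zb (z + 1) = !zb z := by
  revert z; decide

/-- the element of `ZMod 2` with given boolean value -/
def bzm (b : Bool) : ZMod 2 := if b then 1 else 0

theorem zb_bzm (b : Bool) : zb (bzm b) = b := by
  cases b <;> decide

theorem bzm_zb (z : ZMod 2) : bzm (zb z) = z := by
  revert z; decide

theorem om_rev {G : ℕ} (a : Fin (2 * G)) : om a.rev = om a := by
  unfold om
  have ha := a.2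
  congr 1
  rw [Fin.val_rev, ← abs_neg, Nat.cast_sub (by omega)]
  congr 1
  push_cast
  ring

theorem side_place {n G : ℕ} (sp : Fin (n + 1)) (p : Fin n → ZMod 2)
    (a : Fin (n + 1) → Fin (2 * G)) (k : Fin n) :
    side (place sp p a (sp.succAbove k)) = zb (p k) := by
  unfold place
  rw [Fin.insertNth_apply_succAbove]
  exact side_refl _ _

theorem place_sp {n M : ℕ} (sp : Fin (n + 1)) (p : Fin n → ZMod 2)
    (a : Fin (n + 1) → Fin M) : place sp p a sp = a sp := by
  simp [place]

theorem place_succAbove {n M : ℕ} (sp : Fin (n + 1)) (p : Fin n → ZMod 2)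
    (a : Fin (n + 1) → Fin M) (k : Fin n) :
    place sp p a (sp.succAbove k) = refl (zb (p k)) (a (sp.succAbove k)) := by
  simp [place]

theorem ext_succAbove {n : ℕ} {α : Type*} (sp : Fin (n + 1)) {f g : Fin (n + 1) → α}
    (h0 : f sp = g sp) (h : ∀ k, f (sp.succAbove k) = g (sp.succAbove k)) : f = g := by
  funext i
  rcases Fin.eq_self_or_eq_succAbove sp i with rfl | ⟨k, rfl⟩
  · exact h0
  · exact h k

/-- flipping one position reflects one coordinate -/
theorem place_add_single {n G : ℕ} (sp : Fin (n + 1)) (p : Fin n → ZMod 2)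
    (a : Fin (n + 1) → Fin (2 * G)) (k : Fin n) :
    place sp (p + Pi.single k 1) a =
      Function.update (place sp p a) (sp.succAbove k) (place sp p a (sp.succAbove k)).rev := by
  apply ext_succAbove sp
  · rw [Function.update_of_ne (Fin.succAbove_ne sp k).symm, place_sp, place_sp]
  · intro j
    by_cases hj : j = k
    · subst hj
      rw [Function.update_self, place_succAbove, place_succAbove, Pi.add_apply, Pi.single_eq_same,
        zb_add_one, refl_not]
    · have : sp.succAbove j ≠ sp.succAbove k := fun h => hj (Fin.succAbove_right_injective h)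
      rw [Function.update_of_ne this, place_succAbove, place_succAbove, Pi.add_apply,
        Pi.single_eq_of_ne hj, add_zero]

theorem place_update_ne {n G : ℕ} (sp : Fin (n + 1)) (p : Fin n → ZMod 2)
    (a : Fin (n + 1) → Fin (2 * G)) (k : Fin n) (c : Fin (2 * G)) :
    place sp p (Function.update a (sp.succAbove k) c) =
      Function.update (place sp p a) (sp.succAbove k)
        (refl (side (place sp p a (sp.succAbove k))) c) := by
  rw [side_place]
  apply ext_succAbove sp
  · rw [Function.update_of_ne (Fin.succAbove_ne sp k).symm, place_sp, place_sp,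
      Function.update_of_ne (Fin.succAbove_ne sp k).symm]
  · intro j
    by_cases hj : j = k
    · subst hj
      rw [Function.update_self, place_succAbove, Function.update_self]
    · have : sp.succAbove j ≠ sp.succAbove k := fun h => hj (Fin.succAbove_right_injective h)
      rw [Function.update_of_ne this, place_succAbove, place_succAbove,
        Function.update_of_ne this]

theorem place_update_sp {n G : ℕ} (sp : Fin (n + 1)) (p : Fin n → ZMod 2)
    (a : Fin (n + 1) → Fin (2 * G)) (c : Fin (2 * G)) :
    place sp p (Function.update a sp c) = Function.update (place sp p a) sp c := by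
  apply ext_succAbove sp
  · rw [Function.update_self, place_sp, Function.update_self]
  · intro j
    rw [Function.update_of_ne (Fin.succAbove_ne sp j), place_succAbove, place_succAbove,
      Function.update_of_ne (Fin.succAbove_ne sp j)]

theorem avg_refl {G : ℕ} (hG : 0 < G) (f : Fin (2 * G) → ℝ) :
    avg (fun z : ZMod 2 => avg fun a : Fin (2 * G) => f (refl (zb z) a)) = avg f := by
  have hG' : ((2 * G : ℕ) : ℝ) ≠ 0 := by positivity
  have h2 : ∀ g : ZMod 2 → ℝ, avg g = (g 0 + g 1) / 2 := by
    intro g
    unfold avg
    have h3 : ∑ z : ZMod 2, g z = g 0 + g 1 := Fin.sum_univ_two g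
    rw [h3]
    simp
  rw [h2]
  have hz0 : zb 0 = false := by decide
  have hz1 : zb 1 = true := by decide
  rw [hz0, hz1]
  unfold avg
  rw [← add_div, ← Finset.sum_add_distrib]
  have h3 : ∀ a : Fin (2 * G), f (refl false a) + f (refl true a) = f a + f a.rev := by
    intro a
    unfold refl
    rcases hs : side a with _ | _
    · simp
    · simp [add_comm]
  rw [Finset.sum_congr rfl (fun a _ => h3 a), Finset.sum_add_distrib]
  have h4 : ∑ a : Fin (2 * G), f a.rev = ∑ a, f a := Equiv.sum_comp Fin.revPerm f
  rw [h4]
  ring

theorem card_side {G : ℕ} (b : Bool) : #{a : Fin (2 * G) | side a = b} = G := by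
  have h1 : #{a : Fin (2 * G) | side a = true} = #{a : Fin (2 * G) | side a = false} := by
    apply Finset.card_bij (fun a _ => a.rev)
    · intro a ha
      simp only [Finset.mem_filter, Finset.mem_univ, true_and] at ha ⊢
      rw [side_rev, ha]; rfl
    · intro a _ b _ h
      exact Fin.rev_injective h
    · intro a ha
      simp only [Finset.mem_filter, Finset.mem_univ, true_and] at ha
      refine ⟨a.rev, ?_, Fin.rev_rev a⟩
      simp only [Finset.mem_filter, Finset.mem_univ, true_and]
      rw [side_rev, ha]; rfl
  have h2 := Finset.card_filter_add_card_filter_not (s := (univ : Finset (Fin (2 * G))))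
    (fun a : Fin (2 * G) => side a = true)
  simp only [Bool.not_eq_true, Finset.card_univ, Fintype.card_fin] at h2
  cases b <;> omega

/-- same statement with the side given by an independent uniform grid point -/
theorem avg_refl_side {G : ℕ} (hG : 0 < G) (f : Fin (2 * G) → ℝ) :
    avg (fun b : Fin (2 * G) => avg fun a : Fin (2 * G) => f (refl (side b) a)) = avg f := by
  have hG' : ((2 * G : ℕ) : ℝ) ≠ 0 := by positivity
  rw [← avg_refl hG f]
  have h2 : ∀ g : ZMod 2 → ℝ, avg g = (g 0 + g 1) / 2 := by
    intro g
    unfold avg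
    have h3 : ∑ z : ZMod 2, g z = g 0 + g 1 := Fin.sum_univ_two g
    rw [h3]
    simp
  rw [h2]
  have hz0 : zb 0 = false := by decide
  have hz1 : zb 1 = true := by decide
  rw [hz0, hz1]
  set φ : Bool → ℝ := fun b => avg fun a : Fin (2 * G) => f (refl b a) with hφ
  have h3 : avg (fun b : Fin (2 * G) => φ (side b)) = (φ false + φ true) / 2 := by
    unfold avg
    have h4 : ∑ b : Fin (2 * G), φ (side b) = (G : ℝ) * φ true + G * φ false := by
      rw [← Finset.sum_filter_add_sum_filter_not univ (fun b : Fin (2 * G) => side b = true)]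
      have h5 : ∑ b : Fin (2 * G) with side b = true, φ (side b) = (G : ℝ) * φ true := by
        rw [Finset.sum_congr rfl (g := fun _ => φ true)
          (fun b hb => by rw [(Finset.mem_filter.1 hb).2])]
        rw [Finset.sum_const, card_side, nsmul_eq_mul]
      have h6 : ∑ b : Fin (2 * G) with ¬ side b = true, φ (side b) = (G : ℝ) * φ false := by
        have h7 : ({b : Fin (2 * G) | ¬ side b = true} : Finset (Fin (2 * G))) =
          ({b : Fin (2 * G) | side b = false} : Finset (Fin (2 * G))) := by
          ext b; simp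
        rw [h7, Finset.sum_congr rfl (g := fun _ => φ false)
          (fun b hb => by rw [(Finset.mem_filter.1 hb).2])]
        rw [Finset.sum_const, card_side, nsmul_eq_mul]
      rw [h5, h6]
    rw [h4, Fintype.card_fin]
    have hG0 : (G : ℝ) ≠ 0 := by positivity
    push_cast
    field_simp
    ring
  exact h3

theorem avg_place {n G : ℕ} (hG : 0 < G) (sp : Fin (n + 1))
    (f : (Fin (n + 1) → Fin (2 * G)) → ℝ) :
    avg (fun p : Fin n → ZMod 2 => avg fun a : Fin (n + 1) → Fin (2 * G) => f (place sp p a))
      = avg f := by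
  let e : (Fin n → ZMod 2) × (Fin (n + 1) → Fin (2 * G)) ≃
      (Fin (n + 1) → Fin (2 * G)) × (Fin n → ZMod 2) :=
    { toFun := fun q => (place sp q.1 q.2, fun k => bzm (side (q.2 (sp.succAbove k))))
      invFun := fun q => (fun k => bzm (side (q.1 (sp.succAbove k))), place sp q.2 q.1)
      left_inv := by
        rintro ⟨p, a⟩
        simp only [Prod.mk.injEq]
        constructor
        · funext k
          rw [side_place, bzm_zb]
        · apply ext_succAbove sp
          · rw [place_sp, place_sp]
          · intro k
            rw [place_succAbove, place_succAbove, zb_bzm, refl_side_refl]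
      right_inv := by
        rintro ⟨u, t⟩
        simp only [Prod.mk.injEq]
        constructor
        · apply ext_succAbove sp
          · rw [place_sp, place_sp]
          · intro k
            rw [place_succAbove, place_succAbove, zb_bzm, refl_side_refl]
        · funext k
          rw [side_place, bzm_zb] }
  have : Nonempty (Fin n → ZMod 2) := ⟨0⟩
  rw [← avg_prod (fun q : (Fin n → ZMod 2) × (Fin (n + 1) → Fin (2 * G)) => f (place sp q.1 q.2))]
  have h1 : avg (fun q : (Fin n → ZMod 2) × (Fin (n + 1) → Fin (2 * G)) => f (place sp q.1 q.2))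
      = avg (fun q => (fun r : (Fin (n + 1) → Fin (2 * G)) × (Fin n → ZMod 2) => f r.1) (e q)) :=
    rfl
  rw [h1]
  rw [avg_equiv e (fun r : (Fin (n + 1) → Fin (2 * G)) × (Fin n → ZMod 2) => f r.1), avg_prod]
  apply avg_congr
  intro u
  exact avg_const (α := Fin n → ZMod 2) (f u)

theorem two_point {n M : ℕ} [Nonempty (Fin M)]
    (Φ : (Fin (n + 1) → Fin M) → (Fin (n + 1) → Fin M) → ℝ)
    (z z' : Fin (n + 1) → (Fin n → ZMod 2)) :
    avg (fun W : Fin (n + 1) × (Fin n → ZMod 2) → Fin M =>
      Φ (fun i => W (i, z i)) (fun i => W (i, z' i))) =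
    avg fun ω : Fin (n + 1) → Fin M => avg fun ω' : Fin (n + 1) → Fin M =>
      Φ ω (fun i => if z i = z' i then ω i else ω' i) := by
  classical
  set Ψ : ((Fin (n + 1) ⊕ {i : Fin (n + 1) // z i ≠ z' i}) → Fin M) → ℝ := fun g =>
    Φ (fun i => g (Sum.inl i)) (fun i => if h : z i = z' i then g (Sum.inl i)
      else g (Sum.inr ⟨i, h⟩)) with hΨ
  have h1 : avg (fun W : Fin (n + 1) × (Fin n → ZMod 2) → Fin M =>
      Φ (fun i => W (i, z i)) (fun i => W (i, z' i))) = avg Ψ := by
    let e : (Fin (n + 1) ⊕ {i : Fin (n + 1) // z i ≠ z' i}) →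
        Fin (n + 1) × (Fin n → ZMod 2) := Sum.elim (fun i => (i, z i)) (fun i => (i.1, z' i.1))
    have he : Function.Injective e := by
      rintro (i | i) (j | j) hij
      · simp only [e, Sum.elim_inl, Prod.mk.injEq] at hij
        rw [hij.1]
      · simp only [e, Sum.elim_inl, Sum.elim_inr, Prod.mk.injEq] at hij
        exfalso
        obtain ⟨h1, h2⟩ := hij
        apply j.2
        rw [← h2, h1]
      · simp only [e, Sum.elim_inl, Sum.elim_inr, Prod.mk.injEq] at hij
        exfalso
        obtain ⟨h1, h2⟩ := hij
        apply i.2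
        rw [h2, h1]
      · simp only [e, Sum.elim_inr, Prod.mk.injEq] at hij
        rw [Subtype.ext hij.1]
    rw [← avg_comp_injective e he Ψ]
    apply avg_congr
    intro W
    simp only [hΨ, e, Sum.elim_inl, Sum.elim_inr]
    congr 1
    funext i
    split_ifs with h
    · rw [h]
    · rfl
  have h2 : (avg fun ω : Fin (n + 1) → Fin M => avg fun ω' : Fin (n + 1) → Fin M =>
      Φ ω (fun i => if z i = z' i then ω i else ω' i)) = avg Ψ := by
    let e : (Fin (n + 1) ⊕ {i : Fin (n + 1) // z i ≠ z' i}) →
        Fin (n + 1) ⊕ Fin (n + 1) := Sum.map id Subtype.val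
    have he : Function.Injective e := Sum.map_injective.2 ⟨Function.injective_id,
      Subtype.val_injective⟩
    rw [← avg_comp_injective e he Ψ,
      ← avg_equiv (Equiv.sumArrowEquivProdArrow (Fin (n + 1)) (Fin (n + 1)) (Fin M)).symm,
      avg_prod]
    apply avg_congr
    intro ω
    apply avg_congr
    intro ω'
    simp only [hΨ, e]
    congr 1
  rw [h1, h2]

theorem one_point {n M : ℕ} [Nonempty (Fin M)]
    (Φ : (Fin (n + 1) → Fin M) → ℝ) (z : Fin (n + 1) → (Fin n → ZMod 2)) :
    avg (fun W : Fin (n + 1) × (Fin n → ZMod 2) → Fin M => Φ (fun i => W (i, z i))) = avg Φ := by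
  have he : Function.Injective (fun i : Fin (n + 1) => ((i, z i) : Fin (n + 1) × (Fin n → ZMod 2))) := by
    intro i j hij
    simp only [Prod.mk.injEq] at hij
    exact hij.1
  exact avg_comp_injective _ he Φ

section pos

variable {n l1 l2 K : ℕ} (Λ : Lev n l1 l2) (c1 : Fin n × Fin K → Fin l1)
  (c2 : Fin n × Fin K → Fin l2)

theorem pos_add (x y : Fin n → ZMod 2) :
    pos Λ c1 c2 (x + y) = pos Λ c1 c2 x + pos Λ c1 c2 y := by
  unfold pos
  simp only [Pi.add_apply, add_smul, Finset.sum_add_distrib]
  abel

theorem pos_apply (x : Fin n → ZMod 2) (j : Fin n) :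
    pos Λ c1 c2 x j = x j + ∑ b : Fin n × Fin K, x b.1 * kid Λ c1 c2 b j := by
  unfold pos
  simp [Finset.sum_apply]

theorem pos_lev0 (x : Fin n → ZMod 2) (j : Fin n) (hj : Λ.lev j = 0) :
    pos Λ c1 c2 x j = x j := by
  rw [pos_apply, Finset.sum_eq_zero, add_zero]
  intro b _
  have : kid Λ c1 c2 b j = 0 := by
    unfold kid
    split_ifs with h1 h2
    · apply Pi.single_eq_of_ne
      intro h
      rw [h, Λ.lev1] at hj
      exact absurd hj (by decide)
    · apply Pi.single_eq_of_ne
      intro h
      rw [h, Λ.lev2] at hj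
      exact absurd hj (by decide)
    · rfl
  rw [this, mul_zero]

theorem pos_bijective : Function.Bijective (pos Λ c1 c2) := by
  rw [← Finite.injective_iff_bijective]
  have hzero : ∀ x : Fin n → ZMod 2, pos Λ c1 c2 x = 0 → x = 0 := by
    intro x hx
    have h0 : ∀ j, Λ.lev j = 0 → x j = 0 := by
      intro j hj
      rw [← pos_lev0 Λ c1 c2 x j hj, hx]
      rfl
    have h1 : ∀ j, Λ.lev j = 1 → x j = 0 := by
      intro j hj
      have h := congrFun hx j
      rw [pos_apply, Finset.sum_eq_zero, add_zero] at h
      · exact h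
      · intro b _
        by_cases hb : Λ.lev b.1 = 0
        · rw [h0 _ hb, zero_mul]
        · have : kid Λ c1 c2 b j = 0 := by
            unfold kid
            rw [if_neg hb]
            split_ifs with h2
            · apply Pi.single_eq_of_ne
              intro h
              rw [h, Λ.lev2] at hj
              exact absurd hj (by decide)
            · rfl
          rw [this, mul_zero]
    have h2 : ∀ j, Λ.lev j = 2 → x j = 0 := by
      intro j hj
      have h := congrFun hx j
      rw [pos_apply, Finset.sum_eq_zero, add_zero] at h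
      · exact h
      · intro b _
        by_cases hb : Λ.lev b.1 = 0
        · rw [h0 _ hb, zero_mul]
        · by_cases hb1 : Λ.lev b.1 = 1
          · rw [h1 _ hb1, zero_mul]
          · have : kid Λ c1 c2 b j = 0 := by
              unfold kid
              rw [if_neg hb, if_neg hb1]
              rfl
            rw [this, mul_zero]
    funext j
    have h3 : Λ.lev j = 0 ∨ Λ.lev j = 1 ∨ Λ.lev j = 2 := by
      generalize Λ.lev j = l
      revert l
      decide
    rcases h3 with h | h | h
    · exact h0 j h
    · exact h1 j h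
    · exact h2 j h
  intro x y hxy
  have h1 : pos Λ c1 c2 (x + y) = 0 := by
    rw [pos_add, hxy]
    funext j
    exact CharTwo.add_self_eq_zero (R := ZMod 2) _
  have h2 := hzero _ h1
  funext j
  have h3 := congrFun h2 j
  exact (CharTwo.add_eq_zero (R := ZMod 2)).1 h3

/-- the grid point of a uniform label vector is uniform, also after an arbitrary shift `v` of the
positions -/
theorem avg_pt {q G : ℕ} (hG : 0 < G) (sp : Fin (n + 1)) (μ : Fin (n + 1) × Fin n → Fin q)
    (v : Fin n → ZMod 2) (f : (Fin (n + 1) → Fin (2 * G)) → ℝ) :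
    avg (fun x => avg fun W => f (place sp (pos Λ c1 c2 x + v) (noise Λ μ W x))) = avg f := by
  have : Nonempty (Fin (2 * G)) := ⟨⟨0, by omega⟩⟩
  have h1 : ∀ x : Fin n → ZMod 2,
      (avg fun W : Fin (n + 1) × (Fin n → ZMod 2) → Fin (2 * G) =>
        f (place sp (pos Λ c1 c2 x + v) (noise Λ μ W x)))
      = avg fun a : Fin (n + 1) → Fin (2 * G) => f (place sp (pos Λ c1 c2 x + v) a) := by
    intro x
    exact one_point (fun a => f (place sp (pos Λ c1 c2 x + v) a)) (fun i => zm Λ μ i x)
  rw [avg_congr h1]
  have hbij : Function.Bijective (fun x => pos Λ c1 c2 x + v) :=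
    (Equiv.addRight v).bijective.comp (pos_bijective Λ c1 c2)
  have h2 := avg_equiv (Equiv.ofBijective _ hbij)
    (fun p : Fin n → ZMod 2 => avg fun a : Fin (n + 1) → Fin (2 * G) => f (place sp p a))
  rw [← avg_place hG sp f, ← h2]
  rfl

end pos

end

end Pool.Agent.Helper38.Stretch
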