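import Pool.Agent.Helper38.Stretch.Kernel
import Pool.Agent.Helper38.Stretch.Noise

/-! Pairs of labels with partially shared noise: the corner argument (module M10, part 1). -/

namespace Pool.Agent.Helper38.Stretch

open Finset

noncomputable section

/-- noise shared on `I`, independent outside -/
def mixI {N M : ℕ} (I : Finset (Fin N)) (ω ω' : Fin N → Fin M) : Fin N → Fin M :=
  fun i => if i ∈ I then ω i else ω' i

/-- move the coordinates in `I` to the corner `y` -/
def cor {N M : ℕ} (hM : 0 < M) (I : Finset (Fin N)) (y : Fin N → Bool) (u : Fin N → Fin M) :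
    Fin N → Fin M :=
  fun i => if i ∈ I then (if y i then ⟨M - 1, by omega⟩ else ⟨0, hM⟩) else u i

lemma bz_t : bz true = 1 := rfl
lemma bz_f : bz false = 0 := rfl

lemma Mono.cor_eq {N M : ℕ} {T : (Fin N → Fin M) → (Fin N → Bool)} (hT : Mono T) (hM : 0 < M)
    (I : Finset (Fin N)) (u : Fin N → Fin M) : T (cor hM I (T u) u) = T u := by
  by_contra hne
  have h := hT _ _ hne
  have hle : ∑ i, (bz (T (cor hM I (T u) u) i) - bz (T u i)) *
      (((cor hM I (T u) u i : ℕ) : ℤ) - ((u i : ℕ) : ℤ)) ≤ 0 := by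
    apply Finset.sum_nonpos
    intro i _
    have h2 := (u i).2
    by_cases hi : i ∈ I
    · have hc : cor hM I (T u) u i = if T u i then ⟨M - 1, by omega⟩ else ⟨0, hM⟩ := by
        simp [cor, hi]
      rw [hc]
      rcases hy : T u i with _ | _ <;> rcases hy' : T (cor hM I (T u) u) i with _ | _ <;>
        simp only [bz_t, bz_f, if_true, if_false, Bool.false_eq_true]
      all_goals first
        | (have : ((u i : ℕ) : ℤ) ≤ ((M - 1 : ℕ) : ℤ) := by
            exact_mod_cast (by omega : (u i : ℕ) ≤ M - 1)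
           nlinarith)
        | (have : (0 : ℤ) ≤ ((u i : ℕ) : ℤ) := by positivity
           simp)
    · have hc : cor hM I (T u) u i = u i := by simp [cor, hi]
      rw [hc]; simp
  linarith

section

variable {n G : ℕ} {A : Finset (Fin (n + 1) → Bool)}
  {T : (Fin (n + 1) → Fin (2 * G)) → (Fin (n + 1) → Bool)} {ε κ : ℝ}
  {Q : (Fin (n + 1) → Bool) → (Fin (n + 1) → Bool) → ℝ}

lemma avg_bal (hG : 0 < G) (hmem : ∀ u, T u ∈ A)
    (hbal : ∀ y, (#{u | T u = y} : ℝ) ≤ (1 + ε) * ((2 * G : ℕ) : ℝ) ^ (n + 1) / 2 ^ n)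
    (φ : (Fin (n + 1) → Bool) → ℝ) (hφ : ∀ y, 0 ≤ φ y) :
    2 ^ n * avg (fun u => φ (T u)) ≤ (1 + ε) * ∑ y ∈ A, φ y := by
  have hM : (0 : ℝ) < ((2 * G : ℕ) : ℝ) ^ (n + 1) := by positivity
  have h1 : ∑ u, φ (T u) = ∑ y ∈ A, (#{u | T u = y} : ℝ) * φ y := by
    rw [← Finset.sum_fiberwise_of_maps_to (g := T) (t := A) (fun u _ => hmem u)]
    apply Finset.sum_congr rfl
    intro y _
    rw [← nsmul_eq_mul, ← Finset.sum_const]
    apply Finset.sum_congr rfl
    intro u hu
    rw [(Finset.mem_filter.1 hu).2]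
  unfold avg
  rw [h1]
  have hcard : ((Fintype.card (Fin (n + 1) → Fin (2 * G)) : ℕ) : ℝ) =
      ((2 * G : ℕ) : ℝ) ^ (n + 1) := by simp
  rw [hcard, ← mul_div_assoc, div_le_iff₀ hM, Finset.mul_sum, Finset.mul_sum, Finset.sum_mul]
  apply Finset.sum_le_sum
  intro y _
  have h2 := hbal y
  rw [le_div_iff₀ (by positivity)] at h2
  calc _ = ((#{u | T u = y} : ℝ) * 2 ^ n) * φ y := by ring
    _ ≤ ((1 + ε) * ((2 * G : ℕ) : ℝ) ^ (n + 1)) * φ y :=
        mul_le_mul_of_nonneg_right h2 (hφ y)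
    _ = _ := by ring

/-- pair sum with noise shared on `I` -/
def Psi (T : (Fin (n + 1) → Fin (2 * G)) → (Fin (n + 1) → Bool))
    (Q : (Fin (n + 1) → Bool) → (Fin (n + 1) → Bool) → ℝ) (sp : Fin (n + 1))
    (I : Finset (Fin (n + 1))) : ℝ :=
  ∑ P : Fin n → ZMod 2, ∑ P' : Fin n → ZMod 2,
    avg fun ω : Fin (n + 1) → Fin (2 * G) => avg fun ω' : Fin (n + 1) → Fin (2 * G) =>
      RK Q (T (place sp P ω)) (T (place sp P' (mixI I ω ω')))

lemma sum_avg_place (hG : 0 < G) (sp : Fin (n + 1)) (f : (Fin (n + 1) → Fin (2 * G)) → ℝ) :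
    ∑ P : Fin n → ZMod 2, avg (fun ω : Fin (n + 1) → Fin (2 * G) => f (place sp P ω)) =
      2 ^ n * avg f := by
  rw [← avg_place hG sp f, sum_eq_card_mul_avg]
  simp

lemma Psi_empty_le (hG : 0 < G) (hQ : Ker (n + 1) Q κ) (hε : 0 ≤ ε) (sp : Fin (n + 1))
    (hmem : ∀ u, T u ∈ A)
    (hbal : ∀ y, (#{u | T u = y} : ℝ) ≤ (1 + ε) * ((2 * G : ℕ) : ℝ) ^ (n + 1) / 2 ^ n) :
    Psi T Q sp ∅ ≤ (1 + ε) ^ 2 * ∑ y ∈ A, ∑ y' ∈ A, RK Q y y' := by
  have h1 : ∀ ω ω' : Fin (n + 1) → Fin (2 * G), mixI ∅ ω ω' = ω' := by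
    intro ω ω'; funext i; simp [mixI]
  unfold Psi
  simp only [h1]
  have h2 : ∀ P : Fin n → ZMod 2, ∑ P' : Fin n → ZMod 2,
      avg (fun ω : Fin (n + 1) → Fin (2 * G) => avg fun ω' : Fin (n + 1) → Fin (2 * G) =>
      RK Q (T (place sp P ω)) (T (place sp P' ω'))) ≤
      avg (fun ω : Fin (n + 1) → Fin (2 * G) =>
        (1 + ε) * ∑ y' ∈ A, RK Q (T (place sp P ω)) y') := by
    intro P
    rw [← avg_sum]
    apply avg_mono
    intro ω
    rw [sum_avg_place hG sp (fun u' => RK Q (T (place sp P ω)) (T u'))]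
    exact avg_bal hG hmem hbal (fun y' => RK Q (T (place sp P ω)) y')
      (fun y' => hQ.RK_nonneg _ _)
  calc _ ≤ ∑ P : Fin n → ZMod 2, avg (fun ω : Fin (n + 1) → Fin (2 * G) =>
        (1 + ε) * ∑ y' ∈ A, RK Q (T (place sp P ω)) y') := Finset.sum_le_sum fun P _ => h2 P
    _ = 2 ^ n * avg (fun u => (1 + ε) * ∑ y' ∈ A, RK Q (T u) y') :=
        sum_avg_place hG sp (fun u => (1 + ε) * ∑ y' ∈ A, RK Q (T u) y')
    _ ≤ (1 + ε) * ∑ y ∈ A, ((1 + ε) * ∑ y' ∈ A, RK Q y y') :=
        avg_bal hG hmem hbal (fun y => (1 + ε) * ∑ y' ∈ A, RK Q y y') (fun y =>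
          mul_nonneg (by linarith) (Finset.sum_nonneg fun y' _ => hQ.RK_nonneg _ _))
    _ = _ := by rw [← Finset.mul_sum]; ring

lemma cor_mix (hM : 0 < 2 * G) (sp : Fin (n + 1)) (I : Finset (Fin (n + 1)))
    (y : Fin (n + 1) → Bool) (P : Fin n → ZMod 2) (ω ω' : Fin (n + 1) → Fin (2 * G)) :
    cor hM I y (place sp P (mixI I ω ω')) = cor hM I y (place sp P ω') := by
  funext i
  unfold cor
  split_ifs with hi
  · rfl
  · rfl
  · rcases Fin.eq_self_or_eq_succAbove sp i with rfl | ⟨k, rfl⟩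
    · rw [place_sp, place_sp]; simp [mixI, hi]
    · rw [place_succAbove, place_succAbove]; simp [mixI, hi]

lemma card_cor_le (hM : 0 < 2 * G) (I : Finset (Fin (n + 1)))
    (T : (Fin (n + 1) → Fin (2 * G)) → (Fin (n + 1) → Bool)) (u : Fin (n + 1) → Fin (2 * G)) :
    #{y | T (cor hM I y u) = y} ≤ 2 ^ #I := by
  classical
  have h1 : #{y | T (cor hM I y u) = y} ≤ Fintype.card (I → Bool) := by
    rw [← Finset.card_univ]
    apply Finset.card_le_card_of_injOn (fun (y : Fin (n + 1) → Bool) (i : I) => y i)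
    · intro y _; exact Finset.mem_univ _
    · intro y hy z hz h
      simp only [Finset.coe_filter, Finset.mem_univ, true_and, Set.mem_setOf_eq] at hy hz
      rw [← hy, ← hz]
      congr 1
      funext i
      unfold cor
      by_cases hi : i ∈ I
      · have := congrFun h ⟨i, hi⟩
        simp only at this
        simp [hi, this]
      · simp [hi]
  simpa using h1

lemma Psi_le (hG : 0 < G) (hT : Mono T) (hQ : Ker (n + 1) Q κ) (hε : 0 ≤ ε) (sp : Fin (n + 1))
    (hmem : ∀ u, T u ∈ A)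
    (hbal : ∀ y, (#{u | T u = y} : ℝ) ≤ (1 + ε) * ((2 * G : ℕ) : ℝ) ^ (n + 1) / 2 ^ n)
    (I : Finset (Fin (n + 1))) :
    Psi T Q sp I ≤ (1 + ε) * 2 ^ n * 2 ^ #I := by
  have hM : 0 < 2 * G := by omega
  have hne : Nonempty (Fin (2 * G)) := ⟨⟨0, hM⟩⟩
  have hpt : ∀ (P P' : Fin n → ZMod 2) (ω ω' : Fin (n + 1) → Fin (2 * G)),
      RK Q (T (place sp P ω)) (T (place sp P' (mixI I ω ω'))) ≤
      ∑ y', RK Q (T (place sp P ω)) y' *
        (if T (cor hM I y' (place sp P' ω')) = y' then 1 else 0) := by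
    intro P P' ω ω'
    set y' := T (place sp P' (mixI I ω ω')) with hy'
    have h1 : T (cor hM I y' (place sp P' ω')) = y' := by
      rw [← cor_mix hM sp I y' P' ω ω', hy']
      exact hT.cor_eq hM I _
    have h2 : RK Q (T (place sp P ω)) y' = RK Q (T (place sp P ω)) y' *
        (if T (cor hM I y' (place sp P' ω')) = y' then 1 else 0) := by
      rw [if_pos h1, mul_one]
    rw [h2]
    exact Finset.single_le_sum (f := fun y' => RK Q (T (place sp P ω)) y' *
        (if T (cor hM I y' (place sp P' ω')) = y' then 1 else 0))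
      (fun y _ => mul_nonneg (hQ.RK_nonneg _ _) (by split_ifs <;> norm_num)) (Finset.mem_univ y')
  calc Psi T Q sp I ≤ ∑ P : Fin n → ZMod 2, ∑ P' : Fin n → ZMod 2,
      avg fun ω : Fin (n + 1) → Fin (2 * G) => avg fun ω' : Fin (n + 1) → Fin (2 * G) =>
        ∑ y', RK Q (T (place sp P ω)) y' *
        (if T (cor hM I y' (place sp P' ω')) = y' then 1 else 0) := by
        unfold Psi
        exact Finset.sum_le_sum fun P _ => Finset.sum_le_sum fun P' _ =>
          avg_mono fun ω => avg_mono fun ω' => hpt P P' ω ω'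
    _ = ∑ y', (2 ^ n * avg (fun u => RK Q (T u) y')) *
          (2 ^ n * avg (fun u => if T (cor hM I y' u) = y' then (1 : ℝ) else 0)) := by
        simp only [avg_sum, avg_mul_left, avg_mul_right]
        simp_rw [Finset.sum_comm (s := (univ : Finset (Fin n → ZMod 2)))
          (t := (univ : Finset (Fin (n + 1) → Bool)))]
        apply Finset.sum_congr rfl
        intro y' _
        simp only [← Finset.mul_sum]
        rw [sum_avg_place hG sp (fun u => if T (cor hM I y' u) = y' then (1 : ℝ) else 0),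
          ← Finset.sum_mul, sum_avg_place hG sp (fun u => RK Q (T u) y')]
    _ ≤ ∑ y', (1 + ε) *
          (2 ^ n * avg (fun u => if T (cor hM I y' u) = y' then (1 : ℝ) else 0)) := by
        apply Finset.sum_le_sum
        intro y' _
        apply mul_le_mul_of_nonneg_right
        · refine (avg_bal hG hmem hbal (fun y => RK Q y y') (fun y => hQ.RK_nonneg _ _)).trans ?_
          have h3 : ∑ y ∈ A, RK Q y y' ≤ 1 := by
            rw [← hQ.sum_RK y']
            simp only [RK_comm _ y']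
            exact Finset.sum_le_sum_of_subset_of_nonneg (Finset.subset_univ A)
              (fun y _ _ => hQ.RK_nonneg _ _)
          nlinarith
        · exact mul_nonneg (by positivity) (avg_nonneg fun u => by split_ifs <;> norm_num)
    _ = (1 + ε) * 2 ^ n * avg (fun u => ∑ y', if T (cor hM I y' u) = y' then (1 : ℝ) else 0) := by
        rw [avg_sum, Finset.mul_sum]
        apply Finset.sum_congr rfl
        intro y' _
        ring
    _ ≤ (1 + ε) * 2 ^ n * 2 ^ #I := by
        apply mul_le_mul_of_nonneg_left _ (by positivity)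
        apply avg_le_of_le
        intro u
        rw [Finset.sum_boole]
        exact_mod_cast card_cor_le hM I T u

end

end

end Pool.Agent.Helper38.Stretch
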