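import Pool.Agent.Helper38.Stretch.Avg

/-! Basic definitions for MP_621e06_co (helper file). -/

namespace Pool.Agent.Helper38.Stretch

open Finset

noncomputable section

/-- which half of the grid `Fin M` (`M` even) the point `a` lies in -/
def side {M : ℕ} (a : Fin M) : Bool := decide (M ≤ 2 * (a : ℕ))

/-- (normalised) distance to the middle of the grid -/
def om {M : ℕ} (a : Fin M) : ℝ := |2 * ((a : ℕ) : ℝ) + 1 - M| / M

/-- transport cost from a grid point to a vertex of the cube -/
def cost {N M : ℕ} (u : Fin N → Fin M) (y : Fin N → Bool) : ℝ :=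
  ∑ i, if side (u i) = y i then 0 else om (u i)

/-- `0/1` value of a boolean -/
def bz (b : Bool) : ℤ := if b then 1 else 0

/-- strict monotonicity of a map from the grid to the cube -/
def Mono {N M : ℕ} (T : (Fin N → Fin M) → (Fin N → Bool)) : Prop :=
  ∀ u v, T u ≠ T v → 0 < ∑ i, (bz (T u i) - bz (T v i)) * (((u i : ℕ) : ℤ) - ((v i : ℕ) : ℤ))

/-- number of points on the line through `u` in direction `j` at which the `j`-th coordinate of
`T` is `false` -/
def thr {N M : ℕ} (T : (Fin N → Fin M) → (Fin N → Bool)) (j : Fin N) (u : Fin N → Fin M) : ℕ :=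
  #{a : Fin M | T (Function.update u j a) j = false}

/-- length of the chord of the cell of `u` through `u` in direction `j` -/
def chord {N M : ℕ} (T : (Fin N → Fin M) → (Fin N → Bool)) (j : Fin N) (u : Fin N → Fin M) : ℕ :=
  #{a : Fin M | T (Function.update u j a) = T u}

/-- index of `u` on its chord, counted from the corner `T u` -/
def rr {N M : ℕ} (T : (Fin N → Fin M) → (Fin N → Bool)) (j : Fin N) (u : Fin N → Fin M) : ℕ :=
  if T u j then M - (u j : ℕ) else (u j : ℕ) + 1

/-- Hamming size of the jump on the line through `u` in direction `j` -/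
def jump {N M : ℕ} (T : (Fin N → Fin M) → (Fin N → Bool)) (j : Fin N) (u : Fin N → Fin M) : ℕ :=
  (univ : Finset (Fin M × Fin M)).sup fun p =>
    hammingDist (T (Function.update u j p.1)) (T (Function.update u j p.2))

/-- normalised distance of the jump location from the middle -/
def wid {N M : ℕ} (T : (Fin N → Fin M) → (Fin N → Bool)) (j : Fin N) (u : Fin N → Fin M) : ℝ :=
  |2 * (thr T j u : ℝ) / M - 1|

/-- the set of coordinates moved by `T` -/
def Sset {N M : ℕ} (T : (Fin N → Fin M) → (Fin N → Bool)) (u : Fin N → Fin M) : Finset (Fin N) :=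
  {i | side (u i) ≠ T u i}

end

end Pool.Agent.Helper38.Stretch
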