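import Mathlib

/-! Entropy inequality for down-closed sets (modules M3/M4), see notes. -/

namespace Pool.Agent.Helper38.Stretch

open Finset

noncomputable section

/-- chord length of `C` through `r` in direction `j` -/
def Lc {N : ℕ} (M : ℕ) (C : Finset (Fin N → ℕ)) (j : Fin N) (r : Fin N → ℕ) : ℕ :=
  #{a ∈ Icc 1 M | Function.update r j a ∈ C}

/-- one-dimensional lemma.
Proof: `log x ≥ log g + 1 - g/x` with `x = V/(c(a) L(b))`, `g = 2` if `τ < a`, else `1`; then
`∑_b ∑_{a ≤ L b} g c(a) L(b) ≤ V² + C_{>τ} (∑_{L>τ} L - ∑_{L≤τ} L) - c(τ) ∑_b L(b) (τ-L(b))^+`,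
`c(τ) ≥ V/(2M)`, and `∑_b (L b - τ)^+ ≥ ∑_b L b (L b - τ)^+ / M`. -/
theorem entropy_1d {β : Type*} [DecidableEq β] (M : ℕ) (hM : 0 < M) (B : Finset β) (L : β → ℕ)
    (hL : ∀ b ∈ B, 1 ≤ L b ∧ L b ≤ M) (τ : ℕ)
    (h1 : 2 * ∑ b ∈ B with τ < L b, L b ≤ ∑ b ∈ B, L b)
    (h2 : ∑ b ∈ B, L b ≤ 2 * ∑ b ∈ B with τ ≤ L b, L b) :
    ∑ b ∈ B, (L b : ℝ) * (Real.log (L b) + |(L b : ℝ) - τ| / (2 * M)) ≤
      ∑ b ∈ B, ∑ a ∈ Icc 1 (L b),
        Real.log ((∑ b' ∈ B, L b' : ℕ) / (#{b' ∈ B | a ≤ L b'} : ℝ)) := by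
  classical
  rcases B.eq_empty_or_nonempty with hB | hB
  · subst hB; simp
  set V : ℕ := ∑ b' ∈ B, L b' with hV
  set c : ℕ → ℕ := fun a => #{b' ∈ B | a ≤ L b'} with hc
  have hVpos : 0 < V := by
    obtain ⟨b, hb⟩ := hB
    exact lt_of_lt_of_le (hL b hb).1 (Finset.single_le_sum (f := L) (fun _ _ => Nat.zero_le _) hb)
  have hVr : (0 : ℝ) < V := by exact_mod_cast hVpos
  have hMr : (0 : ℝ) < M := by exact_mod_cast hM
  -- τ ≤ M
  have hτM : τ ≤ M := by
    by_contra hcon
    have : (B.filter fun b => τ ≤ L b) = ∅ := by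
      apply Finset.filter_eq_empty_iff.2
      intro b hb
      have := (hL b hb).2
      omega
    rw [this] at h2
    simp only [Finset.sum_empty, mul_zero] at h2
    omega
  -- c antitone
  have hcanti : ∀ a a', a ≤ a' → c a' ≤ c a := by
    intro a a' h
    apply Finset.card_le_card
    intro b hb
    simp only [Finset.mem_filter] at hb ⊢
    exact ⟨hb.1, by omega⟩
  -- total sum
  have hctot : ∑ a ∈ Ioc 0 M, c a = V := by
    have : ∀ a, c a = ∑ b ∈ B, if a ≤ L b then 1 else 0 := fun a => Finset.card_filter _ _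
    simp only [this]
    rw [Finset.sum_comm]
    rw [hV]
    apply Finset.sum_congr rfl
    intro b hb
    rw [← Finset.card_filter]
    have : (Ioc 0 M).filter (fun a => a ≤ L b) = Ioc 0 (L b) := by
      ext a
      have := (hL b hb).2
      simp only [Finset.mem_filter, Finset.mem_Ioc]
      omega
    rw [this]
    simp
  set C : ℝ := ∑ a ∈ Ioc τ M, (c a : ℝ) with hC
  have hC0 : 0 ≤ C := Finset.sum_nonneg fun _ _ => Nat.cast_nonneg _
  have hctotr : ∑ a ∈ Ioc 0 M, (c a : ℝ) = V := by exact_mod_cast hctot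
  have hVC : ∑ a ∈ Ioc 0 τ, (c a : ℝ) = V - C := by
    have := Finset.sum_Ioc_consecutive (fun a => (c a : ℝ)) (Nat.zero_le τ) hτM
    rw [hctotr] at this
    linarith
  -- c τ ≥ V / (2 M)
  have hcτ : (V : ℝ) / (2 * M) ≤ c τ := by
    have h3 : ∑ b ∈ B with τ ≤ L b, L b ≤ c τ * M := by
      calc ∑ b ∈ B with τ ≤ L b, L b ≤ ∑ b ∈ B with τ ≤ L b, M := by
            apply Finset.sum_le_sum
            intro b hb
            exact (hL b (Finset.mem_filter.1 hb).1).2
        _ = c τ * M := by simp [hc]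
    have h4 : (V : ℝ) ≤ 2 * (c τ * M) := by exact_mod_cast le_trans h2 (Nat.mul_le_mul_left 2 h3)
    rw [div_le_iff₀ (by positivity)]
    linarith
  -- per-b bound
  have key : ∀ b ∈ B, (L b : ℝ) * (Real.log (L b) + |(L b : ℝ) - τ| / (2 * M))
      + (C / V) * (if L b ≤ τ then (L b : ℝ) else - (L b : ℝ)) ≤
      ∑ a ∈ Icc 1 (L b), Real.log ((V : ℝ) / (c a : ℝ)) := by
    intro b hb
    have hLb1 : 1 ≤ L b := (hL b hb).1
    have hLbM : L b ≤ M := (hL b hb).2
    have hLbr : (0 : ℝ) < L b := by exact_mod_cast hLb1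
    have hIcc : Icc 1 (L b) = Ioc 0 (L b) := by
      ext a; simp only [Finset.mem_Icc, Finset.mem_Ioc]; omega
    have hcpos : ∀ a ∈ Ioc 0 (L b), (0 : ℝ) < c a := by
      intro a ha
      have : 0 < c a := by
        apply Finset.card_pos.2
        exact ⟨b, by simp only [Finset.mem_filter]; exact ⟨hb, (Finset.mem_Ioc.1 ha).2⟩⟩
      exact_mod_cast this
    rw [hIcc]
    -- pointwise
    have hpt : ∀ (g : ℝ), 0 < g → ∀ a ∈ Ioc 0 (L b),
        Real.log (L b) + (Real.log g + 1 - g * c a * L b / V) ≤ Real.log ((V : ℝ) / c a) := by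
      intro g hg a ha
      have hca := hcpos a ha
      have hx : 0 < (V : ℝ) / (c a * L b) := by positivity
      have hlog : Real.log ((V : ℝ) / c a) = Real.log (L b) + Real.log ((V : ℝ) / (c a * L b)) := by
        rw [← Real.log_mul hLbr.ne' hx.ne']
        congr 1
        field_simp
      have hlog2 : Real.log g + 1 - g * c a * L b / V ≤ Real.log ((V : ℝ) / (c a * L b)) := by
        have h := Real.add_one_le_exp (Real.log (g / ((V : ℝ) / (c a * L b))))
        rw [Real.exp_log (by positivity)] at h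
        rw [Real.log_div hg.ne' hx.ne'] at h
        have h5 : g / ((V : ℝ) / (c a * L b)) = g * c a * L b / V := by
          field_simp
        rw [h5] at h
        linarith
      rw [hlog]
      linarith
    by_cases hle : L b ≤ τ
    · simp only [hle, if_true]
      have hsum : ∑ a ∈ Ioc 0 (L b), (Real.log (L b) + (Real.log 1 + 1 - 1 * c a * L b / V)) ≤
          ∑ a ∈ Ioc 0 (L b), Real.log ((V : ℝ) / (c a : ℝ)) :=
        Finset.sum_le_sum (fun a ha => hpt 1 one_pos a ha)
      have heq : ∑ a ∈ Ioc 0 (L b), (Real.log (L b) + (Real.log 1 + 1 - 1 * c a * L b / V)) =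
          L b * Real.log (L b) + L b - (L b / V) * ∑ a ∈ Ioc 0 (L b), (c a : ℝ) := by
        rw [Finset.mul_sum]
        simp only [Real.log_one, zero_add, one_mul]
        rw [Finset.sum_add_distrib, Finset.sum_sub_distrib]
        simp only [Finset.sum_const, Nat.card_Ioc, nsmul_eq_mul, Nat.sub_zero, mul_one]
        have : ∀ a, (c a : ℝ) * L b / V = L b / V * c a := by intro a; ring
        simp only [this]
        ring
      -- upper bound on the partial sum of c
      have hpart : ∑ a ∈ Ioc 0 (L b), (c a : ℝ) ≤ V - C - c τ * (τ - L b) := by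
        have e1 := Finset.sum_Ioc_consecutive (fun a => (c a : ℝ)) (Nat.zero_le (L b)) hle
        have e2 : (c τ : ℝ) * (τ - L b) ≤ ∑ a ∈ Ioc (L b) τ, (c a : ℝ) := by
          have : ∑ a ∈ Ioc (L b) τ, (c τ : ℝ) ≤ ∑ a ∈ Ioc (L b) τ, (c a : ℝ) := by
            apply Finset.sum_le_sum
            intro a ha
            exact_mod_cast hcanti a τ (Finset.mem_Ioc.1 ha).2
          simp only [Finset.sum_const, Nat.card_Ioc, nsmul_eq_mul] at this
          rw [Nat.cast_sub hle] at this
          linarith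
        linarith
      have habs : |(L b : ℝ) - τ| = τ - L b := by
        rw [abs_sub_comm, abs_of_nonneg]
        have : (L b : ℝ) ≤ τ := by exact_mod_cast hle
        linarith
      rw [habs]
      have hd : (0 : ℝ) ≤ τ - L b := by
        have : (L b : ℝ) ≤ τ := by exact_mod_cast hle
        linarith
      have h6 : (L b / V : ℝ) * ∑ a ∈ Ioc 0 (L b), (c a : ℝ) ≤
          (L b / V) * (V - C - c τ * (τ - L b)) :=
        mul_le_mul_of_nonneg_left hpart (by positivity)
      have h7 : (L b / V : ℝ) * (V - C - c τ * (τ - L b)) =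
          L b - C / V * L b - (L b / V) * (c τ * (τ - L b)) := by
        field_simp
      have h8 : (L b : ℝ) * ((τ - L b) / (2 * M)) ≤ (L b / V) * (c τ * (τ - L b)) := by
        have : (L b : ℝ) * ((τ - L b) / (2 * M)) = (L b / V) * ((V / (2 * M)) * (τ - L b)) := by
          field_simp
        rw [this]
        apply mul_le_mul_of_nonneg_left _ (by positivity)
        exact mul_le_mul_of_nonneg_right hcτ hd
      linarith
    · simp only [hle, if_false]
      have hlt : τ < L b := not_le.1 hle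
      have hlt' : (τ : ℝ) < L b := by exact_mod_cast hlt
      have hsum1 : ∑ a ∈ Ioc 0 τ, (Real.log (L b) + (Real.log 1 + 1 - 1 * c a * L b / V)) ≤
          ∑ a ∈ Ioc 0 τ, Real.log ((V : ℝ) / (c a : ℝ)) := by
        apply Finset.sum_le_sum
        intro a ha
        apply hpt 1 one_pos a
        simp only [Finset.mem_Ioc] at ha ⊢
        omega
      have hsum2 : ∑ a ∈ Ioc τ (L b), (Real.log (L b) + (Real.log 2 + 1 - 2 * c a * L b / V)) ≤
          ∑ a ∈ Ioc τ (L b), Real.log ((V : ℝ) / (c a : ℝ)) := by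
        apply Finset.sum_le_sum
        intro a ha
        apply hpt 2 two_pos a
        simp only [Finset.mem_Ioc] at ha ⊢
        omega
      have hcons := Finset.sum_Ioc_consecutive (fun a => Real.log ((V : ℝ) / (c a : ℝ)))
        (Nat.zero_le τ) hlt.le
      have heq1 : ∑ a ∈ Ioc 0 τ, (Real.log (L b) + (Real.log 1 + 1 - 1 * c a * L b / V)) =
          τ * Real.log (L b) + τ - (L b / V) * ∑ a ∈ Ioc 0 τ, (c a : ℝ) := by
        rw [Finset.mul_sum]
        simp only [Real.log_one, zero_add, one_mul]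
        rw [Finset.sum_add_distrib, Finset.sum_sub_distrib]
        simp only [Finset.sum_const, Nat.card_Ioc, nsmul_eq_mul, Nat.sub_zero, mul_one]
        have : ∀ a, (c a : ℝ) * L b / V = L b / V * c a := by intro a; ring
        simp only [this]
        ring
      have heq2 : ∑ a ∈ Ioc τ (L b), (Real.log (L b) + (Real.log 2 + 1 - 2 * c a * L b / V)) =
          (L b - τ) * Real.log (L b) + (L b - τ) * (Real.log 2 + 1)
            - 2 * ((L b / V) * ∑ a ∈ Ioc τ (L b), (c a : ℝ)) := by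
        rw [Finset.mul_sum, Finset.mul_sum]
        rw [Finset.sum_add_distrib, Finset.sum_sub_distrib]
        simp only [Finset.sum_const, Nat.card_Ioc, nsmul_eq_mul]
        rw [Nat.cast_sub hlt.le]
        have : ∀ a, 2 * (c a : ℝ) * L b / V = 2 * (L b / V * c a) := by intro a; ring
        simp only [this]
        ring
      have hpart : ∑ a ∈ Ioc τ (L b), (c a : ℝ) ≤ C := by
        have := Finset.sum_Ioc_consecutive (fun a => (c a : ℝ)) hlt.le hLbM
        have h0 : 0 ≤ ∑ a ∈ Ioc (L b) M, (c a : ℝ) := Finset.sum_nonneg fun _ _ => Nat.cast_nonneg _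
        linarith
      have h6 : (L b / V : ℝ) * ∑ a ∈ Ioc τ (L b), (c a : ℝ) ≤ (L b / V) * C :=
        mul_le_mul_of_nonneg_left hpart (by positivity)
      have h7 : (L b / V : ℝ) * ∑ a ∈ Ioc 0 τ, (c a : ℝ) = L b - (L b / V) * C := by
        rw [hVC]; field_simp
      have habs : |(L b : ℝ) - τ| = L b - τ := abs_of_pos (by linarith)
      rw [habs]
      have hlog2 : (1 : ℝ) / 2 ≤ Real.log 2 := by
        have := Real.log_two_gt_d9
        linarith
      have h8 : (L b : ℝ) * ((L b - τ) / (2 * M)) ≤ (L b - τ) * Real.log 2 := by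
        have hLM : (L b : ℝ) ≤ M := by exact_mod_cast hLbM
        have : (L b : ℝ) * ((L b - τ) / (2 * M)) ≤ (L b - τ) * (1 / 2) := by
          rw [mul_div_assoc', div_le_iff₀ (by positivity)]
          have h10 : (L b : ℝ) * (L b - τ) ≤ M * (L b - τ) :=
            mul_le_mul_of_nonneg_right hLM (by linarith)
          calc (L b : ℝ) * (L b - τ) ≤ M * (L b - τ) := h10
            _ = (L b - τ) * (1 / 2) * (2 * M) := by ring
        exact le_trans this (mul_le_mul_of_nonneg_left hlog2 (by linarith))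
      have h9 : C / V * -(L b : ℝ) = - ((L b / V) * C) := by ring
      rw [h9]
      rw [heq1] at hsum1
      rw [heq2] at hsum2
      rw [h7] at hsum1
      rw [← hcons]
      have e1 : (L b : ℝ) * (Real.log (L b) + (L b - τ) / (2 * M)) =
          τ * Real.log (L b) + (L b - τ) * Real.log (L b) + L b * ((L b - τ) / (2 * M)) := by ring
      have e2 : ((L b : ℝ) - τ) * (Real.log 2 + 1) = (L b - τ) * Real.log 2 + (L b - τ) := by ring
      rw [e1]
      rw [e2] at hsum2
      linarith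
  have hfin := Finset.sum_le_sum key
  rw [Finset.sum_add_distrib, ← Finset.mul_sum] at hfin
  have hsgn : 0 ≤ ∑ b ∈ B, (if L b ≤ τ then (L b : ℝ) else - (L b : ℝ)) := by
    rw [Finset.sum_ite, Finset.sum_neg_distrib]
    have e1 : (∑ b ∈ B with L b ≤ τ, (L b : ℝ)) + ∑ b ∈ B with ¬ L b ≤ τ, (L b : ℝ) = V := by
      rw [Finset.sum_filter_add_sum_filter_not]
      rw [hV]; push_cast; rfl
    have e2 : (2 : ℝ) * ∑ b ∈ B with ¬ L b ≤ τ, (L b : ℝ) ≤ V := by
      have : (B.filter fun b => ¬ L b ≤ τ) = B.filter fun b => τ < L b := by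
        ext b; simp only [Finset.mem_filter, not_le]
      rw [this]
      exact_mod_cast h1
    linarith
  have : 0 ≤ C / V * ∑ b ∈ B, (if L b ≤ τ then (L b : ℝ) else - (L b : ℝ)) :=
    mul_nonneg (div_nonneg hC0 hVr.le) hsgn
  exact le_trans (le_add_of_nonneg_right this) hfin

/-- slice of a set of functions at first coordinate `a` -/
def slice {N : ℕ} (C : Finset (Fin (N + 1) → ℕ)) (a : ℕ) : Finset (Fin N → ℕ) :=
  (C.filter fun r => r 0 = a).image Fin.tail

lemma mem_slice {N : ℕ} {C : Finset (Fin (N + 1) → ℕ)} {a : ℕ} {w : Fin N → ℕ} :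
    w ∈ slice C a ↔ (Fin.cons a w : Fin (N + 1) → ℕ) ∈ C := by
  unfold slice
  simp only [mem_image, mem_filter]
  constructor
  · rintro ⟨r, ⟨hr, h0⟩, rfl⟩
    rw [← h0]; rwa [Fin.cons_self_tail]
  · intro h
    exact ⟨_, ⟨h, by simp⟩, by simp⟩

lemma sum_slice {N M : ℕ} {C : Finset (Fin (N + 1) → ℕ)} (hC : ∀ r ∈ C, 1 ≤ r 0 ∧ r 0 ≤ M)
    (f : (Fin (N + 1) → ℕ) → ℝ) :
    ∑ r ∈ C, f r = ∑ a ∈ Icc 1 M, ∑ w ∈ slice C a, f (Fin.cons a w) := by
  rw [← Finset.sum_fiberwise_of_maps_to (g := fun r : Fin (N + 1) → ℕ => r 0) (t := Icc 1 M)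
    (fun r hr => Finset.mem_Icc.2 (hC r hr))]
  apply Finset.sum_congr rfl
  intro a _
  unfold slice
  rw [Finset.sum_image]
  · apply Finset.sum_congr rfl
    intro r hr
    have h0 : r 0 = a := (Finset.mem_filter.1 hr).2
    rw [← h0, Fin.cons_self_tail]
  · intro r hr r' hr' h
    have h0 : r 0 = a := (Finset.mem_filter.1 (Finset.mem_coe.1 hr)).2
    have h0' : r' 0 = a := (Finset.mem_filter.1 (Finset.mem_coe.1 hr')).2
    rw [← Fin.cons_self_tail r, ← Fin.cons_self_tail r', h0, h0', h]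

lemma down_card {M : ℕ} (S : Finset ℕ) (hS : ∀ a ∈ S, 1 ≤ a ∧ a ≤ M)
    (hd : ∀ a ∈ S, ∀ a', 1 ≤ a' → a' ≤ a → a' ∈ S) (a : ℕ) (ha : 1 ≤ a) :
    a ∈ S ↔ a ≤ #S := by
  constructor
  · intro h
    have : Icc 1 a ⊆ S := by
      intro b hb
      rw [Finset.mem_Icc] at hb
      exact hd a h b hb.1 hb.2
    simpa using Finset.card_le_card this
  · intro h
    by_contra hcon
    have : S ⊆ Icc 1 (a - 1) := by
      intro b hb
      rw [Finset.mem_Icc]
      refine ⟨(hS b hb).1, ?_⟩
      by_contra hlt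
      exact hcon (hd b hb a ha (by omega))
    have := Finset.card_le_card this
    simp only [Nat.card_Icc] at this
    omega

/-- existence of a weighted median -/
lemma exists_median {β : Type*} [DecidableEq β] (M : ℕ) (B : Finset β) (L : β → ℕ)
    (hL : ∀ b ∈ B, L b ≤ M) :
    ∃ τ, 2 * ∑ b ∈ B with τ < L b, L b ≤ ∑ b ∈ B, L b ∧
      ∑ b ∈ B, L b ≤ 2 * ∑ b ∈ B with τ ≤ L b, L b := by
  classical
  let P : ℕ → Prop := fun t => ∑ b ∈ B, L b ≤ 2 * ∑ b ∈ B with t ≤ L b, L b
  have hP0 : P 0 := by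
    show ∑ b ∈ B, L b ≤ 2 * ∑ b ∈ B with 0 ≤ L b, L b
    have : (B.filter fun b => 0 ≤ L b) = B := by
      apply Finset.filter_true_of_mem
      intro b _; exact Nat.zero_le _
    rw [this]
    omega
  refine ⟨Nat.findGreatest P M, ?_, Nat.findGreatest_spec (P := P) (Nat.zero_le M) hP0⟩
  by_cases hM : Nat.findGreatest P M = M
  · rw [hM]
    have : (B.filter fun b => M < L b) = ∅ := by
      apply Finset.filter_eq_empty_iff.2
      intro b hb
      have := hL b hb
      omega
    rw [this]; simp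
  · have hlt : Nat.findGreatest P M + 1 ≤ M := by
      have := Nat.findGreatest_le (P := P) M
      omega
    have hnot := Nat.findGreatest_is_greatest (P := P) (Nat.lt_succ_self _) hlt
    have h3 : ¬ (∑ b ∈ B, L b ≤ 2 * ∑ b ∈ B with Nat.findGreatest P M + 1 ≤ L b, L b) := hnot
    have h4 : (B.filter fun b => Nat.findGreatest P M < L b)
        = B.filter fun b => Nat.findGreatest P M + 1 ≤ L b := by
      ext b; simp only [Finset.mem_filter, Nat.succ_le_iff]
    rw [h4]
    omega

lemma card_near (M τ : ℕ) (x : ℝ) (hx : 0 ≤ x) :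
    (#{a ∈ Icc 1 M | |((a : ℕ) : ℝ) - τ| ≤ x} : ℝ) ≤ 2 * x + 1 := by
  have hsub : ({a ∈ Icc 1 M | |((a : ℕ) : ℝ) - τ| ≤ x} : Finset ℕ) ⊆
      Icc (τ - ⌊x⌋₊) (τ + ⌊x⌋₊) := by
    intro a ha
    rw [Finset.mem_filter] at ha
    have h := abs_le.1 ha.2
    rw [Finset.mem_Icc]
    constructor
    · by_contra hcon
      have h1 : a + 1 + ⌊x⌋₊ ≤ τ := by omega
      have h2 : (a : ℝ) + 1 + ⌊x⌋₊ ≤ τ := by exact_mod_cast h1
      have h3 := Nat.lt_floor_add_one x
      linarith [h.1]
    · by_contra hcon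
      have h1 : τ + ⌊x⌋₊ + 1 ≤ a := by omega
      have h2 : (τ : ℝ) + ⌊x⌋₊ + 1 ≤ a := by exact_mod_cast h1
      have h3 := Nat.lt_floor_add_one x
      linarith [h.2]
  have hcard := Finset.card_le_card hsub
  have h5 : #(Icc (τ - ⌊x⌋₊) (τ + ⌊x⌋₊)) ≤ 2 * ⌊x⌋₊ + 1 := by
    rw [Nat.card_Icc]; omega
  have h6 : (#{a ∈ Icc 1 M | |((a : ℕ) : ℝ) - τ| ≤ x} : ℝ) ≤ 2 * (⌊x⌋₊ : ℝ) + 1 := by
    exact_mod_cast le_trans hcard h5
  have h7 := Nat.floor_le hx
  linarith

theorem entropy_cell (M : ℕ) (hM : 0 < M) (N : ℕ) (C : Finset (Fin N → ℕ))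
    (hC : ∀ r ∈ C, ∀ i, 1 ≤ r i ∧ r i ≤ M)
    (hdown : ∀ r ∈ C, ∀ r' : Fin N → ℕ, (∀ i, 1 ≤ r' i ∧ r' i ≤ r i) → r' ∈ C) :
    ∃ τ : Fin N → (Fin N → ℕ) → ℕ,
      (∀ j r a, τ j (Function.update r j a) = τ j r) ∧
      (∑ r ∈ C, ∑ j, (Real.log (Lc M C j r) + |(Lc M C j r : ℝ) - τ j r| / (2 * M))
        ≤ #C * Real.log #C) ∧
      (∀ x : ℝ, 0 ≤ x → x ≤ M / 8 →
        ∑ r ∈ C, (2 : ℝ) ^ (#{j | |(r j : ℝ) - τ j r| ≤ x ∧ (M : ℝ) / 4 ≤ τ j r})
          ≤ #C * (1 + 8 * (2 * x + 1) / M) ^ N) := by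
  classical
  have hMr : (0 : ℝ) < M := by exact_mod_cast hM
  induction N with
  | zero =>
    refine ⟨fun j => j.elim0, fun j => j.elim0, ?_, ?_⟩
    · simp only [Finset.univ_eq_empty, Finset.sum_empty, Finset.sum_const_zero]
      have h1 : #C ≤ 1 := Finset.card_le_one_of_subsingleton C
      have h2 : #C = 0 ∨ #C = 1 := by omega
      rcases h2 with h | h <;> simp [h]
    · intro x _ _
      simp
  | succ N ih =>
    -- slices
    have hslice : ∀ a, (∀ r ∈ slice C a, ∀ i, 1 ≤ r i ∧ r i ≤ M) ∧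
        (∀ r ∈ slice C a, ∀ r' : Fin N → ℕ, (∀ i, 1 ≤ r' i ∧ r' i ≤ r i) → r' ∈ slice C a) := by
      intro a
      constructor
      · intro r hr i
        have := hC _ (mem_slice.1 hr) i.succ
        simpa using this
      · intro r hr r' h
        rw [mem_slice] at hr ⊢
        apply hdown _ hr
        intro i
        refine Fin.cases ?_ (fun j => ?_) i
        · simp only [Fin.cons_zero]
          have := (hC _ hr 0).1
          simp only [Fin.cons_zero] at this
          exact ⟨this, le_refl _⟩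
        · simpa using h j
    choose τs hτ0 hτ1 hτ2 using fun a => ih (slice C a) (hslice a).1 (hslice a).2
    have hC0 : ∀ r ∈ C, 1 ≤ r 0 ∧ r 0 ≤ M := fun r hr => hC r hr 0
    -- chord lengths in the first direction
    set L : (Fin N → ℕ) → ℕ := fun w => #{a ∈ Icc 1 M | w ∈ slice C a} with hLdef
    set B : Finset (Fin N → ℕ) := slice C 1 with hB
    have hmono : ∀ w a a', 1 ≤ a' → a' ≤ a → w ∈ slice C a → w ∈ slice C a' := by
      intro w a a' h1 h2 hw
      rw [mem_slice] at hw ⊢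
      apply hdown _ hw
      intro i
      refine Fin.cases ?_ (fun j => ?_) i
      · simp only [Fin.cons_zero]; exact ⟨h1, h2⟩
      · simp only [Fin.cons_succ]
        have := (hC _ hw j.succ).1
        simp only [Fin.cons_succ] at this
        exact ⟨this, le_refl _⟩
    have hsliceM : ∀ w a, w ∈ slice C a → 1 ≤ a ∧ a ≤ M := by
      intro w a hw
      have := hC _ (mem_slice.1 hw) 0
      simpa using this
    have hmemL : ∀ w a, 1 ≤ a → (w ∈ slice C a ↔ a ≤ L w) := by
      intro w a ha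
      have := down_card (M := M) ((Icc 1 M).filter fun a => w ∈ slice C a)
        (fun b hb => Finset.mem_Icc.1 (Finset.mem_filter.1 hb).1)
        (fun b hb b' h1 h2 => by
          rw [Finset.mem_filter] at hb ⊢
          have hm := hmono w b b' h1 h2 hb.2
          exact ⟨Finset.mem_Icc.2 (hsliceM w b' hm), hm⟩) a ha
      rw [← this, Finset.mem_filter]
      constructor
      · intro h; exact ⟨Finset.mem_Icc.2 (hsliceM w a h), h⟩
      · intro h; exact h.2
    have hLM : ∀ w, L w ≤ M := by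
      intro w
      calc L w ≤ #(Icc 1 M) := Finset.card_filter_le _ _
        _ = M := by simp
    have hL1 : ∀ w ∈ B, 1 ≤ L w := fun w hw => (hmemL w 1 le_rfl).1 hw
    -- swapping sums
    have hswap : ∀ F : ℕ → (Fin N → ℕ) → ℝ,
        ∑ a ∈ Icc 1 M, ∑ w ∈ slice C a, F a w = ∑ w ∈ B, ∑ a ∈ Icc 1 (L w), F a w := by
      intro F
      apply Finset.sum_comm'
      intro a w
      constructor
      · rintro ⟨ha, hw⟩
        rw [Finset.mem_Icc] at ha
        exact ⟨Finset.mem_Icc.2 ⟨ha.1, (hmemL w a ha.1).1 hw⟩, hmono w a 1 le_rfl ha.1 hw⟩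
      · rintro ⟨ha, hw⟩
        rw [Finset.mem_Icc] at ha
        exact ⟨Finset.mem_Icc.2 ⟨ha.1, le_trans ha.2 (hLM w)⟩, (hmemL w a ha.1).2 ha.2⟩
    have hcard : ∀ a ∈ Icc 1 M, #{w ∈ B | a ≤ L w} = #(slice C a) := by
      intro a ha
      rw [Finset.mem_Icc] at ha
      congr 1
      ext w
      rw [Finset.mem_filter]
      constructor
      · rintro ⟨_, h⟩; exact (hmemL w a ha.1).2 h
      · intro h; exact ⟨hmono w a 1 le_rfl ha.1 h, (hmemL w a ha.1).1 h⟩
    have hCa : (#C : ℝ) = ∑ a ∈ Icc 1 M, (#(slice C a) : ℝ) := by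
      have := sum_slice hC0 (fun _ => (1 : ℝ))
      simpa using this
    have hVsum : ((∑ w ∈ B, L w : ℕ) : ℝ) = #C := by
      have := hswap (fun _ _ => (1 : ℝ))
      simp only [Finset.sum_const, nsmul_eq_mul, mul_one, Nat.card_Icc, Nat.add_sub_cancel] at this
      rw [hCa, this]
      push_cast; rfl
    obtain ⟨τ0, hm1, hm2⟩ := exists_median M B L (fun b _ => hLM b)
    have h1d := entropy_1d M hM B L (fun w hw => ⟨hL1 w hw, hLM w⟩) τ0 hm1 hm2
    -- the family τ
    refine ⟨fun j r => Fin.cases (motive := fun _ => ℕ) τ0 (fun k => τs (r 0) k (Fin.tail r)) j,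
      ?_, ?_, ?_⟩
    · intro j r a
      refine Fin.cases ?_ (fun k => ?_) j
      · rfl
      · simp only [Fin.cases_succ]
        rw [Function.update_of_ne (Fin.succ_ne_zero k).symm]
        have : Fin.tail (Function.update r k.succ a) = Function.update (Fin.tail r) k a :=
          Fin.tail_update_succ r k a
        rw [this, hτ0]
    · rw [sum_slice hC0]
      have hLc0 : ∀ a w, Lc M C 0 (Fin.cons a w) = L w := by
        intro a w
        simp only [Lc, hLdef]
        congr 1
        ext b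
        simp only [Finset.mem_filter, Fin.update_cons_zero, mem_slice]
      have hLcs : ∀ a w (j : Fin N), Lc M C j.succ (Fin.cons a w) = Lc M (slice C a) j w := by
        intro a w j
        simp only [Lc]
        congr 1
        ext b
        simp only [Finset.mem_filter, ← Fin.cons_update, mem_slice]
      have hstep : ∀ a w, ∑ j : Fin (N + 1), (Real.log (Lc M C j (Fin.cons a w)) +
            |(Lc M C j (Fin.cons a w) : ℝ) - (Fin.cases (motive := fun _ => ℕ) τ0
              (fun k => τs ((Fin.cons a w : Fin (N + 1) → ℕ) 0) k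
                (Fin.tail (Fin.cons a w : Fin (N + 1) → ℕ))) j : ℕ)| / (2 * M)) =
          (Real.log (L w) + |(L w : ℝ) - τ0| / (2 * M)) +
          ∑ j : Fin N, (Real.log (Lc M (slice C a) j w) +
            |(Lc M (slice C a) j w : ℝ) - τs a j w| / (2 * M)) := by
        intro a w
        rw [Fin.sum_univ_succ]
        simp only [hLc0, hLcs, Fin.cases_zero, Fin.cases_succ, Fin.cons_zero, Fin.tail_cons]
      simp only [hstep, Finset.sum_add_distrib]
      have hA : ∑ a ∈ Icc 1 M, ∑ w ∈ slice C a, Real.log (L w) +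
          ∑ a ∈ Icc 1 M, ∑ w ∈ slice C a, |(L w : ℝ) - τ0| / (2 * M) ≤
          ∑ a ∈ Icc 1 M, (#(slice C a) : ℝ) * (Real.log #C - Real.log #(slice C a)) := by
        have e1 : ∑ a ∈ Icc 1 M, ∑ w ∈ slice C a, Real.log (L w) +
          ∑ a ∈ Icc 1 M, ∑ w ∈ slice C a, |(L w : ℝ) - τ0| / (2 * M) =
          ∑ w ∈ B, (L w : ℝ) * (Real.log (L w) + |(L w : ℝ) - τ0| / (2 * M)) := by
          rw [hswap, hswap, ← Finset.sum_add_distrib]
          apply Finset.sum_congr rfl
          intro w _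
          simp only [Finset.sum_const, Nat.card_Icc, Nat.add_sub_cancel, nsmul_eq_mul]
          ring
        rw [e1]
        refine le_trans h1d ?_
        rw [← hswap, hVsum]
        apply Finset.sum_le_sum
        intro a ha
        rw [hcard a ha]
        simp only [Finset.sum_const, nsmul_eq_mul]
        rcases Nat.eq_zero_or_pos #(slice C a) with h0 | h0
        · simp [h0]
        · have hCpos : 0 < #C := by
            obtain ⟨w, hw⟩ := Finset.card_pos.1 h0
            exact Finset.card_pos.2 ⟨_, mem_slice.1 hw⟩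
          rw [Real.log_div (by positivity) (by positivity)]
      have hBs : ∀ a ∈ Icc 1 M, (∑ w ∈ slice C a, ∑ j, Real.log (Lc M (slice C a) j w) +
          ∑ w ∈ slice C a, ∑ j, |(Lc M (slice C a) j w : ℝ) - τs a j w| / (2 * M)) ≤
          (#(slice C a) : ℝ) * Real.log #(slice C a) := by
        intro a _
        have := hτ1 a
        simp only [Finset.sum_add_distrib] at this
        exact this
      have hBsum := Finset.sum_le_sum hBs
      simp only [Finset.sum_add_distrib] at hBsum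
      have hfin : ∑ a ∈ Icc 1 M, (#(slice C a) : ℝ) * (Real.log #C - Real.log #(slice C a)) +
          ∑ a ∈ Icc 1 M, (#(slice C a) : ℝ) * Real.log #(slice C a) = #C * Real.log #C := by
        rw [← Finset.sum_add_distrib]
        conv_rhs => rw [hCa]
        rw [Finset.sum_mul]
        apply Finset.sum_congr rfl
        intro a _
        rw [← hCa]
        ring
      linarith
    · intro x hx0 hxM
      rw [sum_slice hC0]
      set K : ℝ := 1 + 8 * (2 * x + 1) / M with hK
      have hK1 : 1 ≤ K := by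
        have : 0 ≤ 8 * (2 * x + 1) / M := by positivity
        linarith
      have hcount : ∀ a w, (2 : ℝ) ^ (#{j : Fin (N + 1) |
            |(((Fin.cons a w : Fin (N + 1) → ℕ) j : ℕ) : ℝ) - (Fin.cases (motive := fun _ => ℕ) τ0
              (fun k => τs ((Fin.cons a w : Fin (N + 1) → ℕ) 0) k
                (Fin.tail (Fin.cons a w : Fin (N + 1) → ℕ))) j : ℕ)| ≤ x ∧
            (M : ℝ) / 4 ≤ (Fin.cases (motive := fun _ => ℕ) τ0
              (fun k => τs ((Fin.cons a w : Fin (N + 1) → ℕ) 0) k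
                (Fin.tail (Fin.cons a w : Fin (N + 1) → ℕ))) j : ℕ)}) =
          (if |(a : ℝ) - τ0| ≤ x ∧ (M : ℝ) / 4 ≤ τ0 then 2 else 1) *
          (2 : ℝ) ^ (#{j : Fin N | |((w j : ℕ) : ℝ) - τs a j w| ≤ x ∧ (M : ℝ) / 4 ≤ τs a j w}) := by
        intro a w
        rw [Fin.card_filter_univ_succ]
        simp only [Fin.cases_zero, Fin.cases_succ, Fin.cons_zero, Fin.cons_succ, Fin.tail_cons]
        split_ifs with h
        · rw [pow_succ]; ring
        · rw [one_mul]
      simp only [hcount]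
      simp only [← Finset.mul_sum]
      have hstep : ∑ a ∈ Icc 1 M, (if |(a : ℝ) - τ0| ≤ x ∧ (M : ℝ) / 4 ≤ τ0 then (2 : ℝ) else 1) *
          ∑ w ∈ slice C a, (2 : ℝ) ^ (#{j : Fin N | |((w j : ℕ) : ℝ) - τs a j w| ≤ x ∧
            (M : ℝ) / 4 ≤ τs a j w}) ≤
          ∑ a ∈ Icc 1 M, (if |(a : ℝ) - τ0| ≤ x ∧ (M : ℝ) / 4 ≤ τ0 then (2 : ℝ) else 1) *
            (#(slice C a) * K ^ N) := by
        apply Finset.sum_le_sum
        intro a _
        apply mul_le_mul_of_nonneg_left (hτ2 a x hx0 hxM)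
        split_ifs <;> norm_num
      refine le_trans hstep ?_
      have hsplit : ∑ a ∈ Icc 1 M, (if |(a : ℝ) - τ0| ≤ x ∧ (M : ℝ) / 4 ≤ τ0 then (2 : ℝ) else 1) *
            (#(slice C a) * K ^ N) = (#C + ∑ a ∈ Icc 1 M with (|((a : ℕ) : ℝ) - τ0| ≤ x ∧
              (M : ℝ) / 4 ≤ τ0), (#(slice C a) : ℝ)) * K ^ N := by
        rw [hCa, Finset.sum_filter, ← Finset.sum_add_distrib, Finset.sum_mul]
        apply Finset.sum_congr rfl
        intro a _
        split_ifs <;> ring
      rw [hsplit, pow_succ]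
      have hmain : (#C : ℝ) + ∑ a ∈ Icc 1 M with (|((a : ℕ) : ℝ) - τ0| ≤ x ∧
              (M : ℝ) / 4 ≤ τ0), (#(slice C a) : ℝ) ≤ #C * K := by
        have hb : ∀ a ∈ (Icc 1 M).filter (fun a : ℕ => |((a : ℕ) : ℝ) - τ0| ≤ x ∧
              (M : ℝ) / 4 ≤ τ0), (#(slice C a) : ℝ) ≤ 8 * #C / M := by
          intro a ha
          rw [Finset.mem_filter, Finset.mem_Icc] at ha
          obtain ⟨⟨ha1, haM⟩, hax, hτM⟩ := ha
          have ha8 : (M : ℝ) / 8 ≤ a := by
            have := (abs_le.1 hax).1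
            linarith
          have hsum : (a : ℝ) * #(slice C a) ≤ #C := by
            have h1 : ∑ b ∈ Icc 1 a, (#(slice C a) : ℝ) ≤ ∑ b ∈ Icc 1 a, (#(slice C b) : ℝ) := by
              apply Finset.sum_le_sum
              intro b hb
              rw [Finset.mem_Icc] at hb
              exact_mod_cast Finset.card_le_card (fun w hw => hmono w a b hb.1 hb.2 hw)
            have h2 : ∑ b ∈ Icc 1 a, (#(slice C b) : ℝ) ≤ ∑ b ∈ Icc 1 M, (#(slice C b) : ℝ) := by
              apply Finset.sum_le_sum_of_subset_of_nonneg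
              · exact Finset.Icc_subset_Icc le_rfl haM
              · intro _ _ _; positivity
            rw [← hCa] at h2
            simp only [Finset.sum_const, Nat.card_Icc, Nat.add_sub_cancel, nsmul_eq_mul] at h1
            linarith
          rw [le_div_iff₀ hMr]
          have h3 : (M : ℝ) / 8 * #(slice C a) ≤ a * #(slice C a) :=
            mul_le_mul_of_nonneg_right ha8 (by positivity)
          linarith
        have hs := Finset.sum_le_sum hb
        simp only [Finset.sum_const, nsmul_eq_mul] at hs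
        have hcn : (#((Icc 1 M).filter (fun a : ℕ => |((a : ℕ) : ℝ) - τ0| ≤ x ∧
              (M : ℝ) / 4 ≤ τ0)) : ℝ) ≤ 2 * x + 1 := by
          refine le_trans ?_ (card_near M τ0 x hx0)
          have : (Icc 1 M).filter (fun a : ℕ => |((a : ℕ) : ℝ) - τ0| ≤ x ∧ (M : ℝ) / 4 ≤ τ0) ⊆
              (Icc 1 M).filter (fun a : ℕ => |((a : ℕ) : ℝ) - τ0| ≤ x) := by
            intro a ha
            rw [Finset.mem_filter] at ha ⊢
            exact ⟨ha.1, ha.2.1⟩
          exact_mod_cast Finset.card_le_card this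
        have hfin : (#((Icc 1 M).filter (fun a : ℕ => |((a : ℕ) : ℝ) - τ0| ≤ x ∧
              (M : ℝ) / 4 ≤ τ0)) : ℝ) * (8 * #C / M) ≤ (2 * x + 1) * (8 * #C / M) :=
          mul_le_mul_of_nonneg_right hcn (by positivity)
        have heq : (#C : ℝ) * K = #C + (2 * x + 1) * (8 * #C / M) := by
          rw [hK]; ring
        rw [heq]
        linarith
      calc (#C + ∑ a ∈ Icc 1 M with (|((a : ℕ) : ℝ) - τ0| ≤ x ∧
              (M : ℝ) / 4 ≤ τ0), (#(slice C a) : ℝ)) * K ^ N ≤ (#C * K) * K ^ N :=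
            mul_le_mul_of_nonneg_right hmain (by positivity)
        _ = #C * (K ^ N * K) := by ring

end

end Pool.Agent.Helper38.Stretch
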