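import Pool.Agent.Helper38.Stretch.Lines

/-! Exit property and the per-line jump inequality (module M2, second part). -/

namespace Pool.Agent.Helper38.Stretch

open Finset

noncomputable section

variable {N M : ℕ} {T : (Fin N → Fin M) → (Fin N → Bool)}

/-- number of directions in which `v` is within `δ` of the boundary of its cell -/
def Nd (T : (Fin N → Fin M) → (Fin N → Bool)) (δ : ℕ) (v : Fin N → Fin M) : ℕ :=
  #{j | chord T j v ≤ rr T j v + δ}

lemma Mono.exit (hT : Mono T) (v : Fin N → Fin M) (i j : Fin N) (b b' : Fin M) (e : ℕ)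
    (hb : if T v i then (b : ℕ) + e = v i else (b : ℕ) = v i + e)
    (hne : T (Function.update v i b) ≠ T v)
    (hj : T v j ≠ T (Function.update v i b) j)
    (hb' : if T v j then (b' : ℕ) + e = v j else (b' : ℕ) = v j + e) :
    T (Function.update v j b') ≠ T v := by
  intro hcon
  by_cases hij : i = j
  · subst hij
    have : b = b' := by
      apply Fin.ext
      split_ifs at hb hb' <;> omega
    rw [← this] at hcon
    exact hne hcon
  · have h := hT (Function.update v j b') (Function.update v i b) (by
      rw [hcon]; exact fun h => hne h.symm)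
    rw [hcon] at h
    have hi : T v i ≠ T (Function.update v i b) i := by
      intro hh
      apply hne
      have := hT.eq_of_coord v i b (v i) (by simpa using hh.symm)
      simpa using this
    rw [Finset.sum_eq_add_of_mem i j (Finset.mem_univ _) (Finset.mem_univ _) hij] at h
    · simp only [Function.update_self, Function.update_of_ne hij,
        Function.update_of_ne (Ne.symm hij)] at h
      rcases h1 : T v i with _ | _ <;> rcases h2 : T v j with _ | _ <;>
        rcases h3 : T (Function.update v i b) i with _ | _ <;>
        rcases h4 : T (Function.update v i b) j with _ | _ <;>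
        simp only [h1, h2, h3, h4, ne_eq, not_true_eq_false, bz_true, bz_false, if_true,
          Bool.false_eq_true, if_false] at h hi hj hb hb' <;>
        first
          | exact hi rfl
          | exact hj rfl
          | (zify at hb hb'; linarith)
    · intro c _ hc
      rw [Function.update_of_ne hc.2, Function.update_of_ne hc.1]
      simp

lemma Mono.chord_eq (hT : Mono T) (v : Fin N → Fin M) (j : Fin N) :
    chord T j v = if T v j then M - thr T j v else thr T j v := by
  have h := hT.chord_update v j (v j)
  rw [Function.update_eq_self] at h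
  rw [h]
  have h2 := hT.thr_iff v j (v j)
  rw [Function.update_eq_self] at h2
  split_ifs with h3 h4 h4
  · rw [← h2] at h3; rw [h3] at h4; exact absurd h4 (by decide)
  · rfl
  · rfl
  · rw [Bool.not_eq_true, h2] at h4; exact absurd h4 h3

lemma Mono.jump_le_Nd (hT : Mono T) (v : Fin N → Fin M) (i : Fin N) (δ : ℕ)
    (hδ : chord T i v ≤ rr T i v + δ) : jump T i v ≤ Nd T δ v := by
  by_cases h0 : jump T i v = 0
  · rw [h0]; exact Nat.zero_le _
  obtain ⟨ht0, htM⟩ := hT.thr_pos_of_jump v i h0
  have hvi := (v i).2
  have hfi : T v i = false ↔ (v i : ℕ) < thr T i v := by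
    have h2 := hT.thr_iff v i (v i)
    rwa [Function.update_eq_self] at h2
  -- the exit point
  obtain ⟨b, e, hb, heδ, hne, hdist⟩ : ∃ (b : Fin M) (e : ℕ),
      (if T v i then (b : ℕ) + e = v i else (b : ℕ) = v i + e) ∧ e ≤ δ + 1 ∧
      T (Function.update v i b) ≠ T v ∧
      hammingDist (T v) (T (Function.update v i b)) = jump T i v := by
    rcases hti : T v i with _ | _
    · have hlt : (v i : ℕ) < thr T i v := hfi.1 hti
      refine ⟨⟨thr T i v, htM⟩, thr T i v - v i, ?_, ?_, ?_, ?_⟩
      · simp; omega
      · rw [hT.chord_eq v i, rr, hti] at hδ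
        simp at hδ
        omega
      · intro hh
        have h3 := (hT.thr_iff_true v i ⟨thr T i v, htM⟩).2 le_rfl
        rw [hh, hti] at h3
        exact absurd h3 (by decide)
      · have := hT.dist_eq_jump v i (v i) ⟨thr T i v, htM⟩ hlt le_rfl
        simpa using this
    · have hge : thr T i v ≤ (v i : ℕ) := by
        by_contra hlt
        rw [hfi.2 (not_le.1 hlt)] at hti
        exact absurd hti (by decide)
      refine ⟨⟨thr T i v - 1, by omega⟩, v i - thr T i v + 1, ?_, ?_, ?_, ?_⟩
      · simp; omega
      · rw [hT.chord_eq v i, rr, hti] at hδ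
        simp at hδ
        omega
      · intro hh
        have h3 := (hT.thr_iff v i ⟨thr T i v - 1, by omega⟩).2 (by simp; omega)
        rw [hh, hti] at h3
        exact absurd h3 (by decide)
      · have := hT.dist_eq_jump v i ⟨thr T i v - 1, by omega⟩ (v i) (by simp; omega) hge
        rw [hammingDist_comm] at this
        simpa using this
  rw [← hdist]
  unfold hammingDist Nd
  apply Finset.card_le_card
  intro j hj
  simp only [Finset.mem_filter, Finset.mem_univ, true_and] at hj ⊢
  by_contra hlt
  push Not at hlt
  have hvj := (v j).2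
  have htj := thr_le (T := T) v j
  have hfj : T v j = false ↔ (v j : ℕ) < thr T j v := by
    have h2 := hT.thr_iff v j (v j)
    rwa [Function.update_eq_self] at h2
  rw [hT.chord_eq v j, rr] at hlt
  rcases htj' : T v j with _ | _
  · rw [htj'] at hlt
    simp only [Bool.false_eq_true, if_false] at hlt
    have hex := hT.exit v i j b ⟨v j + e, by omega⟩ e hb hne hj (by simp [htj'])
    apply hex
    have h5 := (hT.eq_iff v j ⟨v j + e, by omega⟩ (v j)).2 (by
      simp only
      constructor <;> intro _ <;> omega)
    simpa using h5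
  · rw [htj'] at hlt
    simp only [if_true] at hlt
    have hge : thr T j v ≤ (v j : ℕ) := by
      by_contra h; rw [hfj.2 (not_le.1 h)] at htj'; exact absurd htj' (by decide)
    have hex := hT.exit v i j b ⟨v j - e, by omega⟩ e hb hne hj (by simp [htj']; omega)
    apply hex
    have h5 := (hT.eq_iff v j ⟨v j - e, by omega⟩ (v j)).2 (by
      simp only
      constructor <;> intro _ <;> omega)
    simpa using h5

lemma card_fin_Ico {M : ℕ} (s t : ℕ) (ht : t ≤ M) (hst : s ≤ t) :
    #{a : Fin M | s ≤ (a : ℕ) ∧ (a : ℕ) < t} = t - s := by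
  have h1 : ({a : Fin M | s ≤ (a : ℕ) ∧ (a : ℕ) < t} : Finset (Fin M)) =
      ({a : Fin M | (a : ℕ) < t} : Finset (Fin M)) \ ({a : Fin M | (a : ℕ) < s} : Finset (Fin M)) := by
    ext a; simp; tauto
  rw [h1, Finset.card_sdiff_of_subset, card_fin_lt t ht, card_fin_lt s (hst.trans ht)]
  intro a ha
  simp only [Finset.mem_filter, Finset.mem_univ, true_and] at ha ⊢
  omega

lemma Mono.line_ineq (hT : Mono T) (u : Fin N → Fin M) (i : Fin N) (δ : ℕ)
    (hδ : 2 * (δ + 1) ≤ M) :
    (δ + 1) * jump T i u ≤ ∑ a : Fin M,
      if chord T i (Function.update u i a) ≤ rr T i (Function.update u i a) + δ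
      then Nd T δ (Function.update u i a) else 0 := by
  have htM := thr_le (T := T) u i
  rw [← Finset.sum_filter]
  have hle : ∀ a ∈ ({a : Fin M | chord T i (Function.update u i a) ≤
      rr T i (Function.update u i a) + δ} : Finset (Fin M)),
      jump T i u ≤ Nd T δ (Function.update u i a) := by
    intro a ha
    simp only [Finset.mem_filter, Finset.mem_univ, true_and] at ha
    rw [← jump_update u i a]
    exact hT.jump_le_Nd _ i δ ha
  refine le_trans ?_ (Finset.card_nsmul_le_sum _ _ _ hle)
  rw [smul_eq_mul]
  apply Nat.mul_le_mul_right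
  by_cases ht : δ + 1 ≤ thr T i u
  · have hcard := card_fin_Ico (M := M) (thr T i u - (δ + 1)) (thr T i u) htM (by omega)
    have h2 : δ + 1 = thr T i u - (thr T i u - (δ + 1)) := by omega
    calc δ + 1 = _ := h2
      _ = _ := hcard.symm
      _ ≤ _ := by
        apply Finset.card_le_card
        intro a ha
        simp only [Finset.mem_filter, Finset.mem_univ, true_and] at ha ⊢
        rw [hT.chord_update, hT.rr_update]
        simp only [ha.2, if_true]
        omega
  · have hcard := card_fin_Ico (M := M) (thr T i u) (thr T i u + (δ + 1)) (by omega) (by omega)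
    have h2 : δ + 1 = thr T i u + (δ + 1) - thr T i u := by omega
    calc δ + 1 = _ := h2
      _ = _ := hcard.symm
      _ ≤ _ := by
        apply Finset.card_le_card
        intro a ha
        simp only [Finset.mem_filter, Finset.mem_univ, true_and] at ha ⊢
        rw [hT.chord_update, hT.rr_update]
        have : ¬ (a : ℕ) < thr T i u := by omega
        simp only [this, if_false]
        omega

/-- summed version: `(δ+1) ∑_i avg (jump_i) ≤ M avg (Nd^2)` -/
lemma Mono.sum_jump_le (hT : Mono T) (hM : 0 < M) (δ : ℕ) (hδ : 2 * (δ + 1) ≤ M) :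
    ((δ : ℝ) + 1) * ∑ i, avg (fun u => (jump T i u : ℝ)) ≤
      M * avg (fun u => (Nd T δ u : ℝ) ^ 2) := by
  have : Nonempty (Fin M) := ⟨⟨0, hM⟩⟩
  have h1 : ∀ i, ((δ : ℝ) + 1) * avg (fun u => (jump T i u : ℝ)) ≤
      M * avg (fun u => if chord T i u ≤ rr T i u + δ then (Nd T δ u : ℝ) else 0) := by
    intro i
    rw [← avg_update i (fun u => if chord T i u ≤ rr T i u + δ then (Nd T δ u : ℝ) else 0),
      ← avg_mul_left, ← avg_mul_left]
    apply avg_mono
    intro u
    rw [avg, Fintype.card_fin]
    have := hT.line_ineq u i δ hδ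
    have h3 : ((δ : ℝ) + 1) * (jump T i u : ℝ) ≤ ∑ a : Fin M,
      if chord T i (Function.update u i a) ≤ rr T i (Function.update u i a) + δ
      then (Nd T δ (Function.update u i a) : ℝ) else 0 := by
      exact_mod_cast this
    have hM' : (M : ℝ) ≠ 0 := by positivity
    calc _ ≤ _ := h3
      _ = _ := by field_simp
  rw [Finset.mul_sum]
  calc _ ≤ ∑ i, M * avg (fun u => if chord T i u ≤ rr T i u + δ then (Nd T δ u : ℝ) else 0) :=
        Finset.sum_le_sum fun i _ => h1 i
    _ = M * avg (fun u => ∑ i, if chord T i u ≤ rr T i u + δ then (Nd T δ u : ℝ) else 0) := by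
        rw [← Finset.mul_sum, avg_sum]
    _ = M * avg (fun u => (Nd T δ u : ℝ) ^ 2) := by
        congr 2
        funext u
        rw [← Finset.sum_filter, Finset.sum_const, nsmul_eq_mul, sq]
        rfl

end

end Pool.Agent.Helper38.Stretch
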