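import Pool.Agent.Helper38.Stretch.Noise
import Pool.Agent.Helper38.Stretch.Exit

/-! Stretch of the random field (module M9).

Levels 0, 1: positions change at `j` and at its `K` children (change them one at a time; each
intermediate point is uniform, so each step costs `≤ avg jump` of that coordinate).
Level 1: in addition the noise coordinates `i` with `μ (i,j) = 0` are evaluated at a new point
(`two_point`); change them one at a time: cost `resamp T i` for `i ≠ sp`, `≤ avg jump` for `i = sp`.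
Level 2: only one position changes; `dist ≤ #S(x) + #S(x') + 2`. -/

namespace Pool.Agent.Helper38.Stretch

open Finset

noncomputable section

lemma resamp_nonneg {N M : ℕ} (T : (Fin N → Fin M) → (Fin N → Bool)) (i : Fin N) :
    0 ≤ resamp T i :=
  avg_nonneg fun _ => avg_nonneg fun _ => Nat.cast_nonneg _

section hybrid

variable {n G : ℕ}

/-- swapping two independent uniform vectors on a set of coordinates -/
def swapOn {ι α : Type*} [DecidableEq ι] (D : Finset ι) : (ι → α) × (ι → α) ≃ (ι → α) × (ι → α) where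
  toFun q := (D.piecewise q.2 q.1, D.piecewise q.1 q.2)
  invFun q := (D.piecewise q.2 q.1, D.piecewise q.1 q.2)
  left_inv := by
    rintro ⟨a, b⟩
    simp only [Prod.mk.injEq]
    constructor <;>
    · funext i
      by_cases h : i ∈ D <;> simp [Finset.piecewise, h]
  right_inv := by
    rintro ⟨a, b⟩
    simp only [Prod.mk.injEq]
    constructor <;>
    · funext i
      by_cases h : i ∈ D <;> simp [Finset.piecewise, h]

lemma avg_piecewise {M : ℕ} [Nonempty (Fin M)] (D : Finset (Fin (n + 1))) (i : Fin (n + 1))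
    (hi : i ∉ D) (F : (Fin (n + 1) → Fin M) → Fin M → ℝ) :
    (avg fun ω : Fin (n + 1) → Fin M => avg fun ω' : Fin (n + 1) → Fin M =>
      F (D.piecewise ω' ω) (ω' i)) = avg fun ω => avg fun c => F ω c := by
  rw [← avg_prod (fun q : (Fin (n + 1) → Fin M) × (Fin (n + 1) → Fin M) =>
    F (D.piecewise q.2 q.1) (q.2 i))]
  have h1 : (avg fun q : (Fin (n + 1) → Fin M) × (Fin (n + 1) → Fin M) =>
      F (D.piecewise q.2 q.1) (q.2 i)) =
      avg fun q => (fun r : (Fin (n + 1) → Fin M) × (Fin (n + 1) → Fin M) => F r.1 (r.2 i))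
        (swapOn D q) := by
    apply avg_congr
    rintro ⟨a, b⟩
    simp only [swapOn, Equiv.coe_fn_mk]
    rw [Finset.piecewise_eq_of_notMem _ _ _ hi]
  rw [h1, avg_equiv (swapOn D) (fun r : (Fin (n + 1) → Fin M) × (Fin (n + 1) → Fin M) =>
    F r.1 (r.2 i)), avg_prod]
  apply avg_congr
  intro ω
  exact avg_eval i (fun c => F ω c)

/-- one changed noise coordinate -/
lemma step_noise (hG : 0 < G) (sp : Fin (n + 1))
    (T : (Fin (n + 1) → Fin (2 * G)) → (Fin (n + 1) → Bool)) (J0 : ℝ)
    (hsp : avg (fun u => (jump T sp u : ℝ)) ≤ J0) (i : Fin (n + 1)) :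
    (avg fun p : Fin n → ZMod 2 => avg fun ω : Fin (n + 1) → Fin (2 * G) =>
      avg fun c : Fin (2 * G) =>
        (hammingDist (T (place sp p ω)) (T (place sp p (Function.update ω i c))) : ℝ))
      ≤ if i = sp then J0 else resamp T i := by
  have : Nonempty (Fin (2 * G)) := ⟨⟨0, by omega⟩⟩
  rcases Fin.eq_self_or_eq_succAbove sp i with rfl | ⟨k, rfl⟩
  · rw [if_pos rfl]
    refine le_trans ?_ hsp
    rw [← avg_place hG i (fun u => (jump T i u : ℝ))]
    apply avg_mono
    intro p
    apply avg_mono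
    intro ω
    apply avg_le_of_le
    intro c
    rw [place_update_sp]
    exact_mod_cast dist_le_jump' (T := T) (place i p ω) i c
  · rw [if_neg (Fin.succAbove_ne sp k)]
    apply le_of_eq
    unfold resamp
    rw [← avg_place hG sp (fun u => avg fun a : Fin (2 * G) =>
      (hammingDist (T u) (T (Function.update u (sp.succAbove k)
        (refl (side (u (sp.succAbove k))) a))) : ℝ))]
    apply avg_congr
    intro p
    apply avg_congr
    intro ω
    apply avg_congr
    intro c
    rw [place_update_ne]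

/-- several changed noise coordinates -/
lemma hybrid_noise (hG : 0 < G) (sp : Fin (n + 1))
    (T : (Fin (n + 1) → Fin (2 * G)) → (Fin (n + 1) → Bool)) (J0 : ℝ)
    (hsp : avg (fun u => (jump T sp u : ℝ)) ≤ J0) (D : Finset (Fin (n + 1))) :
    (avg fun p : Fin n → ZMod 2 => avg fun ω : Fin (n + 1) → Fin (2 * G) =>
      avg fun ω' : Fin (n + 1) → Fin (2 * G) =>
        (hammingDist (T (place sp p ω)) (T (place sp p (D.piecewise ω' ω))) : ℝ))
      ≤ ∑ i ∈ D, if i = sp then J0 else resamp T i := by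
  have hne : Nonempty (Fin (2 * G)) := ⟨⟨0, by omega⟩⟩
  classical
  induction D using Finset.induction_on with
  | empty =>
    simp only [Finset.piecewise_empty, hammingDist_self, Nat.cast_zero, Finset.sum_empty]
    have : Nonempty (Fin n → ZMod 2) := ⟨0⟩
    apply le_of_eq
    rw [avg_const, avg_const, avg_const]
  | insert i D hi ih =>
    rw [Finset.sum_insert hi, add_comm (if i = sp then J0 else resamp T i)]
    refine le_trans ?_ (add_le_add ih (step_noise hG sp T J0 hsp i))
    rw [← avg_add]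
    apply avg_mono
    intro p
    rw [← avg_piecewise D i hi (fun η c =>
      (hammingDist (T (place sp p η)) (T (place sp p (Function.update η i c))) : ℝ)), ← avg_add]
    apply avg_mono
    intro ω
    rw [← avg_add]
    apply avg_mono
    intro ω'
    have h1 : (insert i D).piecewise ω' ω = Function.update (D.piecewise ω' ω) i (ω' i) := by
      rw [Finset.piecewise_insert]
    rw [h1]
    exact_mod_cast hammingDist_triangle _ _ _

end hybrid

section main

variable {n K q G l1 l2 : ℕ} (Λ : Lev n l1 l2)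

lemma pos_single (c1 : Fin n × Fin K → Fin l1) (c2 : Fin n × Fin K → Fin l2) (j : Fin n) :
    pos Λ c1 c2 (Pi.single j 1) = Pi.single j 1 + ∑ k : Fin K, kid Λ c1 c2 (j, k) := by
  unfold pos
  congr 1
  rw [Fintype.sum_prod_type, Finset.sum_eq_single j]
  · apply Finset.sum_congr rfl
    intro k _
    simp
  · intro b _ hb
    apply Finset.sum_eq_zero
    intro k _
    simp [hb]
  · intro h; exact absurd (Finset.mem_univ _) h

lemma zm_add_single (μ : Fin (n + 1) × Fin n → Fin q) (i : Fin (n + 1)) (x : Fin n → ZMod 2)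
    (j : Fin n) (h : ¬ (Λ.lev j = 2 ∨ (Λ.lev j = 1 ∧ ((μ (i, j) : Fin q) : ℕ) = 0))) :
    zm Λ μ i (x + Pi.single j 1) = zm Λ μ i x := by
  funext k
  unfold zm
  by_cases hk : k = j
  · subst hk
    rw [if_neg h, if_neg h]
  · rw [Pi.add_apply, Pi.single_eq_of_ne hk, add_zero]

lemma zm_add_single_ne (μ : Fin (n + 1) × Fin n → Fin q) (i : Fin (n + 1)) (x : Fin n → ZMod 2)
    (j : Fin n) (h : (Λ.lev j = 2 ∨ (Λ.lev j = 1 ∧ ((μ (i, j) : Fin q) : ℕ) = 0))) :
    zm Λ μ i x ≠ zm Λ μ i (x + Pi.single j 1) := by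
  intro hh
  have h1 := congrFun hh j
  unfold zm at h1
  rw [if_pos h, if_pos h, Pi.add_apply, Pi.single_eq_same] at h1
  have h2 : ∀ z : ZMod 2, z ≠ z + 1 := by decide
  exact h2 _ h1

/-- adding one unit vector to the positions -/
lemma step_pos (hG : 0 < G) (sp : Fin (n + 1))
    (T : (Fin (n + 1) → Fin (2 * G)) → (Fin (n + 1) → Bool))
    (c1 : Fin n × Fin K → Fin l1) (c2 : Fin n × Fin K → Fin l2)
    (μ : Fin (n + 1) × Fin n → Fin q) (v : Fin n → ZMod 2) (k : Fin n) :
    (avg fun x : Fin n → ZMod 2 =>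
        avg fun W : Fin (n + 1) × (Fin n → ZMod 2) → Fin (2 * G) =>
          (hammingDist (T (place sp (pos Λ c1 c2 x + v) (noise Λ μ W x)))
            (T (place sp (pos Λ c1 c2 x + (v + Pi.single k 1)) (noise Λ μ W x))) : ℝ))
      ≤ avg (fun u => (jump T (sp.succAbove k) u : ℝ)) := by
  rw [← avg_pt Λ c1 c2 hG sp μ v (fun u => (jump T (sp.succAbove k) u : ℝ))]
  apply avg_mono
  intro x
  apply avg_mono
  intro W
  rw [← add_assoc, place_add_single]
  exact_mod_cast dist_le_jump' (T := T) _ _ _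

/-- adding several unit vectors to the positions -/
lemma steps_pos (hG : 0 < G) (sp : Fin (n + 1))
    (T : (Fin (n + 1) → Fin (2 * G)) → (Fin (n + 1) → Bool)) (J0 : ℝ)
    (c1 : Fin n × Fin K → Fin l1) (c2 : Fin n × Fin K → Fin l2)
    (μ : Fin (n + 1) × Fin n → Fin q) (v : Fin n → ZMod 2) {β : Type*} [DecidableEq β]
    (B : Finset β) (e : β → Fin n)
    (he : ∀ b ∈ B, avg (fun u => (jump T (sp.succAbove (e b)) u : ℝ)) ≤ J0) :
    (avg fun x : Fin n → ZMod 2 =>
        avg fun W : Fin (n + 1) × (Fin n → ZMod 2) → Fin (2 * G) =>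
          (hammingDist (T (place sp (pos Λ c1 c2 x + v) (noise Λ μ W x)))
            (T (place sp (pos Λ c1 c2 x + (v + ∑ b ∈ B, Pi.single (e b) 1))
              (noise Λ μ W x))) : ℝ))
      ≤ #B * J0 := by
  have hne : Nonempty (Fin (2 * G)) := ⟨⟨0, by omega⟩⟩
  induction B using Finset.induction_on with
  | empty =>
    simp only [Finset.sum_empty, add_zero, hammingDist_self, Nat.cast_zero, Finset.card_empty,
      zero_mul]
    have : Nonempty (Fin n → ZMod 2) := ⟨0⟩
    apply le_of_eq
    rw [avg_const, avg_const]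
  | insert b B hb ih =>
    rw [Finset.card_insert_of_notMem hb]
    push_cast
    rw [add_mul, one_mul]
    refine le_trans ?_ (add_le_add (ih (fun b' hb' => he b' (Finset.mem_insert_of_mem hb')))
      ((step_pos Λ hG sp T c1 c2 μ (v + ∑ b ∈ B, Pi.single (e b) 1) (e b)).trans
        (he b (Finset.mem_insert_self _ _))))
    rw [← avg_add]
    apply avg_mono
    intro x
    rw [← avg_add]
    apply avg_mono
    intro W
    rw [Finset.sum_insert hb]
    have h1 : v + (Pi.single (e b) 1 + ∑ b ∈ B, Pi.single (e b) 1)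
      = (v + ∑ b ∈ B, Pi.single (e b) 1) + (Pi.single (e b) (1 : ZMod 2) : Fin n → ZMod 2) := by
      abel
    rw [h1]
    exact_mod_cast hammingDist_triangle _ _ _

/-- the change of all positions, with the noise frozen -/
lemma all_pos (hG : 0 < G) (sp : Fin (n + 1))
    {T : (Fin (n + 1) → Fin (2 * G)) → (Fin (n + 1) → Bool)} (J0 : ℝ)
    (h1 : ∀ i, avg (fun u => (jump T (sp.succAbove (Λ.e1 i)) u : ℝ)) ≤ J0)
    (h2 : ∀ i, avg (fun u => (jump T (sp.succAbove (Λ.e2 i)) u : ℝ)) ≤ J0)
    (c1 : Fin n × Fin K → Fin l1) (c2 : Fin n × Fin K → Fin l2)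
    (μ : Fin (n + 1) × Fin n → Fin q) (j : Fin n) (hj : Λ.lev j ≠ 2) :
    (avg fun x : Fin n → ZMod 2 =>
        avg fun W : Fin (n + 1) × (Fin n → ZMod 2) → Fin (2 * G) =>
          (hammingDist (T (place sp (pos Λ c1 c2 x) (noise Λ μ W x)))
            (T (place sp (pos Λ c1 c2 (x + Pi.single j 1)) (noise Λ μ W x))) : ℝ))
      ≤ avg (fun u => (jump T (sp.succAbove j) u : ℝ)) + K * J0 := by
  have hkid : ∃ e : Fin K → Fin n,
      (∀ k, kid Λ c1 c2 (j, k) = Pi.single (e k) 1) ∧
      (∀ k, avg (fun u => (jump T (sp.succAbove (e k)) u : ℝ)) ≤ J0) := by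
    have h3 : Λ.lev j = 0 ∨ Λ.lev j = 1 := by
      revert hj
      generalize Λ.lev j = l
      revert l
      decide
    rcases h3 with h | h
    · exact ⟨fun k => Λ.e1 (c1 (j, k)), fun k => by simp [kid, h], fun k => h1 _⟩
    · exact ⟨fun k => Λ.e2 (c2 (j, k)), fun k => by simp [kid, h], fun k => h2 _⟩
  obtain ⟨e, he1, he2⟩ := hkid
  have hA := step_pos Λ hG sp T c1 c2 μ 0 j
  have hB := steps_pos Λ hG sp T J0 c1 c2 μ (Pi.single j 1) (Finset.univ : Finset (Fin K)) e
    (fun k _ => he2 k)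
  rw [Finset.card_univ, Fintype.card_fin] at hB
  refine le_trans ?_ (add_le_add hA hB)
  rw [← avg_add]
  apply avg_mono
  intro x
  rw [← avg_add]
  apply avg_mono
  intro W
  rw [pos_add, pos_single]
  simp only [he1, add_zero, zero_add]
  exact_mod_cast hammingDist_triangle _ _ _

lemma noise_two {M : ℕ} [Nonempty (Fin M)] (μ : Fin (n + 1) × Fin n → Fin q)
    (Φ : (Fin (n + 1) → Fin M) → (Fin (n + 1) → Fin M) → ℝ) (x y : Fin n → ZMod 2) :
    (avg fun W : Fin (n + 1) × (Fin n → ZMod 2) → Fin M => Φ (noise Λ μ W x) (noise Λ μ W y)) =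
      avg fun ω : Fin (n + 1) → Fin M => avg fun ω' : Fin (n + 1) → Fin M =>
        Φ ω (fun i => if zm Λ μ i x = zm Λ μ i y then ω i else ω' i) :=
  two_point Φ _ _

/-- the change of the noise at level 1 -/
lemma noise_change (hG : 0 < G) (sp : Fin (n + 1))
    {T : (Fin (n + 1) → Fin (2 * G)) → (Fin (n + 1) → Bool)} (J0 : ℝ)
    (hsp : avg (fun u => (jump T sp u : ℝ)) ≤ J0)
    (c1 : Fin n × Fin K → Fin l1) (c2 : Fin n × Fin K → Fin l2)
    (μ : Fin (n + 1) × Fin n → Fin q) (j : Fin n) (hj : Λ.lev j = 1) :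
    (avg fun x : Fin n → ZMod 2 =>
        avg fun W : Fin (n + 1) × (Fin n → ZMod 2) → Fin (2 * G) =>
          (hammingDist (T (place sp (pos Λ c1 c2 (x + Pi.single j 1)) (noise Λ μ W x)))
            (T (place sp (pos Λ c1 c2 (x + Pi.single j 1))
              (noise Λ μ W (x + Pi.single j 1)))) : ℝ))
      ≤ ∑ i, (if ((μ (i, j) : Fin q) : ℕ) = 0 then
            (if i = sp then J0 else resamp T i) else 0) := by
  have hne : Nonempty (Fin (2 * G)) := ⟨⟨0, by omega⟩⟩
  set D : Finset (Fin (n + 1)) := {i | ((μ (i, j) : Fin q) : ℕ) = 0} with hD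
  rw [← Finset.sum_filter]
  refine le_trans (le_of_eq ?_) (hybrid_noise hG sp T J0 hsp D)
  have hstep : ∀ x : Fin n → ZMod 2,
      (avg fun W : Fin (n + 1) × (Fin n → ZMod 2) → Fin (2 * G) =>
          (hammingDist (T (place sp (pos Λ c1 c2 (x + Pi.single j 1)) (noise Λ μ W x)))
            (T (place sp (pos Λ c1 c2 (x + Pi.single j 1))
              (noise Λ μ W (x + Pi.single j 1)))) : ℝ))
      = avg fun ω : Fin (n + 1) → Fin (2 * G) => avg fun ω' : Fin (n + 1) → Fin (2 * G) =>
        (hammingDist (T (place sp (pos Λ c1 c2 (x + Pi.single j 1)) ω))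
          (T (place sp (pos Λ c1 c2 (x + Pi.single j 1)) (D.piecewise ω' ω))) : ℝ) := by
    intro x
    generalize pos Λ c1 c2 (x + Pi.single j 1) = p
    have h0 := noise_two Λ μ (fun a a' : Fin (n + 1) → Fin (2 * G) =>
      (hammingDist (T (place sp p a)) (T (place sp p a')) : ℝ)) x (x + Pi.single j 1)
    beta_reduce at h0
    rw [h0]
    apply avg_congr
    intro ω
    apply avg_congr
    intro ω'
    have h1 : (fun i => if zm Λ μ i x = zm Λ μ i (x + Pi.single j 1) then ω i else ω' i)
        = D.piecewise ω' ω := by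
      funext i
      by_cases hi : ((μ (i, j) : Fin q) : ℕ) = 0
      · have hiD : i ∈ D := by rw [hD]; simp [hi]
        rw [Finset.piecewise_eq_of_mem _ _ _ hiD,
          if_neg (zm_add_single_ne Λ μ i x j (Or.inr ⟨hj, hi⟩))]
      · have hiD : i ∉ D := by rw [hD]; simp [hi]
        rw [Finset.piecewise_eq_of_notMem _ _ _ hiD,
          if_pos (zm_add_single Λ μ i x j (by
            rintro (h | h)
            · rw [hj] at h; exact absurd h (by decide)
            · exact hi h.2)).symm]
    rw [h1]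
  rw [avg_congr hstep]
  have hshift : Function.Bijective (fun x : Fin n → ZMod 2 => x + Pi.single j 1) :=
    ⟨fun a b h => add_right_cancel h, fun b => ⟨b - Pi.single j 1, sub_add_cancel _ _⟩⟩
  have hbij : Function.Bijective (fun x => pos Λ c1 c2 (x + Pi.single j 1)) :=
    (pos_bijective Λ c1 c2).comp hshift
  exact avg_equiv (Equiv.ofBijective _ hbij)
    (fun p : Fin n → ZMod 2 => avg fun ω : Fin (n + 1) → Fin (2 * G) =>
      avg fun ω' : Fin (n + 1) → Fin (2 * G) =>
        (hammingDist (T (place sp p ω)) (T (place sp p (D.piecewise ω' ω))) : ℝ))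

/-- comparison through the sides -/
lemma dist_le_sides {N M : ℕ} (T : (Fin N → Fin M) → (Fin N → Bool)) (u v : Fin N → Fin M) :
    hammingDist (T u) (T v) ≤ #(Sset T u) + #(Sset T v) + #{i | side (u i) ≠ side (v i)} := by
  classical
  have h1 : ({i | T u i ≠ T v i} : Finset (Fin N)) ⊆
      (Sset T u ∪ Sset T v) ∪ ({i | side (u i) ≠ side (v i)} : Finset (Fin N)) := by
    intro i hi
    simp only [Finset.mem_filter, Finset.mem_univ, true_and] at hi
    simp only [Finset.mem_union, Sset, Finset.mem_filter, Finset.mem_univ, true_and]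
    by_contra hcon
    push Not at hcon
    obtain ⟨⟨ha, hb⟩, hc⟩ := hcon
    exact hi (ha.symm.trans (hc.trans hb))
  unfold hammingDist
  refine (Finset.card_le_card h1).trans ((Finset.card_union_le _ _).trans ?_)
  exact Nat.add_le_add_right (Finset.card_union_le _ _) _

/-- cost at level 2 -/
lemma level_two (hG : 0 < G) (sp : Fin (n + 1))
    (T : (Fin (n + 1) → Fin (2 * G)) → (Fin (n + 1) → Bool))
    (c1 : Fin n × Fin K → Fin l1) (c2 : Fin n × Fin K → Fin l2)
    (μ : Fin (n + 1) × Fin n → Fin q) (j : Fin n) (hj : Λ.lev j = 2) :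
    avg (fun x : Fin n → ZMod 2 =>
        avg fun W : Fin (n + 1) × (Fin n → ZMod 2) → Fin (2 * G) =>
          (hammingDist (T (pt Λ sp c1 c2 μ W x)) (T (pt Λ sp c1 c2 μ W (x + Pi.single j 1))) : ℝ))
      ≤ 2 * avg (fun u => (#(Sset T u) : ℝ)) + 2 := by
  have hne : Nonempty (Fin (2 * G)) := ⟨⟨0, by omega⟩⟩
  have hne2 : Nonempty (Fin n → ZMod 2) := ⟨0⟩
  have hS : avg (fun x : Fin n → ZMod 2 =>
        avg fun W : Fin (n + 1) × (Fin n → ZMod 2) → Fin (2 * G) =>
          (#(Sset T (pt Λ sp c1 c2 μ W x)) : ℝ)) = avg (fun u => (#(Sset T u) : ℝ)) := by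
    rw [← avg_pt Λ c1 c2 hG sp μ 0 (fun u => (#(Sset T u) : ℝ))]
    simp only [add_zero]
    rfl
  have hS' : avg (fun x : Fin n → ZMod 2 =>
        avg fun W : Fin (n + 1) × (Fin n → ZMod 2) → Fin (2 * G) =>
          (#(Sset T (pt Λ sp c1 c2 μ W (x + Pi.single j 1))) : ℝ))
        = avg (fun u => (#(Sset T u) : ℝ)) := by
    rw [← hS]
    exact avg_equiv (Equiv.addRight (Pi.single j 1 : Fin n → ZMod 2))
      (fun x : Fin n → ZMod 2 => avg fun W : Fin (n + 1) × (Fin n → ZMod 2) → Fin (2 * G) =>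
          (#(Sset T (pt Λ sp c1 c2 μ W x)) : ℝ))
  have hmain : avg (fun x : Fin n → ZMod 2 =>
        avg fun W : Fin (n + 1) × (Fin n → ZMod 2) → Fin (2 * G) =>
          (hammingDist (T (pt Λ sp c1 c2 μ W x)) (T (pt Λ sp c1 c2 μ W (x + Pi.single j 1))) : ℝ))
      ≤ avg (fun x : Fin n → ZMod 2 =>
        avg fun W : Fin (n + 1) × (Fin n → ZMod 2) → Fin (2 * G) =>
          (((#(Sset T (pt Λ sp c1 c2 μ W x)) : ℝ) +
            (#(Sset T (pt Λ sp c1 c2 μ W (x + Pi.single j 1))) : ℝ)) + 2)) := by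
    apply avg_mono
    intro x
    apply avg_mono
    intro W
    have h1 := dist_le_sides T (pt Λ sp c1 c2 μ W x) (pt Λ sp c1 c2 μ W (x + Pi.single j 1))
    have h2 : #{i | side (pt Λ sp c1 c2 μ W x i) ≠
        side (pt Λ sp c1 c2 μ W (x + Pi.single j 1) i)} ≤ 2 := by
      have h3 : ({i | side (pt Λ sp c1 c2 μ W x i) ≠
        side (pt Λ sp c1 c2 μ W (x + Pi.single j 1) i)} : Finset (Fin (n + 1))) ⊆
          {sp, sp.succAbove j} := by
        intro i hi
        simp only [Finset.mem_filter, Finset.mem_univ, true_and] at hi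
        rw [Finset.mem_insert, Finset.mem_singleton]
        rcases Fin.eq_self_or_eq_succAbove sp i with h | ⟨k, rfl⟩
        · exact Or.inl h
        · right
          by_contra hk
          have hkj : k ≠ j := fun h => hk (by rw [h])
          apply hi
          unfold pt
          rw [side_place, side_place]
          congr 1
          rw [pos_add, pos_single, Pi.add_apply, Pi.add_apply, Pi.single_eq_of_ne hkj]
          have : ∑ k : Fin K, kid Λ c1 c2 (j, k) = 0 := by
            apply Finset.sum_eq_zero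
            intro k' _
            simp [kid, hj]
          rw [this]
          simp
      exact (Finset.card_le_card h3).trans Finset.card_le_two
    have h3 : hammingDist (T (pt Λ sp c1 c2 μ W x)) (T (pt Λ sp c1 c2 μ W (x + Pi.single j 1)))
      ≤ #(Sset T (pt Λ sp c1 c2 μ W x)) + #(Sset T (pt Λ sp c1 c2 μ W (x + Pi.single j 1))) + 2 :=
      h1.trans (Nat.add_le_add_left h2 _)
    exact_mod_cast h3
  refine hmain.trans (le_of_eq ?_)
  have h4 : ∀ x : Fin n → ZMod 2,
      (avg fun W : Fin (n + 1) × (Fin n → ZMod 2) → Fin (2 * G) =>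
          (((#(Sset T (pt Λ sp c1 c2 μ W x)) : ℝ) +
            (#(Sset T (pt Λ sp c1 c2 μ W (x + Pi.single j 1))) : ℝ)) + 2))
      = ((avg fun W : Fin (n + 1) × (Fin n → ZMod 2) → Fin (2 * G) =>
          (#(Sset T (pt Λ sp c1 c2 μ W x)) : ℝ)) +
        (avg fun W : Fin (n + 1) × (Fin n → ZMod 2) → Fin (2 * G) =>
          (#(Sset T (pt Λ sp c1 c2 μ W (x + Pi.single j 1))) : ℝ))) + 2 := by
    intro x
    rw [avg_add, avg_add, avg_const]
  rw [avg_congr h4, avg_add, avg_add, avg_const, hS, hS']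
  ring

end main

theorem field_cost {n K q G l1 l2 : ℕ} (hG : 0 < G) (Λ : Lev n l1 l2) (sp : Fin (n + 1))
    {T : (Fin (n + 1) → Fin (2 * G)) → (Fin (n + 1) → Bool)} (J0 : ℝ)
    (hsp : avg (fun u => (jump T sp u : ℝ)) ≤ J0)
    (h1 : ∀ i, avg (fun u => (jump T (sp.succAbove (Λ.e1 i)) u : ℝ)) ≤ J0)
    (h2 : ∀ i, avg (fun u => (jump T (sp.succAbove (Λ.e2 i)) u : ℝ)) ≤ J0)
    (c1 : Fin n × Fin K → Fin l1) (c2 : Fin n × Fin K → Fin l2)
    (μ : Fin (n + 1) × Fin n → Fin q) :
    ∑ j : Fin n, avg (fun x : Fin n → ZMod 2 =>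
        avg fun W : Fin (n + 1) × (Fin n → ZMod 2) → Fin (2 * G) =>
          (hammingDist (T (pt Λ sp c1 c2 μ W x)) (T (pt Λ sp c1 c2 μ W (x + Pi.single j 1))) : ℝ))
      ≤ ∑ i, avg (fun u => (jump T i u : ℝ)) + n * K * J0
        + ∑ j with Λ.lev j = 1, ∑ i, (if ((μ (i, j) : Fin q) : ℕ) = 0 then
            (if i = sp then J0 else resamp T i) else 0)
        + l2 * (2 * avg (fun u => (#(Sset T u) : ℝ)) + 2) := by
  have hJ0 : 0 ≤ J0 := le_trans (avg_nonneg fun _ => Nat.cast_nonneg _) hsp
  have hjump : ∀ i : Fin (n + 1), 0 ≤ avg (fun u => (jump T i u : ℝ)) :=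
    fun i => avg_nonneg fun _ => Nat.cast_nonneg _
  have hSn : 0 ≤ avg (fun u => (#(Sset T u) : ℝ)) := avg_nonneg fun _ => Nat.cast_nonneg _
  have hN : ∀ j : Fin n, 0 ≤ ∑ i, (if ((μ (i, j) : Fin q) : ℕ) = 0 then
            (if i = sp then J0 else resamp T i) else 0) := by
    intro j
    apply Finset.sum_nonneg
    intro i _
    split_ifs
    · exact hJ0
    · exact resamp_nonneg T i
    · exact le_rfl
  have hterm : ∀ j : Fin n, avg (fun x : Fin n → ZMod 2 =>
        avg fun W : Fin (n + 1) × (Fin n → ZMod 2) → Fin (2 * G) =>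
          (hammingDist (T (pt Λ sp c1 c2 μ W x)) (T (pt Λ sp c1 c2 μ W (x + Pi.single j 1))) : ℝ))
      ≤ (avg (fun u => (jump T (sp.succAbove j) u : ℝ)) + K * J0)
        + (if Λ.lev j = 1 then ∑ i, (if ((μ (i, j) : Fin q) : ℕ) = 0 then
            (if i = sp then J0 else resamp T i) else 0) else 0)
        + (if Λ.lev j = 2 then (2 * avg (fun u => (#(Sset T u) : ℝ)) + 2) else 0) := by
    intro j
    have hbase : 0 ≤ avg (fun u => (jump T (sp.succAbove j) u : ℝ)) + K * J0 :=
      add_nonneg (hjump _) (mul_nonneg (Nat.cast_nonneg _) hJ0)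
    by_cases hj2 : Λ.lev j = 2
    · have hj1 : Λ.lev j ≠ 1 := by rw [hj2]; decide
      rw [if_pos hj2, if_neg hj1, add_zero]
      exact (level_two Λ hG sp T c1 c2 μ j hj2).trans (le_add_of_nonneg_left hbase)
    · rw [if_neg hj2, add_zero]
      by_cases hj1 : Λ.lev j = 1
      · rw [if_pos hj1]
        refine le_trans ?_ (add_le_add (all_pos Λ hG sp J0 h1 h2 c1 c2 μ j hj2)
          (noise_change Λ hG sp J0 hsp c1 c2 μ j hj1))
        rw [← avg_add]
        apply avg_mono
        intro x
        rw [← avg_add]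
        apply avg_mono
        intro W
        unfold pt
        exact_mod_cast hammingDist_triangle _ _ _
      · rw [if_neg hj1, add_zero]
        refine le_trans (le_of_eq ?_) (all_pos Λ hG sp J0 h1 h2 c1 c2 μ j hj2)
        apply avg_congr
        intro x
        apply avg_congr
        intro W
        have h3 : noise Λ μ W (x + Pi.single j 1) = noise Λ μ W x := by
          funext i
          unfold noise
          rw [zm_add_single Λ μ i x j (by
            rintro (h | h)
            · exact hj2 h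
            · exact hj1 h.1)]
        unfold pt
        rw [h3]
  refine (Finset.sum_le_sum (fun j _ => hterm j)).trans ?_
  rw [Finset.sum_add_distrib, Finset.sum_add_distrib, Finset.sum_add_distrib,
    ← Finset.sum_filter, ← Finset.sum_filter]
  have h5 : ∑ j : Fin n, avg (fun u => (jump T (sp.succAbove j) u : ℝ))
      ≤ ∑ i, avg (fun u => (jump T i u : ℝ)) := by
    rw [Fin.sum_univ_succAbove (fun i => avg (fun u => (jump T i u : ℝ))) sp]
    exact le_add_of_nonneg_left (hjump sp)
  have h6 : ∑ _j : Fin n, (K : ℝ) * J0 = n * K * J0 := by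
    rw [Finset.sum_const, Finset.card_univ, Fintype.card_fin, nsmul_eq_mul]
    ring
  have h7 : ∑ j : Fin n with Λ.lev j = 2, (2 * avg (fun u => (#(Sset T u) : ℝ)) + 2)
      = l2 * (2 * avg (fun u => (#(Sset T u) : ℝ)) + 2) := by
    rw [Finset.sum_const, Λ.card2, nsmul_eq_mul]
  rw [h6, h7]
  linarith

/-- averaged over the masks -/
theorem avg_field_cost {n K q G l1 l2 : ℕ} (hG : 0 < G) (hq : 0 < q) (Λ : Lev n l1 l2)
    (sp : Fin (n + 1))
    {T : (Fin (n + 1) → Fin (2 * G)) → (Fin (n + 1) → Bool)} (J0 : ℝ) (hJ0 : 0 ≤ J0)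
    (hsp : avg (fun u => (jump T sp u : ℝ)) ≤ J0)
    (h1 : ∀ i, avg (fun u => (jump T (sp.succAbove (Λ.e1 i)) u : ℝ)) ≤ J0)
    (h2 : ∀ i, avg (fun u => (jump T (sp.succAbove (Λ.e2 i)) u : ℝ)) ≤ J0)
    (c1 : Fin n × Fin K → Fin l1) (c2 : Fin n × Fin K → Fin l2) :
    avg (fun μ : Fin (n + 1) × Fin n → Fin q =>
      ∑ j : Fin n, avg (fun x : Fin n → ZMod 2 =>
        avg fun W : Fin (n + 1) × (Fin n → ZMod 2) → Fin (2 * G) =>
          (hammingDist (T (pt Λ sp c1 c2 μ W x)) (T (pt Λ sp c1 c2 μ W (x + Pi.single j 1))) : ℝ)))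
      ≤ ∑ i, avg (fun u => (jump T i u : ℝ)) + n * K * J0
        + l1 / q * (J0 + ∑ i, resamp T i)
        + l2 * (2 * avg (fun u => (#(Sset T u) : ℝ)) + 2) := by
  have hne : Nonempty (Fin q) := ⟨⟨0, hq⟩⟩
  have hq0 : (0 : ℝ) < q := by exact_mod_cast hq
  refine (avg_mono fun μ => field_cost hG Λ sp J0 hsp h1 h2 c1 c2 μ).trans ?_
  rw [avg_add, avg_add, avg_const, avg_const]
  gcongr
  rw [avg_sum]
  have h3 : ∀ j : Fin n, avg (fun μ : Fin (n + 1) × Fin n → Fin q =>
      ∑ i, (if ((μ (i, j) : Fin q) : ℕ) = 0 then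
            (if i = sp then J0 else resamp T i) else 0))
      ≤ 1 / q * (J0 + ∑ i, resamp T i) := by
    intro j
    rw [avg_sum]
    have h4 : ∀ i : Fin (n + 1), avg (fun μ : Fin (n + 1) × Fin n → Fin q =>
        (if ((μ (i, j) : Fin q) : ℕ) = 0 then
            (if i = sp then J0 else resamp T i) else 0))
        = 1 / q * (if i = sp then J0 else resamp T i) := by
      intro i
      rw [avg_eval (i, j) (fun a : Fin q => (if (a : ℕ) = 0 then
            (if i = sp then J0 else resamp T i) else 0))]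
      unfold avg
      rw [Fintype.card_fin, Finset.sum_eq_single (⟨0, hq⟩ : Fin q)]
      · simp only [if_true]
        ring
      · intro b _ hb
        rw [if_neg]
        intro h
        exact hb (Fin.ext h)
      · intro h; exact absurd (Finset.mem_univ _) h
    rw [Finset.sum_congr rfl (fun i _ => h4 i), ← Finset.mul_sum]
    gcongr
    calc ∑ i, (if i = sp then J0 else resamp T i)
        ≤ ∑ i, ((if i = sp then J0 else 0) + resamp T i) := by
          apply Finset.sum_le_sum
          intro i _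
          split_ifs
          · linarith [resamp_nonneg T i]
          · linarith
      _ = J0 + ∑ i, resamp T i := by
          rw [Finset.sum_add_distrib]
          congr 1
          rw [Finset.sum_ite_eq' Finset.univ sp (fun _ => J0)]
          simp
  calc ∑ j with Λ.lev j = 1, avg (fun μ : Fin (n + 1) × Fin n → Fin q =>
      ∑ i, (if ((μ (i, j) : Fin q) : ℕ) = 0 then
            (if i = sp then J0 else resamp T i) else 0))
      ≤ ∑ j with Λ.lev j = 1, 1 / q * (J0 + ∑ i, resamp T i) :=
        Finset.sum_le_sum fun j _ => h3 j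
    _ = l1 / q * (J0 + ∑ i, resamp T i) := by
        rw [Finset.sum_const, Λ.card1, nsmul_eq_mul]
        ring

end

end Pool.Agent.Helper38.Stretch
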