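import Pool.Agent.Helper38.Stretch.Defs

/-! Definitions for the derandomisation (modules M9–M11). -/

namespace Pool.Agent.Helper38.Stretch

open Finset

noncomputable section

/-- reflect the grid value `a` to the side `b` -/
def refl {M : ℕ} (b : Bool) (a : Fin M) : Fin M := if side a = b then a else a.rev

/-- boolean value of an element of `ZMod 2` -/
def zb (z : ZMod 2) : Bool := decide (z = 1)

/-- grid point with positions `p` (sides of the coordinates `≠ sp`) and noise `a` -/
def place {n M : ℕ} (sp : Fin (n + 1)) (p : Fin n → ZMod 2) (a : Fin (n + 1) → Fin M) :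
    Fin (n + 1) → Fin M :=
  sp.insertNth (a sp) (fun k => refl (zb (p k)) (a (sp.succAbove k)))

/-- data of the levels: `lev j = 0, 1, 2`; `e1`, `e2` enumerate (part of) levels 1 and 2 -/
structure Lev (n l1 l2 : ℕ) where
  lev : Fin n → Fin 3
  e1 : Fin l1 → Fin n
  e2 : Fin l2 → Fin n
  inj1 : Function.Injective e1
  inj2 : Function.Injective e2
  lev1 : ∀ i, lev (e1 i) = 1
  lev2 : ∀ i, lev (e2 i) = 2
  card1 : #{j | lev j = 1} = l1
  card2 : #{j | lev j = 2} = l2

variable {n l1 l2 : ℕ}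

/-- contribution of the ball `b = (j,k)` (the `k`-th child of the label `j`) -/
def kid {K : ℕ} (Λ : Lev n l1 l2) (c1 : Fin n × Fin K → Fin l1) (c2 : Fin n × Fin K → Fin l2)
    (b : Fin n × Fin K) : Fin n → ZMod 2 :=
  if Λ.lev b.1 = 0 then Pi.single (Λ.e1 (c1 b)) 1
  else if Λ.lev b.1 = 1 then Pi.single (Λ.e2 (c2 b)) 1
  else 0

/-- positions of the label vector `x` -/
def pos {K : ℕ} (Λ : Lev n l1 l2) (c1 : Fin n × Fin K → Fin l1) (c2 : Fin n × Fin K → Fin l2)
    (x : Fin n → ZMod 2) : Fin n → ZMod 2 :=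
  x + ∑ b : Fin n × Fin K, x b.1 • kid Λ c1 c2 b

/-- label vector masked for the `i`-th noise coordinate -/
def zm {q : ℕ} (Λ : Lev n l1 l2) (μ : Fin (n + 1) × Fin n → Fin q) (i : Fin (n + 1))
    (x : Fin n → ZMod 2) : Fin n → ZMod 2 :=
  fun j => if Λ.lev j = 2 ∨ (Λ.lev j = 1 ∧ ((μ (i, j) : Fin q) : ℕ) = 0) then x j else 0

/-- the noise seen by the label vector `x` -/
def noise {q M : ℕ} (Λ : Lev n l1 l2) (μ : Fin (n + 1) × Fin n → Fin q)
    (W : Fin (n + 1) × (Fin n → ZMod 2) → Fin M) (x : Fin n → ZMod 2) : Fin (n + 1) → Fin M :=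
  fun i => W (i, zm Λ μ i x)

/-- the grid point assigned to the label vector `x` -/
def pt {K q M : ℕ} (Λ : Lev n l1 l2) (sp : Fin (n + 1)) (c1 : Fin n × Fin K → Fin l1)
    (c2 : Fin n × Fin K → Fin l2) (μ : Fin (n + 1) × Fin n → Fin q)
    (W : Fin (n + 1) × (Fin n → ZMod 2) → Fin M) (x : Fin n → ZMod 2) : Fin (n + 1) → Fin M :=
  place sp (pos Λ c1 c2 x) (noise Λ μ W x)

/-- expected distance moved by `T` when the `i`-th noise coordinate is resampled (same side) -/
def resamp {N M : ℕ} (T : (Fin N → Fin M) → (Fin N → Bool)) (i : Fin N) : ℝ :=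
  avg fun u : Fin N → Fin M => avg fun a : Fin M =>
    (hammingDist (T u) (T (Function.update u i (refl (side (u i)) a))) : ℝ)

end

end Pool.Agent.Helper38.Stretch
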