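import Mathlib

/-! Asymptotic parameter inequalities. -/

namespace Pool.Agent.Helper38.Stretch

open Filter

noncomputable section

lemma pow_sub_one_le (x : ℝ) (N : ℕ) (hx : 0 ≤ x) (h : N * x ≤ 1 / 2) :
    (1 + x) ^ N - 1 ≤ 2 * (N * x) := by
  set y : ℝ := N * x with hy
  have hy0 : 0 ≤ y := by positivity
  have h1 : (1 + x) ^ N ≤ Real.exp y := by
    have h2 : 1 + x ≤ Real.exp x := by linarith [Real.add_one_le_exp x]
    calc (1 + x) ^ N ≤ Real.exp x ^ N := pow_le_pow_left₀ (by linarith) h2 N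
      _ = Real.exp y := by rw [← Real.exp_nat_mul]
  have h3 : Real.exp y * (1 - y) ≤ 1 := by
    have h4 : 1 - y ≤ Real.exp (-y) := by linarith [Real.add_one_le_exp (-y)]
    calc Real.exp y * (1 - y) ≤ Real.exp y * Real.exp (-y) :=
          mul_le_mul_of_nonneg_left h4 (Real.exp_pos y).le
      _ = 1 := by rw [← Real.exp_add]; simp
  have h5 : Real.exp y ≤ 1 + 2 * y := by
    by_contra hcon
    push Not at hcon
    have h6 : (1 + 2 * y) * (1 - y) < Real.exp y * (1 - y) :=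
      mul_lt_mul_of_pos_right hcon (by linarith)
    nlinarith
  linarith

lemma ev_ge (c : ℝ) : ∀ᶠ m : ℕ in atTop, c ≤ (m : ℝ) :=
  tendsto_natCast_atTop_atTop.eventually_ge_atTop c

lemma ev_exp (k : ℕ) (c : ℝ) (K : ℝ) (hc : 0 < c) (hK : 0 < K) :
    ∀ᶠ m : ℕ in atTop, K * (m : ℝ) ^ k * Real.exp (-(c * m)) ≤ 1 := by
  have h1 := Real.tendsto_pow_mul_exp_neg_atTop_nhds_zero k
  have h2 : Tendsto (fun m : ℕ => c * (m : ℝ)) atTop atTop :=
    Tendsto.const_mul_atTop hc tendsto_natCast_atTop_atTop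
  have h3 := h1.comp h2
  have h4 : ∀ᶠ m : ℕ in atTop, (c * (m : ℝ)) ^ k * Real.exp (-(c * m)) < c ^ k / K :=
    h3.eventually_lt_const (by positivity)
  filter_upwards [h4] with m hm
  have hck : 0 < c ^ k := by positivity
  rw [mul_pow] at hm
  have h5 : c ^ k * ((m : ℝ) ^ k * Real.exp (-(c * m))) < c ^ k * (1 / K) := by
    calc c ^ k * ((m : ℝ) ^ k * Real.exp (-(c * m))) = c ^ k * (m : ℝ) ^ k * Real.exp (-(c * m)) := by
          ring
      _ < c ^ k / K := hm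
      _ = c ^ k * (1 / K) := by ring
  have h6 := lt_of_mul_lt_mul_left h5 hck.le
  rw [lt_div_iff₀ hK] at h6
  linarith

theorem params (CJ J0 : ℝ) (hCJ : 0 ≤ CJ) (hJ0 : 0 ≤ J0) :
    ∀ᶠ m : ℕ in atTop,
      1000 ≤ m ∧
      4 * (m ^ 18 + m ^ 14 + 1) ≤ m ^ 32 ∧
      ((m : ℝ) ^ 10 + (m : ℝ) ^ 13 + 205 * (2 * (m : ℝ) ^ 17 + 4) ≤ 1000 / m * (m : ℝ) ^ 18) ∧
      ((m : ℝ) ^ 8 + 205 * (m : ℝ) ^ 13 ≤ 1000 / m * (m : ℝ) ^ 14) ∧
      (2 * ((1 + 2 ^ 205 * (1000 / (m : ℝ)) ^ 100) ^ (m ^ 32) - 1) ≤ 1 / ((m : ℝ) ^ 32 + 1) ^ 2) ∧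
      (2 * ((1 + 2 * (1 - 1 / (m : ℝ) ^ 12) ^ (m ^ 13)) ^ (m ^ 32 + 1) - 1) ≤
        1 / ((m : ℝ) ^ 32 + 1) ^ 2) ∧
      (18 * Real.exp (-(m : ℝ) / 2) ≤ 1 / ((m : ℝ) ^ 32 + 1) ^ 2) ∧
      (-((m : ℝ) ^ 17) + 22 * (m : ℝ) ^ 15 * m + Real.exp 1 * ((m : ℝ) ^ 32 + 1) / (22 * (m : ℝ) ^ 15)
        ≤ -(m : ℝ) / 2) ∧
      (-((m : ℝ) ^ 10) + 11 * (m : ℝ) ^ 8 * m + Real.exp 1 * (m : ℝ) ^ 18 / (11 * (m : ℝ) ^ 8)
        ≤ -(m : ℝ) / 2) ∧
      (-((m : ℝ) ^ 8) + 11 * (m : ℝ) ^ 6 * m + Real.exp 1 * (m : ℝ) ^ 14 / (11 * (m : ℝ) ^ 6)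
        ≤ -(m : ℝ) / 2) ∧
      ((m : ℝ) ^ 18 / (m : ℝ) ^ 12 * (J0 + (√(2 * (m : ℝ) ^ 17) * √(6 * (CJ * ((m : ℝ) ^ 32 + 1)))
        + 2 * ((m : ℝ) ^ 32 + 1) ^ 2 * (3 * Real.exp (-(m : ℝ) / 2)))) ≤ (m : ℝ) ^ 32) ∧
      ((m : ℝ) ^ 14 * (2 * (7 * √((m : ℝ) ^ 32 + 1)) + 2) ≤ (m : ℝ) ^ 32) := by
  set C : ℝ := 2 ^ 205 * 1000 ^ 100 with hC
  have hC0 : 0 < C := by rw [hC]; exact mul_pos (pow_pos two_pos _) (pow_pos (by norm_num) _)
  filter_upwards [ev_ge 1000, ev_ge (16 * C), ev_ge (216 * CJ), ev_ge (3 * J0),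
    ev_exp 64 (1 / 2) 72 (by norm_num) (by norm_num), ev_exp 96 1 64 (by norm_num) (by norm_num)]
    with m hm1000 hmC hmCJ hmJ0 hexp1 hexp2
  set x : ℝ := (m : ℝ) with hx
  have hx0 : 0 < x := by linarith
  have hx1 : 1 ≤ x := by linarith
  have hexp1' : 72 * x ^ 64 * Real.exp (-x / 2) ≤ 1 := by
    have : -(1 / 2 * x) = -x / 2 := by ring
    rwa [this] at hexp1
  have hexp2' : 64 * x ^ 96 * Real.exp (-x) ≤ 1 := by
    have : -(1 * x) = -x := by ring
    rwa [this] at hexp2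
  have p1 : ∀ k : ℕ, 0 < x ^ k := fun k => pow_pos hx0 k
  have hp1 : ∀ k : ℕ, 1 ≤ x ^ k := fun k => one_le_pow₀ hx1
  have hstep : ∀ k : ℕ, 1000 * x ^ k ≤ x ^ (k + 1) := by
    intro k
    rw [pow_succ, mul_comm]
    exact mul_le_mul_of_nonneg_left hm1000 (p1 k).le
  have hmono : ∀ a b : ℕ, a ≤ b → x ^ a ≤ x ^ b := fun a b h => pow_le_pow_right₀ hx1 h
  have hN1 : 0 < x ^ 32 + 1 := by linarith [p1 32]
  have hN2 : x ^ 32 + 1 ≤ 2 * x ^ 32 := by linarith [hp1 32]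
  have hN2sq : (x ^ 32 + 1) ^ 2 ≤ 4 * x ^ 64 := by
    calc (x ^ 32 + 1) ^ 2 ≤ (2 * x ^ 32) ^ 2 := pow_le_pow_left₀ hN1.le hN2 2
      _ = 4 * x ^ 64 := by ring
  have hinv : 1 / (4 * x ^ 64) ≤ 1 / (x ^ 32 + 1) ^ 2 :=
    one_div_le_one_div_of_le (by positivity) hN2sq
  -- item 7
  have h7 : 18 * Real.exp (-x / 2) ≤ 1 / (x ^ 32 + 1) ^ 2 := by
    refine le_trans ?_ hinv
    rw [le_div_iff₀ (by positivity)]
    linarith
  have he3 : Real.exp 1 ≤ 3 := by
    have := Real.exp_one_lt_d9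
    linarith
  have hepos := Real.exp_pos 1
  refine ⟨?_, ?_, ?_, ?_, ?_, ?_, h7, ?_, ?_, ?_, ?_, ?_⟩
  · have h : (1000 : ℝ) ≤ (m : ℝ) := hm1000
    exact_mod_cast h
  · have : 4 * (x ^ 18 + x ^ 14 + 1) ≤ x ^ 32 := by
      have h1 := hmono 14 18 (by norm_num)
      have h2 := hp1 18
      have h3 := hstep 18
      have h4 := hmono 19 32 (by norm_num)
      norm_num at h3
      linarith
    rw [hx] at this
    exact_mod_cast this
  · have e : 1000 / x * x ^ 18 = 1000 * x ^ 17 := by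
      field_simp
    rw [e]
    have h1 := hmono 10 17 (by norm_num)
    have h2 := hmono 13 17 (by norm_num)
    have h3 : 1000 ≤ x ^ 17 := by
      have := hmono 1 17 (by norm_num)
      rw [pow_one] at this
      linarith
    linarith
  · have e : 1000 / x * x ^ 14 = 1000 * x ^ 13 := by
      field_simp
    rw [e]
    have h1 := hmono 8 13 (by norm_num)
    have h2 := p1 13
    linarith
  · -- item 5
    have e : (2 : ℝ) ^ 205 * (1000 / x) ^ 100 = C / x ^ 100 := by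
      rw [div_pow, hC, mul_div_assoc]
    rw [e]
    have hNx : ((m ^ 32 : ℕ) : ℝ) * (C / x ^ 100) = C / x ^ 68 := by
      push_cast
      rw [← hx]
      field_simp
    have hx4 : 16 * C ≤ x ^ 4 := by
      have := hmono 1 4 (by norm_num)
      rw [pow_one] at this
      linarith
    have hle : C / x ^ 68 ≤ 1 / (16 * x ^ 64) := by
      rw [div_le_div_iff₀ (p1 68) (by positivity)]
      have : x ^ 68 = x ^ 4 * x ^ 64 := by ring
      rw [this]
      have h2 := mul_le_mul_of_nonneg_right hx4 (p1 64).le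
      linarith
    have hhalf : C / x ^ 68 ≤ 1 / 2 := by
      refine le_trans hle ?_
      rw [div_le_div_iff₀ (by positivity) (by norm_num)]
      have := hp1 64
      linarith
    have h2 := pow_sub_one_le (C / x ^ 100) (m ^ 32) (by positivity) (by rw [hNx]; exact hhalf)
    rw [hNx] at h2
    refine le_trans ?_ hinv
    have h3 : 4 * (C / x ^ 68) ≤ 1 / (4 * x ^ 64) := by
      have : 4 * (1 / (16 * x ^ 64)) = 1 / (4 * x ^ 64) := by field_simp; norm_num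
      linarith
    linarith
  · -- item 6
    have hbase : (1 - 1 / x ^ 12) ^ (m ^ 13) ≤ Real.exp (-x) := by
      have h0 : 0 ≤ 1 - 1 / x ^ 12 := by
        rw [sub_nonneg, div_le_one (p1 12)]
        exact hp1 12
      have h1 : 1 - 1 / x ^ 12 ≤ Real.exp (-(1 / x ^ 12)) := by
        linarith [Real.add_one_le_exp (-(1 / x ^ 12))]
      calc (1 - 1 / x ^ 12) ^ (m ^ 13) ≤ Real.exp (-(1 / x ^ 12)) ^ (m ^ 13) :=
            pow_le_pow_left₀ h0 h1 _
        _ = Real.exp (-x) := by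
            rw [← Real.exp_nat_mul]
            congr 1
            push_cast
            rw [← hx]
            field_simp
    have hbase0 : 0 ≤ (1 - 1 / x ^ 12) ^ (m ^ 13) := by
      apply pow_nonneg
      rw [sub_nonneg, div_le_one (p1 12)]
      exact hp1 12
    set t : ℝ := 2 * (1 - 1 / x ^ 12) ^ (m ^ 13) with ht
    have ht0 : 0 ≤ t := by positivity
    have htle : t ≤ 2 * Real.exp (-x) := by rw [ht]; linarith
    have hNt : ((m ^ 32 + 1 : ℕ) : ℝ) * t ≤ 1 / (16 * x ^ 64) := by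
      push_cast
      rw [← hx]
      calc (x ^ 32 + 1) * t ≤ (2 * x ^ 32) * (2 * Real.exp (-x)) :=
            mul_le_mul hN2 htle ht0 (by positivity)
        _ ≤ 1 / (16 * x ^ 64) := by
            rw [le_div_iff₀ (by positivity)]
            have : 2 * x ^ 32 * (2 * Real.exp (-x)) * (16 * x ^ 64) =
                64 * x ^ 96 * Real.exp (-x) := by ring
            rw [this]
            exact hexp2'
    have hhalf : ((m ^ 32 + 1 : ℕ) : ℝ) * t ≤ 1 / 2 := by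
      refine le_trans hNt ?_
      rw [div_le_div_iff₀ (by positivity) (by norm_num)]
      have := hp1 64
      linarith
    have h2 := pow_sub_one_le t (m ^ 32 + 1) ht0 hhalf
    refine le_trans ?_ hinv
    have h3 : 4 * (((m ^ 32 + 1 : ℕ) : ℝ) * t) ≤ 1 / (4 * x ^ 64) := by
      have : 4 * (1 / (16 * x ^ 64)) = 1 / (4 * x ^ 64) := by field_simp; norm_num
      linarith
    linarith
  · -- item 8
    have h1 : Real.exp 1 * (x ^ 32 + 1) / (22 * x ^ 15) ≤ x ^ 17 / 2 := by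
      rw [div_le_div_iff₀ (by positivity) (by norm_num)]
      have e : x ^ 17 * (22 * x ^ 15) = 22 * x ^ 32 := by ring
      rw [e]
      have h2 : Real.exp 1 * (x ^ 32 + 1) ≤ 3 * (2 * x ^ 32) :=
        mul_le_mul he3 hN2 hN1.le (by norm_num)
      have := p1 32
      linarith
    have h3 := hstep 16
    have h4 : 22 * x ^ 15 * x = 22 * x ^ 16 := by ring
    have h5 := hmono 1 16 (by norm_num)
    rw [pow_one] at h5
    rw [h4]
    norm_num at h3
    linarith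
  · -- item 9
    have h1 : Real.exp 1 * x ^ 18 / (11 * x ^ 8) ≤ x ^ 10 / 2 := by
      rw [div_le_div_iff₀ (by positivity) (by norm_num)]
      have e : x ^ 10 * (11 * x ^ 8) = 11 * x ^ 18 := by ring
      rw [e]
      have h2 : Real.exp 1 * x ^ 18 ≤ 3 * x ^ 18 := mul_le_mul_of_nonneg_right he3 (p1 18).le
      have := p1 18
      linarith
    have h3 := hstep 9
    have h4 : 11 * x ^ 8 * x = 11 * x ^ 9 := by ring
    have h5 := hmono 1 9 (by norm_num)
    rw [pow_one] at h5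
    rw [h4]
    norm_num at h3
    linarith
  · -- item 10
    have h1 : Real.exp 1 * x ^ 14 / (11 * x ^ 6) ≤ x ^ 8 / 2 := by
      rw [div_le_div_iff₀ (by positivity) (by norm_num)]
      have e : x ^ 8 * (11 * x ^ 6) = 11 * x ^ 14 := by ring
      rw [e]
      have h2 : Real.exp 1 * x ^ 14 ≤ 3 * x ^ 14 := mul_le_mul_of_nonneg_right he3 (p1 14).le
      have := p1 14
      linarith
    have h3 := hstep 7
    have h4 : 11 * x ^ 6 * x = 11 * x ^ 7 := by ring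
    have h5 := hmono 1 7 (by norm_num)
    rw [pow_one] at h5
    rw [h4]
    norm_num at h3
    linarith
  · -- item 11
    have e : x ^ 18 / x ^ 12 = x ^ 6 := by
      rw [div_eq_iff (p1 12).ne']; ring
    rw [e]
    have hJ : x ^ 6 * J0 ≤ x ^ 32 / 3 := by
      have h1 : x ^ 6 * (3 * J0) ≤ x ^ 6 * x := mul_le_mul_of_nonneg_left hmJ0 (p1 6).le
      have h2 : x ^ 6 * x = x ^ 7 := by ring
      have h3 := hmono 7 32 (by norm_num)
      linarith
    have hsq : x ^ 6 * (√(2 * x ^ 17) * √(6 * (CJ * (x ^ 32 + 1)))) ≤ x ^ 32 / 3 := by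
      have h1 : √(2 * x ^ 17) * √(6 * (CJ * (x ^ 32 + 1))) ≤ x ^ 26 / 3 := by
        rw [← Real.sqrt_mul (by positivity)]
        apply Real.sqrt_le_iff.2
        refine ⟨by positivity, ?_⟩
        have h2 : CJ * (x ^ 32 + 1) ≤ CJ * (2 * x ^ 32) := mul_le_mul_of_nonneg_left hN2 hCJ
        have h3 : 2 * x ^ 17 * (6 * (CJ * (x ^ 32 + 1))) ≤ 2 * x ^ 17 * (6 * (CJ * (2 * x ^ 32))) := by
          apply mul_le_mul_of_nonneg_left _ (by positivity)
          linarith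
        refine le_trans h3 ?_
        have h4 : 2 * x ^ 17 * (6 * (CJ * (2 * x ^ 32))) = (216 * CJ) * x ^ 49 / 9 := by ring
        have h5 : (x ^ 26 / 3) ^ 2 = x ^ 3 * x ^ 49 / 9 := by ring
        rw [h4, h5]
        have h6 : 216 * CJ ≤ x ^ 3 := by
          have := hmono 1 3 (by norm_num)
          rw [pow_one] at this
          linarith
        have h7 := mul_le_mul_of_nonneg_right h6 (p1 49).le
        linarith
      calc x ^ 6 * (√(2 * x ^ 17) * √(6 * (CJ * (x ^ 32 + 1)))) ≤ x ^ 6 * (x ^ 26 / 3) :=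
            mul_le_mul_of_nonneg_left h1 (p1 6).le
        _ = x ^ 32 / 3 := by ring
    have hex : x ^ 6 * (2 * (x ^ 32 + 1) ^ 2 * (3 * Real.exp (-x / 2))) ≤ x ^ 32 / 3 := by
      have h1 : (x ^ 32 + 1) ^ 2 * (18 * Real.exp (-x / 2)) ≤ 1 := by
        have h2 := mul_le_mul_of_nonneg_left h7 (by positivity : (0 : ℝ) ≤ (x ^ 32 + 1) ^ 2)
        have h3 : (x ^ 32 + 1) ^ 2 * (1 / (x ^ 32 + 1) ^ 2) = 1 := by
          field_simp
        linarith
      have h4 : 2 * (x ^ 32 + 1) ^ 2 * (3 * Real.exp (-x / 2)) ≤ 1 / 3 := by linarith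
      have h5 := mul_le_mul_of_nonneg_left h4 (p1 6).le
      have h6 := hmono 6 32 (by norm_num)
      linarith
    have e2 : x ^ 6 * (J0 + (√(2 * x ^ 17) * √(6 * (CJ * (x ^ 32 + 1)))
        + 2 * (x ^ 32 + 1) ^ 2 * (3 * Real.exp (-x / 2)))) =
        x ^ 6 * J0 + x ^ 6 * (√(2 * x ^ 17) * √(6 * (CJ * (x ^ 32 + 1)))) +
        x ^ 6 * (2 * (x ^ 32 + 1) ^ 2 * (3 * Real.exp (-x / 2))) := by ring
    rw [e2]
    linarith
  · -- item 12
    have h1 : √(x ^ 32 + 1) ≤ 2 * x ^ 16 := by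
      apply Real.sqrt_le_iff.2
      refine ⟨by positivity, ?_⟩
      have : (2 * x ^ 16) ^ 2 = 4 * x ^ 32 := by ring
      rw [this]
      have := p1 32
      linarith
    have h2 : 2 * (7 * √(x ^ 32 + 1)) + 2 ≤ 30 * x ^ 16 := by
      have := hp1 16
      linarith
    calc x ^ 14 * (2 * (7 * √(x ^ 32 + 1)) + 2) ≤ x ^ 14 * (30 * x ^ 16) :=
          mul_le_mul_of_nonneg_left h2 (p1 14).le
      _ = 30 * x ^ 30 := by ring
      _ ≤ x ^ 32 := by
          have h3 := hstep 30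
          have h4 := hmono 31 32 (by norm_num)
          norm_num at h3
          have := p1 30
          linarith

end

end Pool.Agent.Helper38.Stretch
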