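import Pool.Agent.Helper38.Stretch.FieldDefs
import Pool.Agent.Helper38.Stretch.Exit

/-! Cost of resampling one noise coordinate (module M8).

If `u, u' = update u i (refl (side (u i)) a)` both have `#Sset ≤ s0` then
`hammingDist (T u) (T u') ≤ 2 s0` (same sides everywhere), so dist ≤ √(2 s0) √jump.  The event
`T u ≠ T u'` forces `u i` or the new value to lie strictly between the threshold and the middle:
line-average `≤ wid`.  (Given the line, `b = u i` and `b' = refl (side b) a` are both uniform on
`Fin M`; `#{b | min(t,G) ≤ b < max(t,G)}/M = wid/2`.)  Then Cauchy–Schwarz over `u` and over `i`. -/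

namespace Pool.Agent.Helper38.Stretch

open Finset

noncomputable section

lemma side_rev_r {G : ℕ} (a : Fin (2 * G)) : side a.rev = !side a := by
  have ha := a.2
  unfold side
  rw [Fin.val_rev]
  by_cases h : 2 * G ≤ 2 * (a : ℕ)
  · have h2 : ¬ 2 * G ≤ 2 * (2 * G - ((a : ℕ) + 1)) := by omega
    simp [h, h2]
  · have h2 : 2 * G ≤ 2 * (2 * G - ((a : ℕ) + 1)) := by omega
    simp [h, h2]

lemma side_refl_r {G : ℕ} (s : Bool) (a : Fin (2 * G)) : side (refl s a) = s := by
  unfold refl
  split_ifs with h
  · exact h
  · rw [side_rev_r]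
    cases hs : side a <;> cases s <;> simp_all

/-- the measure preserving involution behind `refl` -/
def swp {G : ℕ} (p : Fin (2 * G) × Fin (2 * G)) : Fin (2 * G) × Fin (2 * G) :=
  if side p.2 = side p.1 then (p.2, p.1) else (p.2.rev, p.1.rev)

lemma swp_swp {G : ℕ} (p : Fin (2 * G) × Fin (2 * G)) : swp (swp p) = p := by
  unfold swp
  split_ifs with h1 h2 h2
  · rfl
  · exact absurd h1.symm h2
  · simp only [side_rev_r] at h2
    exact absurd (Bool.not_inj h2).symm h1
  · simp

lemma swp_fst {G : ℕ} (p : Fin (2 * G) × Fin (2 * G)) : (swp p).1 = refl (side p.1) p.2 := by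
  unfold swp refl
  split_ifs <;> rfl

lemma avg_refl_r {G : ℕ} (hG : 0 < G) (g : Fin (2 * G) → ℝ) :
    avg (fun b : Fin (2 * G) => avg fun a => g (refl (side b) a)) = avg g := by
  have : Nonempty (Fin (2 * G)) := ⟨⟨0, by omega⟩⟩
  rw [← avg_prod (fun p : Fin (2 * G) × Fin (2 * G) => g (refl (side p.1) p.2))]
  let e : Fin (2 * G) × Fin (2 * G) ≃ Fin (2 * G) × Fin (2 * G) :=
    { toFun := swp, invFun := swp, left_inv := swp_swp, right_inv := swp_swp }
  have h1 : avg (fun p : Fin (2 * G) × Fin (2 * G) => g (refl (side p.1) p.2)) =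
      avg (fun p : Fin (2 * G) × Fin (2 * G) => (fun q : Fin (2 * G) × Fin (2 * G) => g q.1) (e p)) := by
    apply avg_congr
    intro p
    show g (refl (side p.1) p.2) = g (swp p).1
    rw [swp_fst]
  rw [h1, avg_equiv e (fun q : Fin (2 * G) × Fin (2 * G) => g q.1), avg_prod]
  apply avg_congr
  intro a
  exact avg_const (α := Fin (2 * G)) (g a)

/-- resampling one coordinate on the same side preserves the uniform distribution -/
lemma avg_resample {N G : ℕ} (hG : 0 < G) (i : Fin N) (f : (Fin N → Fin (2 * G)) → ℝ) :
    avg (fun u : Fin N → Fin (2 * G) =>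
      avg fun a => f (Function.update u i (refl (side (u i)) a))) = avg f := by
  have : Nonempty (Fin (2 * G)) := ⟨⟨0, by omega⟩⟩
  rw [← avg_update i, ← avg_update i f]
  apply avg_congr
  intro u
  simp only [Function.update_self, Function.update_idem]
  exact avg_refl_r hG (fun c => f (Function.update u i c))

/-- interval between the threshold and the middle -/
def gap (G t : ℕ) (c : Fin (2 * G)) : ℝ :=
  if min t G ≤ (c : ℕ) ∧ (c : ℕ) < max t G then 1 else 0

lemma gap_nonneg (G t : ℕ) (c : Fin (2 * G)) : 0 ≤ gap G t c := by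
  unfold gap; split_ifs <;> norm_num

lemma avg_gap {G : ℕ} (hG : 0 < G) (t : ℕ) (ht : t ≤ 2 * G) :
    2 * avg (gap G t) = |2 * (t : ℝ) / (2 * G : ℕ) - 1| := by
  have hG' : (0 : ℝ) < G := by exact_mod_cast hG
  unfold avg gap
  rw [Finset.sum_boole, card_fin_Ico _ _ (max_le ht (by omega)) (min_le_max), Fintype.card_fin]
  rcases le_total t G with h | h
  · rw [min_eq_left h, max_eq_right h, Nat.cast_sub h, abs_of_nonpos]
    · push_cast; field_simp; ring
    · have : (t : ℝ) ≤ G := by exact_mod_cast h
      push_cast
      rw [sub_nonpos, div_le_one (by positivity)]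
      linarith
  · rw [min_eq_right h, max_eq_left h, Nat.cast_sub h, abs_of_nonneg]
    · push_cast; field_simp
    · have : (G : ℝ) ≤ t := by exact_mod_cast h
      push_cast
      rw [sub_nonneg, one_le_div (by positivity)]
      linarith

lemma dist_le_Sset {N M : ℕ} (T : (Fin N → Fin M) → (Fin N → Bool)) (u v : Fin N → Fin M)
    (h : ∀ k, side (u k) = side (v k)) :
    hammingDist (T u) (T v) ≤ #(Sset T u) + #(Sset T v) := by
  unfold hammingDist Sset
  refine le_trans (Finset.card_le_card ?_) (Finset.card_union_le _ _)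
  intro k hk
  simp only [Finset.mem_filter, Finset.mem_univ, true_and, Finset.mem_union] at hk ⊢
  by_contra hcon
  push Not at hcon
  apply hk
  rw [← hcon.1, ← hcon.2, h k]

theorem resamp_le {N G : ℕ} (hG : 0 < G) {T : (Fin N → Fin (2 * G)) → (Fin N → Bool)}
    (hT : Mono T) (i : Fin N) (s0 : ℕ) :
    resamp T i ≤ √(2 * s0) * avg (fun u => √(jump T i u) * wid T i u)
      + 2 * N * avg (fun u => if s0 < #(Sset T u) then (1 : ℝ) else 0) := by
  have hne : Nonempty (Fin (2 * G)) := ⟨⟨0, by omega⟩⟩
  set bad : (Fin N → Fin (2 * G)) → ℝ := fun u => if s0 < #(Sset T u) then (1 : ℝ) else 0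
    with hbad
  have hbad0 : ∀ u, 0 ≤ bad u := by
    intro u; simp only [hbad]; split_ifs <;> norm_num
  -- pointwise bound
  have hpt : ∀ (u : Fin N → Fin (2 * G)) (a : Fin (2 * G)),
      (hammingDist (T u) (T (Function.update u i (refl (side (u i)) a))) : ℝ) ≤
      √(2 * s0) * (√(jump T i u) * (gap G (thr T i u) (u i) +
        gap G (thr T i u) (refl (side (u i)) a))) +
      N * (bad u + bad (Function.update u i (refl (side (u i)) a))) := by
    intro u a
    set c := refl (side (u i)) a with hc
    have hside : side c = side (u i) := side_refl_r _ _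
    have hsides : ∀ k, side (u k) = side (Function.update u i c k) := by
      intro k
      by_cases hk : k = i
      · subst hk; rw [Function.update_self, hside]
      · rw [Function.update_of_ne hk]
    have hg0 := gap_nonneg G (thr T i u) (u i)
    have hg1 := gap_nonneg G (thr T i u) c
    by_cases hTT : T u = T (Function.update u i c)
    · rw [← hTT, hammingDist_self]
      have := hbad0 u
      have := hbad0 (Function.update u i c)
      push_cast
      positivity
    -- the gap
    have hgap : 1 ≤ gap G (thr T i u) (u i) + gap G (thr T i u) c := by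
      have hiff := hT.eq_iff u i (u i) c
      rw [Function.update_eq_self] at hiff
      have hne2 : ¬ (((u i : Fin (2 * G)) : ℕ) < thr T i u ↔ ((c : Fin (2 * G)) : ℕ) < thr T i u) :=
        fun h => hTT (hiff.2 h)
      have hs : (2 * G ≤ 2 * ((c : Fin (2 * G)) : ℕ)) ↔ (2 * G ≤ 2 * ((u i : Fin (2 * G)) : ℕ)) := by
        unfold side at hside
        exact decide_eq_decide.1 hside
      have hor : (min (thr T i u) G ≤ ((u i : Fin (2 * G)) : ℕ) ∧
          ((u i : Fin (2 * G)) : ℕ) < max (thr T i u) G) ∨
          (min (thr T i u) G ≤ ((c : Fin (2 * G)) : ℕ) ∧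
          ((c : Fin (2 * G)) : ℕ) < max (thr T i u) G) := by
        omega
      rcases hor with h | h
      · have : gap G (thr T i u) (u i) = 1 := by unfold gap; rw [if_pos h]
        linarith
      · have : gap G (thr T i u) c = 1 := by unfold gap; rw [if_pos h]
        linarith
    by_cases hb : s0 < #(Sset T u) ∨ s0 < #(Sset T (Function.update u i c))
    · have h1 : 1 ≤ bad u + bad (Function.update u i c) := by
        rcases hb with h | h
        · have : bad u = 1 := by simp only [hbad, h, if_true]
          linarith [hbad0 (Function.update u i c)]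
        · have : bad (Function.update u i c) = 1 := by simp only [hbad, h, if_true]
          linarith [hbad0 u]
      have h2 : (hammingDist (T u) (T (Function.update u i c)) : ℝ) ≤ N := by
        have := hammingDist_le_card_fintype (x := T u) (y := T (Function.update u i c))
        rw [Fintype.card_fin] at this
        exact_mod_cast this
      have h3 : (N : ℝ) * 1 ≤ N * (bad u + bad (Function.update u i c)) :=
        mul_le_mul_of_nonneg_left h1 (Nat.cast_nonneg _)
      have h4 : 0 ≤ √(2 * s0) * (√(jump T i u) * (gap G (thr T i u) (u i) +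
        gap G (thr T i u) c)) := by positivity
      linarith
    · push Not at hb
      have h1 : (hammingDist (T u) (T (Function.update u i c)) : ℝ) ≤ 2 * s0 := by
        have := dist_le_Sset T u (Function.update u i c) hsides
        have h5 : hammingDist (T u) (T (Function.update u i c)) ≤ 2 * s0 := by omega
        exact_mod_cast h5
      have h2 : (hammingDist (T u) (T (Function.update u i c)) : ℝ) ≤ jump T i u := by
        exact_mod_cast dist_le_jump' u i c
      have h3 : (hammingDist (T u) (T (Function.update u i c)) : ℝ) ≤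
          √(2 * s0) * √(jump T i u) := by
        set d : ℝ := (hammingDist (T u) (T (Function.update u i c)) : ℝ) with hd
        have hd0 : 0 ≤ d := Nat.cast_nonneg _
        calc d = √d * √d := (Real.mul_self_sqrt hd0).symm
          _ ≤ √(2 * s0) * √(jump T i u) :=
            mul_le_mul (Real.sqrt_le_sqrt h1) (Real.sqrt_le_sqrt h2) (Real.sqrt_nonneg _)
              (Real.sqrt_nonneg _)
      have h4 : √(2 * s0) * √(jump T i u) * 1 ≤ √(2 * s0) * √(jump T i u) *
          (gap G (thr T i u) (u i) + gap G (thr T i u) c) :=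
        mul_le_mul_of_nonneg_left hgap (by positivity)
      have h5 : 0 ≤ (N : ℝ) * (bad u + bad (Function.update u i c)) := by
        have := hbad0 u
        have := hbad0 (Function.update u i c)
        positivity
      calc (hammingDist (T u) (T (Function.update u i c)) : ℝ) ≤ √(2 * s0) * √(jump T i u) * 1 := by
            rw [mul_one]; exact h3
        _ ≤ √(2 * s0) * √(jump T i u) *
          (gap G (thr T i u) (u i) + gap G (thr T i u) c) := h4
        _ = √(2 * s0) * (√(jump T i u) * (gap G (thr T i u) (u i) + gap G (thr T i u) c)) := by ring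
        _ ≤ _ := le_add_of_nonneg_right h5
  -- average
  have hmain : resamp T i ≤ avg (fun u => avg fun a : Fin (2 * G) =>
      (√(2 * s0) * (√(jump T i u) * (gap G (thr T i u) (u i) +
        gap G (thr T i u) (refl (side (u i)) a))) +
      N * (bad u + bad (Function.update u i (refl (side (u i)) a))))) :=
    avg_mono fun u => avg_mono fun a => hpt u a
  refine le_trans hmain (le_of_eq ?_)
  have e1 : ∀ u : Fin N → Fin (2 * G), avg (fun a : Fin (2 * G) =>
      (√(2 * s0) * (√(jump T i u) * (gap G (thr T i u) (u i) +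
        gap G (thr T i u) (refl (side (u i)) a))) +
      N * (bad u + bad (Function.update u i (refl (side (u i)) a))))) =
      √(2 * s0) * (√(jump T i u) * (gap G (thr T i u) (u i) +
        avg fun a => gap G (thr T i u) (refl (side (u i)) a))) +
      N * (bad u + avg fun a => bad (Function.update u i (refl (side (u i)) a))) := by
    intro u
    rw [avg_add, avg_mul_left, avg_mul_left, avg_mul_left, avg_add, avg_add, avg_const, avg_const]
  simp only [e1]
  rw [avg_add, avg_mul_left, avg_mul_left, avg_add, avg_resample hG i bad]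
  have e2 : avg (fun u : Fin N → Fin (2 * G) => √(jump T i u) * (gap G (thr T i u) (u i) +
        avg fun a => gap G (thr T i u) (refl (side (u i)) a))) =
      avg (fun u => √(jump T i u) * wid T i u) := by
    rw [← avg_update i]
    apply avg_congr
    intro u
    simp only [Function.update_self, jump_update, thr_update]
    rw [avg_mul_left, avg_add, avg_refl_r hG]
    congr 1
    have := avg_gap hG (thr T i u) (thr_le u i)
    unfold wid
    rw [← this]
    ring
  rw [e2]
  ring

theorem resamp_le_jump {N G : ℕ} (T : (Fin N → Fin (2 * G)) → (Fin N → Bool)) (i : Fin N) :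
    resamp T i ≤ avg (fun u => (jump T i u : ℝ)) := by
  rcases Nat.eq_zero_or_pos G with hG | hG
  · subst hG
    have : IsEmpty (Fin N → Fin (2 * 0)) := ⟨fun f => (f i).elim0⟩
    simp [resamp, avg]
  have hne : Nonempty (Fin (2 * G)) := ⟨⟨0, by omega⟩⟩
  apply avg_mono
  intro u
  apply avg_le_of_le
  intro a
  exact_mod_cast dist_le_jump' u i _

lemma wid_nonneg {N M : ℕ} (T : (Fin N → Fin M) → (Fin N → Bool)) (j : Fin N)
    (u : Fin N → Fin M) : 0 ≤ wid T j u := abs_nonneg _

theorem sum_resamp_le {N G : ℕ} (hG : 0 < G) {T : (Fin N → Fin (2 * G)) → (Fin N → Bool)}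
    (hT : Mono T) (s0 : ℕ) (J : ℝ) (hJ : ∑ i, avg (fun u => (jump T i u : ℝ)) ≤ J)
    (hw : ∑ i, avg (fun u => wid T i u ^ 2) ≤ 6) :
    ∑ i, resamp T i ≤ √(2 * s0) * √(6 * J)
      + 2 * N ^ 2 * avg (fun u => if s0 < #(Sset T u) then (1 : ℝ) else 0) := by
  have h1 := Finset.sum_le_sum (s := Finset.univ) (fun i (_ : i ∈ (Finset.univ : Finset (Fin N))) =>
    resamp_le hG hT i s0)
  refine le_trans h1 ?_
  rw [Finset.sum_add_distrib, ← Finset.mul_sum]
  have h2 : ∑ i, avg (fun u => √(jump T i u) * wid T i u) ≤ √(6 * J) := by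
    have h3 : ∀ i, avg (fun u => √(jump T i u) * wid T i u) ≤
        √(avg (fun u => (jump T i u : ℝ))) * √(avg (fun u => wid T i u ^ 2)) := by
      intro i
      have := avg_cauchy_sqrt (fun u => √(jump T i u)) (fun u => wid T i u)
      have h4 : (fun u => √(jump T i u : ℝ) ^ 2) = fun u => (jump T i u : ℝ) := by
        funext u
        exact Real.sq_sqrt (Nat.cast_nonneg _)
      rw [h4] at this
      exact this
    have hJ0 : 0 ≤ ∑ i, avg (fun u => (jump T i u : ℝ)) :=
      Finset.sum_nonneg fun i _ => avg_nonneg fun u => Nat.cast_nonneg _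
    calc ∑ i, avg (fun u => √(jump T i u) * wid T i u)
        ≤ ∑ i, √(avg (fun u => (jump T i u : ℝ))) * √(avg (fun u => wid T i u ^ 2)) :=
          Finset.sum_le_sum fun i _ => h3 i
      _ ≤ √(∑ i, avg (fun u => (jump T i u : ℝ))) * √(∑ i, avg (fun u => wid T i u ^ 2)) :=
          Real.sum_sqrt_mul_sqrt_le _ (fun i => avg_nonneg fun u => Nat.cast_nonneg _)
            (fun i => avg_nonneg fun u => sq_nonneg _)
      _ ≤ √J * √6 := mul_le_mul (Real.sqrt_le_sqrt hJ) (Real.sqrt_le_sqrt hw)
          (Real.sqrt_nonneg _) (Real.sqrt_nonneg _)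
      _ = √(6 * J) := by
          rw [mul_comm, ← Real.sqrt_mul (by norm_num)]
  have h5 : ∑ _i : Fin N, 2 * (N : ℝ) * avg (fun u => if s0 < #(Sset T u) then (1 : ℝ) else 0) =
      2 * N ^ 2 * avg (fun u => if s0 < #(Sset T u) then (1 : ℝ) else 0) := by
    rw [Finset.sum_const, Finset.card_univ, Fintype.card_fin, nsmul_eq_mul]
    ring
  rw [h5]
  have h6 := mul_le_mul_of_nonneg_left h2 (Real.sqrt_nonneg (2 * (s0 : ℝ)))
  linarith

end

end Pool.Agent.Helper38.Stretch
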