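import Mathlib

/-! Rounding a locally balanced map to a bijection, via Birkhoff–von Neumann (module M12).

`M(x,y) = ∑_v Q(F x,v) Q(y,v) min(a v,b v)/(a v b v) + R x R' y / Rtot`, `R x = 1 - row`, `R' y = 1 - col`. -/

namespace Pool.Agent.Helper38.Stretch

open Finset

noncomputable section

/-- A doubly stochastic matrix is beaten by some permutation, for every cost. -/
theorem exists_perm_cost_le {X : Type*} [Fintype X] [DecidableEq X] (M : Matrix X X ℝ)
    (hM : M ∈ doublyStochastic ℝ X) (c : X → X → ℝ) :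
    ∃ σ : Equiv.Perm X, ∑ x, c x (σ x) ≤ ∑ x, ∑ y, M x y * c x y := by
  obtain ⟨w, hw0, hw1, hw⟩ := exists_eq_sum_perm_of_mem_doublyStochastic hM
  by_contra hcon
  push Not at hcon
  have hMxy : ∀ x y, M x y = ∑ σ : Equiv.Perm X, w σ * (if σ x = y then 1 else 0) := by
    intro x y
    rw [← hw, Matrix.sum_apply]
    refine Finset.sum_congr rfl fun σ _ => ?_
    simp [Equiv.Perm.permMatrix, PEquiv.toMatrix_apply, Equiv.toPEquiv_apply, eq_comm]
  have h1 : ∑ x, ∑ y, M x y * c x y = ∑ σ : Equiv.Perm X, w σ * ∑ x, c x (σ x) := by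
    calc ∑ x, ∑ y, M x y * c x y
        = ∑ x, ∑ y, ∑ σ : Equiv.Perm X, (w σ * (if σ x = y then 1 else 0)) * c x y := by
          refine Finset.sum_congr rfl fun x _ => Finset.sum_congr rfl fun y _ => ?_
          rw [hMxy x y, Finset.sum_mul]
      _ = ∑ x, ∑ σ : Equiv.Perm X, ∑ y, (w σ * (if σ x = y then 1 else 0)) * c x y := by
          refine Finset.sum_congr rfl fun x _ => ?_
          rw [Finset.sum_comm]
      _ = ∑ x, ∑ σ : Equiv.Perm X, w σ * c x (σ x) := by
          refine Finset.sum_congr rfl fun x _ => Finset.sum_congr rfl fun σ _ => ?_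
          simp
      _ = ∑ σ : Equiv.Perm X, ∑ x, w σ * c x (σ x) := Finset.sum_comm
      _ = ∑ σ : Equiv.Perm X, w σ * ∑ x, c x (σ x) := by
          refine Finset.sum_congr rfl fun σ _ => ?_
          rw [Finset.mul_sum]
  set S := ∑ x, ∑ y, M x y * c x y with hS
  have h2 : ∑ σ : Equiv.Perm X, w σ * (∑ x, c x (σ x) - S) = 0 := by
    simp only [mul_sub, Finset.sum_sub_distrib, ← Finset.sum_mul, hw1]
    rw [← h1]; ring
  have h3 : ∀ σ ∈ (Finset.univ : Finset (Equiv.Perm X)), 0 ≤ w σ * (∑ x, c x (σ x) - S) :=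
    fun σ _ => mul_nonneg (hw0 σ) (sub_nonneg.2 (hcon σ).le)
  have h4 := (Finset.sum_eq_zero_iff_of_nonneg h3).1 h2
  have h5 : ∀ σ : Equiv.Perm X, w σ = 0 := by
    intro σ
    rcases mul_eq_zero.1 (h4 σ (Finset.mem_univ σ)) with h | h
    · exact h
    · exact absurd h (sub_pos.2 (hcon σ)).ne'
  have : ∑ σ : Equiv.Perm X, w σ = 0 := Finset.sum_eq_zero fun σ _ => h5 σ
  rw [hw1] at this
  exact one_ne_zero this

theorem rounding {X Y : Type*} [Fintype X] [DecidableEq X] [Fintype Y] [DecidableEq Y]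
    (A : Finset Y) (hcard : Fintype.card X = #A) (F : X → Y) (Q : Y → Y → ℝ)
    (hQ0 : ∀ y v, 0 ≤ Q y v) (hQ1 : ∀ y, ∑ v, Q y v = 1)
    (d : Y → Y → ℝ) (hd0 : ∀ x y, 0 ≤ d x y) (hdsymm : ∀ x y, d x y = d y x)
    (htri : ∀ x y z, d x z ≤ d x y + d y z) (D r : ℝ) (hD : ∀ x y, d x y ≤ D)
    (hQd : ∀ y v, Q y v ≠ 0 → d y v ≤ r) :
    ∃ f : X → Y, Function.Injective f ∧ Set.range f = (↑A : Set Y) ∧
      ∑ x, d (F x) (f x) ≤ 2 * r * Fintype.card X +
        D * ∑ v, |∑ x, Q (F x) v - ∑ y ∈ A, Q y v| := by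
  classical
  have hcard' : Fintype.card X = Fintype.card A := by simpa using hcard
  let e : X ≃ A := Fintype.equivOfCardEq hcard'
  -- transport sums over `A`
  have hsumA : ∀ g : Y → ℝ, ∑ x : X, g (e x) = ∑ y ∈ A, g y := by
    intro g
    rw [Equiv.sum_comp e (fun y : A => g y), Finset.sum_coe_sort A g]
  rcases isEmpty_or_nonempty X with hX | hX
  · refine ⟨fun x => e x, fun x => isEmptyElim x, ?_, ?_⟩
    · ext y
      constructor
      · rintro ⟨x, _⟩
        exact isEmptyElim x
      · intro hy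
        exact isEmptyElim (e.symm ⟨y, hy⟩)
    · have hA : A = ∅ := by
        rw [← Finset.card_eq_zero, ← hcard]
        exact Fintype.card_eq_zero
      subst hA
      simp
  obtain ⟨x₀⟩ := hX
  -- nonnegativity of `r` and `D`
  have hr : 0 ≤ r := by
    by_contra hneg
    push Not at hneg
    have : ∀ v, Q (F x₀) v = 0 := by
      intro v
      by_contra hne
      exact absurd (hQd _ _ hne) (not_le.2 (lt_of_lt_of_le hneg (hd0 _ _)))
    have h1 := hQ1 (F x₀)
    simp [this] at h1
  have hD0 : 0 ≤ D := (hd0 (F x₀) (F x₀)).trans (hD _ _)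
  set a : Y → ℝ := fun v => ∑ x, Q (F x) v with ha
  set b : Y → ℝ := fun v => ∑ y ∈ A, Q y v with hb
  have ha0 : ∀ v, 0 ≤ a v := fun v => Finset.sum_nonneg fun x _ => hQ0 _ _
  have hb0 : ∀ v, 0 ≤ b v := fun v => Finset.sum_nonneg fun x _ => hQ0 _ _
  set m : Y → ℝ := fun v => min (a v) (b v) with hm
  have hm0 : ∀ v, 0 ≤ m v := fun v => le_min (ha0 v) (hb0 v)
  have hma : ∀ v, m v ≤ a v := fun v => min_le_left _ _
  have hmb : ∀ v, m v ≤ b v := fun v => min_le_right _ _
  have hsa : ∑ v, a v = Fintype.card X := by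
    rw [ha, Finset.sum_comm]
    simp [hQ1]
  have hsb : ∑ v, b v = Fintype.card X := by
    rw [hb, Finset.sum_comm]
    simp [hQ1, hcard]
  set κ : Y → ℝ := fun v => m v / (a v * b v) with hκ
  have hκ0 : ∀ v, 0 ≤ κ v := fun v => div_nonneg (hm0 v) (mul_nonneg (ha0 v) (hb0 v))
  have haκ : ∀ v, a v * κ v = m v / b v := by
    intro v
    simp only [hκ]
    rcases eq_or_ne (a v) 0 with h | h
    · have : m v = 0 := le_antisymm ((hma v).trans h.le) (hm0 v)
      simp [this]
    · rcases eq_or_ne (b v) 0 with h' | h'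
      · simp [h']
      · field_simp
  have hbκ : ∀ v, b v * κ v = m v / a v := by
    intro v
    simp only [hκ]
    rcases eq_or_ne (b v) 0 with h | h
    · have : m v = 0 := le_antisymm ((hmb v).trans h.le) (hm0 v)
      simp [this]
    · rcases eq_or_ne (a v) 0 with h' | h'
      · simp [h']
      · field_simp
  have habκ : ∀ v, a v * b v * κ v = m v := by
    intro v
    simp only [hκ]
    rcases eq_or_ne (b v) 0 with h | h
    · have : m v = 0 := le_antisymm ((hmb v).trans h.le) (hm0 v)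
      simp [this]
    · rcases eq_or_ne (a v) 0 with h' | h'
      · have : m v = 0 := le_antisymm ((hma v).trans h'.le) (hm0 v)
        simp [this]
      · field_simp
  set M0 : X → Y → ℝ := fun x y => ∑ v, Q (F x) v * Q y v * κ v with hM0
  have hM00 : ∀ x y, 0 ≤ M0 x y := fun x y =>
    Finset.sum_nonneg fun v _ => mul_nonneg (mul_nonneg (hQ0 _ _) (hQ0 _ _)) (hκ0 v)
  set R : X → ℝ := fun x => 1 - ∑ y ∈ A, M0 x y with hR
  set R' : Y → ℝ := fun y => 1 - ∑ x, M0 x y with hR'
  have hrow : ∀ x, ∑ y ∈ A, M0 x y = ∑ v, Q (F x) v * (m v / a v) := by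
    intro x
    simp only [hM0]
    rw [Finset.sum_comm]
    refine Finset.sum_congr rfl fun v _ => ?_
    rw [← hbκ v]
    simp only [hb]
    rw [Finset.sum_mul, Finset.mul_sum]
    exact Finset.sum_congr rfl fun y _ => by ring
  have hcol : ∀ y, ∑ x, M0 x y = ∑ v, Q y v * (m v / b v) := by
    intro y
    simp only [hM0]
    rw [Finset.sum_comm]
    refine Finset.sum_congr rfl fun v _ => ?_
    rw [← haκ v]
    simp only [ha]
    rw [Finset.sum_mul, Finset.mul_sum]
    exact Finset.sum_congr rfl fun y _ => by ring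
  have hR0 : ∀ x, 0 ≤ R x := by
    intro x
    simp only [hR, hrow x]
    rw [sub_nonneg, ← hQ1 (F x)]
    refine Finset.sum_le_sum fun v _ => ?_
    exact mul_le_of_le_one_right (hQ0 _ _) (div_le_one_of_le₀ (hma v) (ha0 v))
  have hR'0 : ∀ y, 0 ≤ R' y := by
    intro y
    simp only [hR', hcol y]
    rw [sub_nonneg, ← hQ1 y]
    refine Finset.sum_le_sum fun v _ => ?_
    exact mul_le_of_le_one_right (hQ0 _ _) (div_le_one_of_le₀ (hmb v) (hb0 v))
  have hM0tot : ∑ x, ∑ y ∈ A, M0 x y = ∑ v, m v := by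
    simp only [hM0]
    calc ∑ x, ∑ y ∈ A, ∑ v, Q (F x) v * Q y v * κ v
        = ∑ x, ∑ v, ∑ y ∈ A, Q (F x) v * Q y v * κ v := by
          refine Finset.sum_congr rfl fun x _ => ?_
          rw [Finset.sum_comm]
      _ = ∑ v, ∑ x, ∑ y ∈ A, Q (F x) v * Q y v * κ v := Finset.sum_comm
      _ = ∑ v, a v * b v * κ v := by
          refine Finset.sum_congr rfl fun v _ => ?_
          simp only [ha, hb]
          rw [Finset.sum_mul_sum, Finset.sum_mul]
          refine Finset.sum_congr rfl fun x _ => ?_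
          rw [Finset.sum_mul]
      _ = ∑ v, m v := Finset.sum_congr rfl fun v _ => habκ v
  set ρ : ℝ := Fintype.card X - ∑ v, m v with hρ
  have hsR : ∑ x, R x = ρ := by
    simp only [hR, Finset.sum_sub_distrib, hM0tot, hρ]
    simp
  have hsR' : ∑ y ∈ A, R' y = ρ := by
    simp only [hR', Finset.sum_sub_distrib, hρ]
    rw [Finset.sum_comm, hM0tot]
    simp [hcard]
  have hρ0 : 0 ≤ ρ := hsR ▸ Finset.sum_nonneg fun x _ => hR0 x
  have hRρ : ∀ x, R x * (ρ / ρ) = R x := by
    intro x
    rcases eq_or_ne ρ 0 with h | h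
    · have h1 : ∑ x, R x = 0 := hsR.trans h
      have h2 := (Finset.sum_eq_zero_iff_of_nonneg (fun x _ => hR0 x)).1 h1 x (Finset.mem_univ x)
      simp [h2]
    · rw [div_self h, mul_one]
  have hR'ρ : ∀ y ∈ A, R' y * (ρ / ρ) = R' y := by
    intro y hy
    rcases eq_or_ne ρ 0 with h | h
    · have h1 : ∑ y ∈ A, R' y = 0 := hsR'.trans h
      have h2 := (Finset.sum_eq_zero_iff_of_nonneg (fun y _ => hR'0 y)).1 h1 y hy
      simp [h2]
    · rw [div_self h, mul_one]
  have hRsum : ∀ x, ∑ y ∈ A, R x * R' y / ρ = R x := by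
    intro x
    calc ∑ y ∈ A, R x * R' y / ρ = R x * ((∑ y ∈ A, R' y) / ρ) := by
          rw [Finset.sum_div, Finset.mul_sum]
          exact Finset.sum_congr rfl fun y _ => by rw [mul_div_assoc]
      _ = R x := by rw [hsR', hRρ x]
  have hR'sum : ∀ y ∈ A, ∑ x, R x * R' y / ρ = R' y := by
    intro y hy
    calc ∑ x, R x * R' y / ρ = R' y * ((∑ x, R x) / ρ) := by
          rw [Finset.sum_div, Finset.mul_sum]
          exact Finset.sum_congr rfl fun y _ => by ring
      _ = R' y := by rw [hsR, hR'ρ y hy]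
  set M : X → Y → ℝ := fun x y => M0 x y + R x * R' y / ρ with hMdef
  have hMrow : ∀ x, ∑ y ∈ A, M x y = 1 := by
    intro x
    simp only [hMdef, Finset.sum_add_distrib]
    rw [hRsum x]
    simp only [hR]
    ring
  have hMcol : ∀ y ∈ A, ∑ x, M x y = 1 := by
    intro y hy
    simp only [hMdef, Finset.sum_add_distrib]
    rw [hR'sum y hy]
    simp only [hR']
    ring
  let MM : Matrix X X ℝ := fun x x' => M x (e x')
  have hMM : MM ∈ doublyStochastic ℝ X := by
    rw [mem_doublyStochastic_iff_sum]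
    refine ⟨fun x x' => ?_, fun x => ?_, fun x' => ?_⟩
    · exact add_nonneg (hM00 _ _) (div_nonneg (mul_nonneg (hR0 _) (hR'0 _)) hρ0)
    · exact (hsumA (fun y => M x y)).trans (hMrow x)
    · exact hMcol _ (e x').2
  obtain ⟨σ, hσ⟩ := exists_perm_cost_le MM hMM (fun x x' => d (F x) (e x'))
  refine ⟨fun x => e (σ x), ?_, ?_, ?_⟩
  · exact Subtype.val_injective.comp (e.injective.comp σ.injective)
  · ext y
    constructor
    · rintro ⟨x, rfl⟩
      exact (e (σ x)).2
    · intro hy
      refine ⟨σ.symm (e.symm ⟨y, hy⟩), ?_⟩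
      simp
  · refine hσ.trans ?_
    have h1 : ∀ x, ∑ x', MM x x' * d (F x) (e x') = ∑ y ∈ A, M x y * d (F x) y :=
      fun x => hsumA (fun y => M x y * d (F x) y)
    simp only [h1]
    have h2 : ∀ x y, M x y * d (F x) y = M0 x y * d (F x) y + R x * R' y / ρ * d (F x) y := by
      intro x y
      simp only [hMdef]
      ring
    simp only [h2, Finset.sum_add_distrib]
    refine add_le_add ?_ ?_
    · -- first part
      have h3 : ∀ x y, M0 x y * d (F x) y ≤ 2 * r * M0 x y := by
        intro x y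
        simp only [hM0]
        rw [Finset.sum_mul, Finset.mul_sum]
        refine Finset.sum_le_sum fun v _ => ?_
        rcases eq_or_ne (Q (F x) v) 0 with hq | hq
        · simp [hq]
        rcases eq_or_ne (Q y v) 0 with hq' | hq'
        · simp [hq']
        have hdd : d (F x) y ≤ 2 * r := by
          have e1 := htri (F x) v y
          have e2 := hQd _ _ hq
          have e3 := hQd _ _ hq'
          have e4 := hdsymm v y
          linarith
        have hnn : 0 ≤ Q (F x) v * Q y v * κ v :=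
          mul_nonneg (mul_nonneg (hQ0 _ _) (hQ0 _ _)) (hκ0 v)
        calc Q (F x) v * Q y v * κ v * d (F x) y
            ≤ Q (F x) v * Q y v * κ v * (2 * r) := mul_le_mul_of_nonneg_left hdd hnn
          _ = 2 * r * (Q (F x) v * Q y v * κ v) := by ring
      calc ∑ x, ∑ y ∈ A, M0 x y * d (F x) y
          ≤ ∑ x, ∑ y ∈ A, 2 * r * M0 x y :=
            Finset.sum_le_sum fun x _ => Finset.sum_le_sum fun y _ => h3 x y
        _ = 2 * r * ∑ x, ∑ y ∈ A, M0 x y := by
            simp only [Finset.mul_sum]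
        _ = 2 * r * ∑ v, m v := by rw [hM0tot]
        _ ≤ 2 * r * Fintype.card X := by
            refine mul_le_mul_of_nonneg_left ?_ (by linarith)
            rw [← hsa]
            exact Finset.sum_le_sum fun v _ => hma v
    · have h3 : ∀ x y, R x * R' y / ρ * d (F x) y ≤ D * (R x * R' y / ρ) := by
        intro x y
        rw [mul_comm D]
        exact mul_le_mul_of_nonneg_left (hD _ _) (div_nonneg (mul_nonneg (hR0 _) (hR'0 _)) hρ0)
      have h4 : ∑ x, ∑ y ∈ A, R x * R' y / ρ ≤ ρ := by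
        simp only [hRsum, hsR, le_refl]
      have h5 : ρ ≤ ∑ v, |a v - b v| := by
        rw [hρ, ← hsa, ← Finset.sum_sub_distrib]
        refine Finset.sum_le_sum fun v _ => ?_
        simp only [hm]
        rcases le_total (a v) (b v) with h | h
        · rw [min_eq_left h, sub_self]
          exact abs_nonneg _
        · rw [min_eq_right h]
          exact le_abs_self _
      calc ∑ x, ∑ y ∈ A, R x * R' y / ρ * d (F x) y
          ≤ ∑ x, ∑ y ∈ A, D * (R x * R' y / ρ) :=
            Finset.sum_le_sum fun x _ => Finset.sum_le_sum fun y _ => h3 x y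
        _ = D * ∑ x, ∑ y ∈ A, R x * R' y / ρ := by
            simp only [Finset.mul_sum]
        _ ≤ D * ∑ v, |a v - b v| := mul_le_mul_of_nonneg_left (h4.trans h5) hD0

end

end Pool.Agent.Helper38.Stretch
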