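import Pool.Agent.Helper38.Stretch.Second

/-! Second moment (module M10, final part). -/

namespace Pool.Agent.Helper38.Stretch

open Finset

noncomputable section

variable {n K q G l1 l2 : ℕ} {A : Finset (Fin (n + 1) → Bool)}
  {T : (Fin (n + 1) → Fin (2 * G)) → (Fin (n + 1) → Bool)} {κ ε : ℝ}
  {Q : (Fin (n + 1) → Bool) → (Fin (n + 1) → Bool) → ℝ}

lemma sq_expand (Λ : Lev n l1 l2) (sp : Fin (n + 1))
    (good : (Fin (n + 1) → Fin (2 * G)) → Prop) [DecidablePred good]
    (w : Om n K q G l1 l2) :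
    ∑ v, (∑ x, (if good (PT Λ sp w x) then Q (T (PT Λ sp w x)) v else 0)) ^ 2 =
      ∑ F : Fin n → ZMod 2, ∑ x, if good (PT Λ sp w x) then
        if good (PT Λ sp w (x + F)) then RK Q (T (PT Λ sp w x)) (T (PT Λ sp w (x + F))) else 0
        else 0 := by
  have h1 : ∀ v, (∑ x, (if good (PT Λ sp w x) then Q (T (PT Λ sp w x)) v else 0)) ^ 2 =
      ∑ x, ∑ F, (if good (PT Λ sp w x) then Q (T (PT Λ sp w x)) v else 0) *
        (if good (PT Λ sp w (x + F)) then Q (T (PT Λ sp w (x + F))) v else 0) := by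
    intro v
    rw [sq, Finset.sum_mul_sum]
    apply Finset.sum_congr rfl
    intro x _
    exact (Equiv.sum_comp (Equiv.addLeft x) (fun x' =>
      (if good (PT Λ sp w x) then Q (T (PT Λ sp w x)) v else 0) *
        (if good (PT Λ sp w x') then Q (T (PT Λ sp w x')) v else 0))).symm
  simp only [h1]
  rw [Finset.sum_comm]
  have h2 : ∀ x, ∑ v, ∑ F, (if good (PT Λ sp w x) then Q (T (PT Λ sp w x)) v else 0) *
        (if good (PT Λ sp w (x + F)) then Q (T (PT Λ sp w (x + F))) v else 0) =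
        ∑ F, if good (PT Λ sp w x) then
        if good (PT Λ sp w (x + F)) then RK Q (T (PT Λ sp w x)) (T (PT Λ sp w (x + F))) else 0
        else 0 := by
    intro x
    rw [Finset.sum_comm]
    apply Finset.sum_congr rfl
    intro F _
    unfold RK
    by_cases ha : good (PT Λ sp w x) <;> by_cases hb : good (PT Λ sp w (x + F)) <;>
      simp [ha, hb]
  simp only [h2]
  rw [Finset.sum_comm]

theorem second_moment (hG : 0 < G) (hq : 0 < q) (hl1 : 0 < l1) (hl2 : 0 < l2) (hT : Mono T)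
    (hQ : Ker (n + 1) Q κ) (hε : 0 ≤ ε) (Λ : Lev n l1 l2) (sp : Fin (n + 1))
    (hmem : ∀ u, T u ∈ A) (hA : #A = 2 ^ n)
    (hbal : ∀ y, (#{u | T u = y} : ℝ) ≤ (1 + ε) * ((2 * G : ℕ) : ℝ) ^ (n + 1) / 2 ^ n)
    (good : (Fin (n + 1) → Fin (2 * G)) → Prop) [DecidablePred good]
    (s0 s1 s2 m1 : ℕ)
    (hg0 : ∀ u, good u → #(Sset T u) ≤ s0)
    (hg1 : ∀ u, good u → #{i | sp.succAbove (Λ.e1 i) ∈ Sset T u} ≤ s1)
    (hg2 : ∀ u, good u → #{i | sp.succAbove (Λ.e2 i) ∈ Sset T u} ≤ s2)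
    (lam : ℝ) (hlam : 1 ≤ lam)
    (hb1 : (s1 : ℝ) + m1 + K * (2 * s0 + 4) ≤ lam⁻¹ ^ 2 * l1)
    (hb2 : (s2 : ℝ) + K * m1 ≤ lam⁻¹ ^ 2 * l2) :
    avg (fun w : Om n K q G l1 l2 => ∑ v,
      (∑ x, (if good (PT Λ sp w x) then Q (T (PT Λ sp w x)) v else 0) - ∑ y ∈ A, Q y v) ^ 2) ≤
    2 ^ n * (κ + 2 * ((1 + lam ^ 5 * (2 * lam⁻¹) ^ K) ^ n - 1) +
      (1 + ε) * ((1 + 2 * (1 - 1 / (q : ℝ)) ^ m1) ^ (n + 1) - 1) + ε ^ 2 +
      2 * (ε + avg (fun u => if good u then (0 : ℝ) else 1))) := by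
  have : Nonempty (Fin l1) := ⟨⟨0, hl1⟩⟩
  have : Nonempty (Fin l2) := ⟨⟨0, hl2⟩⟩
  have : Nonempty (Fin q) := ⟨⟨0, hq⟩⟩
  have : Nonempty (Fin (2 * G)) := ⟨⟨0, by omega⟩⟩
  have hlam0 : 0 < lam := by linarith
  have hκ : 0 ≤ κ := (hQ.RK_nonneg (fun _ => true) (fun _ => true)).trans (hQ.RK_le_kappa _ _)
  set ρ : ℝ := lam ^ 5 * (2 * lam⁻¹) ^ K with hρ
  have hρ0 : 0 ≤ ρ := by positivity
  set r : (Fin (n + 1) → Bool) → ℝ := fun y => ∑ y' ∈ A, RK Q y y' with hr
  have hr0 : ∀ y, 0 ≤ r y := fun y => Finset.sum_nonneg fun y' _ => hQ.RK_nonneg _ _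
  have hr1 : ∀ y, r y ≤ 1 := by
    intro y
    rw [← hQ.sum_RK y]
    exact Finset.sum_le_sum_of_subset_of_nonneg (Finset.subset_univ A)
      (fun y' _ _ => hQ.RK_nonneg _ _)
  set C : ℝ := ∑ y ∈ A, r y with hC
  have hC0 : 0 ≤ C := Finset.sum_nonneg fun y _ => hr0 y
  have hC1 : C ≤ 2 ^ n := by
    calc C ≤ ∑ _y ∈ A, (1 : ℝ) := Finset.sum_le_sum fun y _ => hr1 y
      _ = 2 ^ n := by rw [Finset.sum_const, hA]; simp
  set Pb : ℝ := avg (fun u => if good u then (0 : ℝ) else 1) with hPb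
  set pr : Om n K q G l1 l2 → (Fin n → ZMod 2) → ℝ := fun w F => ∑ x,
    if good (PT Λ sp w x) then
        if good (PT Λ sp w (x + F)) then RK Q (T (PT Λ sp w x)) (T (PT Λ sp w (x + F))) else 0
        else 0 with hpr
  have hexp : ∀ w : Om n K q G l1 l2, ∑ v,
      (∑ x, (if good (PT Λ sp w x) then Q (T (PT Λ sp w x)) v else 0) - ∑ y ∈ A, Q y v) ^ 2 =
      ∑ F, pr w F - 2 * ∑ x, (if good (PT Λ sp w x) then r (T (PT Λ sp w x)) else 0) + C := by
    intro w
    have e1 := sq_expand (T := T) (Q := Q) Λ sp good w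
    have e2 : ∑ v, (∑ x, (if good (PT Λ sp w x) then Q (T (PT Λ sp w x)) v else 0)) *
        (∑ y ∈ A, Q y v) = ∑ x, (if good (PT Λ sp w x) then r (T (PT Λ sp w x)) else 0) := by
      simp only [Finset.sum_mul]
      rw [Finset.sum_comm]
      apply Finset.sum_congr rfl
      intro x _
      split_ifs with h
      · simp only [hr, RK, Finset.mul_sum]
        rw [Finset.sum_comm]
      · simp
    have e3 : ∑ v, (∑ y ∈ A, Q y v) ^ 2 = C := by
      simp only [hC, hr, RK, sq, Finset.sum_mul_sum]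
      rw [Finset.sum_comm]
      apply Finset.sum_congr rfl
      intro y _
      rw [Finset.sum_comm]
    rw [← e1, ← e2, ← e3, Finset.mul_sum, ← Finset.sum_sub_distrib, ← Finset.sum_add_distrib]
    apply Finset.sum_congr rfl
    intro v _
    ring
  simp only [hexp]
  rw [avg_add, avg_sub, avg_mul_left, avg_const]
  -- cross term
  have hcross : avg (fun w : Om n K q G l1 l2 => ∑ x,
      (if good (PT Λ sp w x) then r (T (PT Λ sp w x)) else 0)) =
      2 ^ n * avg (fun u => if good u then r (T u) else 0) := by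
    rw [avg_Om]
    have h1 : ∀ (c1 : Fin n × Fin K → Fin l1) (c2 : Fin n × Fin K → Fin l2)
        (μ : Fin (n + 1) × Fin n → Fin q), (avg fun W => ∑ x,
        (if good (PT Λ sp ((c1, c2, μ, W) : Om n K q G l1 l2) x) then
          r (T (PT Λ sp ((c1, c2, μ, W) : Om n K q G l1 l2) x)) else 0)) =
        2 ^ n * avg (fun u => if good u then r (T u) else 0) := by
      intro c1 c2 μ
      exact sum_avg_pt hG Λ sp c1 c2 μ (fun u => if good u then r (T u) else 0)
    simp only [h1]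
    rw [avg_const, avg_const, avg_const]
  have hcrossb : (1 + ε) * C ≤ 2 ^ n * avg (fun u => if good u then r (T u) else 0) +
      2 ^ n * (ε + Pb) := by
    have h1 := avg_bal (A := A) hG hmem hbal (fun y => 1 - r y) (fun y => by linarith [hr1 y])
    have h2 : avg (fun u => if good u then (1 - r (T u)) else 0) ≤ avg (fun u => 1 - r (T u)) := by
      apply avg_mono
      intro u
      split_ifs
      · exact le_rfl
      · linarith [hr1 (T u)]
    have h3 : avg (fun u => if good u then (1 - r (T u)) else 0) =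
        (1 - Pb) - avg (fun u => if good u then r (T u) else 0) := by
      have h6 : avg (fun u => if good u then (1 - r (T u)) else 0) =
          avg (fun u => (1 - (if good u then (0 : ℝ) else 1)) -
            (if good u then r (T u) else 0)) := by
        apply avg_congr
        intro u
        split_ifs <;> ring
      rw [h6, avg_sub, avg_sub, avg_const]
    have h4 : ∑ y ∈ A, (1 - r y) = 2 ^ n - C := by
      rw [Finset.sum_sub_distrib, Finset.sum_const, hA]; simp [hC]
    rw [h4] at h1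
    rw [h3] at h2
    have h5 : (2 : ℝ) ^ n * ((1 - Pb) - avg (fun u => if good u then r (T u) else 0)) ≤
        2 ^ n * avg (fun u => 1 - r (T u)) := by gcongr
    nlinarith
  rw [hcross]
  -- square term
  have hprn : ∀ w F, 0 ≤ pr w F := by
    intro w F
    apply Finset.sum_nonneg
    intro x _
    split_ifs
    · exact hQ.RK_nonneg _ _
    · exact le_rfl
    · exact le_rfl
  set far : (Fin n → ZMod 2) → Prop := fun F =>
    (∃ j, Λ.lev j = 2 ∧ F j ≠ 0) ∨ m1 ≤ #{j | Λ.lev j = 1 ∧ F j ≠ 0} with hfar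
  have hdec : DecidablePred far := fun F => Classical.dec _
  have hsq1 : ∑ F ∈ univ.filter far, avg (fun w => pr w F) ≤
      (1 + ε) ^ 2 * C + (1 + ε) * 2 ^ n * ((1 + 2 * (1 - 1 / (q : ℝ)) ^ m1) ^ (n + 1) - 1) := by
    refine le_trans (Finset.sum_le_sum fun F _ => ?_)
      (far_pairs (K := K) (T := T) hG hq hl1 hl2 hT hQ hε Λ sp hmem hbal m1 (univ.filter far)
        (fun F hF => (Finset.mem_filter.1 hF).2))
    apply avg_mono
    intro w
    apply Finset.sum_le_sum
    intro x _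
    split_ifs
    · exact le_rfl
    · exact hQ.RK_nonneg _ _
    · exact hQ.RK_nonneg _ _
  have hsq2 : ∑ F ∈ univ.filter (fun F => ¬ far F), avg (fun w => pr w F) ≤
      2 ^ n * κ + 2 ^ n * (2 * ((1 + ρ) ^ n - 1)) := by
    have hb : ∀ F ∈ univ.filter (fun F => ¬ far F), avg (fun w => pr w F) ≤
        (if F = 0 then 2 ^ n * κ else 2 ^ n * (2 * ρ ^ #{j | F j ≠ 0})) := by
      intro F hF
      have hnf := (Finset.mem_filter.1 hF).2
      simp only [hfar, not_or, not_exists, not_and, not_le, not_not] at hnf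
      split_ifs with h0
      · apply avg_le_of_le
        intro w
        simp only [hpr]
        calc _ ≤ ∑ _x : Fin n → ZMod 2, κ := by
              apply Finset.sum_le_sum
              intro x _
              split_ifs
              · exact hQ.RK_le_kappa _ _
              · exact hκ
              · exact hκ
          _ = 2 ^ n * κ := by rw [Finset.sum_const]; simp
      · exact near_pair hG hq hl1 hl2 hQ Λ sp good s0 s1 s2 m1 hg0 hg1 hg2 F
          (fun j hj => by simpa using hnf.1 j hj) h0 hnf.2.le lam hlam hb1 hb2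
    calc _ ≤ ∑ F ∈ univ.filter (fun F => ¬ far F),
          (if F = 0 then 2 ^ n * κ else 2 ^ n * (2 * ρ ^ #{j | F j ≠ 0})) :=
          Finset.sum_le_sum hb
      _ ≤ ∑ F : Fin n → ZMod 2, (if F = 0 then 2 ^ n * κ else 2 ^ n * (2 * ρ ^ #{j | F j ≠ 0})) :=
          Finset.sum_le_sum_of_subset_of_nonneg (Finset.filter_subset _ _)
            (fun F _ _ => by split_ifs <;> positivity)
      _ = 2 ^ n * κ + 2 ^ n * (2 * ((1 + ρ) ^ n - 1)) := by
          rw [← sum_pow_supp (n := n) ρ,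
            ← Finset.add_sum_erase _ _ (Finset.mem_univ (0 : Fin n → ZMod 2)),
            ← Finset.add_sum_erase _ (fun F : Fin n → ZMod 2 => ρ ^ #{j | F j ≠ 0})
              (Finset.mem_univ (0 : Fin n → ZMod 2))]
          simp only [if_true, Pi.zero_apply, ne_eq, not_true_eq_false, Finset.filter_false,
            Finset.card_empty, pow_zero, add_sub_cancel_left, Finset.mul_sum]
          congr 1
          apply Finset.sum_congr rfl
          intro F hF
          rw [if_neg (Finset.ne_of_mem_erase hF)]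
  have hsq : avg (fun w => ∑ F, pr w F) ≤
      2 ^ n * κ + 2 ^ n * (2 * ((1 + ρ) ^ n - 1)) + ((1 + ε) ^ 2 * C +
        (1 + ε) * 2 ^ n * ((1 + 2 * (1 - 1 / (q : ℝ)) ^ m1) ^ (n + 1) - 1)) := by
    rw [avg_sum, ← Finset.sum_filter_add_sum_filter_not univ far]
    linarith
  have hfin : ε ^ 2 * C ≤ ε ^ 2 * 2 ^ n := by gcongr
  nlinarith

end

end Pool.Agent.Helper38.Stretch
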