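import Pool.Agent.Helper38.Stretch.FieldDefs

/-! Selection of the special coordinate and of the levels. -/

namespace Pool.Agent.Helper38.Stretch

open Finset

noncomputable section

theorem exists_lev {n l1 l2 : ℕ} (J : Fin (n + 1) → ℝ) (hJ : ∀ i, 0 ≤ J i) (C : ℝ)
    (hC : 0 < C) (hsum : ∑ i, J i ≤ C * (n + 1)) (hl : 4 * (l1 + l2 + 1) ≤ n) :
    ∃ (sp : Fin (n + 1)) (Λ : Lev n l1 l2), J sp ≤ 2 * C ∧
      (∀ i, J (sp.succAbove (Λ.e1 i)) ≤ 2 * C) ∧
      (∀ i, J (sp.succAbove (Λ.e2 i)) ≤ 2 * C) := by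
  classical
  set S : Finset (Fin (n + 1)) := univ.filter fun i => J i ≤ 2 * C with hS
  have hSc : (#(univ.filter fun i => ¬ J i ≤ 2 * C) : ℝ) * (2 * C) ≤ C * (n + 1) := by
    calc (#(univ.filter fun i => ¬ J i ≤ 2 * C) : ℝ) * (2 * C)
        = ∑ i ∈ univ.filter fun i => ¬ J i ≤ 2 * C, (2 * C) := by
          rw [sum_const, nsmul_eq_mul]
      _ ≤ ∑ i ∈ univ.filter fun i => ¬ J i ≤ 2 * C, J i := by
          apply sum_le_sum
          intro i hi
          exact (not_le.1 (mem_filter.1 hi).2).le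
      _ ≤ ∑ i, J i := sum_le_sum_of_subset_of_nonneg (filter_subset _ _) fun i _ _ => hJ i
      _ ≤ C * (n + 1) := hsum
  have hSc2 : 2 * #(univ.filter fun i => ¬ J i ≤ 2 * C) ≤ n + 1 := by
    have h1 : (2 * (#(univ.filter fun i => ¬ J i ≤ 2 * C) : ℝ)) * C ≤ ((n : ℝ) + 1) * C := by
      nlinarith
    have h2 := le_of_mul_le_mul_right h1 hC
    exact_mod_cast h2
  have hcard : #S + #(univ.filter fun i => ¬ J i ≤ 2 * C) = n + 1 := by
    have := card_filter_add_card_filter_not (s := (univ : Finset (Fin (n + 1))))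
      (fun i => J i ≤ 2 * C)
    simpa using this
  have hSbig : l1 + l2 + 1 ≤ #S := by omega
  obtain ⟨sp, hsp⟩ : S.Nonempty := card_pos.1 (by omega)
  have hspJ : J sp ≤ 2 * C := (mem_filter.1 hsp).2
  set S' : Finset (Fin n) := univ.filter fun k => J (sp.succAbove k) ≤ 2 * C with hS'
  have hSS' : #S ≤ #S' + 1 := by
    have hsub : S ⊆ insert sp (S'.map sp.succAboveEmb) := by
      intro i hi
      by_cases h : i = sp
      · subst h; exact mem_insert_self _ _
      · obtain ⟨k, hk⟩ := Fin.exists_succAbove_eq h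
        apply mem_insert_of_mem
        rw [mem_map]
        refine ⟨k, ?_, hk⟩
        rw [hS', mem_filter]
        refine ⟨mem_univ _, ?_⟩
        rw [hk]
        exact (mem_filter.1 hi).2
    calc #S ≤ #(insert sp (S'.map sp.succAboveEmb)) := card_le_card hsub
      _ ≤ #(S'.map sp.succAboveEmb) + 1 := card_insert_le _ _
      _ = #S' + 1 := by rw [card_map]
  obtain ⟨A1, hA1, hA1c⟩ := exists_subset_card_eq (s := S') (n := l1) (by omega)
  have hA2' : l2 ≤ #(S' \ A1) := by
    rw [card_sdiff_of_subset hA1]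
    omega
  obtain ⟨A2, hA2, hA2c⟩ := exists_subset_card_eq (s := S' \ A1) (n := l2) hA2'
  have hdisj : ∀ j ∈ A2, j ∉ A1 := fun j hj => (mem_sdiff.1 (hA2 hj)).2
  refine ⟨sp, ⟨fun j => if j ∈ A1 then 1 else if j ∈ A2 then 2 else 0,
    A1.orderEmbOfFin hA1c, A2.orderEmbOfFin hA2c, (A1.orderEmbOfFin hA1c).injective,
    (A2.orderEmbOfFin hA2c).injective, ?_, ?_, ?_, ?_⟩, hspJ, ?_, ?_⟩
  · intro i
    simp only [orderEmbOfFin_mem, if_true]
  · intro i
    have h1 := orderEmbOfFin_mem A2 hA2c i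
    simp only [hdisj _ h1, h1, if_true, if_false]
  · rw [← hA1c]
    congr 1
    ext j
    simp only [mem_filter, mem_univ, true_and]
    by_cases h : j ∈ A1
    · simp [h]
    · by_cases h' : j ∈ A2 <;> simp [h, h']
  · rw [← hA2c]
    congr 1
    ext j
    simp only [mem_filter, mem_univ, true_and]
    by_cases h : j ∈ A1
    · have : j ∉ A2 := fun h' => hdisj j h' h
      simp [h, this]
    · by_cases h' : j ∈ A2 <;> simp [h, h']
  · intro i
    exact (mem_filter.1 (hA1 (orderEmbOfFin_mem A1 hA1c i))).2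
  · intro i
    exact (mem_filter.1 (mem_sdiff.1 (hA2 (orderEmbOfFin_mem A2 hA2c i))).1).2

end

end Pool.Agent.Helper38.Stretch
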