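import Pool.Agent.Helper38.Stretch.Defs

/-! Tail bounds for `Sset` (module M7).

`z^{#(S ∩ B)} e^{-t cost} ≤ ∏_{i∈B} (1 + z e^{-t om (u i)})` pointwise (the factors `i ∉ B` of `e^{-t cost}` are
`≤ 1`), average of the product = product of the averages (`avg_pi_prod`), and
`avg_a e^{-t om a} ≤ 1/t` : values `(2a+1)/(2G)`, `a < G`, each twice; geometric sum
`∑_{a<G} e^{-(2a+1)x} ≤ e^{-x}/(1-e^{-2x}) = 1/(2 sinh x) ≤ 1/(2x)`, `x = t/(2G)`. -/

namespace Pool.Agent.Helper38.Stretch

open Finset

noncomputable section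

lemma om_nonneg {M : ℕ} (a : Fin M) : 0 ≤ om a := div_nonneg (abs_nonneg _) (Nat.cast_nonneg _)

theorem avg_exp_om {G : ℕ} (hG : 0 < G) (t : ℝ) (ht : 0 < t) :
    avg (fun a : Fin (2 * G) => Real.exp (-t * om a)) ≤ 1 / t := by
  have hG' : (0 : ℝ) < G := by exact_mod_cast hG
  set x : ℝ := t / (2 * G) with hx
  have hx0 : 0 < x := by positivity
  -- telescoping
  have hstep : ∀ k ∈ range G, Real.exp (-(2 * (k : ℝ) + 1) * x) * (2 * x) ≤
      (-Real.exp (-(2 * ((k + 1 : ℕ) : ℝ)) * x)) - (-Real.exp (-(2 * (k : ℝ)) * x)) := by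
    intro k _
    have h1 : Real.exp (-(2 * (k : ℝ)) * x) = Real.exp (-(2 * (k : ℝ) + 1) * x) * Real.exp x := by
      rw [← Real.exp_add]; congr 1; ring
    have h2 : Real.exp (-(2 * ((k + 1 : ℕ) : ℝ)) * x) =
        Real.exp (-(2 * (k : ℝ) + 1) * x) * Real.exp (-x) := by
      rw [← Real.exp_add]; congr 1; push_cast; ring
    have h3 : 2 * x ≤ Real.exp x - Real.exp (-x) := by
      have := Real.self_le_sinh_iff.2 hx0.le
      rw [Real.sinh_eq] at this
      linarith
    rw [h1, h2]
    have h4 := mul_le_mul_of_nonneg_left h3 (Real.exp_pos (-(2 * (k : ℝ) + 1) * x)).le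
    linarith
  have hsum := Finset.sum_le_sum hstep
  rw [← Finset.sum_mul, Finset.sum_range_sub (fun k : ℕ => -Real.exp (-(2 * (k : ℝ)) * x)) G] at hsum
  have hS : (∑ k ∈ range G, Real.exp (-(2 * (k : ℝ) + 1) * x)) * (2 * x) ≤ 1 := by
    have h0 : Real.exp (-(2 * ((0 : ℕ) : ℝ)) * x) = 1 := by simp
    rw [h0] at hsum
    have := Real.exp_pos (-(2 * ((G : ℕ) : ℝ)) * x)
    linarith
  -- evaluation of the average
  set β : ℕ → ℝ := fun n => Real.exp (-t * (|2 * (n : ℝ) + 1 - (2 * G : ℕ)| / (2 * G : ℕ))) with hβ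
  have h5 : ∑ a : Fin (2 * G), Real.exp (-t * om a) = ∑ n ∈ range (2 * G), β n := by
    rw [Finset.sum_range]
    rfl
  have hlow : ∀ n ∈ range G, β n = Real.exp (-(2 * ((G - 1 - n : ℕ) : ℝ) + 1) * x) := by
    intro n hn
    rw [Finset.mem_range] at hn
    simp only [hβ]
    congr 1
    have hn' : (n : ℝ) + 1 ≤ G := by exact_mod_cast hn
    have h3 : ((G - 1 - n : ℕ) : ℝ) = G - 1 - n := by
      rw [Nat.cast_sub (by omega), Nat.cast_sub (by omega)]; simp
    rw [h3, abs_of_nonpos (by push_cast; linarith), hx]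
    push_cast
    field_simp
    ring
  have hhigh : ∀ n ∈ range G, β (G + n) = Real.exp (-(2 * (n : ℝ) + 1) * x) := by
    intro n hn
    simp only [hβ]
    congr 1
    rw [abs_of_nonneg (by push_cast; linarith [Nat.cast_nonneg (α := ℝ) n]), hx]
    push_cast
    field_simp
    ring
  have h6 : ∑ n ∈ range (2 * G), β n = 2 * ∑ k ∈ range G, Real.exp (-(2 * (k : ℝ) + 1) * x) := by
    rw [two_mul, Finset.sum_range_add, Finset.sum_congr rfl hlow, Finset.sum_congr rfl hhigh,
      Finset.sum_range_reflect (fun k => Real.exp (-(2 * (k : ℝ) + 1) * x)) G]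
    ring
  unfold avg
  rw [h5, h6, Fintype.card_fin, div_le_div_iff₀ (by positivity) ht]
  have h7 : (∑ k ∈ range G, Real.exp (-(2 * (k : ℝ) + 1) * x)) * (2 * x) =
      (∑ k ∈ range G, Real.exp (-(2 * (k : ℝ) + 1) * x)) * t / G := by
    have e : 2 * x = t / G := by rw [hx]; field_simp
    rw [e, mul_div_assoc]
  rw [h7, div_le_one hG'] at hS
  push_cast
  linarith

lemma cost_eq_sum {N M : ℕ} (T : (Fin N → Fin M) → (Fin N → Bool)) (u : Fin N → Fin M) :
    cost u (T u) = ∑ i ∈ Sset T u, om (u i) := by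
  unfold cost Sset
  rw [Finset.sum_filter]
  apply Finset.sum_congr rfl
  intro i _
  by_cases h : side (u i) = T u i <;> simp [h]

lemma cost_nonneg' {N M : ℕ} (T : (Fin N → Fin M) → (Fin N → Bool)) (u : Fin N → Fin M) :
    0 ≤ cost u (T u) := by
  rw [cost_eq_sum]
  exact Finset.sum_nonneg fun i _ => om_nonneg _

theorem avg_pow_Sset {N G : ℕ} (hG : 0 < G) (T : (Fin N → Fin (2 * G)) → (Fin N → Bool))
    (B : Finset (Fin N)) (z t : ℝ) (hz : 0 < z) (ht : 0 < t) :
    avg (fun u => z ^ #(Sset T u ∩ B) * Real.exp (-t * cost u (T u))) ≤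
      Real.exp (#B * z / t) := by
  have hne : Nonempty (Fin (2 * G)) := ⟨⟨0, by omega⟩⟩
  have hpt : ∀ u : Fin N → Fin (2 * G),
      z ^ #(Sset T u ∩ B) * Real.exp (-t * cost u (T u)) ≤
      ∏ i, (if i ∈ B then fun a : Fin (2 * G) => 1 + z * Real.exp (-t * om a) else fun _ => 1) (u i) := by
    intro u
    have h1 : Real.exp (-t * cost u (T u)) ≤ ∏ i ∈ Sset T u ∩ B, Real.exp (-t * om (u i)) := by
      rw [cost_eq_sum, ← Real.exp_sum]
      apply Real.exp_le_exp.2
      rw [← Finset.mul_sum]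
      have : ∑ i ∈ Sset T u ∩ B, om (u i) ≤ ∑ i ∈ Sset T u, om (u i) :=
        Finset.sum_le_sum_of_subset_of_nonneg Finset.inter_subset_left (fun i _ _ => om_nonneg _)
      have h2 := mul_le_mul_of_nonneg_left this ht.le
      linarith
    calc z ^ #(Sset T u ∩ B) * Real.exp (-t * cost u (T u))
        ≤ z ^ #(Sset T u ∩ B) * ∏ i ∈ Sset T u ∩ B, Real.exp (-t * om (u i)) :=
          mul_le_mul_of_nonneg_left h1 (by positivity)
      _ = ∏ i ∈ Sset T u ∩ B, z * Real.exp (-t * om (u i)) := by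
          rw [Finset.prod_mul_distrib, Finset.prod_const]
      _ ≤ ∏ i ∈ Sset T u ∩ B, (1 + z * Real.exp (-t * om (u i))) := by
          apply Finset.prod_le_prod
          · intro i _; positivity
          · intro i _; linarith
      _ ≤ ∏ i ∈ B, (1 + z * Real.exp (-t * om (u i))) := by
          have hone : ∀ i, 1 ≤ 1 + z * Real.exp (-t * om (u i)) := fun i => by
            have : 0 < z * Real.exp (-t * om (u i)) := by positivity
            linarith
          exact Finset.prod_le_prod_of_subset_of_one_le Finset.inter_subset_right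
            (fun i _ => zero_le_one.trans (hone i)) (fun i _ _ => hone i)
      _ = _ := by
          rw [← Finset.prod_filter_mul_prod_filter_not Finset.univ (fun i => i ∈ B)]
          have e1 : ∏ i with i ∈ B, (if i ∈ B then fun a : Fin (2 * G) => 1 + z * Real.exp (-t * om a)
              else fun _ => 1) (u i) = ∏ i ∈ B, (1 + z * Real.exp (-t * om (u i))) := by
            rw [Finset.filter_mem_eq_inter, Finset.univ_inter]
            apply Finset.prod_congr rfl
            intro i hi
            simp [hi]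
          have e2 : ∏ i with ¬ i ∈ B, (if i ∈ B then fun a : Fin (2 * G) => 1 + z * Real.exp (-t * om a)
              else fun _ => 1) (u i) = 1 := by
            apply Finset.prod_eq_one
            intro i hi
            simp [(Finset.mem_filter.1 hi).2]
          rw [e1, e2, mul_one]
  refine le_trans (avg_mono hpt) ?_
  rw [avg_pi_prod]
  have hfac : ∀ i : Fin N, avg (if i ∈ B then fun a : Fin (2 * G) => 1 + z * Real.exp (-t * om a)
      else fun _ => 1) ≤ if i ∈ B then Real.exp (z / t) else 1 := by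
    intro i
    split_ifs with hi
    · rw [avg_add, avg_const, avg_mul_left]
      have h1 := avg_exp_om hG t ht
      have h2 := mul_le_mul_of_nonneg_left h1 hz.le
      have h3 := Real.add_one_le_exp (z / t)
      have h4 : z * (1 / t) = z / t := by ring
      linarith
    · rw [avg_const]
  refine le_trans (Finset.prod_le_prod (fun i _ => avg_nonneg fun a => ?_) (fun i _ => hfac i)) ?_
  · split_ifs
    · positivity
    · norm_num
  · rw [Finset.prod_ite, Finset.prod_const, Finset.prod_const_one, mul_one,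
      Finset.filter_mem_eq_inter, Finset.univ_inter, ← Real.exp_nat_mul]
    apply Real.exp_le_exp.2
    apply le_of_eq
    ring

/-- tail: `P(#(S∩B) ≥ k) ≤ P(cost > lam) + e^{-k + t lam + e #B / t}`, and `P(cost>lam) ≤ 2 e^{-lam/2}`. -/
theorem prob_Sset {N G : ℕ} (hG : 0 < G) (T : (Fin N → Fin (2 * G)) → (Fin N → Bool))
    (hexp : avg (fun u => Real.exp (cost u (T u) / 2)) ≤ 2)
    (B : Finset (Fin N)) (k : ℕ) (t lam : ℝ) (ht : 0 < t) :
    avg (fun u => if k < #(Sset T u ∩ B) then (1 : ℝ) else 0) ≤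
      2 * Real.exp (-lam / 2) + Real.exp (-k + t * lam + Real.exp 1 * #B / t) := by
  have hpt : ∀ u : Fin N → Fin (2 * G), (if k < #(Sset T u ∩ B) then (1 : ℝ) else 0) ≤
      Real.exp (-lam / 2) * Real.exp (cost u (T u) / 2) + Real.exp (-k + t * lam) *
      (Real.exp 1 ^ #(Sset T u ∩ B) * Real.exp (-t * cost u (T u))) := by
    intro u
    have p1 : 0 < Real.exp (-lam / 2) * Real.exp (cost u (T u) / 2) := by positivity
    have p2 : 0 < Real.exp (-k + t * lam) *
      (Real.exp 1 ^ #(Sset T u ∩ B) * Real.exp (-t * cost u (T u))) := by positivity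
    split_ifs with hk
    · rcases le_total lam (cost u (T u)) with h | h
      · have : 1 ≤ Real.exp (-lam / 2) * Real.exp (cost u (T u) / 2) := by
          rw [← Real.exp_add]
          apply Real.one_le_exp
          linarith
        linarith
      · have : 1 ≤ Real.exp (-k + t * lam) *
            (Real.exp 1 ^ #(Sset T u ∩ B) * Real.exp (-t * cost u (T u))) := by
          rw [← Real.exp_nat_mul, ← Real.exp_add, ← Real.exp_add]
          apply Real.one_le_exp
          have h1 : (k : ℝ) ≤ #(Sset T u ∩ B) := by exact_mod_cast hk.le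
          have h2 := mul_le_mul_of_nonneg_left h ht.le
          linarith
        linarith
    · linarith
  refine le_trans (avg_mono hpt) ?_
  rw [avg_add, avg_mul_left, avg_mul_left]
  have h1 := avg_pow_Sset hG T B (Real.exp 1) t (Real.exp_pos 1) ht
  have h2 := mul_le_mul_of_nonneg_left h1 (Real.exp_pos (-(k : ℝ) + t * lam)).le
  have h3 := mul_le_mul_of_nonneg_left hexp (Real.exp_pos (-lam / 2)).le
  rw [← Real.exp_add] at h2
  have h4 : -(k : ℝ) + t * lam + #B * Real.exp 1 / t = -k + t * lam + Real.exp 1 * #B / t := by ring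
  rw [h4] at h2
  linarith

/-- mean: `avg #S ≤ t avg cost + e N / t`, `avg cost ≤ 4` (`x/2 ≤ e^{x/2}`), `t = √N`. -/
theorem avg_Sset {N G : ℕ} (hN : 1 ≤ N) (hG : 0 < G)
    (T : (Fin N → Fin (2 * G)) → (Fin N → Bool))
    (hexp : avg (fun u => Real.exp (cost u (T u) / 2)) ≤ 2) :
    avg (fun u => (#(Sset T u) : ℝ)) ≤ 7 * √N := by
  have hne : Nonempty (Fin (2 * G)) := ⟨⟨0, by omega⟩⟩
  have hN' : (0 : ℝ) < N := by exact_mod_cast hN
  set t : ℝ := √N with ht
  have ht0 : 0 < t := Real.sqrt_pos.2 hN'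
  have htt : t * t = N := Real.mul_self_sqrt hN'.le
  have h1 := avg_pow_Sset hG T Finset.univ (Real.exp 1) t (Real.exp_pos 1) ht0
  simp only [Finset.inter_univ, Finset.card_univ, Fintype.card_fin] at h1
  set c : ℝ := N * Real.exp 1 / t with hc
  have hct : c = t * Real.exp 1 := by
    rw [hc, ← htt]; field_simp
  have hcost : avg (fun u => cost u (T u)) ≤ 2 := by
    have hpt : ∀ u : Fin N → Fin (2 * G), cost u (T u) ≤ 2 * Real.exp (cost u (T u) / 2) - 2 := by
      intro u
      have := Real.add_one_le_exp (cost u (T u) / 2)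
      linarith
    refine le_trans (avg_mono hpt) ?_
    rw [avg_sub, avg_mul_left, avg_const]
    linarith
  have hpt : ∀ u : Fin N → Fin (2 * G), (#(Sset T u) : ℝ) ≤ t * cost u (T u) +
      (Real.exp (-c) * (Real.exp 1 ^ #(Sset T u) * Real.exp (-t * cost u (T u))) + (c - 1)) := by
    intro u
    rw [← Real.exp_nat_mul, ← Real.exp_add, ← Real.exp_add]
    have := Real.add_one_le_exp (-c + ((#(Sset T u) : ℝ) * 1 + -t * cost u (T u)))
    linarith
  refine le_trans (avg_mono hpt) ?_
  rw [avg_add, avg_mul_left, avg_add, avg_mul_left, avg_const]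
  have h2 := mul_le_mul_of_nonneg_left h1 (Real.exp_pos (-c)).le
  rw [← Real.exp_add, neg_add_cancel, Real.exp_zero] at h2
  have h3 := mul_le_mul_of_nonneg_left hcost ht0.le
  have h4 : Real.exp 1 ≤ 3 := by
    have := Real.exp_one_lt_d9
    linarith
  have h5 := mul_le_mul_of_nonneg_left h4 ht0.le
  linarith

end

end Pool.Agent.Helper38.Stretch
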