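import Pool.Agent.Helper38.Stretch.Defs

/-! Property (τ) (module M6).

Paper proof.  `omm a = om a - 1/M` (so with `M = 2 G`, over the half grid it takes the values
`a/G`, `a < G`).  One-dimensional inequality: for `f : Fin M → ℝ≥0`, `g0 g1 ≥ 0` with
`f a * g b ≤ exp (if side a = b then 0 else omm a)` one has `avg f * (g0 + g1)/2 ≤ 1`: wlog
`g1 ≤ g0`, scale `g0 = 1`, `z = 1/g1 ≥ 1`, reduces to `(1 + avg_{a<G} min (exp (a/G)) z) * (1 + 1/z) ≤ 4`;
with `z = exp d`, `d ≤ 1`, `k = ⌊d G⌋`, `c = k/G`, `x = 1/G`: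
`avg_{a<G} min ≤ e^c - 1 + x e^c + (1 - c - x) e^d ≤ (2-d) e^d - 1` (as `(e^d-e^c)(1+x) ≥ (d-c)e^d` because
`e^{-h} ≤ 1/(1+h)`), and `(2-d) (e^d+1) ≤ 4`; `z ≥ e`: `avg ≤ e - 1` and `e (1+1/z) ≤ e + 1 < 4`.
Tensorise by induction on `N`.
-/

namespace Pool.Agent.Helper38.Stretch

open Finset

noncomputable section

/-- lower version of `cost` -/
def costm {N M : ℕ} (u : Fin N → Fin M) (y : Fin N → Bool) : ℝ :=
  ∑ i, if side (u i) = y i then 0 else (om (u i) - 1 / M)

lemma exp_pade {d : ℝ} (h0 : 0 ≤ d) (h1 : d ≤ 1) : (2 - d) * (Real.exp d + 1) ≤ 4 := by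
  have hx : |d / 2| < 1 := by
    rw [abs_of_nonneg (by linarith)]; linarith
  have hs := Real.hasSum_log_sub_log_of_abs_lt_one hx
  have h2 := le_hasSum hs 0 (fun j _ => by positivity)
  have h3 : (2 : ℝ) * (1 / (2 * ((0 : ℕ) : ℝ) + 1)) * (d / 2) ^ (2 * 0 + 1) = d := by
    norm_num
    ring
  rw [h3] at h2
  have hp1 : 0 < 1 + d / 2 := by linarith
  have hp2 : 0 < 1 - d / 2 := by linarith
  rw [← Real.log_div hp1.ne' hp2.ne'] at h2
  have h4 : Real.exp d ≤ (1 + d / 2) / (1 - d / 2) := by
    rw [← Real.exp_log (div_pos hp1 hp2)]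
    exact Real.exp_le_exp.2 h2
  rw [le_div_iff₀ hp2] at h4
  linarith

/-- one step of the Riemann sum bound -/
lemma step_le {d x h : ℝ} (hh : 0 ≤ h) :
    h * Real.exp (min x d) ≤
      (Real.exp (min (x + h) d) + (x + h - min (x + h) d) * Real.exp d) -
      (Real.exp (min x d) + (x - min x d) * Real.exp d) := by
  rcases le_total (x + h) d with h1 | h1
  · have hxd : x ≤ d := by linarith
    rw [min_eq_left h1, min_eq_left hxd]
    have : Real.exp (x + h) = Real.exp x * Real.exp h := Real.exp_add x h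
    have h2 := Real.add_one_le_exp h
    have h3 : Real.exp x * (h + 1) ≤ Real.exp x * Real.exp h :=
      mul_le_mul_of_nonneg_left h2 (Real.exp_pos x).le
    rw [this]
    linarith
  · rw [min_eq_right h1]
    rcases le_total x d with h2 | h2
    · rw [min_eq_left h2]
      have h3 := Real.add_one_le_exp (d - x)
      have h4 : Real.exp x * (d - x + 1) ≤ Real.exp d := by
        have : Real.exp d = Real.exp x * Real.exp (d - x) := by
          rw [← Real.exp_add]; congr 1; ring
        rw [this]
        exact mul_le_mul_of_nonneg_left h3 (Real.exp_pos x).le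
      have h5 : (x + h - d) * Real.exp x ≤ (x + h - d) * Real.exp d :=
        mul_le_mul_of_nonneg_left (Real.exp_le_exp.2 h2) (by linarith)
      linarith
    · rw [min_eq_right h2]
      linarith

lemma riemann_le {G : ℕ} (hG : 0 < G) {d : ℝ} (h0 : 0 ≤ d) (h1 : d ≤ 1) :
    ∑ k ∈ range G, Real.exp (min ((k : ℝ) / G) d) ≤ G * ((2 - d) * Real.exp d - 1) := by
  have hG' : (0 : ℝ) < G := by exact_mod_cast hG
  set Φ : ℕ → ℝ := fun k => Real.exp (min ((k : ℝ) / G) d) +
    ((k : ℝ) / G - min ((k : ℝ) / G) d) * Real.exp d with hΦ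
  have h2 : ∀ k ∈ range G, 1 / (G : ℝ) * Real.exp (min ((k : ℝ) / G) d) ≤ Φ (k + 1) - Φ k := by
    intro k _
    have := step_le (d := d) (x := (k : ℝ) / G) (h := 1 / G) (by positivity)
    have e : (k : ℝ) / G + 1 / G = ((k + 1 : ℕ) : ℝ) / G := by push_cast; ring
    rw [e] at this
    exact this
  have h3 := Finset.sum_le_sum h2
  rw [Finset.sum_range_sub, ← Finset.mul_sum] at h3
  have h4 : Φ G = Real.exp d + (1 - d) * Real.exp d := by
    simp only [hΦ]
    rw [div_self hG'.ne', min_eq_right h1]
  have h5 : Φ 0 = 1 := by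
    simp only [hΦ]
    simp [h0]
  rw [h4, h5] at h3
  have h6 : ∑ k ∈ range G, Real.exp (min ((k : ℝ) / G) d) =
      G * (1 / (G : ℝ) * ∑ k ∈ range G, Real.exp (min ((k : ℝ) / G) d)) := by
    rw [← mul_assoc, mul_one_div_cancel hG'.ne', one_mul]
  rw [h6]
  apply mul_le_mul_of_nonneg_left _ hG'.le
  linarith

/-- one-dimensional inequality -/
lemma tau_one {G : ℕ} (hG : 0 < G) (f : Fin (2 * G) → ℝ) (g : Bool → ℝ)
    (hf : ∀ a, 0 ≤ f a) (hg : ∀ b, 0 ≤ g b)
    (h : ∀ a b, f a * g b ≤ Real.exp (if side a = b then 0 else (om a - 1 / (2 * G : ℕ)))) :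
    avg f * avg g ≤ 1 := by
  have hG' : (0 : ℝ) < G := by exact_mod_cast hG
  -- choose the larger side
  obtain ⟨b0, hb0⟩ : ∃ b0, g (!b0) ≤ g b0 := by
    rcases le_total (g false) (g true) with h1 | h1
    · exact ⟨true, h1⟩
    · exact ⟨false, h1⟩
  have hgsum : ∑ b, g b = g b0 + g (!b0) := by
    rw [Fintype.sum_bool]
    cases b0
    · exact add_comm _ _
    · rfl
  have havg : avg g = (g b0 + g (!b0)) / 2 := by
    unfold avg
    rw [hgsum, Fintype.card_bool]
    norm_num
  rw [havg]
  rcases (hg b0).eq_or_lt with hz | hpos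
  · have h1 : g (!b0) = 0 := le_antisymm (hz ▸ hb0) (hg _)
    rw [← hz, h1]
    simp
  -- parameter
  obtain ⟨d, hd0, hd1, hdz, hdy⟩ : ∃ d : ℝ, 0 ≤ d ∧ d ≤ 1 ∧
      (d < 1 → g b0 ≤ g (!b0) * Real.exp d) ∧ g (!b0) ≤ g b0 * Real.exp (-d) := by
    by_cases hc : g (!b0) ≤ g b0 * Real.exp (-1)
    · exact ⟨1, by norm_num, le_rfl, fun h => absurd h (lt_irrefl _), hc⟩
    · push Not at hc
      have hpos1 : 0 < g (!b0) := lt_of_le_of_lt (by positivity) hc
      have hquot : 1 ≤ g b0 / g (!b0) := by rwa [one_le_div hpos1]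
      refine ⟨Real.log (g b0 / g (!b0)), Real.log_nonneg hquot, ?_, ?_, ?_⟩
      · rw [← Real.log_exp 1]
        apply Real.log_le_log (by positivity)
        rw [div_le_iff₀ hpos1]
        have h2 : Real.exp 1 * (g b0 * Real.exp (-1)) = g b0 := by
          rw [mul_comm, mul_assoc, ← Real.exp_add]; simp
        have h3 := mul_le_mul_of_nonneg_left hc.le (Real.exp_pos 1).le
        linarith
      · intro _
        rw [Real.exp_log (by positivity)]
        field_simp
        exact le_refl _
      · rw [Real.exp_neg, Real.exp_log (by positivity)]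
        field_simp
        exact le_refl _
  -- pointwise bound
  set β : ℕ → ℝ := fun n => if (decide (2 * G ≤ 2 * n)) = b0 then 1 else
    Real.exp (min (|2 * (n : ℝ) + 1 - (2 * G : ℕ)| / (2 * G : ℕ) - 1 / (2 * G : ℕ)) d) with hβ
  have hfβ : ∀ a : Fin (2 * G), f a * g b0 ≤ β (a : ℕ) := by
    intro a
    simp only [hβ]
    have h1 := h a b0
    have hs : side a = decide (2 * G ≤ 2 * (a : ℕ)) := rfl
    split_ifs with hc
    · rw [hs, if_pos hc, Real.exp_zero] at h1
      exact h1
    · rw [hs, if_neg hc] at h1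
      rcases le_total (om a - 1 / (2 * G : ℕ)) d with h2 | h2
      · have : |2 * ((a : ℕ) : ℝ) + 1 - (2 * G : ℕ)| / (2 * G : ℕ) - 1 / (2 * G : ℕ) =
          om a - 1 / (2 * G : ℕ) := rfl
        rw [this, min_eq_left h2]
        exact h1
      · have : |2 * ((a : ℕ) : ℝ) + 1 - (2 * G : ℕ)| / (2 * G : ℕ) - 1 / (2 * G : ℕ) =
          om a - 1 / (2 * G : ℕ) := rfl
        rw [this, min_eq_right h2]
        rcases hd1.eq_or_lt with he | hlt
        · -- d = 1, then om a - 1/M ≤ 1 = d
          have h3 : om a - 1 / (2 * G : ℕ) ≤ 1 := by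
            unfold om
            have ha := a.2
            have ha' : ((a : ℕ) : ℝ) + 1 ≤ 2 * G := by
              have : (a : ℕ) + 1 ≤ 2 * G := ha
              exact_mod_cast this
            have ha0 : (0 : ℝ) ≤ ((a : ℕ) : ℝ) := Nat.cast_nonneg _
            have h4 : |2 * ((a : ℕ) : ℝ) + 1 - (2 * G : ℕ)| ≤ (2 * G : ℕ) := by
              push_cast
              rw [abs_le]
              constructor <;> linarith
            have h5 : |2 * ((a : ℕ) : ℝ) + 1 - (2 * G : ℕ)| / (2 * G : ℕ) ≤ 1 := by
              rw [div_le_one (by push_cast; positivity)]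
              exact h4
            have h6 : (0 : ℝ) ≤ 1 / (2 * G : ℕ) := by positivity
            linarith
          refine le_trans h1 (Real.exp_le_exp.2 ?_)
          linarith
        · have h3 := h a (!b0)
          have h4 : side a = !b0 := by
            rw [hs]
            rcases b0 with _ | _ <;> simp at hc ⊢ <;> omega
          rw [if_pos h4, Real.exp_zero] at h3
          have h5 := hdz hlt
          calc f a * g b0 ≤ f a * (g (!b0) * Real.exp d) := mul_le_mul_of_nonneg_left h5 (hf a)
            _ = (f a * g (!b0)) * Real.exp d := by ring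
            _ ≤ 1 * Real.exp d := mul_le_mul_of_nonneg_right h3 (Real.exp_pos d).le
            _ = Real.exp d := one_mul _
  have hsum : ∑ a : Fin (2 * G), f a * g b0 ≤ ∑ n ∈ range (2 * G), β n := by
    rw [Finset.sum_range]
    exact Finset.sum_le_sum fun a _ => hfβ a
  -- evaluation of the sum of β
  have hβsum : ∑ n ∈ range (2 * G), β n ≤ G + G * ((2 - d) * Real.exp d - 1) := by
    rw [two_mul, Finset.sum_range_add]
    have hlow : ∀ n ∈ range G, β n = if b0 = false then 1 else
        Real.exp (min (((G - 1 - n : ℕ) : ℝ) / G) d) := by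
      intro n hn
      rw [Finset.mem_range] at hn
      simp only [hβ]
      have h1 : decide (2 * G ≤ 2 * n) = false := by
        rw [decide_eq_false_iff_not]; omega
      rw [h1]
      have h2 : |2 * (n : ℝ) + 1 - (2 * G : ℕ)| / (2 * G : ℕ) - 1 / (2 * G : ℕ) =
          ((G - 1 - n : ℕ) : ℝ) / G := by
        have hn' : (n : ℝ) + 1 ≤ G := by exact_mod_cast hn
        have h3 : ((G - 1 - n : ℕ) : ℝ) = G - 1 - n := by
          rw [Nat.cast_sub (by omega), Nat.cast_sub (by omega)]; simp
        rw [h3, abs_of_nonpos (by push_cast; linarith)]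
        push_cast
        field_simp
        ring
      rw [h2]
      cases b0 <;> simp
    have hhigh : ∀ n ∈ range G, β (G + n) = if b0 = true then 1 else
        Real.exp (min ((n : ℝ) / G) d) := by
      intro n hn
      rw [Finset.mem_range] at hn
      simp only [hβ]
      have h1 : decide (2 * G ≤ 2 * (G + n)) = true := by
        rw [decide_eq_true_iff]; omega
      rw [h1]
      have h2 : |2 * ((G + n : ℕ) : ℝ) + 1 - (2 * G : ℕ)| / (2 * G : ℕ) - 1 / (2 * G : ℕ) =
          (n : ℝ) / G := by
        rw [abs_of_nonneg (by push_cast; linarith [Nat.cast_nonneg (α := ℝ) n])]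
        push_cast
        field_simp
        ring
      rw [h2]
      cases b0 <;> simp
    rw [Finset.sum_congr rfl hlow, Finset.sum_congr rfl hhigh]
    have hr := riemann_le hG hd0 hd1
    cases b0
    · simp only [if_true, Bool.false_eq_true, if_false, Finset.sum_const, Finset.card_range,
        nsmul_eq_mul, mul_one]
      linarith
    · simp only [if_true, Bool.true_eq_false, if_false, Finset.sum_const, Finset.card_range,
        nsmul_eq_mul, mul_one]
      rw [Finset.sum_range_reflect (fun k => Real.exp (min ((k : ℝ) / G) d)) G]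
      linarith
  have hfin : (∑ a, f a) * g b0 ≤ G * ((2 - d) * Real.exp d) := by
    rw [Finset.sum_mul]
    linarith
  have hpade := exp_pade hd0 hd1
  -- conclusion
  have h7 : (g b0 + g (!b0)) ≤ g b0 * (1 + Real.exp (-d)) := by linarith
  have hS0 : 0 ≤ ∑ a, f a := Finset.sum_nonneg fun a _ => hf a
  unfold avg
  rw [Fintype.card_fin]
  have h8 : (∑ a, f a) * (g b0 + g (!b0)) ≤ 4 * G := by
    calc (∑ a, f a) * (g b0 + g (!b0)) ≤ (∑ a, f a) * (g b0 * (1 + Real.exp (-d))) :=
          mul_le_mul_of_nonneg_left h7 hS0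
      _ = ((∑ a, f a) * g b0) * (1 + Real.exp (-d)) := by ring
      _ ≤ (G * ((2 - d) * Real.exp d)) * (1 + Real.exp (-d)) :=
          mul_le_mul_of_nonneg_right hfin (by positivity)
      _ = G * ((2 - d) * (Real.exp d + Real.exp d * Real.exp (-d))) := by ring
      _ = G * ((2 - d) * (Real.exp d + 1)) := by
          rw [← Real.exp_add]; simp
      _ ≤ G * 4 := mul_le_mul_of_nonneg_left hpade hG'.le
      _ = 4 * G := by ring
  have h9 : (∑ a, f a) / ((2 * G : ℕ) : ℝ) * ((g b0 + g (!b0)) / 2) =
      ((∑ a, f a) * (g b0 + g (!b0))) / (4 * G) := by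
    push_cast; field_simp; ring
  rw [h9, div_le_one (by positivity)]
  exact h8

lemma avg_cons {α : Type*} [Fintype α] {N : ℕ} (f : (Fin (N + 1) → α) → ℝ) :
    avg f = avg fun a => avg fun w : Fin N → α => f (Fin.cons a w) := by
  rw [← avg_equiv (Fin.consEquiv (fun _ : Fin (N + 1) => α)) f, avg_prod]
  rfl

lemma costm_cons {N M : ℕ} (a : Fin M) (u : Fin N → Fin M) (b : Bool) (y : Fin N → Bool) :
    costm (Fin.cons a u : Fin (N + 1) → Fin M) (Fin.cons b y : Fin (N + 1) → Bool) =
      (if side a = b then 0 else (om a - 1 / M)) + costm u y := by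
  unfold costm
  rw [Fin.sum_univ_succ]
  simp only [Fin.cons_zero, Fin.cons_succ]

theorem tau_tensor {G : ℕ} (hG : 0 < G) (N : ℕ) (f : (Fin N → Fin (2 * G)) → ℝ)
    (g : (Fin N → Bool) → ℝ) (hf : ∀ u, 0 ≤ f u) (hg : ∀ y, 0 ≤ g y)
    (h : ∀ u y, f u * g y ≤ Real.exp (costm u y)) : avg f * avg g ≤ 1 := by
  induction N with
  | zero =>
    have h1 : avg f = f default := by
      unfold avg
      rw [Fintype.sum_unique]
      simp
    have h2 : avg g = g default := by
      unfold avg
      rw [Fintype.sum_unique]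
      have h3 : Fintype.card (Fin 0 → Bool) = 1 := by simp
      rw [h3, Nat.cast_one, div_one]
      exact congrArg g (Subsingleton.elim _ _)
    rw [h1, h2]
    refine le_trans (h default default) ?_
    simp [costm]
  | succ N ih =>
    rw [avg_cons f, avg_cons g]
    apply tau_one hG
    · intro a; exact avg_nonneg fun w => hf _
    · intro b; exact avg_nonneg fun w => hg _
    · intro a b
      set c : ℝ := if side a = b then 0 else (om a - 1 / (2 * G : ℕ)) with hc
      have h3 := ih (fun u => Real.exp (-c) * f (Fin.cons a u)) (fun y => g (Fin.cons b y))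
        (fun u => mul_nonneg (Real.exp_pos _).le (hf _)) (fun y => hg _) (by
          intro u y
          have h4 := h (Fin.cons a u) (Fin.cons b y)
          rw [costm_cons, Real.exp_add] at h4
          calc Real.exp (-c) * f (Fin.cons a u) * g (Fin.cons b y)
              = Real.exp (-c) * (f (Fin.cons a u) * g (Fin.cons b y)) := by ring
            _ ≤ Real.exp (-c) * (Real.exp c * Real.exp (costm u y)) :=
                mul_le_mul_of_nonneg_left h4 (Real.exp_pos _).le
            _ = Real.exp (costm u y) := by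
                rw [← mul_assoc, ← Real.exp_add]; simp)
      rw [avg_mul_left] at h3
      calc avg (fun w : Fin N → Fin (2 * G) => f (Fin.cons a w)) *
            avg (fun w : Fin N → Bool => g (Fin.cons b w))
          = Real.exp c * (Real.exp (-c) * avg (fun w : Fin N → Fin (2 * G) => f (Fin.cons a w)) *
            avg (fun w : Fin N → Bool => g (Fin.cons b w))) := by
            rw [← mul_assoc, ← mul_assoc, ← Real.exp_add]; simp
        _ ≤ Real.exp c * 1 := mul_le_mul_of_nonneg_left h3 (Real.exp_pos _).le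
        _ = Real.exp c := mul_one _

lemma cost_le_costm {N M : ℕ} (hM : 0 < M) (u : Fin N → Fin M) (y : Fin N → Bool) :
    cost u y ≤ costm u y + N / M := by
  unfold cost costm
  have h1 : (N : ℝ) / M = ∑ _i : Fin N, (1 : ℝ) / M := by
    rw [Finset.sum_const, Finset.card_univ, Fintype.card_fin, nsmul_eq_mul]; ring
  rw [h1, ← Finset.sum_add_distrib]
  apply Finset.sum_le_sum
  intro i _
  split_ifs
  · have : (0 : ℝ) ≤ 1 / M := by positivity
    linarith
  · linarith

/-- exponential moment of the transport cost -/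
theorem avg_exp_cost {N G : ℕ} (hN : 1 ≤ N) (hG : 4 * N ≤ G) {A : Finset (Fin N → Bool)}
    (hcard : #A = 2 ^ (N - 1))
    {η : (Fin N → Bool) → ℝ} {T : (Fin N → Fin (2 * G)) → (Fin N → Bool)}
    (hmem : ∀ u, T u ∈ A)
    (hopt : ∀ u, ∀ y ∈ A, cost u (T u) + η (T u) ≤ cost u y + η y)
    (hbal : ∀ y, (#{u | T u = y} : ℝ) ≤ 5 / 4 * ((2 * G : ℕ) : ℝ) ^ N / 2 ^ (N - 1)) :
    avg (fun u => Real.exp (cost u (T u) / 2)) ≤ 2 := by
  classical
  have hG0 : 0 < G := by omega
  have hG' : (0 : ℝ) < G := by exact_mod_cast hG0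
  have hGN : (4 : ℝ) * N ≤ G := by exact_mod_cast hG
  set φ : (Fin N → Fin (2 * G)) → ℝ := fun u => cost u (T u) + η (T u) with hφ
  set gA : (Fin N → Bool) → ℝ := fun y => if y ∈ A then Real.exp (-η y) else 0 with hgA
  set δ : ℝ := (N : ℝ) / (2 * G : ℕ) with hδ
  have hδ8 : δ ≤ 1 / 8 := by
    rw [hδ]
    push_cast
    rw [div_le_iff₀ (by positivity)]
    linarith
  have hprod : avg (fun u => Real.exp (φ u - δ)) * avg gA ≤ 1 := by
    apply tau_tensor hG0
    · intro u; positivity
    · intro y; simp only [hgA]; split_ifs <;> positivity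
    · intro u y
      simp only [hgA]
      split_ifs with hy
      · rw [← Real.exp_add]
        apply Real.exp_le_exp.2
        have h1 := hopt u y hy
        have h2 := cost_le_costm (by omega : 0 < 2 * G) u y
        simp only [hφ, hδ]
        linarith
      · rw [mul_zero]; positivity
  have h1 : avg (fun u => Real.exp (φ u - δ)) = Real.exp (-δ) * avg (fun u => Real.exp (φ u)) := by
    rw [← avg_mul_left]
    apply avg_congr
    intro u
    rw [← Real.exp_add]
    congr 1
    ring
  have hprod2 : avg (fun u => Real.exp (φ u)) * avg gA ≤ Real.exp δ := by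
    rw [h1] at hprod
    calc avg (fun u => Real.exp (φ u)) * avg gA
        = Real.exp δ * (Real.exp (-δ) * avg (fun u => Real.exp (φ u)) * avg gA) := by
          rw [← mul_assoc, ← mul_assoc, ← Real.exp_add]; simp
      _ ≤ Real.exp δ * 1 := mul_le_mul_of_nonneg_left hprod (Real.exp_pos _).le
      _ = Real.exp δ := mul_one _
  -- average of exp (-η (T u))
  have h2 : avg (fun u => Real.exp (-η (T u))) ≤ 5 / 2 * avg gA := by
    have h3 : ∑ u, Real.exp (-η (T u)) = ∑ y, (#{u | T u = y} : ℝ) * Real.exp (-η y) := by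
      rw [← Finset.sum_fiberwise (Finset.univ) T (fun u => Real.exp (-η (T u)))]
      apply Finset.sum_congr rfl
      intro y _
      rw [← nsmul_eq_mul, ← Finset.sum_const]
      apply Finset.sum_congr rfl
      intro u hu
      rw [(Finset.mem_filter.1 hu).2]
    have h4 : ∑ y, (#{u | T u = y} : ℝ) * Real.exp (-η y) ≤
        ∑ y, (5 / 4 * ((2 * G : ℕ) : ℝ) ^ N / 2 ^ (N - 1)) * gA y := by
      apply Finset.sum_le_sum
      intro y _
      by_cases hy : y ∈ A
      · simp only [hgA, hy, if_true]
        exact mul_le_mul_of_nonneg_right (hbal y) (Real.exp_pos _).le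
      · have : #{u | T u = y} = 0 := by
          rw [Finset.card_eq_zero, Finset.filter_eq_empty_iff]
          intro u _ hu
          exact hy (hu ▸ hmem u)
        simp only [this, hgA, hy, if_false]
        simp
    rw [← Finset.mul_sum] at h4
    unfold avg
    rw [h3, Fintype.card_fun, Fintype.card_fun, Fintype.card_fin, Fintype.card_fin,
      Fintype.card_bool]
    rw [div_le_iff₀ (by positivity)]
    refine le_trans h4 (le_of_eq ?_)
    have h5 : (2 : ℝ) ^ N = 2 * 2 ^ (N - 1) := by
      rw [← pow_succ']; congr 1; omega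
    push_cast
    rw [h5]
    field_simp
    ring
  -- Cauchy–Schwarz
  have h6 := avg_cauchy (fun u => Real.exp (φ u / 2)) (fun u => Real.exp (-η (T u) / 2))
  have h7 : (fun u => Real.exp (φ u / 2) * Real.exp (-η (T u) / 2)) =
      fun u => Real.exp (cost u (T u) / 2) := by
    funext u
    rw [← Real.exp_add]
    congr 1
    simp only [hφ]
    ring
  have h8 : (fun u => Real.exp (φ u / 2) ^ 2) = fun u => Real.exp (φ u) := by
    funext u
    rw [← Real.exp_nat_mul]
    congr 1
    push_cast; ring
  have h9 : (fun u => Real.exp (-η (T u) / 2) ^ 2) = fun u => Real.exp (-η (T u)) := by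
    funext u
    rw [← Real.exp_nat_mul]
    congr 1
    push_cast; ring
  rw [h7, h8, h9] at h6
  have hA0 : 0 ≤ avg (fun u => Real.exp (φ u)) := avg_nonneg fun u => (Real.exp_pos _).le
  have h10 : avg (fun u => Real.exp (cost u (T u) / 2)) ^ 2 ≤ 4 := by
    calc avg (fun u => Real.exp (cost u (T u) / 2)) ^ 2
        ≤ avg (fun u => Real.exp (φ u)) * avg (fun u => Real.exp (-η (T u))) := h6
      _ ≤ avg (fun u => Real.exp (φ u)) * (5 / 2 * avg gA) := mul_le_mul_of_nonneg_left h2 hA0
      _ = 5 / 2 * (avg (fun u => Real.exp (φ u)) * avg gA) := by ring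
      _ ≤ 5 / 2 * Real.exp δ := mul_le_mul_of_nonneg_left hprod2 (by norm_num)
      _ ≤ 5 / 2 * (8 / 5) := by
          apply mul_le_mul_of_nonneg_left _ (by norm_num)
          have h11 : Real.exp δ ≤ Real.exp (1 / 8) := Real.exp_le_exp.2 hδ8
          have h12 : Real.exp (1 / 8 : ℝ) ^ 8 = Real.exp 1 := by
            rw [← Real.exp_nat_mul]; congr 1; norm_num
          have h13 : Real.exp 1 < 2.7182818286 := Real.exp_one_lt_d9
          have h14 : Real.exp (1 / 8 : ℝ) ≤ 8 / 5 := by
            by_contra hcon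
            push Not at hcon
            have h15 : (8 / 5 : ℝ) ^ 8 ≤ Real.exp (1 / 8 : ℝ) ^ 8 :=
              pow_le_pow_left₀ (by norm_num) hcon.le 8
            rw [h12] at h15
            norm_num at h15
            linarith
          linarith
      _ = 4 := by norm_num
  have h16 : 0 ≤ avg (fun u => Real.exp (cost u (T u) / 2)) := avg_nonneg fun u => (Real.exp_pos _).le
  nlinarith

end

end Pool.Agent.Helper38.Stretch
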