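import Pool.Agent.Helper38.Stretch.OT
import Pool.Agent.Helper38.Stretch.Second2
import Pool.Agent.Helper38.Stretch.Tail
import Pool.Agent.Helper38.Stretch.Tau
import Pool.Agent.Helper38.Stretch.Resample
import Pool.Agent.Helper38.Stretch.FieldCost
import Pool.Agent.Helper38.Stretch.ChordBound
import Pool.Agent.Helper38.Stretch.Select
import Pool.Agent.Helper38.Stretch.Params
import Pool.Agent.Helper38.Stretch.Round

/-! Final assembly for MP_621e06_co (module M13). -/

namespace Pool.Agent.Helper38.Stretch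

open Finset

noncomputable section

/-- the final constant -/
def CC : ℝ := 412 * CJ + 20

lemma sum_shift {n : ℕ} (e : Fin n → ZMod 2) (g : (Fin n → ZMod 2) → ℝ) :
    ∑ x, g (x + e) = ∑ x, g x :=
  Fintype.sum_equiv (Equiv.addRight e) (fun x => g (x + e)) g (fun _ => rfl)

/-- stretch after rounding -/
lemma stretch_round {n : ℕ} (F f : (Fin n → ZMod 2) → (Fin (n + 1) → Bool)) :
    ∑ j : Fin n, ∑ x, (hammingDist (f x) (f (x + Pi.single j 1)) : ℝ) ≤
      ∑ j : Fin n, ∑ x, (hammingDist (F x) (F (x + Pi.single j 1)) : ℝ) +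
        2 * n * ∑ x, (hammingDist (F x) (f x) : ℝ) := by
  have h1 : ∀ j : Fin n, ∑ x, (hammingDist (f x) (f (x + Pi.single j 1)) : ℝ) ≤
      ∑ x, (hammingDist (F x) (F (x + Pi.single j 1)) : ℝ) +
        2 * ∑ x, (hammingDist (F x) (f x) : ℝ) := by
    intro j
    have h2 : ∑ x, (hammingDist (F (x + Pi.single j 1)) (f (x + Pi.single j 1)) : ℝ) =
        ∑ x, (hammingDist (F x) (f x) : ℝ) :=
      sum_shift (Pi.single j 1) (fun x => (hammingDist (F x) (f x) : ℝ))
    have h3 : ∀ x, (hammingDist (f x) (f (x + Pi.single j 1)) : ℝ) ≤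
        (hammingDist (F x) (F (x + Pi.single j 1)) : ℝ) + (hammingDist (F x) (f x) : ℝ) +
        (hammingDist (F (x + Pi.single j 1)) (f (x + Pi.single j 1)) : ℝ) := by
      intro x
      have t1 := hammingDist_triangle (f x) (F x) (f (x + Pi.single j 1))
      have t2 := hammingDist_triangle (F x) (F (x + Pi.single j 1)) (f (x + Pi.single j 1))
      rw [hammingDist_comm (f x) (F x)] at t1
      have : hammingDist (f x) (f (x + Pi.single j 1)) ≤
        hammingDist (F x) (F (x + Pi.single j 1)) + hammingDist (F x) (f x) +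
        hammingDist (F (x + Pi.single j 1)) (f (x + Pi.single j 1)) := by omega
      exact_mod_cast this
    calc _ ≤ ∑ x, ((hammingDist (F x) (F (x + Pi.single j 1)) : ℝ) +
        (hammingDist (F x) (f x) : ℝ) +
        (hammingDist (F (x + Pi.single j 1)) (f (x + Pi.single j 1)) : ℝ)) :=
          Finset.sum_le_sum fun x _ => h3 x
      _ = _ := by rw [Finset.sum_add_distrib, Finset.sum_add_distrib, h2]; ring
  calc _ ≤ ∑ j : Fin n, (∑ x, (hammingDist (F x) (F (x + Pi.single j 1)) : ℝ) +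
        2 * ∑ x, (hammingDist (F x) (f x) : ℝ)) := Finset.sum_le_sum fun j _ => h1 j
    _ = _ := by
      rw [Finset.sum_add_distrib, Finset.sum_const, Finset.card_univ, Fintype.card_fin,
        nsmul_eq_mul]
      ring

/-- `L^1` bound from the `L^2` bound -/
lemma l1_of_l2 {Ω Y : Type*} [Fintype Ω] [Nonempty Ω] [Fintype Y] (f : Ω → Y → ℝ) (V B : ℝ)
    (hB : 0 ≤ B)
    (h : avg (fun w => ∑ v, f w v ^ 2) ≤ V) (hV : (Fintype.card Y : ℝ) * V ≤ B ^ 2) :
    avg (fun w => ∑ v, |f w v|) ≤ B := by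
  have h1 : avg (fun w => ∑ v, |f w v|) ^ 2 ≤ (Fintype.card Y : ℝ) * V := by
    have h2 := avg_cauchy (fun w => ∑ v, |f w v|) (fun _ : Ω => (1 : ℝ))
    simp only [mul_one, one_pow] at h2
    rw [avg_const, mul_one] at h2
    refine h2.trans ?_
    have h3 : ∀ w, (∑ v, |f w v|) ^ 2 ≤ (Fintype.card Y : ℝ) * ∑ v, f w v ^ 2 := by
      intro w
      have h4 := Finset.sum_mul_sq_le_sq_mul_sq (univ : Finset Y) (fun _ => (1 : ℝ))
        (fun v => |f w v|)
      simp only [one_mul, one_pow, Finset.sum_const, Finset.card_univ, nsmul_eq_mul, mul_one,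
        sq_abs] at h4
      exact h4
    refine (avg_mono h3).trans ?_
    rw [avg_mul_left]
    gcongr
  exact abs_le_of_sq_le_sq' (h1.trans hV) hB |>.2

/-- probability that a label is bad -/
lemma prob_bad {n l1 l2 G : ℕ} (hG : 0 < G) (T : (Fin (n + 1) → Fin (2 * G)) → (Fin (n + 1) → Bool))
    (hexp : avg (fun u => Real.exp (cost u (T u) / 2)) ≤ 2) (Λ : Lev n l1 l2) (sp : Fin (n + 1))
    (s0 s1 s2 : ℕ) (t0 t1 t2 mm : ℝ) (ht0 : 0 < t0) (ht1 : 0 < t1) (ht2 : 0 < t2)
    (h0 : -(s0 : ℝ) + t0 * mm + Real.exp 1 * ((n : ℝ) + 1) / t0 ≤ -mm / 2)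
    (h1 : -(s1 : ℝ) + t1 * mm + Real.exp 1 * l1 / t1 ≤ -mm / 2)
    (h2 : -(s2 : ℝ) + t2 * mm + Real.exp 1 * l2 / t2 ≤ -mm / 2)
    (good : (Fin (n + 1) → Fin (2 * G)) → Prop) [DecidablePred good]
    (hgood : ∀ u, good u ↔ (#(Sset T u) ≤ s0 ∧
      #{i | sp.succAbove (Λ.e1 i) ∈ Sset T u} ≤ s1 ∧
      #{i | sp.succAbove (Λ.e2 i) ∈ Sset T u} ≤ s2)) :
    avg (fun u => if good u then (0 : ℝ) else 1) ≤ 9 * Real.exp (-mm / 2) ∧
    avg (fun u => if s0 < #(Sset T u) then (1 : ℝ) else 0) ≤ 3 * Real.exp (-mm / 2) := by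
  have key : ∀ (l : ℕ) (e : Fin l → Fin n) (_ : Function.Injective e) (s : ℕ) (t : ℝ) (_ : 0 < t)
      (_ : -(s : ℝ) + t * mm + Real.exp 1 * l / t ≤ -mm / 2),
      avg (fun u => if s < #{i | sp.succAbove (e i) ∈ Sset T u} then (1 : ℝ) else 0) ≤
        3 * Real.exp (-mm / 2) := by
    intro l e he s t ht h
    have hinj : Function.Injective (fun i => sp.succAbove (e i)) :=
      Fin.succAbove_right_injective.comp he
    have hcard : ∀ u, #{i | sp.succAbove (e i) ∈ Sset T u} =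
        #(Sset T u ∩ (univ : Finset (Fin l)).image (fun i => sp.succAbove (e i))) := by
      intro u
      rw [← Finset.card_image_of_injective ({i | sp.succAbove (e i) ∈ Sset T u} : Finset (Fin l))
        hinj]
      congr 1
      ext k
      simp only [Finset.mem_image, Finset.mem_filter, Finset.mem_univ, true_and,
        Finset.mem_inter]
      constructor
      · rintro ⟨i, hi, rfl⟩; exact ⟨hi, i, rfl⟩
      · rintro ⟨hk, i, rfl⟩; exact ⟨i, hk, rfl⟩
    simp only [hcard]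
    have h3 := prob_Sset hG T hexp
      ((univ : Finset (Fin l)).image (fun i => sp.succAbove (e i))) s t mm ht
    rw [Finset.card_image_of_injective _ hinj, Finset.card_univ, Fintype.card_fin] at h3
    have h4 : Real.exp (-(s : ℝ) + t * mm + Real.exp 1 * l / t) ≤ Real.exp (-mm / 2) :=
      Real.exp_le_exp.2 h
    linarith
  have hk0 : avg (fun u => if s0 < #(Sset T u) then (1 : ℝ) else 0) ≤
      3 * Real.exp (-mm / 2) := by
    have h3 := prob_Sset hG T hexp univ s0 t0 mm ht0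
    simp only [Finset.inter_univ, Finset.card_univ, Fintype.card_fin, Nat.cast_add,
      Nat.cast_one] at h3
    have h4 : Real.exp (-(s0 : ℝ) + t0 * mm + Real.exp 1 * ((n : ℝ) + 1) / t0) ≤
        Real.exp (-mm / 2) := Real.exp_le_exp.2 h0
    linarith
  refine ⟨?_, hk0⟩
  have hk1 := key l1 Λ.e1 Λ.inj1 s1 t1 ht1 h1
  have hk2 := key l2 Λ.e2 Λ.inj2 s2 t2 ht2 h2
  have hpt : ∀ u, (if good u then (0 : ℝ) else 1) ≤
      ((if s0 < #(Sset T u) then (1 : ℝ) else 0) +
      (if s1 < #{i | sp.succAbove (Λ.e1 i) ∈ Sset T u} then (1 : ℝ) else 0)) +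
      (if s2 < #{i | sp.succAbove (Λ.e2 i) ∈ Sset T u} then (1 : ℝ) else 0) := by
    intro u
    have p0 : (0 : ℝ) ≤ (if s0 < #(Sset T u) then (1 : ℝ) else 0) := by split_ifs <;> norm_num
    have p1 : (0 : ℝ) ≤ (if s1 < #{i | sp.succAbove (Λ.e1 i) ∈ Sset T u} then (1 : ℝ) else 0) := by
      split_ifs <;> norm_num
    have p2 : (0 : ℝ) ≤ (if s2 < #{i | sp.succAbove (Λ.e2 i) ∈ Sset T u} then (1 : ℝ) else 0) := by
      split_ifs <;> norm_num
    by_cases hg : good u
    · rw [if_pos hg]; linarith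
    · rw [if_neg hg]
      rw [hgood u] at hg
      by_cases c0 : s0 < #(Sset T u)
      · rw [if_pos c0] at p0 ⊢; linarith
      by_cases c1 : s1 < #{i | sp.succAbove (Λ.e1 i) ∈ Sset T u}
      · rw [if_pos c1] at p1 ⊢; linarith
      by_cases c2 : s2 < #{i | sp.succAbove (Λ.e2 i) ∈ Sset T u}
      · rw [if_pos c2] at p2 ⊢; linarith
      exact absurd ⟨not_lt.1 c0, not_lt.1 c1, not_lt.1 c2⟩ hg
  refine (avg_mono hpt).trans ?_
  rw [avg_add, avg_add]
  linarith

end

end Pool.Agent.Helper38.Stretch
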