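import Pool.Agent.Helper38.Stretch.Avg

/-! The smoothing kernel (two random flips). -/

namespace Pool.Agent.Helper38.Stretch

open Finset

noncomputable section

/-- hypotheses on the smoothing kernel -/
structure Ker (N : ℕ) (Q : (Fin N → Bool) → (Fin N → Bool) → ℝ) (κ : ℝ) : Prop where
  nonneg : ∀ y v, 0 ≤ Q y v
  sum_one : ∀ y, ∑ v, Q y v = 1
  symm : ∀ y v, Q y v = Q v y
  sq : ∀ y, ∑ v, Q y v ^ 2 ≤ κ
  supp : ∀ y v, Q y v ≠ 0 → hammingDist y v ≤ 2

/-- overlap of the kernel at two points -/
def RK {N : ℕ} (Q : (Fin N → Bool) → (Fin N → Bool) → ℝ) (y y' : Fin N → Bool) : ℝ :=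
  ∑ v, Q y v * Q y' v

variable {N : ℕ} {Q : (Fin N → Bool) → (Fin N → Bool) → ℝ} {κ : ℝ}

lemma Ker.RK_nonneg (h : Ker N Q κ) (y y' : Fin N → Bool) : 0 ≤ RK Q y y' :=
  Finset.sum_nonneg fun v _ => mul_nonneg (h.nonneg _ _) (h.nonneg _ _)

lemma RK_comm (y y' : Fin N → Bool) : RK Q y y' = RK Q y' y := by
  unfold RK
  exact Finset.sum_congr rfl fun v _ => mul_comm _ _

lemma Ker.le_one (h : Ker N Q κ) (y v : Fin N → Bool) : Q y v ≤ 1 := by
  rw [← h.sum_one y]
  exact Finset.single_le_sum (f := fun v => Q y v) (fun v _ => h.nonneg y v) (Finset.mem_univ v)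

lemma Ker.RK_le_kappa (h : Ker N Q κ) (y y' : Fin N → Bool) : RK Q y y' ≤ κ := by
  unfold RK
  have h1 : ∑ v, Q y v * Q y' v ≤ ∑ v, (Q y v ^ 2 + Q y' v ^ 2) / 2 :=
    Finset.sum_le_sum fun v _ => by nlinarith [sq_nonneg (Q y v - Q y' v)]
  rw [← Finset.sum_div, Finset.sum_add_distrib] at h1
  have := h.sq y
  have := h.sq y'
  linarith

lemma Ker.sum_RK (h : Ker N Q κ) (y : Fin N → Bool) : ∑ y', RK Q y y' = 1 := by
  unfold RK
  rw [Finset.sum_comm]
  simp only [← Finset.mul_sum]
  have h1 : ∀ v, ∑ y', Q y' v = 1 := by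
    intro v
    rw [← h.sum_one v]
    exact Finset.sum_congr rfl fun y' _ => h.symm _ _
  simp only [h1, mul_one]
  exact h.sum_one y

lemma Ker.RK_le_one (h : Ker N Q κ) (y y' : Fin N → Bool) : RK Q y y' ≤ 1 := by
  rw [← h.sum_RK y]
  exact Finset.single_le_sum (f := fun v => RK Q y v) (fun v _ => h.RK_nonneg y v)
    (Finset.mem_univ y')

lemma Ker.RK_supp (h : Ker N Q κ) (y y' : Fin N → Bool) (hne : RK Q y y' ≠ 0) :
    hammingDist y y' ≤ 4 := by
  obtain ⟨v, _, hv⟩ := Finset.exists_ne_zero_of_sum_ne_zero hne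
  have h1 := h.supp y v (left_ne_zero_of_mul hv)
  have h2 := h.supp y' v (right_ne_zero_of_mul hv)
  have h3 := hammingDist_triangle y v y'
  rw [hammingDist_comm v y'] at h3
  omega

/-- flip one coordinate -/
def flp (i : Fin N) (y : Fin N → Bool) : Fin N → Bool := Function.update y i (!y i)

lemma flp_flp (i : Fin N) (y : Fin N → Bool) : flp i (flp i y) = y := by
  simp [flp]

lemma flp_comm (i j : Fin N) (y : Fin N → Bool) : flp i (flp j y) = flp j (flp i y) := by
  by_cases hij : i = j
  · rw [hij]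
  · unfold flp
    rw [Function.update_of_ne hij, Function.update_of_ne (Ne.symm hij),
      Function.update_comm hij]

lemma hammingDist_flp (i : Fin N) (y : Fin N → Bool) : hammingDist y (flp i y) ≤ 1 := by
  unfold hammingDist flp
  apply (Finset.card_le_card (t := {i}) _).trans (by simp)
  intro k hk
  simp only [Finset.mem_filter, Finset.mem_univ, true_and] at hk
  rw [Finset.mem_singleton]
  by_contra hne
  exact hk (by rw [Function.update_of_ne hne])

/-- the kernel: two independent uniform flips -/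
def QQ (N : ℕ) (y v : Fin N → Bool) : ℝ :=
  (#{p : Fin N × Fin N | flp p.1 (flp p.2 y) = v} : ℝ) / (N : ℝ) ^ 2

lemma flp_inj {i k : Fin N} {y : Fin N → Bool} (h : flp i y = flp k y) : i = k := by
  by_contra hne
  have h1 := congrFun h i
  unfold flp at h1
  rw [Function.update_self, Function.update_of_ne hne] at h1
  revert h1
  cases y i <;> simp

lemma card_flp_le (y v : Fin N → Bool) (hyv : y ≠ v) :
    #{p : Fin N × Fin N | flp p.1 (flp p.2 y) = v} ≤ 2 := by
  -- a pair in the set consists of the two coordinates where `y` and `v` differ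
  set D : Finset (Fin N) := {k | y k ≠ v k} with hD
  have hmem : ∀ p : Fin N × Fin N, flp p.1 (flp p.2 y) = v →
      p.1 ∈ D ∧ p.2 ∈ D ∧ p.1 ≠ p.2 ∧ #D ≤ 2 := by
    intro p hp
    have hne : p.1 ≠ p.2 := by
      intro h
      rw [h, flp_flp] at hp
      exact hyv hp
    refine ⟨?_, ?_, hne, ?_⟩
    · rw [hD, Finset.mem_filter]
      refine ⟨Finset.mem_univ _, ?_⟩
      rw [← hp]
      unfold flp
      rw [Function.update_self, Function.update_of_ne hne]
      cases y p.1 <;> simp
    · rw [hD, Finset.mem_filter]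
      refine ⟨Finset.mem_univ _, ?_⟩
      rw [← hp]
      unfold flp
      rw [Function.update_of_ne (Ne.symm hne), Function.update_self]
      cases y p.2 <;> simp
    · have h1 : #D = hammingDist y v := rfl
      rw [h1, ← hp]
      have h2 := hammingDist_flp p.2 y
      have h3 := hammingDist_flp p.1 (flp p.2 y)
      have h4 := hammingDist_triangle y (flp p.2 y) (flp p.1 (flp p.2 y))
      omega
  by_contra hlt
  push Not at hlt
  obtain ⟨p, hp⟩ : ({p : Fin N × Fin N | flp p.1 (flp p.2 y) = v} : Finset _).Nonempty :=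
    Finset.card_pos.1 (by omega)
  simp only [Finset.mem_filter, Finset.mem_univ, true_and] at hp
  obtain ⟨h1, h2, h3, h4⟩ := hmem p hp
  have hsub : ({p : Fin N × Fin N | flp p.1 (flp p.2 y) = v} : Finset _) ⊆ D.offDiag := by
    intro p hp
    simp only [Finset.mem_filter, Finset.mem_univ, true_and] at hp
    obtain ⟨h1, h2, h3, _⟩ := hmem p hp
    rw [Finset.mem_offDiag]
    exact ⟨h1, h2, h3⟩
  have h5 := Finset.card_le_card hsub
  rw [Finset.offDiag_card] at h5
  have h6 : #D * #D - #D ≤ 2 := by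
    interval_cases #D <;> simp
  omega

lemma QQ_nonneg (y v : Fin N → Bool) : 0 ≤ QQ N y v := by
  unfold QQ; positivity

lemma ker_QQ (hN : 1 ≤ N) : Ker N (QQ N) (3 / (N : ℝ) ^ 2) := by
  have hN' : (0 : ℝ) < N := by exact_mod_cast hN
  have hsum : ∀ y : Fin N → Bool, ∑ v, QQ N y v = 1 := by
    intro y
    unfold QQ
    rw [← Finset.sum_div]
    have h1 := Finset.card_eq_sum_card_fiberwise
      (f := fun p : Fin N × Fin N => flp p.1 (flp p.2 y))
      (s := (univ : Finset (Fin N × Fin N))) (t := univ) (by simp)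
    have h2 : (∑ v, (#{p : Fin N × Fin N | flp p.1 (flp p.2 y) = v} : ℝ)) = (N : ℝ) ^ 2 := by
      rw [← Nat.cast_sum, ← h1]
      simp [sq]
    rw [h2]
    field_simp
  refine ⟨QQ_nonneg, hsum, ?_, ?_, ?_⟩
  · intro y v
    unfold QQ
    congr 2
    apply Finset.card_bij (fun p _ => (p.2, p.1))
    · intro p hp
      simp only [Finset.mem_filter, Finset.mem_univ, true_and] at hp ⊢
      rw [← hp, flp_flp, flp_flp]
    · intro p _ r _ h
      simp only [Prod.mk.injEq] at h
      exact Prod.ext h.2 h.1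
    · intro p hp
      simp only [Finset.mem_filter, Finset.mem_univ, true_and] at hp
      refine ⟨(p.2, p.1), ?_, rfl⟩
      simp only [Finset.mem_filter, Finset.mem_univ, true_and]
      rw [← hp, flp_flp, flp_flp]
  · intro y
    have hdiag : QQ N y y ≤ 1 / N := by
      unfold QQ
      have : #{p : Fin N × Fin N | flp p.1 (flp p.2 y) = y} ≤ N := by
        calc _ ≤ #((univ : Finset (Fin N)).image fun k => (k, k)) := by
              apply Finset.card_le_card
              intro p hp
              simp only [Finset.mem_filter, Finset.mem_univ, true_and] at hp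
              have h1 : flp p.2 y = flp p.1 y := by
                have := congrArg (flp p.1) hp
                rwa [flp_flp] at this
              have h2 := flp_inj h1
              rw [Finset.mem_image]
              exact ⟨p.1, Finset.mem_univ _, by rw [Prod.ext_iff]; exact ⟨rfl, h2.symm⟩⟩
          _ ≤ _ := Finset.card_image_le.trans (by simp)
      have h2 : (#{p : Fin N × Fin N | flp p.1 (flp p.2 y) = y} : ℝ) ≤ N := by exact_mod_cast this
      rw [div_le_div_iff₀ (by positivity) hN']
      nlinarith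
    have hoff : ∀ v, y ≠ v → QQ N y v ≤ 2 / (N : ℝ) ^ 2 := by
      intro v hv
      unfold QQ
      gcongr
      exact_mod_cast card_flp_le y v hv
    have hle : ∀ v, QQ N y v ^ 2 ≤ (if v = y then 1 / (N : ℝ) ^ 2 else 0) +
        2 / (N : ℝ) ^ 2 * QQ N y v := by
      intro v
      have h0 := QQ_nonneg y v
      split_ifs with h
      · rw [h] at h0 ⊢
        have : QQ N y y ^ 2 ≤ (1 / (N : ℝ)) ^ 2 := by gcongr
        rw [div_pow, one_pow] at this
        have h3 : 0 ≤ 2 / (N : ℝ) ^ 2 * QQ N y y := by positivity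
        linarith
      · rw [zero_add, sq]
        gcongr
        exact hoff v (Ne.symm h)
    calc ∑ v, QQ N y v ^ 2 ≤ ∑ v, ((if v = y then 1 / (N : ℝ) ^ 2 else 0) +
        2 / (N : ℝ) ^ 2 * QQ N y v) := Finset.sum_le_sum fun v _ => hle v
      _ = 3 / (N : ℝ) ^ 2 := by
        rw [Finset.sum_add_distrib, ← Finset.mul_sum, hsum, Finset.sum_ite_eq' univ y]
        simp
        ring
  · intro y v h
    unfold QQ at h
    have h1 : #{p : Fin N × Fin N | flp p.1 (flp p.2 y) = v} ≠ 0 := by
      intro h0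
      rw [h0] at h
      simp at h
    obtain ⟨p, hp⟩ := Finset.card_pos.1 (Nat.pos_of_ne_zero h1)
    simp only [Finset.mem_filter, Finset.mem_univ, true_and] at hp
    rw [← hp]
    have h2 := hammingDist_flp p.2 y
    have h3 := hammingDist_flp p.1 (flp p.2 y)
    have h4 := hammingDist_triangle y (flp p.2 y) (flp p.1 (flp p.2 y))
    omega

end

end Pool.Agent.Helper38.Stretch
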