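import Pool.Agent.Helper38.Stretch.Defs

/-! Line structure of monotone maps from the grid to the cube (module M2). -/

namespace Pool.Agent.Helper38.Stretch

open Finset

noncomputable section

variable {N M : ℕ} {T : (Fin N → Fin M) → (Fin N → Bool)}

lemma Mono.line (hT : Mono T) (u : Fin N → Fin M) (j : Fin N) (a b : Fin M)
    (h : T (Function.update u j a) ≠ T (Function.update u j b)) :
    0 < (bz (T (Function.update u j a) j) - bz (T (Function.update u j b) j)) *
      (((a : ℕ) : ℤ) - ((b : ℕ) : ℤ)) := by
  have := hT _ _ h
  rw [Finset.sum_eq_single j] at this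
  · simpa using this
  · intro k _ hk
    simp [Function.update_of_ne hk]
  · intro hh; exact absurd (Finset.mem_univ _) hh

lemma bz_false : bz false = 0 := rfl
lemma bz_true : bz true = 1 := rfl

lemma Mono.line_lt (hT : Mono T) (u : Fin N → Fin M) (j : Fin N) (a b : Fin M)
    (h : T (Function.update u j a) ≠ T (Function.update u j b)) (hab : (a : ℕ) ≤ b) :
    T (Function.update u j a) j = false ∧ T (Function.update u j b) j = true := by
  have h1 := hT.line u j a b h
  have hab' : ((a : ℕ) : ℤ) ≤ ((b : ℕ) : ℤ) := by exact_mod_cast hab
  rcases hA : T (Function.update u j a) j with _ | _ <;>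
    rcases hB : T (Function.update u j b) j with _ | _ <;>
      simp only [hA, hB, bz_false, bz_true] at h1 ⊢ <;>
      first
        | exact ⟨trivial, trivial⟩
        | (exfalso; nlinarith)

lemma Mono.eq_of_coord (hT : Mono T) (u : Fin N → Fin M) (j : Fin N) (a b : Fin M)
    (h : T (Function.update u j a) j = T (Function.update u j b) j) :
    T (Function.update u j a) = T (Function.update u j b) := by
  by_contra hne
  rcases le_total (a : ℕ) b with hab | hab
  · obtain ⟨h1, h2⟩ := hT.line_lt u j a b hne hab
    rw [h1, h2] at h
    exact absurd h (by decide)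
  · obtain ⟨h1, h2⟩ := hT.line_lt u j b a (Ne.symm hne) hab
    rw [h1, h2] at h
    exact absurd h (by decide)

/-- initial segments of `Fin M` -/
lemma mem_iff_lt_card {M : ℕ} (s : Finset (Fin M))
    (hs : ∀ a b : Fin M, (a : ℕ) ≤ b → b ∈ s → a ∈ s) (a : Fin M) :
    a ∈ s ↔ (a : ℕ) < #s := by
  constructor
  · intro ha
    have hsub : Finset.Iic a ⊆ s := by
      intro c hc
      exact hs c a (by exact_mod_cast (Finset.mem_Iic.mp hc)) ha
    have := Finset.card_le_card hsub
    rw [Fin.card_Iic] at this
    omega
  · intro ha
    by_contra hna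
    have hsub : s ⊆ Finset.Iio a := by
      intro c hc
      rw [Finset.mem_Iio]
      by_contra hle
      exact hna (hs a c (by exact_mod_cast (not_lt.mp hle)) hc)
    have := Finset.card_le_card hsub
    rw [Fin.card_Iio] at this
    omega

lemma Mono.thr_iff (hT : Mono T) (u : Fin N → Fin M) (j : Fin N) (a : Fin M) :
    T (Function.update u j a) j = false ↔ (a : ℕ) < thr T j u := by
  have := mem_iff_lt_card ({a : Fin M | T (Function.update u j a) j = false} : Finset (Fin M))
    (by
      intro a b hab hb
      simp only [Finset.mem_filter, Finset.mem_univ, true_and] at hb ⊢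
      by_contra hne
      have h1 : T (Function.update u j a) ≠ T (Function.update u j b) := by
        intro h
        apply hne
        rw [h, hb]
      exact hne (hT.line_lt u j a b h1 hab).1) a
  simpa [thr] using this

lemma Mono.thr_iff_true (hT : Mono T) (u : Fin N → Fin M) (j : Fin N) (a : Fin M) :
    T (Function.update u j a) j = true ↔ thr T j u ≤ (a : ℕ) := by
  rw [← not_lt, ← hT.thr_iff u j a]
  simp

lemma thr_update (u : Fin N → Fin M) (j : Fin N) (a : Fin M) :
    thr T j (Function.update u j a) = thr T j u := by
  simp [thr]

lemma thr_le (u : Fin N → Fin M) (j : Fin N) : thr T j u ≤ M := by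
  have := Finset.card_filter_le (univ : Finset (Fin M))
    (fun a => T (Function.update u j a) j = false)
  simpa [thr] using this

lemma Mono.eq_iff (hT : Mono T) (u : Fin N → Fin M) (j : Fin N) (a b : Fin M) :
    T (Function.update u j a) = T (Function.update u j b) ↔
      ((a : ℕ) < thr T j u ↔ (b : ℕ) < thr T j u) := by
  rw [← hT.thr_iff u j a, ← hT.thr_iff u j b]
  constructor
  · intro h; rw [h]
  · intro h
    apply hT.eq_of_coord
    rcases hA : T (Function.update u j a) j with _ | _ <;>
      rcases hB : T (Function.update u j b) j with _ | _ <;> simp [hA, hB] at h ⊢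

lemma card_fin_lt {M : ℕ} (t : ℕ) (ht : t ≤ M) : #{a : Fin M | (a : ℕ) < t} = t := by
  have := Fin.card_filter_val_lt (n := M) (m := t)
  simp only [this]
  omega

lemma card_fin_ge {M : ℕ} (t : ℕ) (ht : t ≤ M) : #{a : Fin M | t ≤ (a : ℕ)} = M - t := by
  have h1 := Finset.card_filter_add_card_filter_not (s := (univ : Finset (Fin M)))
    (fun a : Fin M => (a : ℕ) < t)
  rw [card_fin_lt t ht] at h1
  simp only [not_lt, Finset.card_univ, Fintype.card_fin] at h1
  omega

lemma Mono.chord_update (hT : Mono T) (u : Fin N → Fin M) (j : Fin N) (a : Fin M) :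
    chord T j (Function.update u j a) =
      if (a : ℕ) < thr T j u then thr T j u else M - thr T j u := by
  unfold chord
  simp only [Function.update_idem]
  have h1 : ∀ b : Fin M, T (Function.update u j b) = T (Function.update u j a) ↔
      ((b : ℕ) < thr T j u ↔ (a : ℕ) < thr T j u) := fun b => hT.eq_iff u j b a
  simp only [h1]
  split_ifs with h
  · simp only [h, iff_true]
    exact card_fin_lt _ (thr_le u j)
  · simp only [h, iff_false, not_lt]
    exact card_fin_ge _ (thr_le u j)

lemma Mono.rr_update (hT : Mono T) (u : Fin N → Fin M) (j : Fin N) (a : Fin M) :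
    rr T j (Function.update u j a) =
      if (a : ℕ) < thr T j u then (a : ℕ) + 1 else M - (a : ℕ) := by
  unfold rr
  simp only [Function.update_self]
  split_ifs with h1 h2 h2
  · rw [hT.thr_iff_true u j a] at h1; omega
  · rfl
  · rfl
  · rw [Bool.not_eq_true, hT.thr_iff u j a] at h1; omega

lemma jump_update (u : Fin N → Fin M) (j : Fin N) (a : Fin M) :
    jump T j (Function.update u j a) = jump T j u := by
  simp [jump]

lemma wid_update (u : Fin N → Fin M) (j : Fin N) (a : Fin M) :
    wid T j (Function.update u j a) = wid T j u := by
  simp [wid, thr_update]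

lemma dist_le_jump (u : Fin N → Fin M) (j : Fin N) (a b : Fin M) :
    hammingDist (T (Function.update u j a)) (T (Function.update u j b)) ≤ jump T j u := by
  unfold jump
  exact Finset.le_sup (f := fun p : Fin M × Fin M =>
    hammingDist (T (Function.update u j p.1)) (T (Function.update u j p.2)))
    (Finset.mem_univ (a, b))

lemma dist_le_jump' (u : Fin N → Fin M) (j : Fin N) (a : Fin M) :
    hammingDist (T u) (T (Function.update u j a)) ≤ jump T j u := by
  have := dist_le_jump (T := T) u j (u j) a
  simpa using this

lemma jump_le (u : Fin N → Fin M) (j : Fin N) : jump T j u ≤ N := by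
  unfold jump
  apply Finset.sup_le
  intro p _
  exact (hammingDist_le_card_fintype).trans (by simp)

/-- for points on different sides of the threshold the distance is the jump -/
lemma Mono.dist_eq_jump (hT : Mono T) (u : Fin N → Fin M) (j : Fin N) (a b : Fin M)
    (ha : (a : ℕ) < thr T j u) (hb : thr T j u ≤ (b : ℕ)) :
    hammingDist (T (Function.update u j a)) (T (Function.update u j b)) = jump T j u := by
  apply le_antisymm (dist_le_jump u j a b)
  unfold jump
  apply Finset.sup_le
  rintro ⟨c, d⟩ _
  simp only
  by_cases hc : (c : ℕ) < thr T j u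
  · have hc' : T (Function.update u j c) = T (Function.update u j a) :=
      (hT.eq_iff u j c a).2 (by simp [hc, ha])
    by_cases hd : (d : ℕ) < thr T j u
    · have hd' : T (Function.update u j d) = T (Function.update u j a) :=
        (hT.eq_iff u j d a).2 (by simp [hd, ha])
      rw [hc', hd', hammingDist_self]; exact Nat.zero_le _
    · have hd' : T (Function.update u j d) = T (Function.update u j b) :=
        (hT.eq_iff u j d b).2 (by simp [hd, not_lt.2 hb])
      rw [hc', hd']
  · have hc' : T (Function.update u j c) = T (Function.update u j b) :=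
      (hT.eq_iff u j c b).2 (by simp [hc, not_lt.2 hb])
    by_cases hd : (d : ℕ) < thr T j u
    · have hd' : T (Function.update u j d) = T (Function.update u j a) :=
        (hT.eq_iff u j d a).2 (by simp [hd, ha])
      rw [hc', hd', hammingDist_comm]
    · have hd' : T (Function.update u j d) = T (Function.update u j b) :=
        (hT.eq_iff u j d b).2 (by simp [hd, not_lt.2 hb])
      rw [hc', hd', hammingDist_self]; exact Nat.zero_le _

lemma Mono.thr_pos_of_jump (hT : Mono T) (u : Fin N → Fin M) (j : Fin N)
    (h : jump T j u ≠ 0) : 0 < thr T j u ∧ thr T j u < M := by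
  have hex : ∃ p : Fin M × Fin M,
      hammingDist (T (Function.update u j p.1)) (T (Function.update u j p.2)) ≠ 0 := by
    by_contra hcon
    push Not at hcon
    apply h
    unfold jump
    rw [← Nat.bot_eq_zero, Finset.sup_eq_bot_iff]
    intro p _
    rw [Nat.bot_eq_zero]
    exact hcon p
  obtain ⟨⟨a, b⟩, hab⟩ := hex
  have hne : T (Function.update u j a) ≠ T (Function.update u j b) := by
    intro hh; apply hab; simp [hh]
  rw [Ne, hT.eq_iff u j a b] at hne
  have ha := a.2
  have hb := b.2
  by_cases h1 : (a : ℕ) < thr T j u
  · have h2 : ¬ (b : ℕ) < thr T j u := by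
      intro h2; exact hne (by simp [h1, h2])
    omega
  · have h2 : (b : ℕ) < thr T j u := by
      by_contra h2; exact hne (by simp [h1, h2])
    omega

end

end Pool.Agent.Helper38.Stretch
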