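import Pool.Agent.Helper38.Stretch.Final

/-! Main theorem for MP_621e06_co. -/

namespace Pool.Agent.Helper38.Stretch

open Finset

noncomputable section

lemma aux_a {x : ℝ} (hx : 1 ≤ x) : 1 ≤ 200 * x ^ 2 := by nlinarith

lemma aux_b {x : ℝ} (hx : 1 ≤ x) : 3 * (1 / (200 * x ^ 2)) ≤ 1 / x ^ 2 := by
  rw [mul_one_div, div_le_div_iff₀ (by positivity) (by positivity)]
  nlinarith [sq_nonneg x]

lemma aux_c {x : ℝ} (hx : 1 ≤ x) : 1 / x ^ 2 ≤ 1 / x := by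
  apply one_div_le_one_div_of_le (by positivity)
  nlinarith

lemma aux_d {e : ℝ} (h0 : 0 ≤ e) (h1 : e ≤ 1) : e ^ 2 ≤ e := by nlinarith

lemma aux_e {c x : ℝ} (hc : 0 ≤ c) (hx : 1 ≤ x) {a b : ℝ} (ha : a ≤ x) (hb : b ≤ x) {s : ℝ}
    (hs : s ≤ c * (x + 1)) :
    s + x * 205 * (2 * c) + a + b ≤ (412 * c + 2) * x := by nlinarith

/-- existence of the transport map with all properties -/
lemma exists_T {n G : ℕ} (hG : G = 100 * (n + 1) * (4 ^ n * (n + 1)))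
    (A : Finset (Fin (n + 1) → Bool)) (hA : #A = 2 ^ n) :
    ∃ T : (Fin (n + 1) → Fin (2 * G)) → (Fin (n + 1) → Bool),
      (∀ u, T u ∈ A) ∧ Mono T ∧
      (∀ y, (#{u | T u = y} : ℝ) ≤
        (1 + 1 / (200 * ((n : ℝ) + 1) ^ 2)) * ((2 * G : ℕ) : ℝ) ^ (n + 1) / 2 ^ n) ∧
      (∑ j, avg (fun u => wid T j u ^ 2) ≤ 6) ∧
      (∑ j, avg (fun u => (jump T j u : ℝ)) ≤ CJ * ((n : ℝ) + 1)) ∧
      avg (fun u => Real.exp (cost u (T u) / 2)) ≤ 2 := by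
  have hG0 : 0 < G := by rw [hG]; positivity
  have hM : 0 < 2 * G := by omega
  have hAne : A.Nonempty := Finset.card_pos.1 (by rw [hA]; positivity)
  obtain ⟨η, T, hmem, hopt, hbal0⟩ := exists_OT (N := n + 1) (M := 2 * G) hM A hAne
  have hT : Mono T := mono_of_opt hM hmem hopt
  have hMr : ((2 * G : ℕ) : ℝ) = 200 * ((n : ℝ) + 1) ^ 2 * 4 ^ n := by
    rw [hG]; push_cast; ring
  have hMpos : (0 : ℝ) < ((2 * G : ℕ) : ℝ) := by exact_mod_cast hM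
  have hn0 : (0 : ℝ) ≤ n := Nat.cast_nonneg n
  have hbal : ∀ y, (#{u | T u = y} : ℝ) ≤
        (1 + 1 / (200 * ((n : ℝ) + 1) ^ 2)) * ((2 * G : ℕ) : ℝ) ^ (n + 1) / 2 ^ n := by
    intro y
    refine (hbal0 y).trans (le_of_eq ?_)
    rw [hA, Nat.add_sub_cancel]
    push_cast
    have h2 : (4 : ℝ) ^ n = 2 ^ n * 2 ^ n := by rw [← mul_pow]; norm_num
    have e1 : (2 * (G : ℝ)) = 200 * ((n : ℝ) + 1) ^ 2 * 4 ^ n := by
      rw [← hMr]; push_cast; ring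
    have e2 : (2 * (G : ℝ)) ^ (n + 1) = (2 * (G : ℝ)) ^ n * (200 * ((n : ℝ) + 1) ^ 2 * 4 ^ n) := by
      rw [pow_succ]; rw [← e1]
    rw [e2, h2]
    have : (0 : ℝ) < 2 ^ n := by positivity
    field_simp
  have hbal54 : ∀ y, (#{u | T u = y} : ℝ) ≤
      5 / 4 * ((2 * G : ℕ) : ℝ) ^ (n + 1) / 2 ^ (n + 1 - 1) := by
    intro y
    refine (hbal y).trans ?_
    rw [Nat.add_sub_cancel]
    have : (1 + 1 / (200 * ((n : ℝ) + 1) ^ 2)) ≤ 5 / 4 := by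
      have : 1 / (200 * ((n : ℝ) + 1) ^ 2) ≤ 1 / 200 := by
        apply one_div_le_one_div_of_le (by norm_num)
        nlinarith
      linarith
    gcongr
  have hcb := hT.chord_bound (Z := 4 ^ n * (n + 1)) (by omega) (by
    exact Nat.one_le_iff_ne_zero.2 (by positivity)) (by rw [hG]; ring) hbal54
  refine ⟨T, hmem, hT, hbal, hcb.1, ?_, ?_⟩
  · have := hcb.2
    push_cast at this
    exact this
  · refine avg_exp_cost (N := n + 1) (η := η) (by omega) ?_ (by rw [Nat.add_sub_cancel]; exact hA) hmem ?_ hbal54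
    · rw [hG]
      have : 1 ≤ 4 ^ n * (n + 1) := Nat.one_le_iff_ne_zero.2 (by positivity)
      nlinarith
    · intro u y hy
      by_cases h : y = T u
      · rw [h]
      · exact (hopt u y hy h).le

theorem main_exists (m : ℕ) {n : ℕ} (hn : n = m ^ 32)
    (h1000 : 1000 ≤ m) (hl4 : 4 * (m ^ 18 + m ^ 14 + 1) ≤ m ^ 32)
    (hP1 : (m : ℝ) ^ 10 + (m : ℝ) ^ 13 + 205 * (2 * (m : ℝ) ^ 17 + 4) ≤ 1000 / m * (m : ℝ) ^ 18)
    (hP2 : (m : ℝ) ^ 8 + 205 * (m : ℝ) ^ 13 ≤ 1000 / m * (m : ℝ) ^ 14)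
    (hP4 : 2 * ((1 + 2 ^ 205 * (1000 / (m : ℝ)) ^ 100) ^ (m ^ 32) - 1) ≤
      1 / ((m : ℝ) ^ 32 + 1) ^ 2)
    (hP5 : 2 * ((1 + 2 * (1 - 1 / (m : ℝ) ^ 12) ^ (m ^ 13)) ^ (m ^ 32 + 1) - 1) ≤
        1 / ((m : ℝ) ^ 32 + 1) ^ 2)
    (hP6 : 18 * Real.exp (-(m : ℝ) / 2) ≤ 1 / ((m : ℝ) ^ 32 + 1) ^ 2)
    (hT0 : -((m : ℝ) ^ 17) + 22 * (m : ℝ) ^ 15 * m +
      Real.exp 1 * ((m : ℝ) ^ 32 + 1) / (22 * (m : ℝ) ^ 15) ≤ -(m : ℝ) / 2)
    (hT1 : -((m : ℝ) ^ 10) + 11 * (m : ℝ) ^ 8 * m + Real.exp 1 * (m : ℝ) ^ 18 / (11 * (m : ℝ) ^ 8)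
        ≤ -(m : ℝ) / 2)
    (hT2 : -((m : ℝ) ^ 8) + 11 * (m : ℝ) ^ 6 * m + Real.exp 1 * (m : ℝ) ^ 14 / (11 * (m : ℝ) ^ 6)
        ≤ -(m : ℝ) / 2)
    (hC1 : (m : ℝ) ^ 18 / (m : ℝ) ^ 12 * (2 * CJ + (√(2 * (m : ℝ) ^ 17) *
      √(6 * (CJ * ((m : ℝ) ^ 32 + 1)))
        + 2 * ((m : ℝ) ^ 32 + 1) ^ 2 * (3 * Real.exp (-(m : ℝ) / 2)))) ≤ (m : ℝ) ^ 32)
    (hC2 : (m : ℝ) ^ 14 * (2 * (7 * √((m : ℝ) ^ 32 + 1)) + 2) ≤ (m : ℝ) ^ 32)
    (A : Finset (Fin (n + 1) → Bool)) (hA : #A = 2 ^ n) :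
    ∃ f : (Fin n → ZMod 2) → (Fin (n + 1) → Bool), Function.Injective f ∧
      Set.range f = (↑A : Set (Fin (n + 1) → Bool)) ∧
      ∑ j : Fin n, ∑ x, (hammingDist (f x) (f (x + Pi.single j 1)) : ℝ) ≤ CC * n * 2 ^ n := by
  classical
  obtain ⟨G, hG⟩ : ∃ G : ℕ, G = 100 * (n + 1) * (4 ^ n * (n + 1)) := ⟨_, rfl⟩
  have hG0 : 0 < G := by rw [hG]; positivity
  obtain ⟨T, hmem, hT, hbal, hw, hJ, hexp⟩ := exists_T hG A hA
  have hCJ := CJ_pos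
  have hm0 : (0 : ℝ) < m := by
    have : 0 < m := by omega
    exact_mod_cast this
  have hm1000 : (1000 : ℝ) ≤ m := by exact_mod_cast h1000
  have hnr : (n : ℝ) = (m : ℝ) ^ 32 := by rw [hn]; push_cast; ring
  have hn1 : (1 : ℝ) ≤ n := by
    rw [hnr]; exact one_le_pow₀ (by linarith)
  obtain ⟨l1, hl1⟩ : ∃ l1 : ℕ, l1 = m ^ 18 := ⟨_, rfl⟩
  obtain ⟨l2, hl2⟩ : ∃ l2 : ℕ, l2 = m ^ 14 := ⟨_, rfl⟩
  obtain ⟨q, hq⟩ : ∃ q : ℕ, q = m ^ 12 := ⟨_, rfl⟩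
  obtain ⟨s0, hs0⟩ : ∃ s0 : ℕ, s0 = m ^ 17 := ⟨_, rfl⟩
  obtain ⟨s1, hs1⟩ : ∃ s1 : ℕ, s1 = m ^ 10 := ⟨_, rfl⟩
  obtain ⟨s2, hs2⟩ : ∃ s2 : ℕ, s2 = m ^ 8 := ⟨_, rfl⟩
  obtain ⟨m1, hm1⟩ : ∃ m1 : ℕ, m1 = m ^ 13 := ⟨_, rfl⟩
  have hmpos : 0 < m := by omega
  have hl1' : 0 < l1 := by rw [hl1]; positivity
  have hl2' : 0 < l2 := by rw [hl2]; positivity
  have hq' : 0 < q := by rw [hq]; positivity
  have hl1r : (l1 : ℝ) = (m : ℝ) ^ 18 := by rw [hl1]; push_cast; ring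
  have hl2r : (l2 : ℝ) = (m : ℝ) ^ 14 := by rw [hl2]; push_cast; ring
  have hqr : (q : ℝ) = (m : ℝ) ^ 12 := by rw [hq]; push_cast; ring
  have hs0r : (s0 : ℝ) = (m : ℝ) ^ 17 := by rw [hs0]; push_cast; ring
  have hs1r : (s1 : ℝ) = (m : ℝ) ^ 10 := by rw [hs1]; push_cast; ring
  have hs2r : (s2 : ℝ) = (m : ℝ) ^ 8 := by rw [hs2]; push_cast; ring
  have hm1r : (m1 : ℝ) = (m : ℝ) ^ 13 := by rw [hm1]; push_cast; ring
  obtain ⟨sp, Λ, hsp, he1, he2⟩ := exists_lev (n := n) (l1 := l1) (l2 := l2)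
    (fun i => avg (fun u => (jump T i u : ℝ))) (fun i => avg_nonneg fun u => Nat.cast_nonneg _)
    CJ hCJ hJ (by rw [hl1, hl2, hn]; exact hl4)
  have : Nonempty (Fin l1) := ⟨⟨0, hl1'⟩⟩
  have : Nonempty (Fin l2) := ⟨⟨0, hl2'⟩⟩
  have : Nonempty (Fin q) := ⟨⟨0, hq'⟩⟩
  have : Nonempty (Fin (2 * G)) := ⟨⟨0, by omega⟩⟩
  set ε : ℝ := 1 / (200 * ((n : ℝ) + 1) ^ 2) with hε
  have hε0 : 0 ≤ ε := by positivity
  have hN2 : (0 : ℝ) < ((n : ℝ) + 1) ^ 2 := by positivity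
  have hx1 : (1 : ℝ) ≤ (n : ℝ) + 1 := by linarith
  have hε1 : ε ≤ 1 := by
    rw [hε, div_le_one (by positivity)]
    exact aux_a hx1
  -- good labels
  let good : (Fin (n + 1) → Fin (2 * G)) → Prop := fun u => #(Sset T u) ≤ s0 ∧
      #{i | sp.succAbove (Λ.e1 i) ∈ Sset T u} ≤ s1 ∧
      #{i | sp.succAbove (Λ.e2 i) ∈ Sset T u} ≤ s2
  obtain ⟨hPb, hPs⟩ := prob_bad hG0 T hexp Λ sp s0 s1 s2 (22 * (m : ℝ) ^ 15) (11 * (m : ℝ) ^ 8)
    (11 * (m : ℝ) ^ 6) m (by positivity) (by positivity) (by positivity)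
    (by rw [hs0r, hnr]; exact hT0) (by rw [hs1r, hl1r]; exact hT1)
    (by rw [hs2r, hl2r]; exact hT2) good (fun u => Iff.rfl)
  set Pb : ℝ := avg (fun u => if good u then (0 : ℝ) else 1) with hPbdef
  have hPb0 : 0 ≤ Pb := avg_nonneg fun u => by split_ifs <;> norm_num
  -- kernel
  have hQ : Ker (n + 1) (QQ (n + 1)) (3 / ((n + 1 : ℕ) : ℝ) ^ 2) := ker_QQ (by omega)
  -- second moment
  set lam : ℝ := √((m : ℝ) / 1000) with hlam
  have hlam1 : 1 ≤ lam := by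
    rw [hlam, Real.one_le_sqrt, le_div_iff₀ (by norm_num)]; linarith
  have hlam0 : 0 < lam := by linarith
  have hlamsq : lam⁻¹ ^ 2 = 1000 / m := by
    rw [inv_pow, hlam, Real.sq_sqrt (by positivity), inv_div]
  have hsm := second_moment (n := n) (K := 205) (q := q) (G := G) (l1 := l1) (l2 := l2)
    (A := A) (T := T) (Q := QQ (n + 1)) hG0 hq' hl1' hl2' hT hQ hε0 Λ sp hmem hA hbal good
    s0 s1 s2 m1 (fun u h => h.1) (fun u h => h.2.1) (fun u h => h.2.2) lam hlam1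
    (by rw [hlamsq, hs1r, hm1r, hs0r, hl1r]; push_cast; exact hP1)
    (by rw [hlamsq, hs2r, hm1r, hl2r]; push_cast; exact hP2)
  have hρ : lam ^ 5 * (2 * lam⁻¹) ^ 205 = 2 ^ 205 * (1000 / (m : ℝ)) ^ 100 := by
    rw [← hlamsq, mul_pow, ← pow_mul]
    have : lam ^ 5 * lam⁻¹ ^ 5 = 1 := by rw [← mul_pow, mul_inv_cancel₀ hlam0.ne', one_pow]
    calc lam ^ 5 * (2 ^ 205 * lam⁻¹ ^ 205) = (lam ^ 5 * lam⁻¹ ^ 5) * (2 ^ 205 * lam⁻¹ ^ 200) := by
          ring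
      _ = _ := by rw [this, one_mul]
  have hV : avg (fun w : Om n 205 q G l1 l2 => ∑ v,
      (∑ x, (if good (PT Λ sp w x) then QQ (n + 1) (T (PT Λ sp w x)) v else 0) -
        ∑ y ∈ A, QQ (n + 1) y v) ^ 2) ≤ 2 ^ n * (8 / ((n : ℝ) + 1) ^ 2) := by
    refine hsm.trans ?_
    apply mul_le_mul_of_nonneg_left _ (by positivity)
    rw [hρ]
    have e1 : (3 : ℝ) / ((n + 1 : ℕ) : ℝ) ^ 2 = 3 / ((n : ℝ) + 1) ^ 2 := by push_cast; ring
    have e2 : 2 * ((1 + 2 ^ 205 * (1000 / (m : ℝ)) ^ 100) ^ n - 1) ≤ 1 / ((n : ℝ) + 1) ^ 2 := by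
      rw [hnr]; rw [hn]; exact hP4
    have e3 : 2 * ((1 + 2 * (1 - 1 / (q : ℝ)) ^ m1) ^ (n + 1) - 1) ≤ 1 / ((n : ℝ) + 1) ^ 2 := by
      rw [hnr, hqr, hn, hm1]; exact hP5
    have e3' : 0 ≤ (1 + 2 * (1 - 1 / (q : ℝ)) ^ m1) ^ (n + 1) - 1 := by
      rw [sub_nonneg]
      apply one_le_pow₀
      have : (0 : ℝ) ≤ 1 - 1 / q := by
        rw [sub_nonneg, div_le_one (by positivity)]
        exact_mod_cast hq'
      have : 0 ≤ 2 * (1 - 1 / (q : ℝ)) ^ m1 := by positivity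
      linarith
    have e4 : ε ^ 2 + 2 * ε ≤ 1 / ((n : ℝ) + 1) ^ 2 := by
      have h2 : ε ^ 2 ≤ ε := aux_d hε0 hε1
      have h3 : 3 * ε ≤ 1 / ((n : ℝ) + 1) ^ 2 := by
        rw [hε]; exact aux_b hx1
      linarith
    have e5 : 2 * Pb ≤ 1 / ((n : ℝ) + 1) ^ 2 := by
      rw [hnr]; linarith
    have e6 : (8 : ℝ) / ((n : ℝ) + 1) ^ 2 = 3 / ((n : ℝ) + 1) ^ 2 + 5 * (1 / ((n : ℝ) + 1) ^ 2) := by
      ring
    have e7 : (1 + ε) * ((1 + 2 * (1 - 1 / (q : ℝ)) ^ m1) ^ (n + 1) - 1) ≤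
        2 * ((1 + 2 * (1 - 1 / (q : ℝ)) ^ m1) ^ (n + 1) - 1) := by
      apply mul_le_mul_of_nonneg_right _ e3'
      linarith
    have e8 : 0 ≤ 1 / ((n : ℝ) + 1) ^ 2 := by positivity
    rw [e1, e6]
    linarith
  -- L^1 bound
  have hL1 : avg (fun w : Om n 205 q G l1 l2 => ∑ v,
      |∑ x, (if good (PT Λ sp w x) then QQ (n + 1) (T (PT Λ sp w x)) v else 0) -
        ∑ y ∈ A, QQ (n + 1) y v|) ≤ 4 * 2 ^ n / ((n : ℝ) + 1) := by
    apply l1_of_l2 _ _ _ (by positivity) hV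
    have hc : ((Fintype.card (Fin (n + 1) → Bool) : ℕ) : ℝ) = 2 ^ (n + 1) := by simp
    rw [hc, div_pow, pow_succ]
    apply le_of_eq
    ring
  have hL1' : avg (fun w : Om n 205 q G l1 l2 => ∑ v,
      |∑ x, QQ (n + 1) (T (PT Λ sp w x)) v - ∑ y ∈ A, QQ (n + 1) y v|) ≤
      5 * 2 ^ n / ((n : ℝ) + 1) := by
    have hpt : ∀ w : Om n 205 q G l1 l2, (∑ v,
      |∑ x, QQ (n + 1) (T (PT Λ sp w x)) v - ∑ y ∈ A, QQ (n + 1) y v|) ≤
      (∑ v, |∑ x, (if good (PT Λ sp w x) then QQ (n + 1) (T (PT Λ sp w x)) v else 0) -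
        ∑ y ∈ A, QQ (n + 1) y v|) + ∑ x, (if good (PT Λ sp w x) then (0 : ℝ) else 1) := by
      intro w
      have h1 : ∀ v, |∑ x, QQ (n + 1) (T (PT Λ sp w x)) v - ∑ y ∈ A, QQ (n + 1) y v| ≤
        |∑ x, (if good (PT Λ sp w x) then QQ (n + 1) (T (PT Λ sp w x)) v else 0) -
        ∑ y ∈ A, QQ (n + 1) y v| +
        ∑ x, (if good (PT Λ sp w x) then 0 else QQ (n + 1) (T (PT Λ sp w x)) v) := by
        intro v
        have h2 : ∑ x, QQ (n + 1) (T (PT Λ sp w x)) v =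
          ∑ x, (if good (PT Λ sp w x) then QQ (n + 1) (T (PT Λ sp w x)) v else 0) +
          ∑ x, (if good (PT Λ sp w x) then 0 else QQ (n + 1) (T (PT Λ sp w x)) v) := by
          rw [← Finset.sum_add_distrib]
          apply Finset.sum_congr rfl
          intro x _
          split_ifs <;> simp
        have h3 : 0 ≤ ∑ x, (if good (PT Λ sp w x) then 0
            else QQ (n + 1) (T (PT Λ sp w x)) v) := by
          apply Finset.sum_nonneg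
          intro x _
          split_ifs
          · exact le_rfl
          · exact QQ_nonneg _ _
        rw [h2]
        calc _ = |(∑ x, (if good (PT Λ sp w x) then QQ (n + 1) (T (PT Λ sp w x)) v else 0) -
            ∑ y ∈ A, QQ (n + 1) y v) +
            ∑ x, (if good (PT Λ sp w x) then 0 else QQ (n + 1) (T (PT Λ sp w x)) v)| := by
              congr 1; ring
          _ ≤ _ := (abs_add_le _ _).trans (by rw [abs_of_nonneg h3])
      refine (Finset.sum_le_sum fun v _ => h1 v).trans ?_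
      rw [Finset.sum_add_distrib]
      gcongr
      rw [Finset.sum_comm]
      apply Finset.sum_le_sum
      intro x _
      split_ifs
      · simp
      · exact (hQ.sum_one _).le
    refine (avg_mono hpt).trans ?_
    rw [avg_add]
    have hb : avg (fun w : Om n 205 q G l1 l2 =>
        ∑ x, (if good (PT Λ sp w x) then (0 : ℝ) else 1)) = 2 ^ n * Pb := by
      rw [avg_Om]
      have h1 : ∀ (c1 : Fin n × Fin 205 → Fin l1) (c2 : Fin n × Fin 205 → Fin l2)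
        (μ : Fin (n + 1) × Fin n → Fin q), (avg fun W => ∑ x,
        (if good (PT Λ sp ((c1, c2, μ, W) : Om n 205 q G l1 l2) x) then (0 : ℝ) else 1)) =
        2 ^ n * Pb := by
        intro c1 c2 μ
        exact sum_avg_pt hG0 Λ sp c1 c2 μ (fun u => if good u then (0 : ℝ) else 1)
      simp only [h1]
      rw [avg_const, avg_const, avg_const]
    rw [hb]
    have hPbN : Pb ≤ 1 / ((n : ℝ) + 1) := by
      have h5 : 2 * Pb ≤ 1 / ((n : ℝ) + 1) ^ 2 := by rw [hnr]; linarith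
      have h6 : 1 / ((n : ℝ) + 1) ^ 2 ≤ 1 / ((n : ℝ) + 1) := aux_c hx1
      linarith
    have h7 : (2 : ℝ) ^ n * Pb ≤ 2 ^ n * (1 / ((n : ℝ) + 1)) := by gcongr
    calc _ ≤ 4 * 2 ^ n / ((n : ℝ) + 1) + 2 ^ n * (1 / ((n : ℝ) + 1)) := add_le_add hL1 h7
      _ = _ := by ring
  -- stretch of the field
  have hres := sum_resamp_le hG0 hT s0 (CJ * ((n : ℝ) + 1)) hJ hw
  have hSav := avg_Sset (N := n + 1) (by omega) hG0 T hexp
  have hFC : avg (fun w : Om n 205 q G l1 l2 => ∑ j : Fin n, ∑ x,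
      (hammingDist (T (PT Λ sp w x)) (T (PT Λ sp w (x + Pi.single j 1))) : ℝ)) ≤
      2 ^ n * ((412 * CJ + 2) * n) := by
    rw [avg_Om]
    apply avg_le_of_le
    intro c1
    apply avg_le_of_le
    intro c2
    have hfc := avg_field_cost (n := n) (K := 205) (q := q) (G := G) hG0 hq' Λ sp (T := T)
      (2 * CJ) (by positivity) hsp he1 he2 c1 c2
    have heq : (avg fun μ : Fin (n + 1) × Fin n → Fin q => avg fun W => ∑ j : Fin n, ∑ x,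
        (hammingDist (T (PT Λ sp ((c1, c2, μ, W) : Om n 205 q G l1 l2) x))
          (T (PT Λ sp ((c1, c2, μ, W) : Om n 205 q G l1 l2) (x + Pi.single j 1))) : ℝ)) =
        2 ^ n * avg (fun μ : Fin (n + 1) × Fin n → Fin q =>
        ∑ j : Fin n, avg (fun x : Fin n → ZMod 2 =>
        avg fun W : Fin (n + 1) × (Fin n → ZMod 2) → Fin (2 * G) =>
          (hammingDist (T (pt Λ sp c1 c2 μ W x))
            (T (pt Λ sp c1 c2 μ W (x + Pi.single j 1))) : ℝ))) := by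
      rw [← avg_mul_left]
      apply avg_congr
      intro μ
      rw [avg_sum, Finset.mul_sum]
      apply Finset.sum_congr rfl
      intro j _
      rw [avg_sum, sum_eq_card_mul_avg]
      congr 1
      simp
    rw [heq]
    apply mul_le_mul_of_nonneg_left _ (by positivity)
    refine hfc.trans ?_
    have hK : ((205 : ℕ) : ℝ) = 205 := by norm_num
    rw [hK]
    have g1 : (l1 : ℝ) / q * (2 * CJ + ∑ i, resamp T i) ≤ n := by
      rw [hl1r, hqr, hnr]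
      refine le_trans ?_ hC1
      gcongr
      refine hres.trans ?_
      rw [hs0r, hnr]
      push_cast
      rw [hnr]
      gcongr
    have g2 : (l2 : ℝ) * (2 * avg (fun u => (#(Sset T u) : ℝ)) + 2) ≤ n := by
      rw [hl2r, hnr]
      refine le_trans ?_ hC2
      gcongr
      refine hSav.trans (le_of_eq ?_)
      push_cast
      rw [hnr]
    exact aux_e hCJ.le hn1 g1 g2 hJ
  -- choose the randomness
  set D : Om n 205 q G l1 l2 → ℝ := fun w => ∑ v,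
      |∑ x, QQ (n + 1) (T (PT Λ sp w x)) v - ∑ y ∈ A, QQ (n + 1) y v| with hD
  set St : Om n 205 q G l1 l2 → ℝ := fun w => ∑ j : Fin n, ∑ x,
      (hammingDist (T (PT Λ sp w x)) (T (PT Λ sp w (x + Pi.single j 1))) : ℝ) with hSt
  obtain ⟨w, hwle⟩ := exists_le_avg (fun w : Om n 205 q G l1 l2 =>
    St w + 2 * n * (4 * 2 ^ n + ((n : ℝ) + 1) * D w))
  have havg : avg (fun w : Om n 205 q G l1 l2 =>
      St w + 2 * n * (4 * 2 ^ n + ((n : ℝ) + 1) * D w)) ≤ CC * n * 2 ^ n := by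
    rw [avg_add, avg_mul_left, avg_add, avg_const, avg_mul_left]
    have h1 : ((n : ℝ) + 1) * avg D ≤ 5 * 2 ^ n := by
      calc _ ≤ ((n : ℝ) + 1) * (5 * 2 ^ n / ((n : ℝ) + 1)) := by gcongr
        _ = _ := by field_simp
    have h2 : 2 * (n : ℝ) * (4 * 2 ^ n + ((n : ℝ) + 1) * avg D) ≤
        2 * (n : ℝ) * (4 * 2 ^ n + 5 * 2 ^ n) := by gcongr
    calc _ ≤ 2 ^ n * ((412 * CJ + 2) * n) + 2 * (n : ℝ) * (4 * 2 ^ n + 5 * 2 ^ n) :=
          add_le_add hFC h2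
      _ = _ := by unfold CC; ring
  -- rounding
  obtain ⟨f, hfinj, hfrange, hfd⟩ := rounding (X := Fin n → ZMod 2) A (by rw [hA]; simp)
    (fun x => T (PT Λ sp w x)) (QQ (n + 1)) hQ.nonneg hQ.sum_one
    (fun x y => (hammingDist x y : ℝ)) (fun x y => Nat.cast_nonneg _)
    (fun x y => by rw [hammingDist_comm])
    (fun x y z => by exact_mod_cast hammingDist_triangle x y z) ((n : ℝ) + 1) 2
    (fun x y => by
      have := hammingDist_le_card_fintype (x := x) (y := y)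
      rw [Fintype.card_fin] at this
      exact_mod_cast this)
    (fun y v h => by exact_mod_cast hQ.supp y v h)
  refine ⟨f, hfinj, hfrange, ?_⟩
  refine (stretch_round (fun x => T (PT Λ sp w x)) f).trans ?_
  refine le_trans ?_ (hwle.trans havg)
  have hcardX : ((Fintype.card (Fin n → ZMod 2) : ℕ) : ℝ) = 2 ^ n := by simp
  rw [hcardX] at hfd
  simp only [hSt, hD]
  gcongr
  refine hfd.trans (le_of_eq ?_)
  ring

end

end Pool.Agent.Helper38.Stretch
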