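import Pool.Agent.Helper38.Stretch.Corner
import Pool.Agent.Helper38.Stretch.Balls

/-! Near pairs of labels (module M10, part 2). -/

namespace Pool.Agent.Helper38.Stretch

open Finset

noncomputable section

variable {n K q G l1 l2 : ℕ}

/-- moved coordinates, as a subset of `Fin n` -/
def Sp {N' : ℕ} (T : (Fin (n + 1) → Fin N') → (Fin (n + 1) → Bool)) (sp : Fin (n + 1))
    (u : Fin (n + 1) → Fin N') : Finset (Fin n) :=
  {k | sp.succAbove k ∈ Sset T u}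

lemma mem_Sp {N' : ℕ} (T : (Fin (n + 1) → Fin N') → (Fin (n + 1) → Bool))
    (sp : Fin (n + 1)) (u : Fin (n + 1) → Fin N') (k : Fin n) :
    k ∈ Sp T sp u ↔ side (u (sp.succAbove k)) ≠ T u (sp.succAbove k) := by
  simp [Sp, Sset]

lemma card_Sp_le {N' : ℕ} (T : (Fin (n + 1) → Fin N') → (Fin (n + 1) → Bool))
    (sp : Fin (n + 1)) (u : Fin (n + 1) → Fin N') : #(Sp T sp u) ≤ #(Sset T u) := by
  unfold Sp
  apply Finset.card_le_card_of_injOn (fun k => sp.succAbove k)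
  · intro k hk
    simpa using hk
  · intro a _ b _ h
    exact Fin.succAbove_right_injective h

lemma Phi_eq (S : Finset (Fin n)) (v : Fin n → ZMod 2) :
    Phi S v = (#{k | v k ≠ 0} : ℤ) - 2 * (#{k | k ∈ S ∧ v k ≠ 0} : ℤ) := by
  unfold Phi
  have h1 : (#{k | v k ≠ 0} : ℤ) = ∑ k, if v k ≠ 0 then (1 : ℤ) else 0 := by
    rw [Finset.sum_boole]
  have h2 : (#{k | k ∈ S ∧ v k ≠ 0} : ℤ) = ∑ k, if k ∈ S ∧ v k ≠ 0 then (1 : ℤ) else 0 := by
    rw [Finset.sum_boole]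
  rw [h1, h2, Finset.mul_sum, ← Finset.sum_sub_distrib]
  apply Finset.sum_congr rfl
  intro k _
  by_cases hv : v k = 0 <;> by_cases hS : k ∈ S <;> simp [hv, hS]

lemma neg_Phi_le (S : Finset (Fin n)) (v : Fin n → ZMod 2) :
    -(Phi S v) ≤ (#{k | v k ≠ 0} : ℤ) := by
  rw [Phi_eq]
  have : #{k | k ∈ S ∧ v k ≠ 0} ≤ #{k | v k ≠ 0} := by
    apply Finset.card_le_card
    intro k hk
    simp only [Finset.mem_filter, Finset.mem_univ, true_and] at hk ⊢
    exact hk.2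
  have : (#{k | k ∈ S ∧ v k ≠ 0} : ℤ) ≤ (#{k | v k ≠ 0} : ℤ) := by exact_mod_cast this
  linarith

/-- first-level balls of `F` -/
def B1 (K : ℕ) (Λ : Lev n l1 l2) (F : Fin n → ZMod 2) : Finset (Fin n × Fin K) :=
  {b | Λ.lev b.1 = 0 ∧ F b.1 ≠ 0}

/-- second-level balls of `F` -/
def B2 (K : ℕ) (Λ : Lev n l1 l2) (F : Fin n → ZMod 2) : Finset (Fin n × Fin K) :=
  {b | Λ.lev b.1 = 1 ∧ F b.1 ≠ 0}


lemma pos_balls (Λ : Lev n l1 l2) (c1 : Fin n × Fin K → Fin l1) (c2 : Fin n × Fin K → Fin l2)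
    (F : Fin n → ZMod 2) :
    pos Λ c1 c2 F = (F + ∑ b ∈ B1 K Λ F, Pi.single (Λ.e1 (c1 b)) 1) +
      ∑ b ∈ B2 K Λ F, Pi.single (Λ.e2 (c2 b)) 1 := by
  unfold pos B1 B2
  rw [add_assoc, Finset.sum_filter, Finset.sum_filter, ← Finset.sum_add_distrib]
  congr 1
  apply Finset.sum_congr rfl
  intro b _
  unfold kid
  have h01 : (0 : Fin 3) ≠ 1 := by decide
  rcases zmod2_cases (F b.1) with h | h
  · simp [h]
  · by_cases h0 : Λ.lev b.1 = 0
    · simp [h, h0]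
    · by_cases h1 : Λ.lev b.1 = 1
      · simp [h, h1]
      · simp [h, h0, h1]

lemma card_Bi (K : ℕ) (P : Fin n → Prop) [DecidablePred P] :
    #{b : Fin n × Fin K | P b.1} = K * #{j | P j} := by
  have : ({b : Fin n × Fin K | P b.1} : Finset _) = ({j | P j} : Finset (Fin n)) ×ˢ univ := by
    ext b; simp
  rw [this, Finset.card_product, Finset.card_univ, Fintype.card_fin, mul_comm]

/-- probability (over the code) that the potential of a near vector is small -/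
lemma near_prob (hl1 : 0 < l1) (hl2 : 0 < l2) (Λ : Lev n l1 l2) (S : Finset (Fin n))
    (F : Fin n → ZMod 2) (hF2 : ∀ j, Λ.lev j = 2 → F j = 0) (hF : F ≠ 0)
    (s0 s1 s2 m1 : ℕ) (hF1 : #{j | Λ.lev j = 1 ∧ F j ≠ 0} ≤ m1)
    (hF0 : #{j | Λ.lev j = 0 ∧ F j ≠ 0} ≤ 2 * s0 + 4)
    (hs1 : #{i | Λ.e1 i ∈ S} ≤ s1) (hs2 : #{i | Λ.e2 i ∈ S} ≤ s2)
    (lam : ℝ) (hlam : 1 ≤ lam)
    (hb1 : (s1 : ℝ) + m1 + K * (2 * s0 + 4) ≤ lam⁻¹ ^ 2 * l1)
    (hb2 : (s2 : ℝ) + K * m1 ≤ lam⁻¹ ^ 2 * l2) :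
    avg (fun c1 : Fin n × Fin K → Fin l1 => avg fun c2 : Fin n × Fin K → Fin l2 =>
      if Phi S (pos Λ c1 c2 F) ≤ 4 then (1 : ℝ) else 0) ≤
      (lam ^ 5 * (2 * lam⁻¹) ^ K) ^ #{j | F j ≠ 0} := by
  have : Nonempty (Fin l1) := ⟨⟨0, hl1⟩⟩
  have : Nonempty (Fin l2) := ⟨⟨0, hl2⟩⟩
  have hlam0 : 0 < lam := by linarith
  have hlamne : lam ≠ 0 := hlam0.ne'
  have hq : lam⁻¹ + lam⁻¹ ^ 2 * lam = 2 * lam⁻¹ := by field_simp; ring
  -- pointwise
  have hpt : ∀ (c1 : Fin n × Fin K → Fin l1) (c2 : Fin n × Fin K → Fin l2),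
      (if Phi S (pos Λ c1 c2 F) ≤ 4 then (1 : ℝ) else 0) ≤
      lam ^ (4 : ℤ) * lam ^ (-(Phi S (pos Λ c1 c2 F))) := by
    intro c1 c2
    split_ifs with h
    · rw [← zpow_add₀ hlamne]
      exact one_le_zpow₀ hlam (by omega)
    · positivity
  have hstage2 : ∀ c1 : Fin n × Fin K → Fin l1,
      avg (fun c2 : Fin n × Fin K → Fin l2 => lam ^ (-(Phi S (pos Λ c1 c2 F)))) ≤
      lam ^ (-(Phi S (F + ∑ b ∈ B1 K Λ F, Pi.single (Λ.e1 (c1 b)) 1))) *
        (2 * lam⁻¹) ^ #(B2 K Λ F) := by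
    intro c1
    simp only [pos_balls]
    rw [← hq]
    apply balls hl2 Λ.e2 Λ.inj2 S _ (B2 K Λ F) (lam⁻¹ ^ 2) lam hlam (by positivity)
    have h0 : #{i | (F + ∑ b ∈ B1 K Λ F, Pi.single (Λ.e1 (c1 b)) 1 : Fin n → ZMod 2)
        (Λ.e2 i) ≠ 0} = 0 := by
      rw [Finset.card_eq_zero, Finset.filter_eq_empty_iff]
      intro i _
      rw [not_not, Pi.add_apply, Finset.sum_apply, hF2 _ (Λ.lev2 i), zero_add]
      apply Finset.sum_eq_zero
      intro b _
      apply Pi.single_eq_of_ne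
      intro h
      have h1 := Λ.lev1 (c1 b)
      rw [← h, Λ.lev2 i] at h1
      exact absurd h1 (by decide)
    rw [h0]
    have hB2 : #(B2 K Λ F) ≤ K * m1 := by
      have := card_Bi K (fun j => Λ.lev j = 1 ∧ F j ≠ 0)
      unfold B2
      rw [this]
      exact Nat.mul_le_mul_left _ hF1
    have e1 : (#(B2 K Λ F) : ℝ) ≤ K * m1 := by exact_mod_cast hB2
    have e2 : (#{i | Λ.e2 i ∈ S} : ℝ) ≤ s2 := by exact_mod_cast hs2
    push_cast
    linarith
  have hstage1 : avg (fun c1 : Fin n × Fin K → Fin l1 =>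
      lam ^ (-(Phi S (F + ∑ b ∈ B1 K Λ F, Pi.single (Λ.e1 (c1 b)) 1)))) ≤
      lam ^ (-(Phi S F)) * (2 * lam⁻¹) ^ #(B1 K Λ F) := by
    rw [← hq]
    apply balls hl1 Λ.e1 Λ.inj1 S _ (B1 K Λ F) (lam⁻¹ ^ 2) lam hlam (by positivity)
    have hB1 : #(B1 K Λ F) ≤ K * (2 * s0 + 4) := by
      have := card_Bi K (fun j => Λ.lev j = 0 ∧ F j ≠ 0)
      unfold B1
      rw [this]
      exact Nat.mul_le_mul_left _ hF0
    have hFe : #{i | F (Λ.e1 i) ≠ 0} ≤ m1 := by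
      refine le_trans ?_ hF1
      apply Finset.card_le_card_of_injOn Λ.e1
      · intro i hi
        simp only [Finset.coe_filter, Finset.mem_univ, true_and, Set.mem_ofPred_eq] at hi ⊢
        exact ⟨Λ.lev1 i, hi⟩
      · intro a _ b _ h
        exact Λ.inj1 h
    have e1 : (#(B1 K Λ F) : ℝ) ≤ K * (2 * s0 + 4) := by exact_mod_cast hB1
    have e2 : (#{i | Λ.e1 i ∈ S} : ℝ) ≤ s1 := by exact_mod_cast hs1
    have e3 : (#{i | F (Λ.e1 i) ≠ 0} : ℝ) ≤ m1 := by exact_mod_cast hFe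
    linarith
  set d := #{j | F j ≠ 0} with hd
  have hd1 : 1 ≤ d := by
    rw [hd, Nat.one_le_iff_ne_zero, Ne, Finset.card_eq_zero, Finset.filter_eq_empty_iff]
    intro h
    apply hF
    funext j
    simpa using h (Finset.mem_univ j)
  have hBB : #(B1 K Λ F) + #(B2 K Λ F) = K * d := by
    have h1 := card_Bi K (fun j => Λ.lev j = 0 ∧ F j ≠ 0)
    have h2 := card_Bi K (fun j => Λ.lev j = 1 ∧ F j ≠ 0)
    unfold B1 B2
    rw [h1, h2, ← mul_add, hd]
    congr 1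
    rw [← Finset.card_union_of_disjoint]
    · congr 1
      ext j
      simp only [Finset.mem_union, Finset.mem_filter, Finset.mem_univ, true_and]
      constructor
      · rintro (h | h) <;> exact h.2
      · intro h
        have h3 : Λ.lev j = 0 ∨ Λ.lev j = 1 ∨ Λ.lev j = 2 := by
          have : ∀ z : Fin 3, z = 0 ∨ z = 1 ∨ z = 2 := by decide
          exact this _
        rcases h3 with h3 | h3 | h3
        · exact Or.inl ⟨h3, h⟩
        · exact Or.inr ⟨h3, h⟩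
        · exact absurd (hF2 j h3) h
    · rw [Finset.disjoint_filter]
      intro j _ h1 h2
      rw [h1.1] at h2
      exact absurd h2.1 (by decide)
  calc _ ≤ avg (fun c1 : Fin n × Fin K → Fin l1 => avg fun c2 : Fin n × Fin K → Fin l2 =>
        lam ^ (4 : ℤ) * lam ^ (-(Phi S (pos Λ c1 c2 F)))) :=
        avg_mono fun c1 => avg_mono fun c2 => hpt c1 c2
    _ = lam ^ (4 : ℤ) * avg (fun c1 : Fin n × Fin K → Fin l1 =>
        avg fun c2 : Fin n × Fin K → Fin l2 => lam ^ (-(Phi S (pos Λ c1 c2 F)))) := by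
        simp only [avg_mul_left]
    _ ≤ lam ^ (4 : ℤ) * avg (fun c1 : Fin n × Fin K → Fin l1 =>
        lam ^ (-(Phi S (F + ∑ b ∈ B1 K Λ F, Pi.single (Λ.e1 (c1 b)) 1))) *
        (2 * lam⁻¹) ^ #(B2 K Λ F)) := by
        gcongr
        exact avg_mono fun c1 => hstage2 c1
    _ ≤ lam ^ (4 : ℤ) * (lam ^ (-(Phi S F)) * (2 * lam⁻¹) ^ #(B1 K Λ F) *
        (2 * lam⁻¹) ^ #(B2 K Λ F)) := by
        rw [avg_mul_right]
        gcongr
    _ = lam ^ (4 : ℤ) * lam ^ (-(Phi S F)) * (2 * lam⁻¹) ^ (K * d) := by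
        rw [← hBB, pow_add]; ring
    _ ≤ lam ^ (4 : ℤ) * lam ^ (d : ℤ) * (2 * lam⁻¹) ^ (K * d) := by
        gcongr
        exact neg_Phi_le S F
    _ ≤ lam ^ (5 * d) * (2 * lam⁻¹) ^ (K * d) := by
        gcongr
        rw [← zpow_add₀ hlamne, ← zpow_natCast]
        apply zpow_le_zpow_right₀ hlam
        push_cast
        omega
    _ = _ := by rw [mul_pow (lam ^ 5), ← pow_mul, ← pow_mul]

/-- randomness -/
abbrev Om (n K q G l1 l2 : ℕ) := (Fin n × Fin K → Fin l1) × (Fin n × Fin K → Fin l2) ×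
  (Fin (n + 1) × Fin n → Fin q) × (Fin (n + 1) × (Fin n → ZMod 2) → Fin (2 * G))

/-- the grid point of the label `x` -/
def PT (Λ : Lev n l1 l2) (sp : Fin (n + 1)) (w : Om n K q G l1 l2) (x : Fin n → ZMod 2) :
    Fin (n + 1) → Fin (2 * G) :=
  pt Λ sp w.1 w.2.1 w.2.2.1 w.2.2.2 x

lemma avg_Om (f : Om n K q G l1 l2 → ℝ) : avg f = avg fun c1 => avg fun c2 => avg fun μ =>
    avg fun W => f (c1, c2, μ, W) := by
  rw [avg_prod]
  apply avg_congr
  intro c1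
  rw [avg_prod]
  apply avg_congr
  intro c2
  rw [avg_prod]

lemma sum_avg_pt (hG : 0 < G) (Λ : Lev n l1 l2) (sp : Fin (n + 1))
    (c1 : Fin n × Fin K → Fin l1) (c2 : Fin n × Fin K → Fin l2)
    (μ : Fin (n + 1) × Fin n → Fin q) (f : (Fin (n + 1) → Fin (2 * G)) → ℝ) :
    avg (fun W => ∑ x, f (pt Λ sp c1 c2 μ W x)) = 2 ^ n * avg f := by
  have h := avg_pt Λ c1 c2 hG sp μ 0 f
  simp only [add_zero] at h
  rw [avg_sum]
  have h2 := sum_eq_card_mul_avg (fun x : Fin n → ZMod 2 => avg fun W => f (pt Λ sp c1 c2 μ W x))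
  rw [h2]
  unfold pt
  rw [h]
  simp

lemma sum_avg_pt_shift (hG : 0 < G) (Λ : Lev n l1 l2) (sp : Fin (n + 1))
    (c1 : Fin n × Fin K → Fin l1) (c2 : Fin n × Fin K → Fin l2)
    (μ : Fin (n + 1) × Fin n → Fin q) (F : Fin n → ZMod 2)
    (f : (Fin (n + 1) → Fin (2 * G)) → ℝ) :
    avg (fun W => ∑ x, f (pt Λ sp c1 c2 μ W (x + F))) = 2 ^ n * avg f := by
  rw [← sum_avg_pt hG Λ sp c1 c2 μ f]
  apply avg_congr
  intro W
  exact Equiv.sum_comp (Equiv.addRight F) (fun x => f (pt Λ sp c1 c2 μ W x))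

variable {A : Finset (Fin (n + 1) → Bool)}
  {T : (Fin (n + 1) → Fin (2 * G)) → (Fin (n + 1) → Bool)} {κ : ℝ}
  {Q : (Fin (n + 1) → Bool) → (Fin (n + 1) → Bool) → ℝ}

lemma side_pt (Λ : Lev n l1 l2) (sp : Fin (n + 1)) (c1 : Fin n × Fin K → Fin l1)
    (c2 : Fin n × Fin K → Fin l2) (μ : Fin (n + 1) × Fin n → Fin q)
    (W : Fin (n + 1) × (Fin n → ZMod 2) → Fin (2 * G)) (x : Fin n → ZMod 2) (k : Fin n) :
    side (pt Λ sp c1 c2 μ W x (sp.succAbove k)) = zb (pos Λ c1 c2 x k) := by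
  unfold pt
  exact side_place sp _ _ k

/-- pointwise bound for a near pair -/
lemma near_pointwise (hQ : Ker (n + 1) Q κ) (Λ : Lev n l1 l2) (sp : Fin (n + 1))
    (good : (Fin (n + 1) → Fin (2 * G)) → Prop) [DecidablePred good] (s0 : ℕ)
    (hg0 : ∀ u, good u → #(Sset T u) ≤ s0)
    (c1 : Fin n × Fin K → Fin l1)
    (c2 : Fin n × Fin K → Fin l2) (μ : Fin (n + 1) × Fin n → Fin q)
    (W : Fin (n + 1) × (Fin n → ZMod 2) → Fin (2 * G)) (x F : Fin n → ZMod 2) :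
    (if good (pt Λ sp c1 c2 μ W x) then if good (pt Λ sp c1 c2 μ W (x + F)) then
      RK Q (T (pt Λ sp c1 c2 μ W x)) (T (pt Λ sp c1 c2 μ W (x + F))) else 0 else 0) ≤
    (if #{j | Λ.lev j = 0 ∧ F j ≠ 0} ≤ 2 * s0 + 4 then
      (if good (pt Λ sp c1 c2 μ W x) ∧
        Phi (Sp T sp (pt Λ sp c1 c2 μ W x)) (pos Λ c1 c2 F) ≤ 4 then (1 : ℝ) else 0) +
      (if good (pt Λ sp c1 c2 μ W (x + F)) ∧
        Phi (Sp T sp (pt Λ sp c1 c2 μ W (x + F))) (pos Λ c1 c2 F) ≤ 4 then (1 : ℝ) else 0)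
      else 0) := by
  set u := pt Λ sp c1 c2 μ W x with hu
  set u' := pt Λ sp c1 c2 μ W (x + F) with hu'
  set v := pos Λ c1 c2 F with hv
  have hR0 : 0 ≤ (if #{j | Λ.lev j = 0 ∧ F j ≠ 0} ≤ 2 * s0 + 4 then
      (if good u ∧ Phi (Sp T sp u) v ≤ 4 then (1 : ℝ) else 0) +
      (if good u' ∧ Phi (Sp T sp u') v ≤ 4 then (1 : ℝ) else 0) else 0) := by
    split_ifs <;> norm_num
  by_cases hgu : good u
  swap
  · rw [if_neg hgu]; exact hR0
  by_cases hgu' : good u'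
  swap
  · rw [if_pos hgu, if_neg hgu']; exact hR0
  rw [if_pos hgu, if_pos hgu']
  by_cases hRK : RK Q (T u) (T u') = 0
  · rw [hRK]; exact hR0
  have hdist := hQ.RK_supp _ _ hRK
  -- coordinates of `v`
  have hside : ∀ k, v k ≠ 0 → side (u (sp.succAbove k)) ≠ side (u' (sp.succAbove k)) := by
    intro k hk
    rw [hu, hu', side_pt, side_pt, pos_add, Pi.add_apply, ← hv]
    have hvk : v k = 1 := (zmod2_cases (v k)).resolve_left hk
    rw [hvk, zb_add_one]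
    cases zb (pos Λ c1 c2 x k) <;> simp
  set D : Finset (Fin n) := {k | T u (sp.succAbove k) ≠ T u' (sp.succAbove k)} with hD
  have hDcard : #D ≤ 4 := by
    refine le_trans ?_ hdist
    unfold hammingDist
    apply Finset.card_le_card_of_injOn (fun k => sp.succAbove k)
    · intro k hk
      simpa [hD] using hk
    · intro a _ b _ h
      exact Fin.succAbove_right_injective h
  have hV : #{k | v k ≠ 0} ≤ #{k | k ∈ Sp T sp u ∧ v k ≠ 0} + #{k | k ∈ Sp T sp u' ∧ v k ≠ 0} + 4 := by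
    have hsub : ({k | v k ≠ 0} : Finset (Fin n)) ⊆
        (({k | k ∈ Sp T sp u ∧ v k ≠ 0} : Finset (Fin n)) ∪
          ({k | k ∈ Sp T sp u' ∧ v k ≠ 0} : Finset (Fin n))) ∪ D := by
      intro k hk
      simp only [Finset.mem_filter, Finset.mem_univ, true_and] at hk
      have hs := hside k hk
      simp only [Finset.mem_union, Finset.mem_filter, Finset.mem_univ, true_and, hk, ne_eq,
        not_false_eq_true, and_true, hD]
      by_contra hcon
      push Not at hcon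
      obtain ⟨⟨h1, h2⟩, h3⟩ := hcon
      have h1' := not_ne_iff.1 (fun h => h1 ((mem_Sp T sp u k).2 h))
      have h2' := not_ne_iff.1 (fun h => h2 ((mem_Sp T sp u' k).2 h))
      rw [h1', h2'] at hs
      exact hs h3
    refine (Finset.card_le_card hsub).trans ?_
    refine (Finset.card_union_le _ _).trans ?_
    have := Finset.card_union_le ({k | k ∈ Sp T sp u ∧ v k ≠ 0} : Finset (Fin n))
      ({k | k ∈ Sp T sp u' ∧ v k ≠ 0} : Finset (Fin n))
    omega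
  have hF0 : #{j | Λ.lev j = 0 ∧ F j ≠ 0} ≤ 2 * s0 + 4 := by
    have h1 : #{j | Λ.lev j = 0 ∧ F j ≠ 0} ≤ #{k | v k ≠ 0} := by
      apply Finset.card_le_card
      intro j hj
      simp only [Finset.mem_filter, Finset.mem_univ, true_and] at hj ⊢
      rw [hv, pos_lev0 Λ c1 c2 F j hj.1]
      exact hj.2
    have h2 : #{k | k ∈ Sp T sp u ∧ v k ≠ 0} ≤ s0 := by
      refine le_trans ?_ ((card_Sp_le T sp u).trans (hg0 u hgu))
      apply Finset.card_le_card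
      intro k hk
      simp only [Finset.mem_filter, Finset.mem_univ, true_and] at hk
      exact hk.1
    have h3 : #{k | k ∈ Sp T sp u' ∧ v k ≠ 0} ≤ s0 := by
      refine le_trans ?_ ((card_Sp_le T sp u').trans (hg0 u' hgu'))
      apply Finset.card_le_card
      intro k hk
      simp only [Finset.mem_filter, Finset.mem_univ, true_and] at hk
      exact hk.1
    omega
  rw [if_pos hF0]
  have hor : Phi (Sp T sp u) v ≤ 4 ∨ Phi (Sp T sp u') v ≤ 4 := by
    rw [Phi_eq, Phi_eq]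
    omega
  have hle1 := hQ.RK_le_one (T u) (T u')
  rcases hor with h | h
  · have e : (if good u ∧ Phi (Sp T sp u) v ≤ 4 then (1 : ℝ) else 0) = 1 := if_pos ⟨hgu, h⟩
    rw [e]
    have : 0 ≤ (if good u' ∧ Phi (Sp T sp u') v ≤ 4 then (1 : ℝ) else 0) := by
      split_ifs <;> norm_num
    linarith
  · have e : (if good u' ∧ Phi (Sp T sp u') v ≤ 4 then (1 : ℝ) else 0) = 1 := if_pos ⟨hgu', h⟩
    rw [e]
    have : 0 ≤ (if good u ∧ Phi (Sp T sp u) v ≤ 4 then (1 : ℝ) else 0) := by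
      split_ifs <;> norm_num
    linarith

/-- a near pair contributes little -/
lemma near_pair (hG : 0 < G) (hq : 0 < q) (hl1 : 0 < l1) (hl2 : 0 < l2)
    (hQ : Ker (n + 1) Q κ) (Λ : Lev n l1 l2) (sp : Fin (n + 1))
    (good : (Fin (n + 1) → Fin (2 * G)) → Prop) [DecidablePred good]
    (s0 s1 s2 m1 : ℕ)
    (hg0 : ∀ u, good u → #(Sset T u) ≤ s0)
    (hg1 : ∀ u, good u → #{i | sp.succAbove (Λ.e1 i) ∈ Sset T u} ≤ s1)
    (hg2 : ∀ u, good u → #{i | sp.succAbove (Λ.e2 i) ∈ Sset T u} ≤ s2)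
    (F : Fin n → ZMod 2) (hF2 : ∀ j, Λ.lev j = 2 → F j = 0) (hF : F ≠ 0)
    (hF1 : #{j | Λ.lev j = 1 ∧ F j ≠ 0} ≤ m1)
    (lam : ℝ) (hlam : 1 ≤ lam)
    (hb1 : (s1 : ℝ) + m1 + K * (2 * s0 + 4) ≤ lam⁻¹ ^ 2 * l1)
    (hb2 : (s2 : ℝ) + K * m1 ≤ lam⁻¹ ^ 2 * l2) :
    avg (fun w : Om n K q G l1 l2 => ∑ x, if good (PT Λ sp w x) then
      if good (PT Λ sp w (x + F)) then RK Q (T (PT Λ sp w x)) (T (PT Λ sp w (x + F))) else 0
      else 0) ≤
    2 ^ n * (2 * (lam ^ 5 * (2 * lam⁻¹) ^ K) ^ #{j | F j ≠ 0}) := by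
  have : Nonempty (Fin l1) := ⟨⟨0, hl1⟩⟩
  have : Nonempty (Fin l2) := ⟨⟨0, hl2⟩⟩
  have : Nonempty (Fin q) := ⟨⟨0, hq⟩⟩
  have : Nonempty (Fin (2 * G)) := ⟨⟨0, by omega⟩⟩
  have hlam0 : 0 < lam := by linarith
  set ρd := (lam ^ 5 * (2 * lam⁻¹) ^ K) ^ #{j | F j ≠ 0} with hρ
  have hρ0 : 0 ≤ ρd := by positivity
  by_cases hF0 : #{j | Λ.lev j = 0 ∧ F j ≠ 0} ≤ 2 * s0 + 4
  swap
  · refine (avg_mono (g := fun _ => 0) ?_).trans ?_
    · intro w
      apply Finset.sum_nonpos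
      intro x _
      have := near_pointwise hQ Λ sp good s0 hg0 w.1 w.2.1 w.2.2.1 w.2.2.2 x F (T := T)
      rw [if_neg hF0] at this
      exact this
    · rw [avg_const]; positivity
  · have hpt : ∀ w : Om n K q G l1 l2, (∑ x, if good (PT Λ sp w x) then
        if good (PT Λ sp w (x + F)) then RK Q (T (PT Λ sp w x)) (T (PT Λ sp w (x + F))) else 0
        else 0) ≤
        ∑ x, (if good (PT Λ sp w x) ∧
          Phi (Sp T sp (PT Λ sp w x)) (pos Λ w.1 w.2.1 F) ≤ 4 then (1 : ℝ) else 0) +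
        ∑ x, (if good (PT Λ sp w (x + F)) ∧
          Phi (Sp T sp (PT Λ sp w (x + F))) (pos Λ w.1 w.2.1 F) ≤ 4 then (1 : ℝ) else 0) := by
      intro w
      rw [← Finset.sum_add_distrib]
      apply Finset.sum_le_sum
      intro x _
      have := near_pointwise hQ Λ sp good s0 hg0 w.1 w.2.1 w.2.2.1 w.2.2.2 x F (T := T)
      rw [if_pos hF0] at this
      exact this
    refine (avg_mono hpt).trans ?_
    rw [avg_add, avg_Om, avg_Om]
    simp only [PT]
    have key : avg (fun c1 : Fin n × Fin K → Fin l1 => avg fun c2 : Fin n × Fin K → Fin l2 =>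
        2 ^ n * avg fun u : Fin (n + 1) → Fin (2 * G) =>
          if good u ∧ Phi (Sp T sp u) (pos Λ c1 c2 F) ≤ 4 then (1 : ℝ) else 0) ≤
        2 ^ n * ρd := by
      simp only [avg_mul_left]
      gcongr
      have hc : avg (fun c1 : Fin n × Fin K → Fin l1 => avg fun c2 : Fin n × Fin K → Fin l2 =>
          avg fun u : Fin (n + 1) → Fin (2 * G) =>
          if good u ∧ Phi (Sp T sp u) (pos Λ c1 c2 F) ≤ 4 then (1 : ℝ) else 0) =
          avg (fun u : Fin (n + 1) → Fin (2 * G) => avg fun c1 : Fin n × Fin K → Fin l1 =>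
            avg fun c2 : Fin n × Fin K → Fin l2 =>
          if good u ∧ Phi (Sp T sp u) (pos Λ c1 c2 F) ≤ 4 then (1 : ℝ) else 0) := by
        rw [avg_comm (fun (u : Fin (n + 1) → Fin (2 * G)) (c1 : Fin n × Fin K → Fin l1) =>
            avg fun c2 : Fin n × Fin K → Fin l2 =>
          if good u ∧ Phi (Sp T sp u) (pos Λ c1 c2 F) ≤ 4 then (1 : ℝ) else 0)]
        apply avg_congr
        intro c1
        exact avg_comm _
      rw [hc]
      apply avg_le_of_le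
      intro u
      by_cases hgu : good u
      · simp only [hgu, true_and]
        have hs1 : #{i | Λ.e1 i ∈ Sp T sp u} ≤ s1 := by
          have := hg1 u hgu
          simpa [Sp] using this
        have hs2 : #{i | Λ.e2 i ∈ Sp T sp u} ≤ s2 := by
          have := hg2 u hgu
          simpa [Sp] using this
        exact near_prob hl1 hl2 Λ (Sp T sp u) F hF2 hF s0 s1 s2 m1 hF1 hF0 hs1 hs2 lam hlam hb1 hb2
      · simp only [hgu, false_and, if_false]
        rw [avg_const, avg_const]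
        exact hρ0
    have e1 : avg (fun c1 : Fin n × Fin K → Fin l1 => avg fun c2 : Fin n × Fin K → Fin l2 =>
        avg fun μ : Fin (n + 1) × Fin n → Fin q =>
        avg fun W : Fin (n + 1) × (Fin n → ZMod 2) → Fin (2 * G) =>
        ∑ x, (if good (pt Λ sp c1 c2 μ W x) ∧
          Phi (Sp T sp (pt Λ sp c1 c2 μ W x)) (pos Λ c1 c2 F) ≤ 4 then (1 : ℝ) else 0)) ≤
        2 ^ n * ρd := by
      refine le_trans (le_of_eq ?_) key
      apply avg_congr
      intro c1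
      apply avg_congr
      intro c2
      rw [← avg_const (α := Fin (n + 1) × Fin n → Fin q) (2 ^ n * avg fun
        u : Fin (n + 1) → Fin (2 * G) =>
          if good u ∧ Phi (Sp T sp u) (pos Λ c1 c2 F) ≤ 4 then (1 : ℝ) else 0)]
      apply avg_congr
      intro μ
      exact sum_avg_pt hG Λ sp c1 c2 μ (fun u =>
        if good u ∧ Phi (Sp T sp u) (pos Λ c1 c2 F) ≤ 4 then (1 : ℝ) else 0)
    have e2 : avg (fun c1 : Fin n × Fin K → Fin l1 => avg fun c2 : Fin n × Fin K → Fin l2 =>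
        avg fun μ : Fin (n + 1) × Fin n → Fin q =>
        avg fun W : Fin (n + 1) × (Fin n → ZMod 2) → Fin (2 * G) =>
        ∑ x, (if good (pt Λ sp c1 c2 μ W (x + F)) ∧
          Phi (Sp T sp (pt Λ sp c1 c2 μ W (x + F))) (pos Λ c1 c2 F) ≤ 4 then (1 : ℝ) else 0)) ≤
        2 ^ n * ρd := by
      refine le_trans (le_of_eq ?_) key
      apply avg_congr
      intro c1
      apply avg_congr
      intro c2
      rw [← avg_const (α := Fin (n + 1) × Fin n → Fin q) (2 ^ n * avg fun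
        u : Fin (n + 1) → Fin (2 * G) =>
          if good u ∧ Phi (Sp T sp u) (pos Λ c1 c2 F) ≤ 4 then (1 : ℝ) else 0)]
      apply avg_congr
      intro μ
      exact sum_avg_pt_shift hG Λ sp c1 c2 μ F (fun u =>
        if good u ∧ Phi (Sp T sp u) (pos Λ c1 c2 F) ≤ 4 then (1 : ℝ) else 0)
    calc _ ≤ 2 ^ n * ρd + 2 ^ n * ρd := add_le_add e1 e2
      _ = _ := by ring

end

end Pool.Agent.Helper38.Stretch
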