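import Pool.Agent.Helper38.Stretch.Defs

/-! Existence of the (discrete) optimal transport map (module M1).

Paper proof. Let `c' u y = ∑ i, if side (u i) = y i then 0 else |2 u i + 1 - M| : ℕ`
(so `cost = c'/M`), `k = M^N / #A : ℝ`.  Over the finite set of `η : A → {0..N*M}` maximise
`Φ η = ∑ u, min_{y∈A} (c' u y + η y) - k ∑ y∈A, η y`.
Comparing with `η + 1_y` (allowed if `η y < N*M`; if `η y = N*M` and some `η y0 = 0`, the strict cell
of `y` is empty since `c' ≤ N*(M-1)`; if all `η ≥ 1`, compare with `η - 1 + 1_y`) one gets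
`#{u | ∀ y' ∈ A, y' ≠ y → c' u y + η y < c' u y' + η y'} ≤ k`.
Points `u` with `c' u y + η y = c' u y' + η y'` for some `y' ≠ y`: at most `#A * M^(N-1)`
(pick `i` with `y i ≠ y' i`; given the other coordinates there is at most one value of `u i`).
Break ties by rank: `η' y = (B * η y + rank y) / (B * M)`, `B = #A + 1`, so argmin unique.
-/

namespace Pool.Agent.Helper38.Stretch

open Finset

noncomputable section

/-- integer cost -/
def ci {N M : ℕ} (u : Fin N → Fin M) (y : Fin N → Bool) : ℤ :=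
  ∑ i, if side (u i) = y i then 0 else |2 * ((u i : ℕ) : ℤ) + 1 - M|

theorem cost_eq_ci {N M : ℕ} (u : Fin N → Fin M) (y : Fin N → Bool) :
    cost u y = (ci u y : ℝ) / M := by
  unfold cost ci om
  push_cast
  rw [Finset.sum_div]
  apply Finset.sum_congr rfl
  intro i _
  split_ifs <;> simp

theorem ci_term {M : ℕ} (a : Fin M) (b : Bool) :
    (if side a = b then (0 : ℤ) else |2 * ((a : ℕ) : ℤ) + 1 - M|)
      = max 0 (2 * ((a : ℕ) : ℤ) + 1 - M) - bz b * (2 * ((a : ℕ) : ℤ) + 1 - M) := by
  unfold side bz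
  by_cases h : M ≤ 2 * (a : ℕ)
  · have h' : (M : ℤ) ≤ 2 * ((a : ℕ) : ℤ) := by exact_mod_cast h
    have h1 : (0 : ℤ) ≤ 2 * ((a : ℕ) : ℤ) + 1 - M := by linarith
    cases b <;> simp [h, abs_of_nonneg h1, max_eq_right h1]
  · have h' : 2 * ((a : ℕ) : ℤ) + 1 ≤ M := by
      have : 2 * (a : ℕ) + 1 ≤ M := by omega
      exact_mod_cast this
    have h1 : 2 * ((a : ℕ) : ℤ) + 1 - M ≤ 0 := by linarith
    cases b <;> simp [h, abs_of_nonpos h1, max_eq_left h1]

theorem ci_eq {N M : ℕ} (u : Fin N → Fin M) (y : Fin N → Bool) :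
    ci u y = ∑ i, max 0 (2 * ((u i : ℕ) : ℤ) + 1 - M)
      - ∑ i, bz (y i) * (2 * ((u i : ℕ) : ℤ) + 1 - M) := by
  unfold ci
  rw [← Finset.sum_sub_distrib]
  exact Finset.sum_congr rfl (fun i _ => ci_term (u i) (y i))

theorem ci_sub {N M : ℕ} (u : Fin N → Fin M) (y y' : Fin N → Bool) :
    ci u y - ci u y' = - ∑ i, (bz (y i) - bz (y' i)) * (2 * ((u i : ℕ) : ℤ) + 1 - M) := by
  rw [ci_eq, ci_eq]
  have : ∑ i, (bz (y i) - bz (y' i)) * (2 * ((u i : ℕ) : ℤ) + 1 - M)
      = ∑ i, bz (y i) * (2 * ((u i : ℕ) : ℤ) + 1 - M)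
        - ∑ i, bz (y' i) * (2 * ((u i : ℕ) : ℤ) + 1 - M) := by
    rw [← Finset.sum_sub_distrib]
    exact Finset.sum_congr rfl (fun i _ => by ring)
  rw [this]
  ring

theorem ci_nonneg {N M : ℕ} (u : Fin N → Fin M) (y : Fin N → Bool) : 0 ≤ ci u y := by
  unfold ci
  apply Finset.sum_nonneg
  intro i _
  split_ifs
  · exact le_rfl
  · exact abs_nonneg _

theorem ci_le {N M : ℕ} (u : Fin N → Fin M) (y : Fin N → Bool) :
    ci u y ≤ ((N * M : ℕ) : ℤ) := by
  unfold ci
  calc ∑ i, (if side (u i) = y i then (0 : ℤ) else |2 * ((u i : ℕ) : ℤ) + 1 - M|)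
      ≤ ∑ _i : Fin N, (M : ℤ) := by
        apply Finset.sum_le_sum
        intro i _
        have h1 : ((u i : ℕ) : ℤ) < M := by exact_mod_cast (u i).2
        have h2 : (0 : ℤ) ≤ ((u i : ℕ) : ℤ) := by positivity
        split_ifs
        · positivity
        · rw [abs_le]; constructor <;> linarith
    _ = ((N * M : ℕ) : ℤ) := by simp

/-- the tie set of two different points is small -/
theorem card_tie_le {N M : ℕ} {y y' : Fin N → Bool} (hyy : y ≠ y') (d : ℤ) :
    #{u : Fin N → Fin M | ci u y - ci u y' = d} ≤ M ^ (N - 1) := by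
  classical
  obtain ⟨i, hi⟩ := Function.ne_iff.1 hyy
  have hinj : Set.InjOn (fun u : Fin N → Fin M => (fun j : {j : Fin N // j ≠ i} => u j.1))
      (({u : Fin N → Fin M | ci u y - ci u y' = d} : Finset _) : Set (Fin N → Fin M)) := by
    intro u hu v hv huv
    have hu' : ci u y - ci u y' = d := by simpa using hu
    have hv' : ci v y - ci v y' = d := by simpa using hv
    have hoff : ∀ j, j ≠ i → u j = v j := fun j hj => congrFun huv ⟨j, hj⟩
    funext j
    by_cases hj : j = i
    · subst hj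
      rw [ci_sub] at hu' hv'
      have h3 : ∑ i, (bz (y i) - bz (y' i)) * (2 * ((u i : ℕ) : ℤ) + 1 - M)
          = ∑ i, (bz (y i) - bz (y' i)) * (2 * ((v i : ℕ) : ℤ) + 1 - M) := by linarith
      rw [← sub_eq_zero, ← Finset.sum_sub_distrib, Finset.sum_eq_single j] at h3
      · have h4 : (bz (y j) - bz (y' j)) * (2 * (((u j : ℕ) : ℤ) - ((v j : ℕ) : ℤ))) = 0 := by
          rw [← h3]; ring
        have h5 : bz (y j) - bz (y' j) ≠ 0 := by
          unfold bz
          revert hi
          cases y j <;> cases y' j <;> simp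
        have h6 : ((u j : ℕ) : ℤ) = ((v j : ℕ) : ℤ) := by
          rcases mul_eq_zero.1 h4 with h | h
          · exact absurd h h5
          · linarith
        exact Fin.ext (by exact_mod_cast h6)
      · intro b _ hb
        rw [hoff b hb]; ring
      · intro h; exact absurd (Finset.mem_univ _) h
    · exact hoff j hj
  calc #{u : Fin N → Fin M | ci u y - ci u y' = d}
      ≤ #(univ : Finset ({j : Fin N // j ≠ i} → Fin M)) :=
        Finset.card_le_card_of_injOn _ (fun _ _ => Finset.mem_coe.2 (Finset.mem_univ _)) hinj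
    _ = M ^ (N - 1) := by
        rw [Finset.card_univ, Fintype.card_fun, Fintype.card_fin, Fintype.card_subtype_compl,
          Fintype.card_fin, Fintype.card_subtype_eq]

/-- The dual functional (times `#A`). -/
def PhiOT {N M : ℕ} (A : Finset (Fin N → Bool)) (hA : A.Nonempty) (η : (Fin N → Bool) → ℕ) : ℤ :=
  (#A : ℤ) * ∑ u : Fin N → Fin M, A.inf' hA (fun y => ci u y + (η y : ℤ))
    - (M : ℤ) ^ N * ∑ y ∈ A, (η y : ℤ)

theorem exists_prices {N M : ℕ} (hM : 0 < M) (A : Finset (Fin N → Bool)) (hA : A.Nonempty) :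
    ∃ η : (Fin N → Bool) → ℕ, ∀ y ∈ A,
      #A * #{u : Fin N → Fin M | ∀ y' ∈ A, y' ≠ y → ci u y + (η y : ℤ) < ci u y' + (η y' : ℤ)}
        ≤ M ^ N := by
  classical
  have hApos : (1 : ℤ) ≤ (#A : ℤ) := by exact_mod_cast hA.card_pos
  obtain ⟨η₀, -, hmax⟩ := Finset.exists_max_image
    (Finset.univ : Finset ((Fin N → Bool) → Fin (N * M + 1)))
    (fun η => 2 * PhiOT (M := M) A hA (fun y => (η y : ℕ)) - ∑ y ∈ A, ((η y : ℕ) : ℤ))
    ⟨fun _ => 0, Finset.mem_univ _⟩
  set η : (Fin N → Bool) → ℕ := fun y => (η₀ y : ℕ) with hη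
  have hmax' : ∀ ζ : (Fin N → Bool) → ℕ, (∀ y, ζ y ≤ N * M) →
      2 * PhiOT (M := M) A hA ζ - ∑ y ∈ A, (ζ y : ℤ)
        ≤ 2 * PhiOT (M := M) A hA η - ∑ y ∈ A, (η y : ℤ) := by
    intro ζ hζ
    exact hmax (fun y => ⟨ζ y, Nat.lt_succ_of_le (hζ y)⟩) (Finset.mem_univ _)
  have hηle : ∀ y, η y ≤ N * M := fun y => Nat.lt_succ_iff.1 (η₀ y).2
  -- some price vanishes
  have hzero : ∃ y₀ ∈ A, η y₀ = 0 := by
    by_contra hcon
    push Not at hcon
    have hpos : ∀ y ∈ A, 1 ≤ η y := fun y hy => Nat.one_le_iff_ne_zero.2 (hcon y hy)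
    have hcast : ∀ y ∈ A, ((η y - 1 : ℕ) : ℤ) = (η y : ℤ) - 1 := fun y hy => by
      rw [Nat.cast_sub (hpos y hy)]; simp
    have h1 := hmax' (fun y => η y - 1) (fun y => (Nat.sub_le _ _).trans (hηle y))
    have hsum : ∑ y ∈ A, ((η y - 1 : ℕ) : ℤ) = ∑ y ∈ A, (η y : ℤ) - #A := by
      rw [Finset.sum_congr rfl hcast, Finset.sum_sub_distrib]
      simp
    have hinf : ∀ u : Fin N → Fin M,
        A.inf' hA (fun y => ci u y + ((η y - 1 : ℕ) : ℤ))
          = A.inf' hA (fun y => ci u y + (η y : ℤ)) - 1 := by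
      intro u
      apply le_antisymm
      · obtain ⟨y, hy, hyeq⟩ := Finset.exists_mem_eq_inf' hA (fun y => ci u y + (η y : ℤ))
        rw [hyeq]
        refine (Finset.inf'_le _ hy).trans ?_
        rw [hcast y hy]
        linarith
      · apply Finset.le_inf'
        intro y hy
        have := Finset.inf'_le (fun y => ci u y + (η y : ℤ)) hy
        rw [hcast y hy]
        linarith
    have hPhi : PhiOT (M := M) A hA (fun y => η y - 1) = PhiOT (M := M) A hA η := by
      unfold PhiOT
      rw [hsum, Finset.sum_congr rfl (fun u _ => hinf u), Finset.sum_sub_distrib]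
      simp only [Finset.sum_const, Finset.card_univ, Fintype.card_fun, Fintype.card_fin]
      simp
      ring
    rw [hPhi, hsum] at h1
    linarith
  obtain ⟨y₀, hy₀A, hy₀⟩ := hzero
  refine ⟨η, fun y hy => ?_⟩
  rcases lt_or_eq_of_le (hηle y) with hlt | heq
  · -- raise the price of `y`
    set St : Finset (Fin N → Fin M) :=
      {u : Fin N → Fin M | ∀ y' ∈ A, y' ≠ y → ci u y + (η y : ℤ) < ci u y' + (η y' : ℤ)} with hSt
    set ζ : (Fin N → Bool) → ℕ := Function.update η y (η y + 1) with hζ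
    have hζy : ζ y = η y + 1 := by simp [hζ]
    have hζo : ∀ y', y' ≠ y → ζ y' = η y' := fun y' h => by simp [hζ, h]
    have h1 := hmax' ζ (by
      intro y'
      by_cases h : y' = y
      · rw [h, hζy]; omega
      · rw [hζo y' h]; exact hηle y')
    have hsum : ∑ y ∈ A, (ζ y : ℤ) = ∑ y ∈ A, (η y : ℤ) + 1 := by
      rw [← Finset.add_sum_erase A _ hy, ← Finset.add_sum_erase A (fun y => (η y : ℤ)) hy, hζy]
      rw [Finset.sum_congr rfl (g := fun y => (η y : ℤ))
        (fun x hx => by rw [hζo x (Finset.ne_of_mem_erase hx)])]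
      push_cast
      ring
    have hge : ∀ u : Fin N → Fin M, A.inf' hA (fun y => ci u y + (η y : ℤ)) +
        (if u ∈ St then 1 else 0) ≤ A.inf' hA (fun y => ci u y + (ζ y : ℤ)) := by
      intro u
      apply Finset.le_inf'
      intro y' hy'
      by_cases h : y' = y
      · subst h
        have h2 := Finset.inf'_le (fun y => ci u y + (η y : ℤ)) hy'
        rw [hζy]
        push_cast
        split_ifs <;> linarith
      · rw [hζo y' h]
        have h2 := Finset.inf'_le (fun y => ci u y + (η y : ℤ)) hy'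
        split_ifs with hu
        · have h3 : ci u y + (η y : ℤ) < ci u y' + (η y' : ℤ) :=
            (Finset.mem_filter.1 hu).2 y' hy' h
          have h4 := Finset.inf'_le (fun y => ci u y + (η y : ℤ)) hy
          linarith [Int.add_one_le_iff.2 h3]
        · linarith
    have hPhi : PhiOT (M := M) A hA η + ((#A : ℤ) * #St - (M : ℤ) ^ N) ≤ PhiOT (M := M) A hA ζ := by
      unfold PhiOT
      rw [hsum]
      have h2 : ∑ u : Fin N → Fin M, A.inf' hA (fun y => ci u y + (η y : ℤ)) + (#St : ℤ)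
          ≤ ∑ u : Fin N → Fin M, A.inf' hA (fun y => ci u y + (ζ y : ℤ)) := by
        have h3 := Finset.sum_le_sum (s := (Finset.univ : Finset (Fin N → Fin M)))
          (fun u _ => hge u)
        rw [Finset.sum_add_distrib] at h3
        have h4 : ∑ u : Fin N → Fin M, (if u ∈ St then (1 : ℤ) else 0) = #St := by
          rw [Finset.sum_boole]
          simp
        rw [h4] at h3
        exact h3
      have h5 := mul_le_mul_of_nonneg_left h2 (by linarith : (0 : ℤ) ≤ (#A : ℤ))
      linarith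
    have h6 : (#A : ℤ) * #St - (M : ℤ) ^ N ≤ 0 := by
      rw [hsum] at h1
      by_contra hcon
      push Not at hcon
      have : (1 : ℤ) ≤ (#A : ℤ) * #St - (M : ℤ) ^ N := hcon
      linarith
    have h7 : (#A : ℤ) * #St ≤ (M : ℤ) ^ N := by linarith
    exact_mod_cast h7
  · by_cases hyy : y₀ = y
    · have hNM : N * M = 0 := by rw [← heq, ← hyy, hy₀]
      have hN : N = 0 := by
        rcases Nat.mul_eq_zero.1 hNM with h | h
        · exact h
        · omega
      subst hN
      have h1 : #A ≤ 1 := by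
        have := Finset.card_le_univ A
        simpa using this
      have h2 : #{u : Fin 0 → Fin M | ∀ y' ∈ A, y' ≠ y →
          ci u y + (η y : ℤ) < ci u y' + (η y' : ℤ)} ≤ 1 := by
        have := Finset.card_le_univ ({u : Fin 0 → Fin M | ∀ y' ∈ A, y' ≠ y →
          ci u y + (η y : ℤ) < ci u y' + (η y' : ℤ)} : Finset _)
        simpa using this
      simpa using Nat.mul_le_mul h1 h2
    · have hempty : ({u : Fin N → Fin M | ∀ y' ∈ A, y' ≠ y →
          ci u y + (η y : ℤ) < ci u y' + (η y' : ℤ)} : Finset _) = ∅ := by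
        rw [Finset.filter_eq_empty_iff]
        intro u _ hu
        have h1 := hu y₀ hy₀A hyy
        rw [heq, hy₀] at h1
        have h2 := ci_nonneg u y
        have h3 := ci_le u y₀
        push_cast at h1 h3
        linarith
      rw [hempty]
      simp

theorem exists_OT {N M : ℕ} (hM : 0 < M) (A : Finset (Fin N → Bool)) (hA : A.Nonempty) :
    ∃ (η : (Fin N → Bool) → ℝ) (T : (Fin N → Fin M) → (Fin N → Bool)),
      (∀ u, T u ∈ A) ∧
      (∀ u, ∀ y ∈ A, y ≠ T u → cost u (T u) + η (T u) < cost u y + η y) ∧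
      (∀ y, (#{u | T u = y} : ℝ) ≤ (M : ℝ) ^ N / #A + #A * (M : ℝ) ^ (N - 1)) := by
  classical
  obtain ⟨η, hη⟩ := exists_prices (M := M) hM A hA
  set B : ℕ := Fintype.card (Fin N → Bool) with hB
  have hBpos : 0 < B := Fintype.card_pos
  set rank : (Fin N → Bool) → ℕ := fun y => (Fintype.equivFin (Fin N → Bool) y : ℕ) with hrank
  have hrlt : ∀ y, rank y < B := fun y => (Fintype.equivFin (Fin N → Bool) y).2
  have hrinj : ∀ y y', rank y = rank y' → y = y' := fun y y' h =>
    (Fintype.equivFin (Fin N → Bool)).injective (Fin.ext h)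
  set G : (Fin N → Fin M) → (Fin N → Bool) → ℤ :=
    fun u y => (B : ℤ) * (ci u y + (η y : ℤ)) + (rank y : ℤ) with hG
  have hex : ∀ u, ∃ y ∈ A, ∀ y' ∈ A, G u y ≤ G u y' := fun u =>
    Finset.exists_min_image A (G u) hA
  choose T hTA hTmin using hex
  have hM0 : (0 : ℝ) < M := by exact_mod_cast hM
  have hB0 : (0 : ℝ) < B := by exact_mod_cast hBpos
  have hB0z : (0 : ℤ) < B := by exact_mod_cast hBpos
  have hA0 : (0 : ℝ) < #A := by exact_mod_cast hA.card_pos
  have hGcost : ∀ u y, cost u y + ((B : ℝ) * (η y : ℝ) + rank y) / (B * M) = (G u y : ℝ) / (B * M) := by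
    intro u y
    rw [cost_eq_ci, hG]
    push_cast
    field_simp
    ring
  have hstrict : ∀ u, ∀ y ∈ A, y ≠ T u → G u (T u) < G u y := by
    intro u y hy hne
    rcases lt_or_eq_of_le (hTmin u y hy) with h | h
    · exact h
    · exfalso
      apply hne
      apply hrinj
      have h2 : (B : ℤ) * (ci u (T u) + (η (T u) : ℤ)) + (rank (T u) : ℤ)
          = (B : ℤ) * (ci u y + (η y : ℤ)) + (rank y : ℤ) := h
      have h3 : (rank y : ℤ) = (rank (T u) : ℤ) := by
        have e1 : ((rank (T u) : ℤ)) % B = rank (T u) := Int.emod_eq_of_lt (by positivity)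
          (by exact_mod_cast hrlt _)
        have e2 : ((rank y : ℤ)) % B = rank y := Int.emod_eq_of_lt (by positivity)
          (by exact_mod_cast hrlt _)
        have e3 := congrArg (fun z : ℤ => z % B) h2
        simp only [Int.mul_add_emod_self_left] at e3
        rw [e1, e2] at e3
        exact e3.symm
      exact_mod_cast h3
  refine ⟨fun y => ((B : ℝ) * (η y : ℝ) + rank y) / (B * M), T, hTA, ?_, ?_⟩
  · intro u y hy hne
    rw [hGcost, hGcost]
    apply div_lt_div_of_pos_right _ (by positivity)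
    exact_mod_cast hstrict u y hy hne
  · intro y
    by_cases hy : y ∈ A
    · have hsub : ({u | T u = y} : Finset (Fin N → Fin M)) ⊆
          ({u : Fin N → Fin M | ∀ y' ∈ A, y' ≠ y →
            ci u y + (η y : ℤ) < ci u y' + (η y' : ℤ)} : Finset _) ∪
          (A.erase y).biUnion (fun y' =>
            ({u : Fin N → Fin M | ci u y - ci u y' = (η y' : ℤ) - (η y : ℤ)} : Finset _)) := by
        intro u hu
        have hTu : T u = y := by simpa using hu
        rw [Finset.mem_union]
        by_cases hall : ∀ y' ∈ A, y' ≠ y → ci u y + (η y : ℤ) < ci u y' + (η y' : ℤ)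
        · left
          simpa using hall
        · right
          push Not at hall
          obtain ⟨y', hy', hne, hle⟩ := hall
          refine Finset.mem_biUnion.2 ⟨y', Finset.mem_erase.2 ⟨hne, hy'⟩, ?_⟩
          have h1 : G u (T u) < G u y' := hstrict u y' hy' (by rw [hTu]; exact hne)
          rw [hTu] at h1
          have h2 : (B : ℤ) * (ci u y + (η y : ℤ)) + (rank y : ℤ)
            < (B : ℤ) * (ci u y' + (η y' : ℤ)) + (rank y' : ℤ) := h1
          have h3 : (rank y' : ℤ) < B := by exact_mod_cast hrlt y'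
          have h4 : (0 : ℤ) ≤ rank y := by positivity
          have h5 : ci u y + (η y : ℤ) ≤ ci u y' + (η y' : ℤ) := by
            by_contra hcon
            push Not at hcon
            have h6 : ci u y' + (η y' : ℤ) + 1 ≤ ci u y + (η y : ℤ) := hcon
            have h7 := mul_le_mul_of_nonneg_left h6 hB0z.le
            linarith
          have h8 : ci u y + (η y : ℤ) = ci u y' + (η y' : ℤ) := le_antisymm h5 hle
          rw [Finset.mem_filter]
          exact ⟨Finset.mem_univ _, by linarith⟩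
      have hcard : #({u | T u = y} : Finset (Fin N → Fin M)) ≤
          #({u : Fin N → Fin M | ∀ y' ∈ A, y' ≠ y →
            ci u y + (η y : ℤ) < ci u y' + (η y' : ℤ)} : Finset _) + #A * M ^ (N - 1) := by
        refine (Finset.card_le_card hsub).trans ((Finset.card_union_le _ _).trans ?_)
        apply Nat.add_le_add_left
        calc #((A.erase y).biUnion (fun y' =>
            ({u : Fin N → Fin M | ci u y - ci u y' = (η y' : ℤ) - (η y : ℤ)} : Finset _)))
            ≤ ∑ y' ∈ A.erase y, M ^ (N - 1) := by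
              refine Finset.card_biUnion_le.trans (Finset.sum_le_sum ?_)
              intro y' hy'
              exact card_tie_le (Finset.ne_of_mem_erase hy').symm _
          _ = #(A.erase y) * M ^ (N - 1) := by simp
          _ ≤ #A * M ^ (N - 1) := Nat.mul_le_mul_right _ (Finset.card_le_card (Finset.erase_subset _ _))
      have h1 := hη y hy
      have h2 : (#A : ℝ) * (#({u : Fin N → Fin M | ∀ y' ∈ A, y' ≠ y →
            ci u y + (η y : ℤ) < ci u y' + (η y' : ℤ)} : Finset _) : ℝ) ≤ (M : ℝ) ^ N := by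
        exact_mod_cast h1
      have h3 : (#({u | T u = y} : Finset (Fin N → Fin M)) : ℝ) ≤
          (#({u : Fin N → Fin M | ∀ y' ∈ A, y' ≠ y →
            ci u y + (η y : ℤ) < ci u y' + (η y' : ℤ)} : Finset _) : ℝ)
            + #A * (M : ℝ) ^ (N - 1) := by
        exact_mod_cast hcard
      refine h3.trans ?_
      gcongr
      rw [le_div_iff₀ hA0, mul_comm]
      exact h2
    · have hempty : ({u | T u = y} : Finset (Fin N → Fin M)) = ∅ := by
        rw [Finset.filter_eq_empty_iff]
        intro u _ hu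
        exact hy (hu ▸ hTA u)
      rw [hempty]
      simp only [Finset.card_empty, Nat.cast_zero]
      positivity

/-- optimality implies monotonicity:
`cost u y - cost u y' = - ∑ i, (bz (y i) - bz (y' i)) * (2 u i + 1 - M) / M`. -/
theorem mono_of_opt {N M : ℕ} (hM : 0 < M) {A : Finset (Fin N → Bool)}
    {η : (Fin N → Bool) → ℝ} {T : (Fin N → Fin M) → (Fin N → Bool)}
    (hmem : ∀ u, T u ∈ A)
    (hopt : ∀ u, ∀ y ∈ A, y ≠ T u → cost u (T u) + η (T u) < cost u y + η y) : Mono T := by
  intro u v huv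
  have h1 := hopt u (T v) (hmem v) huv.symm
  have h2 := hopt v (T u) (hmem u) huv
  have hM0 : (0 : ℝ) < M := by exact_mod_cast hM
  have h3 : cost u (T u) - cost u (T v) + (cost v (T v) - cost v (T u)) < 0 := by linarith
  rw [cost_eq_ci, cost_eq_ci, cost_eq_ci, cost_eq_ci, ← sub_div, ← sub_div, ← add_div] at h3
  have h4 : ((ci u (T u) : ℝ) - ci u (T v) + ((ci v (T v) : ℝ) - ci v (T u))) < 0 := by
    by_contra hcon
    push Not at hcon
    exact absurd h3 (not_lt.2 (div_nonneg hcon hM0.le))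
  have h5 : ci u (T u) - ci u (T v) + (ci v (T v) - ci v (T u)) < 0 := by exact_mod_cast h4
  rw [ci_sub, ci_sub] at h5
  have h6 : -∑ i, (bz (T u i) - bz (T v i)) * (2 * ((u i : ℕ) : ℤ) + 1 - M) +
      -∑ i, (bz (T v i) - bz (T u i)) * (2 * ((v i : ℕ) : ℤ) + 1 - M)
      = - (2 * ∑ i, (bz (T u i) - bz (T v i)) * (((u i : ℕ) : ℤ) - ((v i : ℕ) : ℤ))) := by
    rw [Finset.mul_sum, ← Finset.sum_neg_distrib, ← Finset.sum_neg_distrib,
      ← Finset.sum_neg_distrib, ← Finset.sum_add_distrib]
    exact Finset.sum_congr rfl (fun i _ => by ring)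
  rw [h6] at h5
  linarith

end

end Pool.Agent.Helper38.Stretch
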