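import Pool.Agent.Helper38.Stretch.Near

/-! Second moment (module M10, part 3). -/

namespace Pool.Agent.Helper38.Stretch

open Finset

noncomputable section

variable {n K q G l1 l2 : ℕ} {A : Finset (Fin (n + 1) → Bool)}
  {T : (Fin (n + 1) → Fin (2 * G)) → (Fin (n + 1) → Bool)} {κ ε : ℝ}
  {Q : (Fin (n + 1) → Bool) → (Fin (n + 1) → Bool) → ℝ}

/-- set of shared noise coordinates of two labels with difference `F` -/
def II (Λ : Lev n l1 l2) (μ : Fin (n + 1) × Fin n → Fin q) (F : Fin n → ZMod 2) :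
    Finset (Fin (n + 1)) :=
  {i | ∀ j, (Λ.lev j = 2 ∨ (Λ.lev j = 1 ∧ ((μ (i, j) : Fin q) : ℕ) = 0)) → F j = 0}

lemma zm_eq_iff (Λ : Lev n l1 l2) (μ : Fin (n + 1) × Fin n → Fin q) (x F : Fin n → ZMod 2)
    (i : Fin (n + 1)) : zm Λ μ i x = zm Λ μ i (x + F) ↔ i ∈ II Λ μ F := by
  simp only [II, Finset.mem_filter, Finset.mem_univ, true_and]
  constructor
  · intro h j hj
    have h1 := congrFun h j
    unfold zm at h1
    rw [if_pos hj, if_pos hj, Pi.add_apply] at h1
    simpa using h1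
  · intro h
    funext j
    unfold zm
    split_ifs with hj
    · rw [Pi.add_apply, h j hj, add_zero]
    · rfl

/-- pair average with noise shared on `I` -/
def rhoI (T : (Fin (n + 1) → Fin (2 * G)) → (Fin (n + 1) → Bool))
    (Q : (Fin (n + 1) → Bool) → (Fin (n + 1) → Bool) → ℝ) (sp : Fin (n + 1))
    (I : Finset (Fin (n + 1))) (P P' : Fin n → ZMod 2) : ℝ :=
  avg fun ω : Fin (n + 1) → Fin (2 * G) => avg fun ω' : Fin (n + 1) → Fin (2 * G) =>
      RK Q (T (place sp P ω)) (T (place sp P' (mixI I ω ω')))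

lemma rhoI_nonneg (hQ : Ker (n + 1) Q κ) (sp : Fin (n + 1))
    (I : Finset (Fin (n + 1))) (P P' : Fin n → ZMod 2) : 0 ≤ rhoI T Q sp I P P' :=
  avg_nonneg fun _ => avg_nonneg fun _ => hQ.RK_nonneg _ _

lemma avg_pair (hG : 0 < G) (Λ : Lev n l1 l2) (sp : Fin (n + 1))
    (c1 : Fin n × Fin K → Fin l1) (c2 : Fin n × Fin K → Fin l2)
    (μ : Fin (n + 1) × Fin n → Fin q) (x F : Fin n → ZMod 2) :
    avg (fun W => RK Q (T (pt Λ sp c1 c2 μ W x)) (T (pt Λ sp c1 c2 μ W (x + F)))) =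
      rhoI T Q sp (II Λ μ F) (pos Λ c1 c2 x) (pos Λ c1 c2 (x + F)) := by
  have : Nonempty (Fin (2 * G)) := ⟨⟨0, by omega⟩⟩
  have h := two_point (n := n) (M := 2 * G) (fun a a' =>
    RK Q (T (place sp (pos Λ c1 c2 x) a)) (T (place sp (pos Λ c1 c2 (x + F)) a')))
    (fun i => zm Λ μ i x) (fun i => zm Λ μ i (x + F))
  unfold pt noise rhoI mixI
  rw [h]
  apply avg_congr
  intro ω
  apply avg_congr
  intro ω'
  congr 3
  funext i
  simp only [zm_eq_iff]

lemma avg_ne_zero (hq : 0 < q) :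
    avg (fun a : Fin q => if (a : ℕ) = 0 then (0 : ℝ) else 1) = 1 - 1 / q := by
  have hq' : (q : ℝ) ≠ 0 := by positivity
  have h1 : avg (fun a : Fin q => if (a : ℕ) = 0 then (0 : ℝ) else 1) =
      avg (fun a : Fin q => (1 : ℝ) - if (a : ℕ) = 0 then (1 : ℝ) else 0) := by
    apply avg_congr
    intro a
    split_ifs <;> norm_num
  have : Nonempty (Fin q) := ⟨⟨0, hq⟩⟩
  rw [h1, avg_sub, avg_const]
  congr 1
  unfold avg
  rw [Fintype.card_fin, Finset.sum_boole]
  congr 1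
  have : ({a : Fin q | (a : ℕ) = 0} : Finset (Fin q)) = {⟨0, hq⟩} := by
    ext a
    simp [Fin.ext_iff]
  rw [this]
  simp

/-- probability that the shared set is `I` -/
lemma prob_II (hq : 0 < q) (Λ : Lev n l1 l2) (F : Fin n → ZMod 2) (m1 : ℕ)
    (hF : (∃ j, Λ.lev j = 2 ∧ F j ≠ 0) ∨ m1 ≤ #{j | Λ.lev j = 1 ∧ F j ≠ 0})
    (I : Finset (Fin (n + 1))) :
    avg (fun μ : Fin (n + 1) × Fin n → Fin q => if II Λ μ F = I then (1 : ℝ) else 0) ≤
      ((1 - 1 / (q : ℝ)) ^ m1) ^ #I := by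
  have : Nonempty (Fin q) := ⟨⟨0, hq⟩⟩
  have hq1 : (1 : ℝ) ≤ q := by exact_mod_cast hq
  have hr0 : (0 : ℝ) ≤ 1 - 1 / q := by
    rw [sub_nonneg, div_le_one (by positivity)]; exact hq1
  have hr1 : (1 : ℝ) - 1 / q ≤ 1 := by
    have : (0 : ℝ) ≤ 1 / q := by positivity
    linarith
  rcases hF with ⟨j, hj2, hjF⟩ | hF
  · rcases I.eq_empty_or_nonempty with hI | hI
    · subst hI
      simp only [Finset.card_empty, pow_zero]
      apply avg_le_of_le
      intro μ
      split_ifs <;> norm_num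
    · have h0 : ∀ μ : Fin (n + 1) × Fin n → Fin q, II Λ μ F ≠ I := by
        intro μ h
        obtain ⟨i, hi⟩ := hI
        rw [← h] at hi
        simp only [II, Finset.mem_filter, Finset.mem_univ, true_and] at hi
        exact hjF (hi j (Or.inl hj2))
      simp only [h0, if_false]
      rw [avg_const]
      positivity
  · set F1 : Finset (Fin n) := {j | Λ.lev j = 1 ∧ F j ≠ 0} with hF1
    let g : Fin (n + 1) × Fin n → Fin q → ℝ := fun p a =>
      if p.1 ∈ I ∧ p.2 ∈ F1 then (if (a : ℕ) = 0 then (0 : ℝ) else 1) else 1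
    have hpt : ∀ μ : Fin (n + 1) × Fin n → Fin q, (if II Λ μ F = I then (1 : ℝ) else 0) ≤
        ∏ p : Fin (n + 1) × Fin n, g p (μ p) := by
      intro μ
      split_ifs with h
      · apply le_of_eq
        symm
        apply Finset.prod_eq_one
        rintro ⟨i, j⟩ _
        simp only [g]
        split_ifs with h1 h2
        · exfalso
          obtain ⟨hi, hj⟩ := h1
          rw [← h] at hi
          simp only [II, Finset.mem_filter, Finset.mem_univ, true_and] at hi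
          simp only [hF1, Finset.mem_filter, Finset.mem_univ, true_and] at hj
          exact hj.2 (hi j (Or.inr ⟨hj.1, h2⟩))
        · rfl
        · rfl
      · apply Finset.prod_nonneg
        rintro p _
        simp only [g]
        split_ifs <;> norm_num
    refine (avg_mono hpt).trans ?_
    rw [avg_pi_prod g]
    have h2 : ∀ p : Fin (n + 1) × Fin n, avg (g p) =
        if p ∈ I ×ˢ F1 then (1 - 1 / (q : ℝ)) else 1 := by
      intro p
      by_cases h : p.1 ∈ I ∧ p.2 ∈ F1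
      · rw [if_pos (Finset.mem_product.2 h)]
        simp only [g, if_pos h]
        exact avg_ne_zero hq
      · rw [if_neg (fun h' => h (Finset.mem_product.1 h'))]
        simp only [g, if_neg h]
        exact avg_const _
    rw [Finset.prod_congr rfl (fun p _ => h2 p), Finset.prod_ite_mem, Finset.univ_inter,
      Finset.prod_const, Finset.card_product, ← pow_mul, mul_comm]
    apply pow_le_pow_of_le_one hr0 hr1
    exact Nat.mul_le_mul_right _ hF

lemma sum_pow_card (s : ℝ) : ∑ I : Finset (Fin (n + 1)), s ^ #I = (1 + s) ^ (n + 1) := by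
  have h := Finset.sum_pow_mul_eq_add_pow s 1 (univ : Finset (Fin (n + 1)))
  rw [Finset.powerset_univ] at h
  simp only [one_pow, mul_one, Finset.card_univ, Fintype.card_fin] at h
  rw [h, add_comm]

lemma sum_pow_supp (ρ : ℝ) : ∑ F : Fin n → ZMod 2, ρ ^ #{j | F j ≠ 0} = (1 + ρ) ^ n := by
  have h := Finset.prod_univ_sum (fun _ : Fin n => (univ : Finset (ZMod 2)))
    (fun _ z => if z ≠ 0 then ρ else 1)
  rw [Fintype.piFinset_univ] at h
  have h1 : ∑ z : ZMod 2, (if z ≠ 0 then ρ else 1) = 1 + ρ := by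
    have : ∀ g : ZMod 2 → ℝ, ∑ z : ZMod 2, g z = g 0 + g 1 := fun g => Fin.sum_univ_two g
    rw [this]
    simp
  rw [h1, Finset.prod_const, Finset.card_univ, Fintype.card_fin] at h
  rw [h]
  apply Finset.sum_congr rfl
  intro F _
  rw [Finset.prod_ite, Finset.prod_const, Finset.prod_const_one, mul_one]

/-- the far pairs -/
lemma far_pairs (hG : 0 < G) (hq : 0 < q) (hl1 : 0 < l1) (hl2 : 0 < l2) (hT : Mono T)
    (hQ : Ker (n + 1) Q κ) (hε : 0 ≤ ε) (Λ : Lev n l1 l2) (sp : Fin (n + 1))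
    (hmem : ∀ u, T u ∈ A)
    (hbal : ∀ y, (#{u | T u = y} : ℝ) ≤ (1 + ε) * ((2 * G : ℕ) : ℝ) ^ (n + 1) / 2 ^ n)
    (m1 : ℕ) (S : Finset (Fin n → ZMod 2))
    (hS : ∀ F ∈ S, (∃ j, Λ.lev j = 2 ∧ F j ≠ 0) ∨ m1 ≤ #{j | Λ.lev j = 1 ∧ F j ≠ 0}) :
    ∑ F ∈ S, avg (fun w : Om n K q G l1 l2 =>
      ∑ x, RK Q (T (PT Λ sp w x)) (T (PT Λ sp w (x + F)))) ≤
    (1 + ε) ^ 2 * ∑ y ∈ A, ∑ y' ∈ A, RK Q y y' +
      (1 + ε) * 2 ^ n * ((1 + 2 * (1 - 1 / (q : ℝ)) ^ m1) ^ (n + 1) - 1) := by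
  have : Nonempty (Fin l1) := ⟨⟨0, hl1⟩⟩
  have : Nonempty (Fin l2) := ⟨⟨0, hl2⟩⟩
  have : Nonempty (Fin q) := ⟨⟨0, hq⟩⟩
  have : Nonempty (Fin (2 * G)) := ⟨⟨0, by omega⟩⟩
  have hq1 : (1 : ℝ) ≤ q := by exact_mod_cast hq
  have hr0 : (0 : ℝ) ≤ 1 - 1 / q := by
    rw [sub_nonneg, div_le_one (by positivity)]; exact hq1
  set s : ℝ := (1 - 1 / (q : ℝ)) ^ m1 with hs
  have hs0 : 0 ≤ s := by positivity
  have h1 : ∀ F ∈ S, avg (fun w : Om n K q G l1 l2 =>
      ∑ x, RK Q (T (PT Λ sp w x)) (T (PT Λ sp w (x + F)))) ≤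
      avg fun c1 : Fin n × Fin K → Fin l1 => avg fun c2 : Fin n × Fin K → Fin l2 =>
        ∑ I : Finset (Fin (n + 1)), s ^ #I *
          ∑ x, rhoI T Q sp I (pos Λ c1 c2 x) (pos Λ c1 c2 (x + F)) := by
    intro F hF
    rw [avg_Om]
    apply avg_mono
    intro c1
    apply avg_mono
    intro c2
    have h2 : ∀ μ : Fin (n + 1) × Fin n → Fin q, (avg fun W => ∑ x,
        RK Q (T (PT Λ sp ((c1, c2, μ, W) : Om n K q G l1 l2) x))
          (T (PT Λ sp ((c1, c2, μ, W) : Om n K q G l1 l2) (x + F)))) =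
        ∑ I : Finset (Fin (n + 1)), (if II Λ μ F = I then (1 : ℝ) else 0) *
          ∑ x, rhoI T Q sp I (pos Λ c1 c2 x) (pos Λ c1 c2 (x + F)) := by
      intro μ
      rw [avg_sum]
      have h3 : ∀ x, (avg fun W => RK Q (T (PT Λ sp ((c1, c2, μ, W) : Om n K q G l1 l2) x))
          (T (PT Λ sp ((c1, c2, μ, W) : Om n K q G l1 l2) (x + F)))) =
          rhoI T Q sp (II Λ μ F) (pos Λ c1 c2 x) (pos Λ c1 c2 (x + F)) := by
        intro x
        exact avg_pair hG Λ sp c1 c2 μ x F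
      simp only [h3, ite_mul, one_mul, zero_mul]
      rw [Finset.sum_ite_eq]
      simp
    simp only [h2]
    rw [avg_sum]
    apply Finset.sum_le_sum
    intro I _
    rw [avg_mul_right]
    apply mul_le_mul_of_nonneg_right (prob_II hq Λ F m1 (hS F hF) I)
    exact Finset.sum_nonneg fun x _ => rhoI_nonneg hQ sp I _ _
  have h4 : ∀ (c1 : Fin n × Fin K → Fin l1) (c2 : Fin n × Fin K → Fin l2),
      ∑ F ∈ S, ∑ I : Finset (Fin (n + 1)), s ^ #I *
          ∑ x, rhoI T Q sp I (pos Λ c1 c2 x) (pos Λ c1 c2 (x + F)) ≤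
      ∑ I : Finset (Fin (n + 1)), s ^ #I * Psi T Q sp I := by
    intro c1 c2
    rw [Finset.sum_comm]
    apply Finset.sum_le_sum
    intro I _
    rw [← Finset.mul_sum]
    apply mul_le_mul_of_nonneg_left _ (by positivity)
    calc ∑ F ∈ S, ∑ x, rhoI T Q sp I (pos Λ c1 c2 x) (pos Λ c1 c2 (x + F)) ≤
        ∑ F, ∑ x, rhoI T Q sp I (pos Λ c1 c2 x) (pos Λ c1 c2 (x + F)) :=
          Finset.sum_le_sum_of_subset_of_nonneg (Finset.subset_univ S) (fun F _ _ =>
            Finset.sum_nonneg fun x _ => rhoI_nonneg hQ sp I _ _)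
      _ = ∑ x, ∑ F, rhoI T Q sp I (pos Λ c1 c2 x) (pos Λ c1 c2 (x + F)) := Finset.sum_comm
      _ = ∑ x, ∑ x', rhoI T Q sp I (pos Λ c1 c2 x) (pos Λ c1 c2 x') := by
          apply Finset.sum_congr rfl
          intro x _
          exact Equiv.sum_comp (Equiv.addLeft x)
            (fun x' => rhoI T Q sp I (pos Λ c1 c2 x) (pos Λ c1 c2 x'))
      _ = ∑ P, ∑ P', rhoI T Q sp I P P' := by
          have hb := pos_bijective Λ c1 c2
          rw [hb.sum_comp (fun P => ∑ x', rhoI T Q sp I P (pos Λ c1 c2 x'))]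
          apply Finset.sum_congr rfl
          intro P _
          exact hb.sum_comp (fun P' => rhoI T Q sp I P P')
      _ = Psi T Q sp I := rfl
  calc _ ≤ ∑ F ∈ S, avg fun c1 : Fin n × Fin K → Fin l1 =>
        avg fun c2 : Fin n × Fin K → Fin l2 =>
        ∑ I : Finset (Fin (n + 1)), s ^ #I *
          ∑ x, rhoI T Q sp I (pos Λ c1 c2 x) (pos Λ c1 c2 (x + F)) := Finset.sum_le_sum h1
    _ = avg fun c1 : Fin n × Fin K → Fin l1 =>
        avg fun c2 : Fin n × Fin K → Fin l2 => ∑ F ∈ S,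
        ∑ I : Finset (Fin (n + 1)), s ^ #I *
          ∑ x, rhoI T Q sp I (pos Λ c1 c2 x) (pos Λ c1 c2 (x + F)) := by
        rw [← avg_sum]
        apply avg_congr
        intro c1
        rw [← avg_sum]
    _ ≤ ∑ I : Finset (Fin (n + 1)), s ^ #I * Psi T Q sp I :=
        avg_le_of_le fun c1 => avg_le_of_le fun c2 => h4 c1 c2
    _ ≤ _ := by
        rw [← Finset.add_sum_erase _ _ (Finset.mem_univ (∅ : Finset (Fin (n + 1))))]
        have e1 := Psi_empty_le (T := T) hG hQ hε sp hmem hbal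
        have e2 : ∑ I ∈ (univ : Finset (Finset (Fin (n + 1)))).erase ∅,
            s ^ #I * Psi T Q sp I ≤
            ∑ I ∈ (univ : Finset (Finset (Fin (n + 1)))).erase ∅,
              (1 + ε) * 2 ^ n * (2 * s) ^ #I := by
          apply Finset.sum_le_sum
          intro I _
          have := Psi_le hG hT hQ hε sp hmem hbal I
          calc _ ≤ s ^ #I * ((1 + ε) * 2 ^ n * 2 ^ #I) := by gcongr
            _ = _ := by rw [mul_pow]; ring
        have e3 : ∑ I ∈ (univ : Finset (Finset (Fin (n + 1)))).erase ∅, (2 * s) ^ #I =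
            (1 + 2 * s) ^ (n + 1) - 1 := by
          rw [← sum_pow_card (n := n) (2 * s),
            ← Finset.add_sum_erase _ _ (Finset.mem_univ (∅ : Finset (Fin (n + 1))))]
          simp
        rw [← Finset.mul_sum, e3] at e2
        simp only [Finset.card_empty, pow_zero, one_mul]
        linarith

end

end Pool.Agent.Helper38.Stretch
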