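import Pool.Agent.Helper38.Stretch.Chords
import Pool.Agent.Helper38.Stretch.Entropy

/-! Transfer of the entropy inequality from down-closed sets to the cells of a monotone map. -/

namespace Pool.Agent.Helper38.Stretch

open Finset

noncomputable section

variable {N M : ℕ} {T : (Fin N → Fin M) → (Fin N → Bool)}

/-- coordinates of `u` relative to the corner `y` -/
def ry (y : Fin N → Bool) (u : Fin N → Fin M) : Fin N → ℕ :=
  fun i => if y i then M - (u i : ℕ) else (u i : ℕ) + 1

lemma ry_inj (y : Fin N → Bool) : Function.Injective (ry (M := M) y) := by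
  intro u v h
  funext i
  have hi := congrFun h i
  have h1 := (u i).2
  have h2 := (v i).2
  apply Fin.ext
  unfold ry at hi
  split_ifs at hi <;> omega

lemma ry_update (y : Fin N → Bool) (u : Fin N → Fin M) (j : Fin N) (b : Fin M) :
    ry y (Function.update u j b) =
      Function.update (ry y u) j (if y j then M - (b : ℕ) else (b : ℕ) + 1) := by
  funext i
  by_cases hij : i = j
  · subst hij; simp [ry]
  · simp [ry, Function.update_of_ne hij]

/-- the cell of `y` in coordinates relative to `y` -/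
def cellr (T : (Fin N → Fin M) → (Fin N → Bool)) (y : Fin N → Bool) : Finset (Fin N → ℕ) :=
  ({u | T u = y} : Finset (Fin N → Fin M)).image (ry y)

lemma mem_cellr (y : Fin N → Bool) (u : Fin N → Fin M) : ry y u ∈ cellr T y ↔ T u = y := by
  unfold cellr
  constructor
  · intro h
    rw [Finset.mem_image] at h
    obtain ⟨v, hv, hvu⟩ := h
    rw [← ry_inj y hvu]
    simpa using hv
  · intro h
    exact Finset.mem_image_of_mem _ (by simpa using h)

lemma exists_ry (y : Fin N → Bool) (r : Fin N → ℕ) (hr : ∀ i, 1 ≤ r i ∧ r i ≤ M) :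
    ∃ u : Fin N → Fin M, ry y u = r := by
  refine ⟨fun i => if y i then ⟨M - r i, by have := hr i; omega⟩
    else ⟨r i - 1, by have := hr i; omega⟩, ?_⟩
  funext i
  have := hr i
  unfold ry
  rcases hy : y i with _ | _ <;> simp [hy] <;> omega

lemma ry_bounds (y : Fin N → Bool) (u : Fin N → Fin M) (i : Fin N) :
    1 ≤ ry y u i ∧ ry y u i ≤ M := by
  have := (u i).2
  unfold ry
  split_ifs <;> omega

lemma cellr_bounds (y : Fin N → Bool) : ∀ r ∈ cellr T y, ∀ i, 1 ≤ r i ∧ r i ≤ M := by
  intro r hr i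
  unfold cellr at hr
  rw [Finset.mem_image] at hr
  obtain ⟨u, _, rfl⟩ := hr
  exact ry_bounds y u i

lemma Mono.cellr_down (hT : Mono T) (y : Fin N → Bool) : ∀ r ∈ cellr T y, ∀ r' : Fin N → ℕ,
    (∀ i, 1 ≤ r' i ∧ r' i ≤ r i) → r' ∈ cellr T y := by
  intro r hr r' hr'
  have hb := cellr_bounds y r hr
  obtain ⟨u', rfl⟩ := exists_ry (M := M) y r' (fun i => ⟨(hr' i).1, (hr' i).2.trans (hb i).2⟩)
  unfold cellr at hr
  rw [Finset.mem_image] at hr
  obtain ⟨u, hu, rfl⟩ := hr
  simp only [Finset.mem_filter, Finset.mem_univ, true_and] at hu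
  rw [mem_cellr]
  by_contra hne
  have h := hT u' u (by rw [hu]; exact hne)
  have hle : ∑ i, (bz (T u' i) - bz (T u i)) * (((u' i : ℕ) : ℤ) - ((u i : ℕ) : ℤ)) ≤ 0 := by
    apply Finset.sum_nonpos
    intro i _
    have h1 := (hr' i).2
    have h2 := (u i).2
    have h3 := (u' i).2
    unfold ry at h1
    rw [hu]
    rcases hy : y i with _ | _ <;> rcases hy' : T u' i with _ | _ <;>
      simp only [hy, bz_true, bz_false, if_true, if_false, Bool.false_eq_true] at h1 ⊢ <;>
      first
        | (have h4 : (u i : ℕ) ≤ (u' i : ℕ) := by omega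
           zify at h4
           nlinarith [h4])
        | (have h4 : (u' i : ℕ) ≤ (u i : ℕ) := by omega
           zify at h4
           nlinarith [h4])
  linarith

lemma Lc_eq_chord (u : Fin N → Fin M) (j : Fin N) :
    Lc M (cellr T (T u)) j (ry (T u) u) = chord T j u := by
  unfold Lc chord
  symm
  apply Finset.card_bij (fun (b : Fin M) _ => if T u j then M - (b : ℕ) else (b : ℕ) + 1)
  · intro b hb
    simp only [Finset.mem_filter, Finset.mem_univ, true_and] at hb
    rw [Finset.mem_filter, ← ry_update, mem_cellr]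
    refine ⟨?_, hb⟩
    have := b.2
    rw [Finset.mem_Icc]
    split_ifs <;> omega
  · intro b _ c _ h
    have h1 := b.2
    have h2 := c.2
    apply Fin.ext
    split_ifs at h <;> omega
  · intro a ha
    rw [Finset.mem_filter, Finset.mem_Icc] at ha
    obtain ⟨⟨h1, h2⟩, h3⟩ := ha
    obtain ⟨b, hb⟩ : ∃ b : Fin M, (if T u j then M - (b : ℕ) else (b : ℕ) + 1) = a := by
      rcases hy : T u j with _ | _
      · exact ⟨⟨a - 1, by omega⟩, by simp; omega⟩
      · exact ⟨⟨M - a, by omega⟩, by simp; omega⟩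
    refine ⟨b, ?_, hb⟩
    rw [← hb, ← ry_update, mem_cellr] at h3
    simpa using h3

lemma sum_cellr (f : (Fin N → Bool) → (Fin N → ℕ) → ℝ) :
    ∑ u, f (T u) (ry (T u) u) = ∑ y, ∑ r ∈ cellr T y, f y r := by
  rw [← Finset.sum_fiberwise (univ : Finset (Fin N → Fin M)) T]
  apply Finset.sum_congr rfl
  intro y _
  unfold cellr
  rw [Finset.sum_image (fun a _ b _ h => ry_inj y h)]
  apply Finset.sum_congr rfl
  intro u hu
  simp only [Finset.mem_filter, Finset.mem_univ, true_and] at hu
  rw [hu]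

lemma card_cellr (y : Fin N → Bool) : #(cellr T y) = #{u | T u = y} := by
  unfold cellr
  rw [Finset.card_image_of_injective _ (ry_inj y)]

theorem transfer (hT : Mono T) (hM : 0 < M) :
    ∃ τ : Fin N → (Fin N → Fin M) → ℕ,
      (∀ j u a, T (Function.update u j a) = T u → τ j (Function.update u j a) = τ j u) ∧
      (∑ u, ∑ j, (Real.log (chord T j u) + |(chord T j u : ℝ) - τ j u| / (2 * M)) ≤
        ∑ u, Real.log (#{v | T v = T u})) ∧
      (∀ x : ℝ, 0 ≤ x → x ≤ M / 8 →
        ∑ u, (2 : ℝ) ^ (#{j | |(rr T j u : ℝ) - τ j u| ≤ x ∧ (M : ℝ) / 4 ≤ τ j u}) ≤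
          (M : ℝ) ^ N * (1 + 8 * (2 * x + 1) / M) ^ N) := by
  have h := fun y => entropy_cell M hM N (cellr T y) (cellr_bounds y) (hT.cellr_down y)
  choose τ hτ1 hτ2 hτ3 using h
  refine ⟨fun j u => τ (T u) j (ry (T u) u), ?_, ?_, ?_⟩
  · intro j u a hu
    simp only
    rw [hu, ry_update, hτ1]
  · have e1 : ∑ u, ∑ j, (Real.log (chord T j u) +
        |(chord T j u : ℝ) - τ (T u) j (ry (T u) u)| / (2 * M)) =
        ∑ y, ∑ r ∈ cellr T y, ∑ j, (Real.log (Lc M (cellr T y) j r) +
          |(Lc M (cellr T y) j r : ℝ) - τ y j r| / (2 * M)) := by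
      rw [← sum_cellr (T := T) (fun y r => ∑ j, (Real.log (Lc M (cellr T y) j r) +
          |(Lc M (cellr T y) j r : ℝ) - τ y j r| / (2 * M)))]
      apply Finset.sum_congr rfl
      intro u _
      apply Finset.sum_congr rfl
      intro j _
      rw [Lc_eq_chord]
    have e2 : ∑ u, Real.log (#{v | T v = T u}) =
        ∑ y, ∑ r ∈ cellr T y, Real.log (#(cellr T y)) := by
      rw [← sum_cellr (T := T) (fun y r => Real.log (#(cellr T y)))]
      apply Finset.sum_congr rfl
      intro u _
      rw [card_cellr]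
    rw [e1, e2]
    apply Finset.sum_le_sum
    intro y _
    rw [Finset.sum_const, nsmul_eq_mul]
    exact hτ2 y
  · intro x hx0 hxM
    have e1 : ∑ u, (2 : ℝ) ^ (#{j | |(rr T j u : ℝ) - τ (T u) j (ry (T u) u)| ≤ x ∧
        (M : ℝ) / 4 ≤ τ (T u) j (ry (T u) u)}) =
        ∑ y, ∑ r ∈ cellr T y, (2 : ℝ) ^ (#{j | |(r j : ℝ) - τ y j r| ≤ x ∧
          (M : ℝ) / 4 ≤ τ y j r}) := by
      rw [← sum_cellr (T := T) (fun y r => (2 : ℝ) ^ (#{j | |(r j : ℝ) - τ y j r| ≤ x ∧
          (M : ℝ) / 4 ≤ τ y j r}))]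
      rfl
    rw [e1]
    calc _ ≤ ∑ y, (#(cellr T y) : ℝ) * (1 + 8 * (2 * x + 1) / M) ^ N :=
          Finset.sum_le_sum fun y _ => hτ3 y x hx0 hxM
      _ = (∑ y, (#(cellr T y) : ℝ)) * (1 + 8 * (2 * x + 1) / M) ^ N := by
          rw [Finset.sum_mul]
      _ = _ := by
          congr 1
          have : ∑ y, #(cellr T y) = M ^ N := by
            simp only [card_cellr]
            have h1 := Finset.card_eq_sum_card_fiberwise (f := T)
              (s := (univ : Finset (Fin N → Fin M))) (t := univ) (by simp)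
            rw [← h1]
            simp
          exact_mod_cast this

end

end Pool.Agent.Helper38.Stretch
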